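import Mathlib

/-!
# LOT-OrbitB: invariant functions and orbit sums

PLAN. Let `r` be the number of orbits of `β` (as a permutation `Equiv.ofBijective β hβ`; orbits = classes of
`Equiv.Perm.SameCycle`, or the quotient by `x ~ y ↔ ∃ n, β^[n] x = y`). The sum of `W` over the orbit of `c` is
`∑ n ∈ range (minimalPeriod β c), W (β^[n] c)` (`n ↦ β^[n] c` is a bijection from `range (minimalPeriod β c)` to the
orbit, which is finite; `Function.minimalPeriod` lemmas), so `2 r ≤ ∑ c, W c` (`Finset.sum_fiberwise`-like over the
quotient). A `β`-invariant function is determined by its values on representatives of the orbits: injective linear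
map `S → (orbits → ZMod 2)`, so `finrank S ≤ r`.
-/

namespace Pool.Agent.LOT

open Finset

/-- finite combinatorics: few invariant functions if all orbit sums are large -/
theorem orbit_bound {X : Type} [Fintype X] (β : X → X) (hβ : Function.Bijective β) (W : X → ℚ)
    (hW : ∀ c, 2 ≤ ∑ n ∈ range (Function.minimalPeriod β c), W (β^[n] c))
    (S : Submodule (ZMod 2) (X → ZMod 2)) (hS : ∀ q ∈ S, ∀ c, q (β c) = q c) :
    2 * (Module.finrank (ZMod 2) S : ℚ) ≤ ∑ c, W c := by
  classical
  let e : Equiv.Perm X := Equiv.ofBijective β hβ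
  have hpow : ∀ (n : ℕ) (x : X), (e ^ n) x = β^[n] x := by
    intro n x
    rw [Equiv.Perm.coe_pow]
    rfl
  letI st : Setoid X := Equiv.Perm.SameCycle.setoid e
  letI : Fintype (Quotient st) := Fintype.ofFinite _
  -- orbits
  have hper : ∀ c : X, 0 < Function.minimalPeriod β c := fun c =>
    Function.minimalPeriod_pos_of_mem_periodicPts (hβ.1.mem_periodicPts c)
  have hfib : ∀ j : Quotient st,
      Finset.univ.filter (fun x : X => (Quotient.mk st x) = j) =
        (range (Function.minimalPeriod β j.out)).image (fun n => β^[n] j.out) := by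
    intro j
    ext x
    rw [Finset.mem_filter, Finset.mem_image]
    constructor
    · rintro ⟨-, hx⟩
      have h1 : Quotient.mk st j.out = Quotient.mk st x := by rw [hx]; exact Quotient.out_eq j
      have h2 : e.SameCycle j.out x := Quotient.exact h1
      obtain ⟨n, hn⟩ := h2.exists_nat_pow_eq
      refine ⟨n % Function.minimalPeriod β j.out, Finset.mem_range.2 (Nat.mod_lt _ (hper _)), ?_⟩
      rw [Function.iterate_mod_minimalPeriod_eq, ← hpow]
      exact hn
    · rintro ⟨n, -, rfl⟩
      refine ⟨Finset.mem_univ _, ?_⟩
      have h2 : e.SameCycle (β^[n] j.out) j.out := by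
        rw [← hpow, Equiv.Perm.sameCycle_pow_left]
      exact (Quotient.sound h2 : Quotient.mk st (β^[n] j.out) = Quotient.mk st j.out).trans
        (Quotient.out_eq j)
  have hsum : ∑ c, W c = ∑ j : Quotient st, ∑ n ∈ range (Function.minimalPeriod β j.out),
      W (β^[n] j.out) := by
    rw [← Finset.sum_fiberwise Finset.univ (fun x : X => Quotient.mk st x) W]
    refine Finset.sum_congr rfl fun j _ => ?_
    rw [hfib j, Finset.sum_image]
    intro n hn m hm hnm
    exact Function.iterate_injOn_Iio_minimalPeriod (Finset.mem_range.1 hn)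
      (Finset.mem_range.1 hm) hnm
  have hcard : 2 * (Fintype.card (Quotient st) : ℚ) ≤ ∑ c, W c := by
    rw [hsum]
    calc 2 * (Fintype.card (Quotient st) : ℚ) = ∑ _j : Quotient st, (2 : ℚ) := by
          rw [Finset.sum_const, Finset.card_univ, nsmul_eq_mul, mul_comm]
      _ ≤ _ := Finset.sum_le_sum fun j _ => hW j.out
  -- invariant functions
  have hinv : ∀ q ∈ S, ∀ (n : ℕ) (c : X), q (β^[n] c) = q c := by
    intro q hq n
    induction n with
    | zero => intro c; rfl
    | succ n ih =>
      intro c
      rw [Function.iterate_succ_apply, ih, hS q hq]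
  let f : S →ₗ[ZMod 2] (Quotient st → ZMod 2) :=
    (LinearMap.funLeft (ZMod 2) (ZMod 2) (Quotient.out : Quotient st → X)).comp S.subtype
  have hf : Function.Injective f := by
    rw [injective_iff_map_eq_zero]
    intro q hq
    apply Subtype.ext
    funext x
    have h1 : (q : X → ZMod 2) (Quotient.mk st x).out = 0 := congrFun hq (Quotient.mk st x)
    have h2 : e.SameCycle (Quotient.mk st x).out x :=
      Quotient.exact (Quotient.out_eq (Quotient.mk st x))
    obtain ⟨n, hn⟩ := h2.exists_nat_pow_eq
    rw [hpow] at hn
    change (q : X → ZMod 2) x = 0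
    rw [← hn, hinv _ q.2, h1]
  have hle : Module.finrank (ZMod 2) S ≤ Fintype.card (Quotient st) := by
    have h1 := LinearMap.finrank_le_finrank_of_injective hf
    rwa [Module.finrank_fintype_fun_eq_card] at h1
  have hle' : (Module.finrank (ZMod 2) S : ℚ) ≤ Fintype.card (Quotient st) := by
    exact_mod_cast hle
  linarith

end Pool.Agent.LOT
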