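import Pool.Agent.LOT.OrbitA
import Pool.Agent.LOT.OrbitB

/-!
# LOT-Orbit: a diagram has a vertex of weight less than 2
-/

namespace Pool.Agent.LOT

open Finset

section
variable {V E : Type} {G : Type} [Group G]

theorem exists_small {Γ : LOG V E} {gen : V → G} {ι : Type} [Fintype ι] [Nonempty ι]
    (D : Diag Γ gen ι) (W : ι × Fin 4 → ℚ) (hW : ∀ j, ∑ k, W (j, k) = 2) :
    ∃ c, ∑ n ∈ range (Function.minimalPeriod D.beta c), W (D.beta^[n] c) < 2 := by
  by_contra hcon
  push Not at hcon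
  obtain ⟨S, hS, hfr⟩ := card_inv D
  have h1 := orbit_bound D.beta (beta_bij D) W hcon S hS
  have h2 : ∑ c, W c = 2 * (Fintype.card ι : ℚ) := by
    rw [Fintype.sum_prod_type]
    simp [hW, Finset.sum_const, mul_comm]
  rw [h2] at h1
  have h3 : ((Fintype.card ι + 1 : ℕ) : ℚ) ≤ (Module.finrank (ZMod 2) S : ℚ) := by
    exact_mod_cast hfr
  push_cast at h3
  linarith

end

end Pool.Agent.LOT
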