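import Mathlib

/-!
# LOT-Chain: first return involution

`X` finite, `μ`, `τ` involutions, `Z` a subset whose complement is `τ`-stable. Following
`x, μ x, τ μ x, μ τ μ x, ...` until the first return to `Z` gives an involution `ν` of `Z`.

PLAN. `κ x := μ (if Z x then x else τ x)` is a bijection of the finite type `X`; for `x ∈ Z` some power
`κ^[n] x`, `n ≥ 1`, lies in `Z`; `ν x := κ^[n x] x`, `n x` minimal (`Nat.find`); outside `Z` put `ν x = x`.
If `x₀ = x ∈ Z`, `x_j = κ^[j] x`, `x_1, .., x_{n-1} ∉ Z`, `x_n = ν x ∈ Z`, then `κ^[j] x_n = τ x_{n-j}` for `1 ≤ j < n`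
and `κ^[n] x_n = x_0`; so `ν (ν x) = x`.
Closure property: induction along the chain (`x_1 = μ x`, `x_{j+1} = μ (τ x_j)`).
Extension: `ψ x := φ (κ^[m x] x)` where `m x` is minimal `≥ 0` with `κ^[m] x ∈ Z`, and `ψ x = 0` if there is none. `ψ`
is `κ`-invariant since `φ (ν z) = φ z`. For `x ∉ Z` with `m = m x`, `z' = κ^[m] x ∈ Z` one has
`κ^[j] z' = τ (κ^[m-j] x)` for `1 ≤ j ≤ m`, so `τ x` lies on the chain of `z'` before the return and
`κ^[m (τ x)] (τ x) = ν z'`; if no `m` exists for `x` then none exists for `τ x` (apply this to `τ x`). Finally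
`μ x = κ x` for `x ∈ Z` and `μ x = κ (τ x)` for `x ∉ Z`.
-/

namespace Pool.Agent.LOT

theorem chain {X : Type} [Fintype X] (Z : X → Prop) (μ τ : X → X) (hμ : ∀ x, μ (μ x) = x)
    (hτ : ∀ x, τ (τ x) = x) (hτZ : ∀ x, ¬ Z x → ¬ Z (τ x)) :
    ∃ ν : X → X, (∀ x, Z x → Z (ν x)) ∧ (∀ x, ν (ν x) = x) ∧
      (∀ R : X → X → Prop, (∀ x, Z x → R x (μ x)) →
        (∀ x y, Z x → ¬ Z y → R x y → R x (μ (τ y))) → ∀ x, Z x → R x (ν x)) ∧
      (∀ φ : X → ZMod 2, (∀ x, Z x → φ (ν x) = φ x) →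
        ∃ ψ : X → ZMod 2, (∀ x, Z x → ψ x = φ x) ∧ (∀ x, ψ (μ x) = ψ x) ∧
          (∀ x, ¬ Z x → ψ (τ x) = ψ x)) := by
  classical
  -- the involution `σ` is the identity on `Z` and `τ` outside
  obtain ⟨σ, hσZ, hστ⟩ : ∃ σ : X → X, (∀ x, Z x → σ x = x) ∧ (∀ x, ¬ Z x → σ x = τ x) :=
    ⟨fun x => if Z x then x else τ x, fun x hx => by simp [hx], fun x hx => by simp [hx]⟩
  have hσ : ∀ x, σ (σ x) = x := by
    intro x
    by_cases hx : Z x
    · rw [hσZ x hx, hσZ x hx]
    · rw [hστ x hx, hστ _ (hτZ x hx), hτ]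
  have hσiff : ∀ x, Z (σ x) ↔ Z x := by
    intro x
    by_cases hx : Z x
    · rw [hσZ x hx]
    · rw [hστ x hx]
      exact ⟨fun h => absurd h (hτZ x hx), fun h => absurd h hx⟩
  let μp : Equiv.Perm X := Function.Involutive.toPerm μ hμ
  let σp : Equiv.Perm X := Function.Involutive.toPerm σ hσ
  have hμp : ∀ x, μp x = μ x := fun x => rfl
  have hσp : ∀ x, σp x = σ x := fun x => rfl
  have hσσ : σp * σp = 1 := by
    ext x; simp [Equiv.Perm.mul_apply, hσp, hσ]
  have hμμ : μp * μp = 1 := by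
    ext x; simp [Equiv.Perm.mul_apply, hμp, hμ]
  have hσinv : σp⁻¹ = σp := inv_eq_of_mul_eq_one_right hσσ
  have hμinv : μp⁻¹ = μp := inv_eq_of_mul_eq_one_right hμμ
  let κ : Equiv.Perm X := μp * σp
  have hκ : ∀ x, κ x = μ (σ x) := fun x => rfl
  have hconj : σp * κ * σp⁻¹ = κ⁻¹ := by
    show σp * (μp * σp) * σp⁻¹ = (μp * σp)⁻¹
    rw [mul_inv_rev, hμinv, hσinv, mul_assoc, mul_assoc, hσσ, mul_one]
  have hconjz : ∀ (j : ℤ) (x : X), σ ((κ ^ j) x) = (κ ^ (-j)) (σ x) := by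
    intro j x
    have h1 : σp * κ ^ j * σp⁻¹ = κ ^ (-j) := by
      rw [← conj_zpow, hconj, inv_zpow, zpow_neg]
    have h2 : (σp * κ ^ j * σp⁻¹) (σ x) = (κ ^ (-j)) (σ x) := by rw [h1]
    rw [hσinv] at h2
    have h3 : (σp * κ ^ j * σp) (σ x) = σ ((κ ^ j) (σ (σ x))) := rfl
    rw [h3, hσ] at h2
    exact h2
  have hadd : ∀ (i j : ℤ) (x : X), (κ ^ i) ((κ ^ j) x) = (κ ^ (i + j)) x := by
    intro i j x
    rw [← Equiv.Perm.mul_apply, ← zpow_add]
  -- return
  have hex : ∀ x, ∃ n : ℕ, 1 ≤ n ∧ (Z x → Z ((κ ^ (n : ℤ)) x)) := by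
    intro x
    refine ⟨orderOf κ, orderOf_pos κ, ?_⟩
    intro hx
    rw [zpow_natCast, pow_orderOf_eq_one]
    exact hx
  let N : X → ℕ := fun x => Nat.find (hex x)
  have hN1 : ∀ x, 1 ≤ N x := fun x => (Nat.find_spec (hex x)).1
  have hNZ : ∀ x, Z x → Z ((κ ^ (N x : ℤ)) x) := fun x => (Nat.find_spec (hex x)).2
  have hNmin : ∀ x, Z x → ∀ j : ℕ, 1 ≤ j → j < N x → ¬ Z ((κ ^ (j : ℤ)) x) := by
    intro x _ j hj1 hj2 hz
    exact Nat.find_min (hex x) hj2 ⟨hj1, fun _ => hz⟩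
  have hNle : ∀ x, Z x → ∀ j : ℕ, 1 ≤ j → Z ((κ ^ (j : ℤ)) x) → N x ≤ j := by
    intro x _ j hj1 hz
    exact Nat.find_min' (hex x) ⟨hj1, fun _ => hz⟩
  let ν : X → X := fun x => if Z x then (κ ^ (N x : ℤ)) x else x
  have hν : ∀ x, Z x → ν x = (κ ^ (N x : ℤ)) x := fun x hx => by simp [ν, hx]
  have hν' : ∀ x, ¬ Z x → ν x = x := fun x hx => by simp [ν, hx]
  -- the square of a return
  have hsq : ∀ (j : ℤ) (x : X), Z x → Z ((κ ^ j) x) → (κ ^ (-j)) x = (κ ^ j) x := by
    intro j x hx hj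
    have h1 := hconjz j x
    rw [hσZ _ hj, hσZ _ hx] at h1
    exact h1.symm
  have hνν : ∀ x, Z x → N (ν x) = N x ∧ ν (ν x) = x := by
    intro x hx
    have hz : Z (ν x) := by rw [hν x hx]; exact hNZ x hx
    have h2 : (κ ^ (N x : ℤ)) (ν x) = x := by
      rw [hν x hx, ← hsq (N x : ℤ) x hx (hNZ x hx), hadd]
      simp
    have hNN : N (ν x) = N x := by
      apply le_antisymm
      · exact hNle _ hz _ (hN1 x) (by rw [h2]; exact hx)
      · by_contra hlt
        push Not at hlt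
        have hj := hN1 (ν x)
        have hj2 := hNZ (ν x) hz
        have h3 : (κ ^ (N (ν x) : ℤ)) (ν x) = σ ((κ ^ ((N x : ℤ) - (N (ν x) : ℤ))) x) := by
          rw [hν x hx, ← hsq (N x : ℤ) x hx (hNZ x hx), hadd, hconjz, hσZ x hx]
          congr 2
          ring
        rw [h3, hσiff] at hj2
        have h4 : (N x : ℤ) - (N (ν x) : ℤ) = ((N x - N (ν x) : ℕ) : ℤ) := by
          rw [Nat.cast_sub hlt.le]
        rw [h4] at hj2
        exact hNmin x hx _ (by omega) (by omega) hj2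
    refine ⟨hNN, ?_⟩
    rw [hν (ν x) hz, hNN, h2]
  refine ⟨ν, ?_, ?_, ?_, ?_⟩
  · intro x hx
    rw [hν x hx]
    exact hNZ x hx
  · intro x
    by_cases hx : Z x
    · exact (hνν x hx).2
    · rw [hν' x hx, hν' x hx]
  · intro R h1 h2 x hx
    have key : ∀ j : ℕ, 1 ≤ j → j ≤ N x → R x ((κ ^ (j : ℤ)) x) := by
      intro j
      induction j with
      | zero => intro h; omega
      | succ j ih =>
        intro _ hj
        have hstep : (κ ^ ((j + 1 : ℕ) : ℤ)) x = κ ((κ ^ (j : ℤ)) x) := by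
          have := hadd 1 (j : ℤ) x
          rw [zpow_one] at this
          rw [this]
          congr 2
          push_cast
          ring
        rw [hstep, hκ]
        rcases Nat.eq_zero_or_pos j with rfl | hj0
        · simp only [Nat.cast_zero, zpow_zero, Equiv.Perm.coe_one, id_eq]
          rw [hσZ x hx]
          exact h1 x hx
        · have hnz := hNmin x hx j hj0 (by omega)
          rw [hστ _ hnz]
          exact h2 x _ hx hnz (ih hj0 (by omega))
    rw [hν x hx]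
    exact key _ (hN1 x) le_rfl
  · intro φ hφ
    have hnat : ∀ m : ℕ, ∀ z, Z z → Z ((κ ^ (m : ℤ)) z) → φ ((κ ^ (m : ℤ)) z) = φ z := by
      intro m
      induction m using Nat.strong_induction_on with
      | _ m ih =>
        intro z hz hm
        rcases Nat.eq_zero_or_pos m with rfl | hm0
        · simp
        · have hle := hNle z hz m hm0 hm
          have hzν : Z (ν z) := by rw [hν z hz]; exact hNZ z hz
          have h3 : (κ ^ (m : ℤ)) z = (κ ^ ((m - N z : ℕ) : ℤ)) (ν z) := by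
            rw [hν z hz, hadd, Nat.cast_sub hle]
            congr 2
            ring
          have hN := hN1 z
          rw [h3]
          rw [h3] at hm
          rw [ih (m - N z) (by omega) (ν z) hzν hm, hφ z hz]
    have hint : ∀ i : ℤ, ∀ z, Z z → Z ((κ ^ i) z) → φ ((κ ^ i) z) = φ z := by
      intro i z hz hi
      rcases Int.eq_nat_or_neg i with ⟨m, rfl | rfl⟩
      · exact hnat m z hz hi
      · have h3 : (κ ^ (m : ℤ)) ((κ ^ (-(m : ℤ))) z) = z := by
          rw [hadd]; simp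
        have := hnat m _ hi (by rw [h3]; exact hz)
        rw [h3] at this
        exact this.symm
    let ψ : X → ZMod 2 := fun x => if h : ∃ j : ℤ, Z ((κ ^ j) x) then φ ((κ ^ h.choose) x) else 0
    have hψ : ∀ (x : X) (j : ℤ), Z ((κ ^ j) x) → ψ x = φ ((κ ^ j) x) := by
      intro x j hj
      have h : ∃ j : ℤ, Z ((κ ^ j) x) := ⟨j, hj⟩
      have h1 : ψ x = φ ((κ ^ h.choose) x) := by simp only [ψ]; rw [dif_pos h]
      rw [h1]
      have h2 : (κ ^ h.choose) x = (κ ^ (h.choose - j)) ((κ ^ j) x) := by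
        rw [hadd]; congr 2; ring
      have h3 := h.choose_spec
      rw [h2] at h3 ⊢
      exact hint _ _ hj h3
    have hψ0 : ∀ x : X, (¬ ∃ j : ℤ, Z ((κ ^ j) x)) → ψ x = 0 := by
      intro x h
      simp only [ψ]; rw [dif_neg h]
    have hψκ : ∀ x, ψ (κ x) = ψ x := by
      intro x
      by_cases h : ∃ j : ℤ, Z ((κ ^ j) x)
      · obtain ⟨j, hj⟩ := h
        have h1 : (κ ^ (j - 1)) (κ x) = (κ ^ j) x := by
          have := hadd (j - 1) 1 x
          rw [zpow_one] at this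
          rw [this]; congr 2; ring
        rw [hψ x j hj, hψ (κ x) (j - 1) (by rw [h1]; exact hj), h1]
      · rw [hψ0 x h, hψ0 (κ x)]
        rintro ⟨j, hj⟩
        apply h
        refine ⟨j + 1, ?_⟩
        have := hadd j 1 x
        rw [zpow_one] at this
        rw [← this]
        exact hj
    have hψσ : ∀ x, ψ (σ x) = ψ x := by
      intro x
      by_cases h : ∃ j : ℤ, Z ((κ ^ j) x)
      · obtain ⟨j, hj⟩ := h
        have h1 := hconjz j x
        rw [hσZ _ hj] at h1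
        rw [hψ x j hj, hψ (σ x) (-j) (by rw [← h1]; exact hj), ← h1]
      · rw [hψ0 x h, hψ0 (σ x)]
        rintro ⟨j, hj⟩
        apply h
        refine ⟨-j, ?_⟩
        have h1 := hconjz (-j) x
        rw [neg_neg] at h1
        rw [← h1, hσiff] at hj
        exact hj
    refine ⟨ψ, ?_, ?_, ?_⟩
    · intro x hx
      have := hψ x 0 (by simpa using hx)
      simpa using this
    · intro x
      have h1 : μ x = κ (σ x) := by rw [hκ, hσ]
      rw [h1, hψκ, hψσ]
    · intro x hx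
      rw [← hστ x hx, hψσ]

end Pool.Agent.LOT
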