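import Pool.Agent.LOT.Defs
import Pool.Agent.LOT.Chain

/-!
# LOT-Reduce: cancelling a pair of mirror squares

PLAN. Let `x = (i, k)`, `D.μ x = (j, k)`, `D.e j = D.e i`. By `lab`, `s j ≠ s i` (`inv a ≠ a`), so `j ≠ i`, `s j = !s i`.
By `pos`, `g j = g i` (`sc (!s) k = ec s k`). New index type `ι' = {a : ι // a ≠ i ∧ a ≠ j}`.
`X = ι × Fin 4`, `Z y := y.1 ≠ i ∧ y.1 ≠ j`, `τ (i, m) = (j, m)`, `τ (j, m) = (i, m)`, `τ = id` elsewhere; `chain` gives
`ν`, and `D'.μ` is `ν` on `Z`. Relation `R y z :=`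
 `sgnl (s z.1) (side z) = inv (sgnl (s y.1) (side y)) ∧ st z = en y ∧ en z = st y` with
 `st y = g y.1 * pt (e y.1) (sc (s y.1) y.2)`, `en y = g y.1 * pt (e y.1) (ec (s y.1) y.2)`: it holds for `(y, μ y)`
 (`lab`, `pos`, `invol`) and `τ` exchanges `st` and `en` and inverts the letter. This gives `lab`, `pos` of `D'`.
`coh` of `D'`: given `φ'` on `ι' × Fin 4`, extend by `0` to `φ` on `X`, then `chain` gives `ψ` on `X`, invariant under
 `μ` and under `τ` off `Z`. Let `c := ∑ m ≠ k, ψ (i, m)` and change `ψ` at the two points `(i, k)`, `(j, k)` to the value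
 `c`: the set `{(i, k), (j, k)}` is stable under `μ` and `τ`, so invariance is preserved, and now the face sums at
 `i` and `j` vanish (characteristic 2, `ψ (j, m) = ψ (i, m)`); the other face sums are those of `φ'`. `D.coh` gives `q`;
 restrict it to `ι'`. Put `S y = q (y.1, sc (s y.1) y.2)`, `T y = q (y.1, ec (s y.1) y.2)`; `S (μ y) = T y`,
 hence `T (μ y) = S y`. Claim `q (i, κ) = q (j, κ)` for all `κ`: true for `κ = ec (s i) k` since
 `sc (s j) k = ec (s i) k`, and then going around the square, because `q (i, m) + q (i, m + 1) = ψ (i, m) = ψ (j, m)`.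
 So `τ` exchanges `S` and `T`, and the closure property of `chain` with `R y z := S z = T y ∧ T z = S y` gives the second
 property of `coh` for `D'`.
`cls`: the two summands at `i` and `j` cancel (`g i = g j`, `e i = e j`, opposite signs).
-/

namespace Pool.Agent.LOT

open Finset

section
variable {V E : Type} {G : Type} [Group G]

private theorem inv_inv' (a : V × Bool) : inv (inv a) = a := by
  obtain ⟨v, b⟩ := a
  cases b <;> rfl

private theorem inv_ne (a : V × Bool) : inv a ≠ a := by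
  obtain ⟨v, b⟩ := a
  intro h
  have h1 := (Prod.ext_iff.1 h).2
  cases b <;> simp [inv] at h1

private theorem sgnl_not (s : Bool) (a : V × Bool) : sgnl (!s) a = inv (sgnl s a) := by
  cases s
  · exact (inv_inv' a).symm
  · rfl

private theorem sc_not (s : Bool) (k : Fin 4) : sc (!s) k = ec s k := by
  cases s <;> rfl

private theorem ec_not (s : Bool) (k : Fin 4) : ec (!s) k = sc s k := by
  cases s <;> rfl

private theorem red_sign {s s' : Bool} {a : V × Bool} (h : sgnl s' a = inv (sgnl s a)) :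
    s' = !s := by
  cases s <;> cases s'
  · exact absurd h.symm (inv_ne _)
  · rfl
  · rfl
  · exact absurd h.symm (inv_ne _)

private theorem red_cyc {ι : Type} {i j : ι} {q : ι × Fin 4 → ZMod 2}
    (hstep : ∀ m, q (i, m) = q (j, m) → q (i, m + 1) = q (j, m + 1)) {κ0 : Fin 4}
    (h0 : q (i, κ0) = q (j, κ0)) (κ : Fin 4) : q (i, κ) = q (j, κ) := by
  have h1 := hstep _ h0
  have h2 := hstep _ h1
  have h3 := hstep _ h2
  have h4 : ∀ κ κ0 : Fin 4, κ = κ0 ∨ κ = κ0 + 1 ∨ κ = κ0 + 1 + 1 ∨ κ = κ0 + 1 + 1 + 1 := by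
    decide
  replace h4 := h4 κ κ0
  rcases h4 with h | h | h | h
  · rw [h, h0]
  · rw [h, h1]
  · rw [h, h2]
  · rw [h, h3]

theorem reduce [DecidableEq E] {Γ : LOG V E} {gen : V → G} {ι : Type} [Fintype ι]
    (D : Diag Γ gen ι) (x : ι × Fin 4) (he : D.e (D.μ x).1 = D.e x.1) (hk : (D.μ x).2 = x.2) :
    ∃ (ι' : Type) (_ : Fintype ι'), Fintype.card ι' < Fintype.card ι ∧
      ∃ D' : Diag Γ gen ι', D'.cls = D.cls := by
  classical
  obtain ⟨i, k⟩ := x
  obtain ⟨j, hj⟩ : ∃ j, j = (D.μ (i, k)).1 := ⟨_, rfl⟩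
  have hμx : D.μ (i, k) = (j, k) := by
    rw [hj]
    exact Prod.ext rfl hk
  have hej : D.e j = D.e i := by
    rw [hj]
    exact he
  have hlab := D.lab (i, k)
  rw [hμx] at hlab
  simp only at hlab
  rw [hej] at hlab
  have hs : D.s j = !D.s i := red_sign hlab
  have hij : j ≠ i := by
    intro h
    rw [h] at hs
    cases h1 : D.s i <;> simp [h1] at hs
  have hpos := D.pos (i, k)
  rw [hμx] at hpos
  simp only at hpos
  rw [hej, hs, sc_not] at hpos
  have hg : D.g j = D.g i := mul_right_cancel hpos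
  obtain ⟨Z, hZ⟩ : ∃ Z : ι × Fin 4 → Prop, Z = fun y => y.1 ≠ i ∧ y.1 ≠ j := ⟨_, rfl⟩
  obtain ⟨τ, hτ⟩ : ∃ τ : ι × Fin 4 → ι × Fin 4, τ = fun y => (Equiv.swap i j y.1, y.2) := ⟨_, rfl⟩
  have hττ : ∀ y, τ (τ y) = y := by
    intro y
    rw [hτ]
    simp
  have hτi : ∀ m, τ (i, m) = (j, m) := by
    intro m
    rw [hτ]
    simp
  have hτj : ∀ m, τ (j, m) = (i, m) := by
    intro m
    rw [hτ]
    simp
  have hnZ : ∀ y, ¬ Z y → (∃ m, y = (i, m)) ∨ ∃ m, y = (j, m) := by
    rintro ⟨a, m⟩ h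
    rw [hZ] at h
    simp only [not_and_or, not_not] at h
    rcases h with h | h
    · exact Or.inl ⟨m, by rw [h]⟩
    · exact Or.inr ⟨m, by rw [h]⟩
  have hZi : ∀ m, ¬ Z (i, m) := by
    intro m h
    rw [hZ] at h
    exact h.1 rfl
  have hZj : ∀ m, ¬ Z (j, m) := by
    intro m h
    rw [hZ] at h
    exact h.2 rfl
  have hτZ : ∀ y, ¬ Z y → ¬ Z (τ y) := by
    intro y hy
    rcases hnZ y hy with ⟨m, rfl⟩ | ⟨m, rfl⟩
    · rw [hτi]
      exact hZj m
    · rw [hτj]
      exact hZi m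
  obtain ⟨ν, hν1, hν2, hν3, hν4⟩ := chain Z D.μ τ D.invol hττ hτZ
  -- letters and end points
  obtain ⟨L, hL⟩ : ∃ L : ι × Fin 4 → V × Bool,
    L = fun y => sgnl (D.s y.1) (Γ.side (D.e y.1) y.2) := ⟨_, rfl⟩
  obtain ⟨st, hst⟩ : ∃ st : ι × Fin 4 → G,
    st = fun y => D.g y.1 * pt Γ gen (D.e y.1) (sc (D.s y.1) y.2) := ⟨_, rfl⟩
  obtain ⟨en, hen⟩ : ∃ en : ι × Fin 4 → G,
    en = fun y => D.g y.1 * pt Γ gen (D.e y.1) (ec (D.s y.1) y.2) := ⟨_, rfl⟩
  have hLμ : ∀ y, L (D.μ y) = inv (L y) := by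
    intro y
    rw [hL]
    exact D.lab y
  have hstμ : ∀ y, st (D.μ y) = en y := by
    intro y
    rw [hst, hen]
    exact D.pos y
  have henμ : ∀ y, en (D.μ y) = st y := by
    intro y
    rw [← hstμ, D.invol]
  have hLτ : ∀ y, ¬ Z y → L (τ y) = inv (L y) := by
    intro y hy
    rcases hnZ y hy with ⟨m, rfl⟩ | ⟨m, rfl⟩
    · rw [hτi, hL]
      simp only
      rw [hej, hs, sgnl_not]
    · rw [hτj, hL]
      simp only
      rw [hej, hs, sgnl_not, inv_inv']
  have hstτ : ∀ y, ¬ Z y → st (τ y) = en y := by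
    intro y hy
    rcases hnZ y hy with ⟨m, rfl⟩ | ⟨m, rfl⟩
    · rw [hτi, hst, hen]
      simp only
      rw [hej, hs, hg, sc_not]
    · rw [hτj, hst, hen]
      simp only
      rw [hej, hs, hg, ec_not]
  have henτ : ∀ y, ¬ Z y → en (τ y) = st y := by
    intro y hy
    rw [← hstτ (τ y) (hτZ y hy), hττ]
  have hR : ∀ y, Z y → L (ν y) = inv (L y) ∧ st (ν y) = en y ∧ en (ν y) = st y := by
    refine hν3 (fun y z => L z = inv (L y) ∧ st z = en y ∧ en z = st y) ?_ ?_
    · intro y _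
      exact ⟨hLμ y, hstμ y, henμ y⟩
    · rintro y z _ hz ⟨h1, h2, h3⟩
      refine ⟨?_, ?_, ?_⟩
      · rw [hLμ, hLτ z hz, inv_inv', h1]
      · rw [hstμ, henτ z hz, h2]
      · rw [henμ, hstτ z hz, h3]
  have hνZ : ∀ y : {a : ι // a ≠ i ∧ a ≠ j} × Fin 4,
      (ν (y.1.1, y.2)).1 ≠ i ∧ (ν (y.1.1, y.2)).1 ≠ j := by
    intro y
    have h1 : Z (y.1.1, y.2) := by
      rw [hZ]
      exact y.1.2
    have h2 := hν1 _ h1
    rw [hZ] at h2
    exact h2
  have hZsub : ∀ y : {a : ι // a ≠ i ∧ a ≠ j} × Fin 4, Z (y.1.1, y.2) := by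
    intro y
    rw [hZ]
    exact y.1.2
  refine ⟨{a : ι // a ≠ i ∧ a ≠ j}, inferInstance, ?_, ?_⟩
  · exact Fintype.card_subtype_lt (x := i) (fun h => h.1 rfl)
  refine ⟨{ e := fun a => D.e a.1
            s := fun a => D.s a.1
            g := fun a => D.g a.1
            μ := fun y => (⟨(ν (y.1.1, y.2)).1, hνZ y⟩, (ν (y.1.1, y.2)).2)
            invol := ?_
            lab := ?_
            pos := ?_
            coh := ?_ }, ?_⟩
  · intro y
    have h1 := hν2 (y.1.1, y.2)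
    refine Prod.ext (Subtype.ext ?_) ?_
    · exact (Prod.ext_iff.1 h1).1
    · exact (Prod.ext_iff.1 h1).2
  · intro y
    have h1 := (hR _ (hZsub y)).1
    rw [hL] at h1
    exact h1
  · intro y
    have h1 := (hR _ (hZsub y)).2.1
    rw [hst, hen] at h1
    exact h1
  · intro φ' hφμ hφs
    obtain ⟨φ, hφ⟩ : ∃ φ : ι × Fin 4 → ZMod 2, φ = fun y =>
      if h : y.1 ≠ i ∧ y.1 ≠ j then φ' (⟨y.1, h⟩, y.2) else 0 := ⟨_, rfl⟩
    have hφ1 : ∀ y : {a : ι // a ≠ i ∧ a ≠ j} × Fin 4, φ (y.1.1, y.2) = φ' y := by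
      intro y
      rw [hφ]
      simp only
      rw [dif_pos y.1.2]
    have hφν : ∀ y, Z y → φ (ν y) = φ y := by
      intro y hy
      have hy' : y.1 ≠ i ∧ y.1 ≠ j := by
        rw [hZ] at hy
        exact hy
      have h1 := hφμ (⟨y.1, hy'⟩, y.2)
      rw [← hφ1, ← hφ1] at h1
      exact h1
    obtain ⟨ψ, hψ1, hψ2, hψ3⟩ := hν4 φ hφν
    have hψij : ∀ m, ψ (j, m) = ψ (i, m) := by
      intro m
      rw [← hτi m]
      exact hψ3 _ (hZi m)
    have hμx' : D.μ (j, k) = (i, k) := by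
      rw [← hμx, D.invol]
    obtain ⟨c, hc⟩ : ∃ c : ZMod 2, c = ∑ m ∈ univ.erase k, ψ (i, m) := ⟨_, rfl⟩
    obtain ⟨ψ', hψ'⟩ : ∃ ψ' : ι × Fin 4 → ZMod 2, ψ' = fun y =>
      if y = (i, k) ∨ y = (j, k) then c else ψ y := ⟨_, rfl⟩
    have hψik : ψ' (i, k) = c := by
      rw [hψ']
      simp
    have hψjk : ψ' (j, k) = c := by
      rw [hψ']
      simp
    have hψin : ∀ m, m ≠ k → ψ' (i, m) = ψ (i, m) := by
      intro m hm
      rw [hψ']
      simp only
      rw [if_neg]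
      rintro (h | h)
      · exact hm (Prod.ext_iff.1 h).2
      · exact hm (Prod.ext_iff.1 h).2
    have hψjn : ∀ m, m ≠ k → ψ' (j, m) = ψ (i, m) := by
      intro m hm
      rw [hψ']
      simp only
      rw [if_neg]
      · exact hψij m
      rintro (h | h)
      · exact hm (Prod.ext_iff.1 h).2
      · exact hm (Prod.ext_iff.1 h).2
    have hψo : ∀ y : {a : ι // a ≠ i ∧ a ≠ j} × Fin 4, ψ' (y.1.1, y.2) = φ' y := by
      intro y
      rw [hψ']
      simp only
      rw [if_neg, hψ1 _ (hZsub y), hφ1]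
      rintro (h | h)
      · exact y.1.2.1 (Prod.ext_iff.1 h).1
      · exact y.1.2.2 (Prod.ext_iff.1 h).1
    have hψμ : ∀ y, ψ' (D.μ y) = ψ' y := by
      intro y
      by_cases h1 : y = (i, k)
      · rw [h1, hμx, hψjk, hψik]
      by_cases h2 : y = (j, k)
      · rw [h2, hμx', hψjk, hψik]
      have h3 : D.μ y ≠ (i, k) := by
        intro h
        apply h2
        rw [← D.invol y, h, hμx]
      have h4 : D.μ y ≠ (j, k) := by
        intro h
        apply h1
        rw [← D.invol y, h, hμx']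
      rw [hψ']
      simp only
      rw [if_neg (by rintro (h | h); exacts [h3 h, h4 h]),
        if_neg (by rintro (h | h); exacts [h1 h, h2 h]), hψ2]
    have hψs : ∀ a, ∑ m, ψ' (a, m) = 0 := by
      intro a
      by_cases h1 : a = i
      · rw [h1, ← Finset.add_sum_erase univ (fun m => ψ' (i, m)) (mem_univ k), hψik, hc,
          Finset.sum_congr rfl (fun m hm => hψin m (Finset.ne_of_mem_erase hm))]
        exact CharTwo.add_self_eq_zero _
      by_cases h2 : a = j
      · rw [h2, ← Finset.add_sum_erase univ (fun m => ψ' (j, m)) (mem_univ k), hψjk, hc,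
          Finset.sum_congr rfl (fun m hm => hψjn m (Finset.ne_of_mem_erase hm))]
        exact CharTwo.add_self_eq_zero _
      have h3 := hφs ⟨a, h1, h2⟩
      rw [← h3]
      exact Finset.sum_congr rfl (fun m _ => hψo (⟨a, h1, h2⟩, m))
    obtain ⟨q, hq1, hq2⟩ := D.coh ψ' hψμ hψs
    -- q agrees on both squares
    have hstep : ∀ m, q (i, m) = q (j, m) → q (i, m + 1) = q (j, m + 1) := by
      intro m hm
      have h1 := hq1 i m
      have h2 := hq1 j m
      have h3 : ψ' (i, m) = ψ' (j, m) := by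
        by_cases hmk : m = k
        · rw [hmk, hψik, hψjk]
        · rw [hψin m hmk, hψjn m hmk]
      rw [← h1, ← h2, hm] at h3
      exact add_left_cancel h3
    have hκ0 : q (i, ec (D.s i) k) = q (j, ec (D.s i) k) := by
      have h1 := hq2 (i, k)
      rw [hμx] at h1
      simp only at h1
      rw [hs, sc_not] at h1
      exact h1.symm
    have hall : ∀ κ, q (i, κ) = q (j, κ) := red_cyc hstep hκ0
    obtain ⟨S, hS⟩ : ∃ S : ι × Fin 4 → ZMod 2, S = fun y => q (y.1, sc (D.s y.1) y.2) := ⟨_, rfl⟩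
    obtain ⟨T, hT⟩ : ∃ T : ι × Fin 4 → ZMod 2, T = fun y => q (y.1, ec (D.s y.1) y.2) := ⟨_, rfl⟩
    have hSμ : ∀ y, S (D.μ y) = T y := by
      intro y
      rw [hS, hT]
      exact hq2 y
    have hTμ : ∀ y, T (D.μ y) = S y := by
      intro y
      rw [← hSμ, D.invol]
    have hSτ : ∀ y, ¬ Z y → S (τ y) = T y := by
      intro y hy
      rcases hnZ y hy with ⟨m, rfl⟩ | ⟨m, rfl⟩
      · rw [hτi, hS, hT]
        simp only
        rw [hs, sc_not, hall]
      · rw [hτj, hS, hT]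
        simp only
        rw [hs, ec_not, hall]
    have hTτ : ∀ y, ¬ Z y → T (τ y) = S y := by
      intro y hy
      rw [← hSτ (τ y) (hτZ y hy), hττ]
    have hR2 : ∀ y, Z y → S (ν y) = T y ∧ T (ν y) = S y := by
      refine hν3 (fun y z => S z = T y ∧ T z = S y) ?_ ?_
      · intro y _
        exact ⟨hSμ y, hTμ y⟩
      · rintro y z _ hz ⟨h1, h2⟩
        exact ⟨by rw [hSμ, hTτ z hz, h1], by rw [hTμ, hSτ z hz, h2]⟩
    refine ⟨fun y => q (y.1.1, y.2), ?_, ?_⟩
    · intro a m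
      rw [← hψo (a, m)]
      exact hq1 a.1 m
    · intro y
      have h1 := (hR2 _ (hZsub y)).1
      rw [hS, hT] at h1
      exact h1
  · funext f
    unfold Diag.cls
    simp only
    obtain ⟨F, hF⟩ : ∃ F : ι → MonoidAlgebra ℤ G, F = fun a =>
      if D.e a = f then MonoidAlgebra.single (D.g a) (if D.s a then 1 else -1) else 0 := ⟨_, rfl⟩
    have h1 : ∑ a : {a : ι // a ≠ i ∧ a ≠ j}, F a.1 = ∑ a ∈ (univ.erase i).erase j, F a := by
      symm
      apply Finset.sum_subtype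
      intro a
      simp only [mem_erase, mem_univ, and_true]
      exact and_comm
    have h2 : F i + F j = 0 := by
      rw [hF]
      simp only
      rw [hej, hg, hs]
      by_cases h : D.e i = f
      · rw [if_pos h, if_pos h]
        cases D.s i <;> simp
      · rw [if_neg h, if_neg h, add_zero]
    have h3 : ∑ a, F a = ∑ a ∈ (univ.erase i).erase j, F a := by
      rw [← Finset.add_sum_erase univ F (mem_univ i),
        ← Finset.add_sum_erase (univ.erase i) F (mem_erase.2 ⟨hij, mem_univ j⟩), ← add_assoc, h2,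
        zero_add]
    rw [hF] at h1 h3
    rw [h3]
    exact h1

end

end Pool.Agent.LOT
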