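import Pool.Agent.LOT.Lolli
import Pool.Agent.LOT.Chain

/-!
# LOT-SeqDiag: an identity sequence gives a diagram

PLAN. `X := {x : Tok // x ∈ toks h}` (a `Fintype`), `Z x := ∃ k, x.1.2 = Sum.inr k`,
`τ (j, inl (a, b)) = (j, inl (a, !b))`, `τ (j, inr k) = (j, inr k)` (`mem_toks`), `μ` = the matching of
`exists_matching (tokl Γ d h) (toks h) (toks_nodup h)` (`toks_map`; `d` any letter, e.g. of the first square; if
`h = []` the diagram is empty). `chain` gives `ν`; `D.μ (j, k)` is read off from `ν (j, inr k)`.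

For a group `H` and `f : Tok → H` with `f (M x) = (f x)⁻¹` on `toks h` and `LolHyp h f` put
`st x = pre f (toks h) x`, `en x = st x * f x`. Then `st (M x) = en x`, hence `en (M x) = st x`; for a stick token
`st (τ x) = en x`, `en (τ x) = st x` (`pre_stick`). The relation `R x y := st y = en x ∧ en y = st x ∧
tokl y = inv (tokl x)` satisfies the two closure hypotheses of `chain`, so `st (ν x) = en x`, etc.

* `H = G`, `f x = ` value of the letter `tokl x` in `G`: `st (j, inr k) = g_j * pt (sc s k)` by `pre_side`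
  (cases on `s`, `k`, using `hrel`), `en (j, inr k) = g_j * pt (ec s k)`; gives `pos`. `lab` from the third part of `R`.
* `coh`: given `φ`, extend to `ψ` on `X` by the extension property of `chain`, `H = Multiplicative (ZMod 2)`,
  `f x = ofAdd (ψ x)` for `x ∈ toks h`, `1` otherwise; `LolHyp` holds because `ψ` is `τ`-invariant and the face sums
  vanish (characteristic 2: inverse = identity); `q (j, κ) := P_j κ` of `side_pot`.
* `cls`: `Finset.sum` over `Fin h.length` against `List.sum` of the map (`List.sum_ofFn`, `List.ofFn_getElem`-like).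
-/

namespace Pool.Agent.LOT

open Finset

namespace SeqDiag

/-- value of a letter -/
private def lv {V G : Type} [Group G] (gen : V → G) (a : V × Bool) : G :=
  if a.2 then gen a.1 else (gen a.1)⁻¹

private theorem lv_inv {V G : Type} [Group G] (gen : V → G) (a : V × Bool) :
    lv gen (inv a) = (lv gen a)⁻¹ := by
  obtain ⟨v, b⟩ := a
  cases b <;> simp [lv, inv]

private theorem inv_inv' {V : Type} (a : V × Bool) : inv (inv a) = a := by
  obtain ⟨v, b⟩ := a
  simp [inv]

private theorem evw_eq {V G : Type} [Group G] (gen : V → G) (u : List (V × Bool)) :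
    evw gen u = (u.map (lv gen)).prod := by
  unfold evw
  rw [FreeGroup.lift_mk]
  congr 1
  refine List.map_congr_left fun a _ => ?_
  obtain ⟨v, b⟩ := a
  cases b <;> simp [lv]

private theorem range_map_getD {A B : Type} (u : List A) (d : A) (F : A → B) :
    (List.range u.length).map (fun a => F (u.getD a d)) = u.map F := by
  apply List.ext_getElem
  · simp
  · intro n h1 h2
    simp at h1
    simp [h1]

/-- exchange of the two tokens of a letter of the stick -/
private def tau : Tok → Tok
  | (j, Sum.inl (a, b)) => (j, Sum.inl (a, !b))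
  | (j, Sum.inr k) => (j, Sum.inr k)

private theorem tau_tau (x : Tok) : tau (tau x) = x := by
  obtain ⟨j, ⟨a, b⟩ | k⟩ := x <;> simp [tau]

private theorem tau_mem {V E : Type} (h : List (List (V × Bool) × E × Bool)) (x : Tok)
    (hx : x ∈ toks h) : tau x ∈ toks h := by
  rw [mem_toks] at hx ⊢
  obtain ⟨a, h1, h2⟩ := hx
  obtain ⟨j, ⟨b, c⟩ | k⟩ := x
  · refine ⟨a, h1, fun b' c' hbc => ?_⟩
    simp only [tau, Sum.inl.injEq, Prod.mk.injEq] at hbc
    obtain ⟨rfl, -⟩ := hbc
    exact h2 b c rfl
  · refine ⟨a, h1, fun b' c' hbc => ?_⟩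
    simp [tau] at hbc

/-- tokens of sides -/
private def Zt (x : Tok) : Prop := ∃ k : Fin 4, x.2 = Sum.inr k

private theorem tau_Z (x : Tok) (hx : ¬ Zt x) : ¬ Zt (tau x) := by
  obtain ⟨j, ⟨a, b⟩ | k⟩ := x
  · rintro ⟨k, hk⟩
    simp [tau] at hk
  · exact absurd ⟨k, rfl⟩ hx

section
variable {V E : Type}

private theorem tokl_tau (Γ : LOG V E) (d : V × Bool) (h : List (List (V × Bool) × E × Bool))
    (x : Tok) (hx : x ∈ toks h) (hZ : ¬ Zt x) : tokl Γ d h (tau x) = inv (tokl Γ d h x) := by
  rw [mem_toks] at hx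
  obtain ⟨c, h1, h2⟩ := hx
  obtain ⟨j, ⟨a, b⟩ | k⟩ := x
  · simp only at h1
    cases b
    · simp only [tau, tokl, h1, Bool.not_false, inv_inv']
    · simp only [tau, tokl, h1, Bool.not_true]
  · exact absurd ⟨k, rfl⟩ hZ

private theorem tokl_side (Γ : LOG V E) (d : V × Bool) (h : List (List (V × Bool) × E × Bool))
    (j : ℕ) (c : List (V × Bool) × E × Bool) (hj : h[j]? = some c) (k : Fin 4) :
    tokl Γ d h (j, Sum.inr k) = sgnl c.2.2 (Γ.side c.2.1 k) := by
  simp only [tokl, hj]

private theorem st_tau {H : Type} [Group H] (h : List (List (V × Bool) × E × Bool)) (f : Tok → H)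
    (hf : LolHyp h f) (x : Tok) (hx : x ∈ toks h) (hZ : ¬ Zt x) :
    pre f (toks h) (tau x) = pre f (toks h) x * f x ∧
      pre f (toks h) (tau x) * f (tau x) = pre f (toks h) x := by
  rw [mem_toks] at hx
  obtain ⟨c, h1, h2⟩ := hx
  obtain ⟨j, ⟨a, b⟩ | k⟩ := x
  · simp only at h1
    have ha : a < c.1.length := h2 a b rfl
    have e1 := pre_stick h f hf j a c h1 ha
    have e2 := hf.stick j a c h1 ha
    cases b
    · simp only [tau, Bool.not_false]
      rw [e1, e2]
      exact ⟨by group, rfl⟩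
    · simp only [tau, Bool.not_true]
      rw [e1, e2]
      exact ⟨rfl, by group⟩
  · exact absurd ⟨k, rfl⟩ hZ

end

section
variable {V E : Type} {G : Type} [Group G]

private theorem lol_gen {Γ : LOG V E} {gen : V → G}
    (hrel : ∀ e, gen (Γ.i e) * gen (Γ.l e) = gen (Γ.l e) * gen (Γ.t e)) (d : V × Bool)
    (h : List (List (V × Bool) × E × Bool)) : LolHyp h (fun x => lv gen (tokl Γ d h x)) := by
  constructor
  · intro j a c hj _
    simp only [tokl, hj]
    rw [lv_inv]
  · intro j c hj
    simp only [tokl_side Γ d h j c hj]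
    have h1 := hrel c.2.1
    have h2 : gen (Γ.i c.2.1) * gen (Γ.l c.2.1) * (gen (Γ.t c.2.1))⁻¹ * (gen (Γ.l c.2.1))⁻¹ = 1 := by
      rw [h1]; group
    have h3 : gen (Γ.l c.2.1) * gen (Γ.t c.2.1) * (gen (Γ.l c.2.1))⁻¹ * (gen (Γ.i c.2.1))⁻¹ = 1 := by
      rw [← h1]; group
    rcases hs : c.2.2 with _ | _
    · simp [sideOrd, sgnl, LOG.side, lv, inv]
      simpa [mul_assoc] using h3
    · simp [sideOrd, sgnl, LOG.side, lv]
      simpa [mul_assoc] using h2

private theorem st_gen {Γ : LOG V E} {gen : V → G}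
    (hrel : ∀ e, gen (Γ.i e) * gen (Γ.l e) = gen (Γ.l e) * gen (Γ.t e)) (d : V × Bool)
    (h : List (List (V × Bool) × E × Bool)) (j : ℕ) (c : List (V × Bool) × E × Bool)
    (hj : h[j]? = some c) (k : Fin 4) :
    pre (fun x => lv gen (tokl Γ d h x)) (toks h) (j, Sum.inr k)
        = evw gen c.1 * pt Γ gen c.2.1 (sc c.2.2 k) ∧
      pre (fun x => lv gen (tokl Γ d h x)) (toks h) (j, Sum.inr k) *
        lv gen (tokl Γ d h (j, Sum.inr k)) = evw gen c.1 * pt Γ gen c.2.1 (ec c.2.2 k) := by
  have h0 := pre_side h _ (lol_gen hrel d h) j c hj k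
  have e1 : (List.range c.1.length).map (fun a => lv gen (tokl Γ d h (j, Sum.inl (a, true))))
      = c.1.map (lv gen) := by
    have : ∀ a, tokl Γ d h (j, Sum.inl (a, true)) = c.1.getD a d := fun a => by
      simp only [tokl, hj]
    simp only [this]
    exact range_map_getD c.1 d (lv gen)
  rw [e1, ← evw_eq] at h0
  simp only [tokl_side Γ d h j c hj] at h0 ⊢
  rw [h0, mul_assoc]
  have h1 := hrel c.2.1
  have h2 : gen (Γ.i c.2.1) * (gen (Γ.l c.2.1) * (gen (Γ.t c.2.1))⁻¹) = gen (Γ.l c.2.1) := by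
    rw [← mul_assoc, h1]; group
  have h3 : gen (Γ.l c.2.1) * (gen (Γ.t c.2.1) * (gen (Γ.l c.2.1))⁻¹) = gen (Γ.i c.2.1) := by
    rw [← mul_assoc, ← h1]; group
  have h4 : gen (Γ.l c.2.1) * (gen (Γ.t c.2.1) * ((gen (Γ.l c.2.1))⁻¹ * (gen (Γ.i c.2.1))⁻¹)) = 1 := by
    rw [← mul_assoc, ← h1]; group
  have h5 : gen (Γ.i c.2.1) * (gen (Γ.l c.2.1) * ((gen (Γ.t c.2.1))⁻¹ * (gen (Γ.l c.2.1))⁻¹)) = 1 := by
    rw [← mul_assoc, h1]; group
  have hk : k = 0 ∨ k = 1 ∨ k = 2 ∨ k = 3 := by fin_cases k <;> simp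
  rcases hs : c.2.2 with _ | _
  · rcases hk with rfl | rfl | rfl | rfl
    · have tw : (sideOrd false).takeWhile (fun k' => decide (k' ≠ (0 : Fin 4))) = [3, 2, 1] := by
        decide
      rw [tw]
      refine ⟨congrArg _ ?_, congrArg _ ?_⟩
      · simpa [sgnl, LOG.side, lv, inv, sc, pt, mul_assoc] using h3
      · simpa [sgnl, LOG.side, lv, inv, ec, pt, mul_assoc] using h4
    · have tw : (sideOrd false).takeWhile (fun k' => decide (k' ≠ (1 : Fin 4))) = [3, 2] := by
        decide
      rw [tw]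
      refine ⟨congrArg _ ?_, congrArg _ ?_⟩
      · simpa [sgnl, LOG.side, lv, inv, sc, pt, mul_assoc] using h1.symm
      · simpa [sgnl, LOG.side, lv, inv, ec, pt, mul_assoc] using h3
    · have tw : (sideOrd false).takeWhile (fun k' => decide (k' ≠ (2 : Fin 4))) = [3] := by
        decide
      rw [tw]
      refine ⟨congrArg _ ?_, congrArg _ ?_⟩
      · simp [sgnl, LOG.side, lv, inv, sc, pt]
      · simpa [sgnl, LOG.side, lv, inv, ec, pt] using h1.symm
    · have tw : (sideOrd false).takeWhile (fun k' => decide (k' ≠ (3 : Fin 4))) = [] := by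
        decide
      rw [tw]
      refine ⟨congrArg _ ?_, congrArg _ ?_⟩
      · simp [sc, pt]
      · simp [sgnl, LOG.side, lv, inv, ec, pt]
  · rcases hk with rfl | rfl | rfl | rfl
    · have tw : (sideOrd true).takeWhile (fun k' => decide (k' ≠ (0 : Fin 4))) = [] := by
        decide
      rw [tw]
      refine ⟨congrArg _ ?_, congrArg _ ?_⟩
      · simp [sc, pt]
      · simp [sgnl, LOG.side, lv, ec, pt]
    · have tw : (sideOrd true).takeWhile (fun k' => decide (k' ≠ (1 : Fin 4))) = [0] := by
        decide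
      rw [tw]
      refine ⟨congrArg _ ?_, congrArg _ ?_⟩
      · simp [sgnl, LOG.side, lv, sc, pt]
      · simp [sgnl, LOG.side, lv, ec, pt]
    · have tw : (sideOrd true).takeWhile (fun k' => decide (k' ≠ (2 : Fin 4))) = [0, 1] := by
        decide
      rw [tw]
      refine ⟨congrArg _ ?_, congrArg _ ?_⟩
      · simp [sgnl, LOG.side, lv, sc, pt]
      · simpa [sgnl, LOG.side, lv, ec, pt, mul_assoc] using h2
    · have tw : (sideOrd true).takeWhile (fun k' => decide (k' ≠ (3 : Fin 4))) = [0, 1, 2] := by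
        decide
      rw [tw]
      refine ⟨congrArg _ ?_, congrArg _ ?_⟩
      · simpa [sgnl, LOG.side, lv, sc, pt, mul_assoc] using h2
      · simpa [sgnl, LOG.side, lv, ec, pt, mul_assoc] using h5

end

section
variable {V E : Type}

private theorem exists_nu (Γ : LOG V E) (d : V × Bool) (h : List (List (V × Bool) × E × Bool))
    (h1 : FreeGroup.mk (h.flatMap Γ.lolw) = 1) :
    ∃ (M : Tok → Tok) (ν : {x : Tok // x ∈ toks h} → {x : Tok // x ∈ toks h}),
      (∀ x ∈ toks h, M x ∈ toks h ∧ tokl Γ d h (M x) = inv (tokl Γ d h x)) ∧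
      (∀ x, Zt x.1 → Zt (ν x).1) ∧ (∀ x, ν (ν x) = x) ∧
      (∀ x, Zt x.1 → tokl Γ d h (ν x).1 = inv (tokl Γ d h x.1)) ∧
      (∀ (H : Type) [Group H] (f : Tok → H), LolHyp h f → (∀ x ∈ toks h, f (M x) = (f x)⁻¹) →
        ∀ x : {x : Tok // x ∈ toks h}, Zt x.1 →
          pre f (toks h) (ν x).1 = pre f (toks h) x.1 * f x.1) ∧
      (∀ φ : {x : Tok // x ∈ toks h} → ZMod 2, (∀ x, Zt x.1 → φ (ν x) = φ x) →
        ∃ ψ : Tok → ZMod 2, (∀ x : {x : Tok // x ∈ toks h}, Zt x.1 → ψ x.1 = φ x) ∧
          (∀ x ∈ toks h, ψ (M x) = ψ x) ∧ (∀ x ∈ toks h, ¬ Zt x → ψ (tau x) = ψ x)) := by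
  classical
  obtain ⟨M, hM1, hM2, hM3⟩ := exists_matching (tokl Γ d h) (toks h) (toks_nodup h)
    (by rw [toks_map]; exact h1)
  obtain ⟨ν, n1, n2, n3, n4⟩ := chain (X := {x : Tok // x ∈ toks h}) (fun x => Zt x.1)
    (fun x => ⟨M x.1, (hM2 x.1 x.2).1⟩) (fun x => ⟨tau x.1, tau_mem h x.1 x.2⟩)
    (fun x => Subtype.ext (hM1 x.1)) (fun x => Subtype.ext (tau_tau x.1))
    (fun x hx => tau_Z x.1 hx)
  refine ⟨M, ν, hM2, n1, n2, ?_, ?_, ?_⟩
  · refine n3 (fun x y => tokl Γ d h y.1 = inv (tokl Γ d h x.1)) ?_ ?_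
    · intro x _
      exact (hM2 x.1 x.2).2
    · intro x y _ hy hR
      have e1 := (hM2 (tau y.1) (tau_mem h y.1 y.2)).2
      have e2 := tokl_tau Γ d h y.1 y.2 hy
      simp only at hR ⊢
      rw [e1, e2, inv_inv', hR]
  · intro H _ f hf hfM
    have m1 : ∀ x ∈ toks h, pre f (toks h) (M x) = pre f (toks h) x * f x := hM3 H f hfM
    have m2 : ∀ x ∈ toks h, pre f (toks h) (M x) * f (M x) = pre f (toks h) x := by
      intro x hx
      rw [m1 x hx, hfM x hx]
      group
    have key := n3 (fun x y => pre f (toks h) y.1 = pre f (toks h) x.1 * f x.1 ∧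
      pre f (toks h) y.1 * f y.1 = pre f (toks h) x.1) ?_ ?_
    · intro x hx
      exact (key x hx).1
    · intro x _
      exact ⟨m1 x.1 x.2, m2 x.1 x.2⟩
    · intro x y _ hy hR
      simp only at hR ⊢
      have ht := tau_mem h y.1 y.2
      obtain ⟨t1, t2⟩ := st_tau h f hf y.1 y.2 hy
      refine ⟨?_, ?_⟩
      · rw [m1 _ ht, t2, hR.1]
      · rw [m2 _ ht, t1, hR.2]
  · intro φ hφ
    obtain ⟨ψ, p1, p2, p3⟩ := n4 φ hφ
    refine ⟨fun x => if hx : x ∈ toks h then ψ ⟨x, hx⟩ else 0, ?_, ?_, ?_⟩
    · intro x hx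
      simp only [dif_pos x.2]
      exact p1 x hx
    · intro x hx
      simp only [dif_pos hx, dif_pos (hM2 x hx).1]
      exact p2 ⟨x, hx⟩
    · intro x hx hZ
      simp only [dif_pos hx, dif_pos (tau_mem h x hx)]
      exact p3 ⟨x, hx⟩ hZ

end

section
variable {V E : Type} {G : Type} [Group G]

private theorem z2_neg (a : ZMod 2) : -a = a := by
  revert a; decide

private theorem prod_ofAdd (l : List (Fin 4)) (F : Fin 4 → ZMod 2) :
    (l.map (fun k => Multiplicative.ofAdd (F k))).prod = Multiplicative.ofAdd ((l.map F).sum) := by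
  induction l with
  | nil => rfl
  | cons a l ih => rw [List.map_cons, List.prod_cons, ih, List.map_cons, List.sum_cons, ofAdd_add]

theorem diag_of_seq_ne [DecidableEq E] {Γ : LOG V E} {gen : V → G}
    (hrel : ∀ e, gen (Γ.i e) * gen (Γ.l e) = gen (Γ.l e) * gen (Γ.t e)) (d : V × Bool)
    (h : List (List (V × Bool) × E × Bool)) (h1 : FreeGroup.mk (h.flatMap Γ.lolw) = 1) :
    ∃ D : Diag Γ gen (Fin h.length), D.cls = seqCls gen h := by
  obtain ⟨M, ν, hM, n1, n2, n3, n4, n5⟩ := exists_nu Γ d h h1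
  have hget : ∀ j : Fin h.length, h[(j : ℕ)]? = some h[j] := fun j => by simp
  have hmem : ∀ y : Fin h.length × Fin 4, (((y.1 : ℕ), Sum.inr y.2) : Tok) ∈ toks h := by
    intro y
    rw [mem_toks]
    exact ⟨h[y.1], hget y.1, fun b c hbc => by simp at hbc⟩
  let em : Fin h.length × Fin 4 → {x : Tok // x ∈ toks h} := fun y =>
    ⟨((y.1 : ℕ), Sum.inr y.2), hmem y⟩
  have hem : ∀ y, (em y).1 = ((y.1 : ℕ), Sum.inr y.2) := fun y => rfl
  have hemZ : ∀ y, Zt (em y).1 := fun y => ⟨y.2, rfl⟩
  have heminj : ∀ y y', em y = em y' → y = y' := by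
    intro y y' hyy
    have e1 := congrArg Subtype.val hyy
    rw [hem, hem, Prod.mk.injEq] at e1
    exact Prod.ext (Fin.ext e1.1) (Sum.inr.inj e1.2)
  have hemsurj : ∀ x : {x : Tok // x ∈ toks h}, Zt x.1 → ∃ y, em y = x := by
    rintro ⟨⟨j, s⟩, hx⟩ ⟨k, hk⟩
    simp only at hk
    subst hk
    have hx' := hx
    rw [mem_toks] at hx'
    obtain ⟨a, ha, -⟩ := hx'
    have hj : j < h.length := by
      obtain ⟨hj, -⟩ := List.getElem?_eq_some_iff.1 ha
      exact hj
    exact ⟨(⟨j, hj⟩, k), rfl⟩
  have hμ : ∀ y, ∃ y', em y' = ν (em y) := fun y => hemsurj _ (n1 _ (hemZ y))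
  choose μ hμ using hμ
  have hinv : ∀ y, μ (μ y) = y := fun y => heminj _ _ (by rw [hμ, hμ, n2])
  have htk : ∀ y : Fin h.length × Fin 4, tokl Γ d h (em y).1
      = sgnl (h[y.1]).2.2 (Γ.side (h[y.1]).2.1 y.2) := fun y =>
    tokl_side Γ d h _ _ (hget y.1) y.2
  let D : Diag Γ gen (Fin h.length) :=
    { e := fun j => (h[j]).2.1
      s := fun j => (h[j]).2.2
      g := fun j => evw gen (h[j]).1
      μ := μ
      invol := hinv
      lab := by
        intro x
        have e1 := n3 (em x) (hemZ x)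
        rw [← hμ, htk, htk] at e1
        exact e1
      pos := by
        intro x
        have e1 := n4 G (fun x => lv gen (tokl Γ d h x)) (lol_gen hrel d h)
          (fun x hx => by rw [(hM x hx).2, lv_inv]) (em x) (hemZ x)
        rw [← hμ, hem, hem] at e1
        rw [(st_gen hrel d h _ _ (hget (μ x).1) (μ x).2).1,
          (st_gen hrel d h _ _ (hget x.1) x.2).2] at e1
        exact e1
      coh := by
        intro φ hφ hs
        have hre : ∀ x : {x : Tok // x ∈ toks h}, Zt x.1 → ∃ y, em y = x := hemsurj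
        classical
        obtain ⟨ψ, p1, p2, p3⟩ := n5
          (fun x => if hx : ∃ y, em y = x then φ hx.choose else 0) (by
            intro x hx
            obtain ⟨y, rfl⟩ := hemsurj x hx
            have q1 : ∃ y', em y' = ν (em y) := ⟨μ y, hμ y⟩
            have q2 : ∃ y', em y' = em y := ⟨y, rfl⟩
            simp only [dif_pos q1, dif_pos q2]
            have r1 : q1.choose = μ y := heminj _ _ (by rw [q1.choose_spec, hμ])
            have r2 : q2.choose = y := heminj _ _ q2.choose_spec
            rw [r1, r2, hφ])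
        have hψ : ∀ y, ψ (em y).1 = φ y := by
          intro y
          rw [p1 (em y) (hemZ y)]
          have q2 : ∃ y', em y' = em y := ⟨y, rfl⟩
          simp only [dif_pos q2]
          rw [heminj _ _ q2.choose_spec]
        have hψ' : ∀ (j : Fin h.length) (k : Fin 4), ψ ((j : ℕ), Sum.inr k) = φ (j, k) :=
          fun j k => hψ (j, k)
        let f : Tok → Multiplicative (ZMod 2) := fun x => Multiplicative.ofAdd (ψ x)
        have fi : ∀ a : ZMod 2, (Multiplicative.ofAdd a)⁻¹ = Multiplicative.ofAdd a := fun a => by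
          rw [← ofAdd_neg, z2_neg]
        have hf : LolHyp h f := by
          constructor
          · intro j a c hj ha
            have hin : ((j, Sum.inl (a, true)) : Tok) ∈ toks h := by
              rw [mem_toks]
              refine ⟨c, hj, fun b c' hbc => ?_⟩
              simp only [Sum.inl.injEq, Prod.mk.injEq] at hbc
              rw [← hbc.1]; exact ha
            have h2 := p3 _ hin (by rintro ⟨k, hk⟩; simp at hk)
            change Multiplicative.ofAdd (ψ (j, Sum.inl (a, false))) =
              (Multiplicative.ofAdd (ψ (j, Sum.inl (a, true))))⁻¹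
            rw [fi, ← h2]
            rfl
          · intro j c hj
            obtain ⟨hjl, hjc⟩ := List.getElem?_eq_some_iff.1 hj
            change ((sideOrd c.2.2).map (fun k => Multiplicative.ofAdd (ψ (j, Sum.inr k)))).prod = 1
            rw [prod_ofAdd]
            have h2 : ∀ k : Fin 4, ψ (j, Sum.inr k) = φ (⟨j, hjl⟩, k) := fun k => hψ' ⟨j, hjl⟩ k
            have h3 := hs ⟨j, hjl⟩
            rw [Fin.sum_univ_four] at h3
            rw [← ofAdd_zero]
            congr 1
            rcases c.2.2 with _ | _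
            · simp only [sideOrd, h2]
              rw [← h3]
              simp
              ring
            · simp only [sideOrd, h2]
              rw [← h3]
              simp
              ring
        have hP := fun j : Fin h.length => side_pot h f hf j h[j] (hget j)
        choose P hP using hP
        have kk : ∀ x, P (μ x).1 (sc (h[(μ x).1]).2.2 (μ x).2) = P x.1 (ec (h[x.1]).2.2 x.2) := by
          intro x
          have e1 := n4 _ f hf (fun z hz => by
            change Multiplicative.ofAdd (ψ (M z)) = (Multiplicative.ofAdd (ψ z))⁻¹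
            rw [fi, p2 z hz]) (em x) (hemZ x)
          rw [← hμ, hem, hem] at e1
          rw [(hP (μ x).1 (μ x).2).1, (hP x.1 x.2).2] at e1
          exact e1
        refine ⟨fun c => Multiplicative.toAdd (P c.1 c.2), ?_, ?_⟩
        · intro j k
          obtain ⟨e1, e2⟩ := hP j k
          rw [e1] at e2
          have e3 := congrArg Multiplicative.toAdd e2
          rw [toAdd_mul] at e3
          change _ + ψ ((j : ℕ), Sum.inr k) = _ at e3
          rw [hψ'] at e3
          simp only
          have z2 : ∀ a b c : ZMod 2, a + b = c → a + c = b := by decide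
          have z2' : ∀ a b c : ZMod 2, a + b = c → c + a = b := by decide
          rcases hs : (h[j]).2.2 with _ | _
          · rw [hs] at e3
            simp only [sc, ec, Bool.false_eq_true, if_false] at e3
            exact z2' _ _ _ e3
          · rw [hs] at e3
            simp only [sc, ec, if_true] at e3
            exact z2 _ _ _ e3
        · intro x
          exact congrArg Multiplicative.toAdd (kk x) }
  refine ⟨D, ?_⟩
  funext f
  change ∑ j : Fin h.length, (if (h[j]).2.1 = f then
    MonoidAlgebra.single (evw gen (h[j]).1) (if (h[j]).2.2 then (1 : ℤ) else -1) else 0) = _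
  unfold seqCls
  rw [← List.sum_ofFn]
  congr 1
  apply List.ext_getElem
  · simp
  · intro n a1 a2
    simp

end

end SeqDiag

section
variable {V E : Type} {G : Type} [Group G]

theorem diag_of_seq [DecidableEq E] {Γ : LOG V E} {gen : V → G}
    (hrel : ∀ e, gen (Γ.i e) * gen (Γ.l e) = gen (Γ.l e) * gen (Γ.t e))
    (h : List (List (V × Bool) × E × Bool)) (h1 : FreeGroup.mk (h.flatMap Γ.lolw) = 1) :
    ∃ D : Diag Γ gen (Fin h.length), D.cls = seqCls gen h := by
  rcases h with _ | ⟨a, h⟩
  · refine ⟨{ e := fun j => j.elim0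
              s := fun j => j.elim0
              g := fun j => j.elim0
              μ := fun x => x.1.elim0
              invol := fun x => x.1.elim0
              lab := fun x => x.1.elim0
              pos := fun x => x.1.elim0
              coh := fun φ _ _ => ⟨fun x => x.1.elim0, fun j => j.elim0, fun x => x.1.elim0⟩ }, ?_⟩
    funext f
    simp [Diag.cls, seqCls]
  · exact SeqDiag.diag_of_seq_ne hrel (Γ.i a.2.1, true) _ h1

end

end Pool.Agent.LOT
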