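import Pool.Agent.LOT.ExSeq
import Pool.Agent.LOT.SeqDiag
import Pool.Agent.LOT.Orbit
import Pool.Agent.LOT.Reduce

/-!
# LOT-WeightTest: Gersten's weight test

PLAN. `cls_zero`: strong induction on `card ι`: every diagram over a LOG with a weight has `cls = 0`. If `ι` is
empty this is clear. If some `x` satisfies `D.e (D.μ x).1 = D.e x.1 ∧ (D.μ x).2 = x.2` use `reduce`. Otherwise
`exists_small` with `W (j, κ) = w (D.e j) κ` gives a corner `c₀`; put `m = minimalPeriod` (positive because `β` is a
bijection of a finite type) and `c n = (D.e j_n, κ_n, D.s j_n)` where `(j_n, κ_n) = β^[n] c₀`. Compatibility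
`Γ.outg (c n) = Γ.ing (c (n + 1))` follows from `lab` (cases on the two signs), backtracking would give a reducible `x`.
So the sum is `≥ 2`, contradiction. `weight_test`: `exists_seq`, `diag_of_seq`, `cls_zero`.
-/

namespace Pool.Agent.LOT

open Finset

section
variable {V E : Type} {G : Type} [Group G]

private theorem inv_inv' (a : V × Bool) : inv (inv a) = a := by
  unfold inv
  simp

private theorem step_compat {Γ : LOG V E} {gen : V → G} {ι : Type} [Fintype ι]
    (D : Diag Γ gen ι) (c : ι × Fin 4) :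
    Γ.outg (D.e c.1, c.2, D.s c.1) =
      Γ.ing (D.e (D.beta c).1, (D.beta c).2, D.s (D.beta c).1) := by
  have h1 : Γ.outg (D.e c.1, c.2, D.s c.1) =
      sgnl (D.s c.1) (Γ.side (D.e c.1) (if D.s c.1 then c.2 else c.2 - 1)) := by
    unfold LOG.outg sgnl
    cases D.s c.1 <;> rfl
  obtain ⟨y, hy⟩ : ∃ y, y = D.μ (c.1, if D.s c.1 then c.2 else c.2 - 1) := ⟨_, rfl⟩
  have hb : D.beta c = (y.1, ec (D.s y.1) y.2) := by
    unfold Diag.beta
    rw [hy]
  have h2 : Γ.ing (D.e (D.beta c).1, (D.beta c).2, D.s (D.beta c).1) =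
      inv (sgnl (D.s y.1) (Γ.side (D.e y.1) y.2)) := by
    rw [hb]
    unfold LOG.ing sgnl ec
    cases hs : D.s y.1
    · simp only [Bool.false_eq_true, if_false]
      rw [inv_inv']
    · simp only [if_true, add_sub_cancel_right]
  have h3 := D.lab (c.1, if D.s c.1 then c.2 else c.2 - 1)
  rw [← hy] at h3
  rw [h1, h2, h3, inv_inv']

private theorem step_nb {Γ : LOG V E} {gen : V → G} {ι : Type} [Fintype ι]
    (D : Diag Γ gen ι) (hx : ∀ x : ι × Fin 4, D.e (D.μ x).1 = D.e x.1 → (D.μ x).2 ≠ x.2)
    (c : ι × Fin 4) :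
    ¬ (D.e c.1 = D.e (D.beta c).1 ∧ c.2 = (D.beta c).2 ∧ D.s c.1 ≠ D.s (D.beta c).1) := by
  rintro ⟨he, hk, hs⟩
  obtain ⟨y, hy⟩ : ∃ y, y = D.μ (c.1, if D.s c.1 then c.2 else c.2 - 1) := ⟨_, rfl⟩
  have hb : D.beta c = (y.1, ec (D.s y.1) y.2) := by
    unfold Diag.beta
    rw [hy]
  rw [hb] at he hk hs
  have h1 := hx (c.1, if D.s c.1 then c.2 else c.2 - 1)
  rw [← hy] at h1
  apply h1 he.symm
  change y.2 = if D.s c.1 then c.2 else c.2 - 1
  simp only at hk hs
  unfold ec at hk
  cases h2 : D.s c.1 <;> cases h3 : D.s y.1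
  · exact absurd (h2.trans h3.symm) hs
  · rw [h3] at hk
    simp only [if_true] at hk
    rw [hk]
    simp
  · rw [h3] at hk
    simp only [Bool.false_eq_true, if_false] at hk
    simp only [if_true]
    exact hk.symm
  · exact absurd (h2.trans h3.symm) hs

theorem cls_zero [DecidableEq E] {Γ : LOG V E} {gen : V → G} {w : E → Fin 4 → ℚ}
    (hw : IsWeight Γ w) (N : ℕ) : ∀ (ι : Type) (_ : Fintype ι), Fintype.card ι ≤ N →
      ∀ D : Diag Γ gen ι, D.cls = 0 := by
  induction N with
  | zero =>
    intro ι _ hc D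
    have hE : IsEmpty ι := Fintype.card_eq_zero_iff.1 (Nat.le_zero.1 hc)
    funext f
    unfold Diag.cls
    rw [Finset.univ_eq_empty, Finset.sum_empty]
    rfl
  | succ N ih =>
    intro ι _ hc D
    rcases isEmpty_or_nonempty ι with hE | hNE
    · funext f
      unfold Diag.cls
      rw [Finset.univ_eq_empty, Finset.sum_empty]
      rfl
    · by_cases hx : ∃ x, D.e (D.μ x).1 = D.e x.1 ∧ (D.μ x).2 = x.2
      · obtain ⟨x, he, hk⟩ := hx
        obtain ⟨ι', hF, hlt, D', hD'⟩ := reduce D x he hk
        rw [← hD']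
        exact ih ι' hF (by omega) D'
      · exfalso
        push Not at hx
        obtain ⟨c₀, hc₀⟩ := exists_small D (fun c => w (D.e c.1) c.2) (fun j => hw.1 (D.e j))
        have hper : Function.IsPeriodicPt D.beta (Function.minimalPeriod D.beta c₀) c₀ :=
          Function.isPeriodicPt_minimalPeriod _ _
        have hm : 0 < Function.minimalPeriod D.beta c₀ :=
          Function.minimalPeriod_pos_of_mem_periodicPts
            ((beta_bij D).injective.mem_periodicPts c₀)
        have h2 := hw.2 (Function.minimalPeriod D.beta c₀)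
          (fun n => (D.e (D.beta^[n] c₀).1, (D.beta^[n] c₀).2, D.s (D.beta^[n] c₀).1)) hm
          (fun n => by
            have h3 : D.beta^[n + Function.minimalPeriod D.beta c₀] c₀ = D.beta^[n] c₀ := by
              rw [Function.iterate_add_apply, hper.eq]
            simp only [h3])
          (fun n => by
            simp only [Function.iterate_succ_apply']
            exact step_compat D (D.beta^[n] c₀))
          (fun n => by
            simp only [Function.iterate_succ_apply']
            exact step_nb D hx (D.beta^[n] c₀))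
        exact absurd hc₀ (not_lt.2 h2)

theorem weight_test [DecidableEq V] [Fintype V] [DecidableEq E] [Fintype E] {Γ : LOG V E} {gen : V → G}
    (hP : IsPres Γ gen) {w : E → Fin 4 → ℚ} (hw : IsWeight Γ w) : Asph Γ gen := by
  intro x hx
  obtain ⟨h, h1, h2⟩ := exists_seq hP x hx
  obtain ⟨D, hD⟩ := diag_of_seq (gen_rel hP) h h1
  rw [← h2, ← hD]
  exact cls_zero hw _ _ _ le_rfl D

end

end Pool.Agent.LOT
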