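import Pool.Agent.LOT.Wt

/-!
# LOT-Long: simple closed walks with at least four steps have weight at least 2

Write `a_n = (c n).1`, `v_n = (aing (c n)).1`; `v_0, .., v_{m-1}` are different, `a_n` has end points `v_n`, `v_{n+1}`
(`v_m := v_0`).

PLAN. `arc_ends`: `{tl a_n, hd a_n} = {v_n, v_{n+1}}` (cases on the direction bit). `n ↦ a_n` is injective on `n < m`
(`m ≥ 3`: the sets `{v_n, v_{n+1}}` are different).
`sub_slack`: for `∅ ≠ S ⊊ {0..m-1}` the arcs `{a_n : n ∈ S}` span at least `|S| + 1` vertices: their vertex set is the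
injective image of `S ∪ (S + 1)` (mod `m`), and `S + 1 ⊆ S` would give `S = everything` (or `S` empty).
The whole cycle is tight. A ring `D` is never contained in the cycle (`|D| ≤ 3 < m`, `D` is tight).
* `m ≤ 5` (`m = 4, 5`): `C = {a_n}` is tight with `|C| ≤ 9`; if some weight is `≠ 1/2`, `wt_ring` gives a ring `D` meeting `C`,
  so `D ⊆ C` (`ring_subset`), contradiction. So the sum is `m / 2 ≥ 2`.
* `m ≥ 6`: `P = {a_0, .., a_5}`, `|P| = 6`, `|vset P| ≤ 7`. Claim: at most two of the six weights are `≠ 1/2`; then the sum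
  is at least `4 / 2` (`wt_nonneg`). If `n < 6` has weight `≠ 1/2` let `D_n ∋ a_n` be its ring; `D_n ⊄ P`, so `P ∩ D_n` is
  a proper nonempty subset of `D_n`, `|vset (P ∩ D_n)| ≥ |P ∩ D_n| + 1`, `|P ∩ D_n| ≤ 2` and by `slack_union`
  `|vset (P ∪ D_n)| ≤ |P ∪ D_n|`. If `D_n ≠ D_k` for two such indices then `D_n ∩ D_k = ∅` (`ring_eq`), and `slack_union` for
  `P ∪ D_n` and `D_k` (`(P ∪ D_n) ∩ D_k = P ∩ D_k`) gives `|vset| < |P ∪ D_n ∪ D_k| ≤ 10`, against `H.sparse`. So all `D_n`
  are equal to one `D` and the bad arcs lie in `P ∩ D`, at most two.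
-/

namespace Pool.Agent.LOT

open Finset

/-- cyclic successor -/
private def nx (m n : ℕ) : ℕ := if n + 1 < m then n + 1 else 0

private theorem nx_lt {m n : ℕ} (hm : 4 ≤ m) : nx m n < m := by
  unfold nx
  split_ifs <;> omega

private theorem closed_all {m : ℕ} {S : Finset ℕ} (hS : S ⊆ range m) (hne : S.Nonempty)
    (hcl : ∀ n ∈ S, nx m n ∈ S) : S = range m := by
  obtain ⟨n, hn⟩ := hne
  have hnm : n < m := mem_range.mp (hS hn)
  have h1 : ∀ j, n + j < m → n + j ∈ S := by
    intro j
    induction j with
    | zero => intro _; exact hn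
    | succ j ih =>
      intro h
      have h2 := hcl _ (ih (by omega))
      unfold nx at h2
      rw [if_pos (by omega)] at h2
      exact h2
  have h0 : 0 ∈ S := by
    have h2 := hcl _ (h1 (m - 1 - n) (by omega))
    unfold nx at h2
    rw [if_neg (by omega)] at h2
    exact h2
  have h3 : ∀ j, j < m → j ∈ S := by
    intro j
    induction j with
    | zero => intro _; exact h0
    | succ j ih =>
      intro h
      have h2 := hcl _ (ih (by omega))
      unfold nx at h2
      rw [if_pos (by omega)] at h2
      exact h2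
  exact Subset.antisymm hS (fun j hj => h3 j (mem_range.mp hj))

section walk
variable {V A : Type} [DecidableEq V] [DecidableEq A] {tl hd : A → V} {m : ℕ} {a : ℕ → A}
  {v : ℕ → V}

private theorem vset_image
    (hends : ∀ n < m, (tl (a n) = v n ∧ hd (a n) = v (nx m n)) ∨
      (hd (a n) = v n ∧ tl (a n) = v (nx m n))) {S : Finset ℕ} (hS : S ⊆ range m) :
    vset tl hd (S.image a) = (S ∪ S.image (nx m)).image v := by
  ext x
  simp only [vset, mem_union, mem_image]
  constructor
  · rintro (⟨_, ⟨n, hn, rfl⟩, rfl⟩ | ⟨_, ⟨n, hn, rfl⟩, rfl⟩)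
    · rcases hends n (mem_range.mp (hS hn)) with h | h
      · exact ⟨n, Or.inl hn, h.1.symm⟩
      · exact ⟨nx m n, Or.inr ⟨n, hn, rfl⟩, h.2.symm⟩
    · rcases hends n (mem_range.mp (hS hn)) with h | h
      · exact ⟨nx m n, Or.inr ⟨n, hn, rfl⟩, h.2.symm⟩
      · exact ⟨n, Or.inl hn, h.1.symm⟩
  · rintro ⟨k, (hk | ⟨n, hn, rfl⟩), rfl⟩
    · rcases hends k (mem_range.mp (hS hk)) with h | h
      · exact Or.inl ⟨a k, ⟨k, hk, rfl⟩, h.1⟩
      · exact Or.inr ⟨a k, ⟨k, hk, rfl⟩, h.1⟩
    · rcases hends n (mem_range.mp (hS hn)) with h | h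
      · exact Or.inr ⟨a n, ⟨n, hn, rfl⟩, h.2⟩
      · exact Or.inl ⟨a n, ⟨n, hn, rfl⟩, h.2⟩

private theorem card_vset_image (hm : 4 ≤ m)
    (hends : ∀ n < m, (tl (a n) = v n ∧ hd (a n) = v (nx m n)) ∨
      (hd (a n) = v n ∧ tl (a n) = v (nx m n)))
    (hv : ∀ n k, n < m → k < m → v n = v k → n = k) {S : Finset ℕ} (hS : S ⊆ range m) :
    (vset tl hd (S.image a)).card = (S ∪ S.image (nx m)).card := by
  rw [vset_image hends hS]
  apply card_image_of_injOn
  have h : ∀ x ∈ ((S ∪ S.image (nx m) : Finset ℕ) : Set ℕ), x < m := by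
    intro x hx
    rw [mem_coe, mem_union, mem_image] at hx
    rcases hx with hx | ⟨n, -, rfl⟩
    · exact mem_range.mp (hS hx)
    · exact nx_lt hm
  intro x hx y hy hxy
  exact hv x y (h x hx) (h y hy) hxy

private theorem a_inj (hm : 4 ≤ m)
    (hends : ∀ n < m, (tl (a n) = v n ∧ hd (a n) = v (nx m n)) ∨
      (hd (a n) = v n ∧ tl (a n) = v (nx m n)))
    (hv : ∀ n k, n < m → k < m → v n = v k → n = k) :
    ∀ n k, n < m → k < m → a n = a k → n = k := by
  intro n k hn hk h
  have h1 := hends n hn
  have h2 := hends k hk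
  rw [h] at h1
  have key : v n = v k ∨ (v n = v (nx m k) ∧ v (nx m n) = v k) := by
    rcases h1 with h1 | h1 <;> rcases h2 with h2 | h2
    · exact Or.inl (h1.1.symm.trans h2.1)
    · exact Or.inr ⟨h1.1.symm.trans h2.2, h1.2.symm.trans h2.1⟩
    · exact Or.inr ⟨h1.1.symm.trans h2.2, h1.2.symm.trans h2.1⟩
    · exact Or.inl (h1.1.symm.trans h2.1)
  rcases key with h3 | ⟨h3, h4⟩
  · exact hv n k hn hk h3
  · have e1 := hv n (nx m k) hn (nx_lt hm) h3
    have e2 := hv (nx m n) k (nx_lt hm) hk h4
    unfold nx at e1 e2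
    split_ifs at e1 e2 <;> omega

/-- a ring is not contained in the cycle -/
private theorem no_ring (hm : 4 ≤ m)
    (hends : ∀ n < m, (tl (a n) = v n ∧ hd (a n) = v (nx m n)) ∨
      (hd (a n) = v n ∧ tl (a n) = v (nx m n)))
    (hv : ∀ n k, n < m → k < m → v n = v k → n = k) {D : Finset A} (hD : Ring tl hd D)
    (hne : D.Nonempty) : ¬ D ⊆ (range m).image a := by
  intro hsub
  let S : Finset ℕ := (range m).filter (fun n => a n ∈ D)
  have hSm : S ⊆ range m := filter_subset _ _
  have hSD : S.image a = D := by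
    ext x
    simp only [S, mem_image, mem_filter, mem_range]
    constructor
    · rintro ⟨n, ⟨-, h⟩, rfl⟩
      exact h
    · intro hx
      obtain ⟨n, hn, rfl⟩ := mem_image.mp (hsub hx)
      exact ⟨n, ⟨mem_range.mp hn, hx⟩, rfl⟩
  have hScard : S.card = D.card := by
    rw [← hSD]
    symm
    apply card_image_of_injOn
    intro x hx y hy hxy
    exact a_inj hm hends hv x y (mem_range.mp (hSm hx)) (mem_range.mp (hSm hy)) hxy
  have hSne : S.Nonempty := by
    rw [← card_pos, hScard, card_pos]
    exact hne
  have h1 := card_vset_image hm hends hv hSm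
  rw [hSD, hD.tight, ← hScard] at h1
  have h2 : S = S ∪ S.image (nx m) := eq_of_subset_of_card_le subset_union_left h1.symm.le
  have h3 : S = range m := by
    apply closed_all hSm hSne
    intro n hn
    rw [h2]
    exact mem_union_right _ (mem_image_of_mem _ hn)
  have h4 : S.card = m := by rw [h3, card_range]
  have h5 := hD.le
  omega

end walk

section
variable {V A : Type} [DecidableEq V] [DecidableEq A] {tl hd : A → V} {sg : A → Bool}

theorem long_steps (H : Hyp tl hd sg) (m : ℕ) (hm : 4 ≤ m) (c : ℕ → A × Bool × Bool)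
    (hadj : ∀ n, n + 1 < m → (aoutg tl hd sg (c n)).1 = (aing tl hd sg (c (n + 1))).1)
    (hdist : ∀ n k, n < m → k < m → (aing tl hd sg (c n)).1 = (aing tl hd sg (c k)).1 → n = k)
    (hcl : (aoutg tl hd sg (c (m - 1))).1 = (aing tl hd sg (c 0)).1) :
    2 ≤ ∑ n ∈ range m, wt tl hd sg (c n).1 (c n).2.1 := by
  classical
  obtain ⟨a, ha⟩ : ∃ a : ℕ → A, ∀ n, a n = (c n).1 := ⟨fun n => (c n).1, fun _ => rfl⟩
  obtain ⟨v, hv0⟩ : ∃ v : ℕ → V, ∀ n, v n = (aing tl hd sg (c n)).1 :=
    ⟨fun n => (aing tl hd sg (c n)).1, fun _ => rfl⟩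
  have hout : ∀ n < m, (aoutg tl hd sg (c n)).1 = v (nx m n) := by
    intro n hn
    unfold nx
    split_ifs with h
    · rw [hadj n h, hv0]
    · have e : n = m - 1 := by omega
      rw [e, hcl, hv0]
  have hv : ∀ n k, n < m → k < m → v n = v k → n = k := by
    intro n k hn hk h
    rw [hv0, hv0] at h
    exact hdist n k hn hk h
  have hends : ∀ n < m, (tl (a n) = v n ∧ hd (a n) = v (nx m n)) ∨
      (hd (a n) = v n ∧ tl (a n) = v (nx m n)) := by
    intro n hn
    rw [← hout n hn, hv0, ha]
    unfold aing aoutg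
    by_cases hb : (c n).2.2 = true
    · left
      rw [if_pos hb, if_pos hb]
      exact ⟨rfl, rfl⟩
    · right
      rw [if_neg hb, if_neg hb]
      exact ⟨rfl, rfl⟩
  have hinj := a_inj hm hends hv
  by_cases h5 : m ≤ 5
  · have hall : ∀ n ∈ range m, wt tl hd sg (c n).1 (c n).2.1 = 1 / 2 := by
      intro n hn
      by_contra hw
      obtain ⟨D, hD, hnD⟩ := wt_ring H _ _ hw
      rw [← ha] at hnD
      have hC : ((range m).image a).card ≤ 9 := by
        refine card_image_le.trans ?_
        rw [card_range]
        omega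
      have hCt : (vset tl hd ((range m).image a)).card ≤ ((range m).image a).card := by
        rw [card_vset_image hm hends hv (Subset.refl _)]
        have e1 : ((range m).image a).card = m := by
          rw [card_image_of_injOn, card_range]
          intro x hx y hy hxy
          exact hinj x y (mem_range.mp hx) (mem_range.mp hy) hxy
        rw [e1]
        have e2 : range m ∪ (range m).image (nx m) ⊆ range m := by
          apply union_subset (Subset.refl _)
          intro x hx
          obtain ⟨n, -, rfl⟩ := mem_image.mp hx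
          exact mem_range.mpr (nx_lt hm)
        calc _ ≤ (range m).card := card_le_card e2
          _ = m := card_range m
      have hsub := ring_subset H hC hCt hD
        ⟨a n, mem_inter.mpr ⟨mem_image_of_mem _ hn, hnD⟩⟩
      exact no_ring hm hends hv hD ⟨_, hnD⟩ hsub
    rw [sum_congr rfl hall, sum_const, card_range, nsmul_eq_mul]
    have : (4 : ℚ) ≤ m := by exact_mod_cast hm
    linarith
  · have h6 : 6 ≤ m := by omega
    have h6m : range 6 ⊆ range m := range_subset_range.mpr h6
    obtain ⟨P, hP⟩ : ∃ P : Finset A, P = (range 6).image a := ⟨_, rfl⟩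
    have hPcard : P.card = 6 := by
      rw [hP, card_image_of_injOn, card_range]
      intro x hx y hy hxy
      exact hinj x y (mem_range.mp (h6m hx)) (mem_range.mp (h6m hy)) hxy
    have hPv : (vset tl hd P).card ≤ 7 := by
      rw [hP, card_vset_image hm hends hv h6m]
      have e1 : range 6 ∪ (range 6).image (nx m) ⊆ insert (nx m 5) (range 6) := by
        intro x hx
        rw [mem_union, mem_image] at hx
        rw [mem_insert, mem_range]
        rcases hx with hx | ⟨n, hn, rfl⟩
        · exact Or.inr (mem_range.mp hx)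
        · rw [mem_range] at hn
          by_cases hn5 : n = 5
          · left
            rw [hn5]
          · right
            unfold nx
            split_ifs <;> omega
      calc _ ≤ (insert (nx m 5) (range 6)).card := card_le_card e1
        _ ≤ (range 6).card + 1 := card_insert_le _ _
        _ = 7 := by rw [card_range]
    have hPsub : P ⊆ (range m).image a := by
      rw [hP]
      exact image_subset_image h6m
    have hcut : ∀ D : Finset A, Ring tl hd D → (P ∩ D).Nonempty →
        (P ∩ D).card < (vset tl hd (P ∩ D)).card ∧ (P ∩ D).card ≤ 2 := by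
      intro D hD hne
      have hneD : D.Nonempty := hne.mono inter_subset_right
      have hneq : P ∩ D ≠ D := by
        intro h
        exact no_ring hm hends hv hD hneD
          ((inter_eq_right.mp h).trans hPsub)
      refine ⟨hD.cyc _ inter_subset_right hne hneq, ?_⟩
      have h1 : (P ∩ D).card < D.card := card_lt_card (inter_subset_right.ssubset_of_ne hneq)
      have h2 := hD.le
      omega
    obtain ⟨B, hB⟩ : ∃ B : Finset ℕ,
        B = (range 6).filter (fun n => wt tl hd sg (c n).1 (c n).2.1 ≠ 1 / 2) := ⟨_, rfl⟩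
    have hBcard : B.card ≤ 2 := by
      rcases B.eq_empty_or_nonempty with h0 | ⟨n, hn⟩
      · rw [h0, card_empty]
        omega
      · rw [hB, mem_filter] at hn
        obtain ⟨D, hD, hnD⟩ := wt_ring H _ _ hn.2
        rw [← ha] at hnD
        have hnP : a n ∈ P := by rw [hP]; exact mem_image_of_mem _ hn.1
        have hne : (P ∩ D).Nonempty := ⟨a n, mem_inter.mpr ⟨hnP, hnD⟩⟩
        obtain ⟨hc1, hc2⟩ := hcut D hD hne
        have hBD : B.image a ⊆ P ∩ D := by
          intro x hx
          obtain ⟨k, hk, rfl⟩ := mem_image.mp hx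
          rw [hB, mem_filter] at hk
          have hkP : a k ∈ P := by rw [hP]; exact mem_image_of_mem _ hk.1
          obtain ⟨E, hE, hkE⟩ := wt_ring H _ _ hk.2
          rw [← ha] at hkE
          have hneE : (P ∩ E).Nonempty := ⟨a k, mem_inter.mpr ⟨hkP, hkE⟩⟩
          obtain ⟨hd1, hd2⟩ := hcut E hE hneE
          have hDE : D = E := by
            by_contra hDE
            have hdisj : D ∩ E = ∅ := by
              rw [← not_nonempty_iff_eq_empty]
              rintro ⟨x, hx⟩
              rw [mem_inter] at hx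
              exact hDE (ring_eq H hD hE x hx.1 hx.2)
            have s1 := slack_union (tl := tl) (hd := hd) P D
            have s2 := slack_union (tl := tl) (hd := hd) (P ∪ D) E
            have e3 : (P ∪ D) ∩ E = P ∩ E := by
              rw [union_inter_distrib_right, hdisj, union_empty]
            rw [e3] at s2
            have t1 := hD.tight
            have t2 := hE.tight
            have l1 := hD.le
            have l2 := hE.le
            have u1 := card_union_le P D
            have u2 := card_union_le (P ∪ D) E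
            have s3 := H.sparse (P ∪ D ∪ E) (by omega)
            omega
          rw [hDE]
          exact mem_inter.mpr ⟨hkP, hkE⟩
        have hBim : (B.image a).card = B.card := by
          apply card_image_of_injOn
          intro x hx y hy hxy
          rw [hB, coe_filter, Set.mem_setOf_eq] at hx hy
          exact hinj x y (mem_range.mp (h6m hx.1)) (mem_range.mp (h6m hy.1)) hxy
        have := card_le_card hBD
        omega
    have hBsub : B ⊆ range 6 := by rw [hB]; exact filter_subset _ _
    have hrest : ∀ n ∈ range 6 \ B, wt tl hd sg (c n).1 (c n).2.1 = 1 / 2 := by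
      intro n hn
      rw [mem_sdiff] at hn
      by_contra hw
      apply hn.2
      rw [hB, mem_filter]
      exact ⟨hn.1, hw⟩
    have hcard : 4 ≤ (range 6 \ B).card := by
      rw [card_sdiff_of_subset hBsub, card_range]
      omega
    calc (2 : ℚ) ≤ ((range 6 \ B).card : ℚ) * (1 / 2) := by
          have : (4 : ℚ) ≤ ((range 6 \ B).card : ℚ) := by exact_mod_cast hcard
          linarith
      _ = ∑ n ∈ range 6 \ B, wt tl hd sg (c n).1 (c n).2.1 := by
          rw [sum_congr rfl hrest, sum_const, nsmul_eq_mul]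
      _ ≤ ∑ n ∈ range m, wt tl hd sg (c n).1 (c n).2.1 := by
          apply sum_le_sum_of_subset_of_nonneg (sdiff_subset.trans h6m)
          intro n _ _
          exact wt_nonneg _ _

end

end Pool.Agent.LOT
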