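import Pool.Agent.LOT.Wt

/-!
# LOT-Three: closed walks with three steps and three different vertices

Write `c_n = (a_n, δ_n, d_n)`, `w c = wt c.1 c.2.1`.

PLAN. Cases on `d0, d1, d2` (8 cases; unfold `aing`, `aoutg`).
* all `true`: `Cyc a0 a1 a2`, `Cyc a1 a2 a0`, `Cyc a2 a0 a1`. Middle equalities: `δ1 = sg a0`, `δ2 = sg a1`, so
  `w c1 = w c2 = 2/3`, `w c0 ≥ 1/3` (`wt_cyc`); closed: `δ0 = sg a2`, `w c0 = 2/3`. All `false`: the reverse,
  `Cyc a2 a1 a0` etc.: `hd a1 = tl a0`, `sg a1 = δ0`; `hd a2 = tl a1`, `sg a2 = δ1`; so `w c0 = w c1 = 2/3`; closed: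
  `hd a0 = tl a2`, `sg a0 = δ2`.
* the six other cases are transitive triangles with arcs `h1 : x → c`, `h : c → d`, `h3 : x → d`. If the signs
  `sg h`, `sg h3` at `d` are different: `wt_tra_ne` gives `3/2 ≥ 1`, and a closed walk (or one for which `d` is an interior
  vertex) is impossible. If they are equal, `Tra h1 h h3`: `w(h1) = w(h3) = 1/2` (sum `≥ 1` since `w(h) ≥ 0`), and for a
  closed walk the germ at `c` is `(c, sg h1)`, so the weight of the step along `h` is `1` (`wt_tra_mid`).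
  E.g. `d0 = d1 = true`, `d2 = false`: `h1 = a0`, `h = a1`, `h3 = a2`. `d0 = true, d1 = false, d2 = false`: `hd a0 = hd a1`,
  `tl a1 = hd a2`, `tl a2 = tl a0`: `h1 = a2`, `h = a1`, `h3 = a0`. The other four cases are rotations/reflections.
  It may be convenient to prove one lemma for a transitive triangle: for all `δ, δ', δ''`
  `1 ≤ wt h1 δ + wt h δ' + wt h3 δ''`, and `= 2` if `sg h = sg h3` and `δ' = sg h1`.
The hypotheses `hd01` etc. (different vertices) are only used to exclude nothing: they are available if needed.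
-/

namespace Pool.Agent.LOT

open Finset

section
variable {V A : Type} [DecidableEq V] [DecidableEq A] {tl hd : A → V} {sg : A → Bool}

private theorem tra_one (H : Hyp tl hd sg) {h1 h h3 : A} (hc1 : hd h1 = tl h)
    (hc2 : tl h1 = tl h3) (hc3 : hd h3 = hd h) (δ δ' δ'' : Bool) :
    1 ≤ wt tl hd sg h1 δ + wt tl hd sg h δ' + wt tl hd sg h3 δ'' := by
  by_cases hs : sg h3 = sg h
  · have hT : Tra tl hd sg h1 h h3 := ⟨hc1, hc2, hc3, hs⟩
    rw [wt_tra_fst H hT, wt_tra_lst H hT]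
    have := wt_nonneg (tl := tl) (hd := hd) (sg := sg) h δ'
    linarith
  · have e1 := (wt_tra_ne H hc1 hc2 hc3 hs δ).1
    have e2 := (wt_tra_ne H hc1 hc2 hc3 hs δ').2.1
    have e3 := (wt_tra_ne H hc1 hc2 hc3 hs δ'').2.2
    rw [e1, e2, e3]
    norm_num

private theorem tra_two (H : Hyp tl hd sg) {h1 h h3 : A} (hc1 : hd h1 = tl h)
    (hc2 : tl h1 = tl h3) (hc3 : hd h3 = hd h) (hs : sg h3 = sg h) (δ δ' δ'' : Bool)
    (hδ : δ' = sg h1) :
    2 ≤ wt tl hd sg h1 δ + wt tl hd sg h δ' + wt tl hd sg h3 δ'' := by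
  have hT : Tra tl hd sg h1 h h3 := ⟨hc1, hc2, hc3, hs⟩
  rw [wt_tra_fst H hT, wt_tra_lst H hT, wt_tra_mid H hT, if_pos hδ]
  norm_num

private theorem cyc_third (H : Hyp tl hd sg) {h0 h h1 : A} (h01 : hd h0 = tl h)
    (h12 : hd h = tl h1) (h20 : hd h1 = tl h0) (δ : Bool) :
    1 / 3 ≤ wt tl hd sg h δ := by
  have hC : Cyc tl hd h0 h h1 := ⟨h01, h12, h20⟩
  rw [wt_cyc H hC]
  split_ifs <;> norm_num

private theorem cyc_two (H : Hyp tl hd sg) {h0 h h1 : A} (h01 : hd h0 = tl h)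
    (h12 : hd h = tl h1) (h20 : hd h1 = tl h0) (δ : Bool) (hδ : δ = sg h0) :
    wt tl hd sg h δ = 2 / 3 := by
  have hC : Cyc tl hd h0 h h1 := ⟨h01, h12, h20⟩
  rw [wt_cyc H hC, if_pos hδ]

theorem three_steps (H : Hyp tl hd sg) (c0 c1 c2 : A × Bool × Bool)
    (h01 : aoutg tl hd sg c0 = aing tl hd sg c1) (h12 : aoutg tl hd sg c1 = aing tl hd sg c2)
    (hd01 : (aing tl hd sg c0).1 ≠ (aing tl hd sg c1).1)
    (hd12 : (aing tl hd sg c1).1 ≠ (aing tl hd sg c2).1)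
    (hd02 : (aing tl hd sg c0).1 ≠ (aing tl hd sg c2).1)
    (hcl : (aoutg tl hd sg c2).1 = (aing tl hd sg c0).1) :
    1 ≤ wt tl hd sg c0.1 c0.2.1 + wt tl hd sg c1.1 c1.2.1 + wt tl hd sg c2.1 c2.2.1 := by
  clear hd01 hd12 hd02
  obtain ⟨a0, δ0, d0⟩ := c0
  obtain ⟨a1, δ1, d1⟩ := c1
  obtain ⟨a2, δ2, d2⟩ := c2
  cases d0 <;> cases d1 <;> cases d2 <;>
    simp only [aing, aoutg, if_true, if_false, Bool.false_eq_true, Prod.mk.injEq]
      at h01 h12 hcl ⊢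
  · -- FFF
    obtain ⟨e1, s1⟩ := h01
    obtain ⟨e2, s2⟩ := h12
    have w0 := cyc_third H e1.symm hcl.symm e2.symm δ0
    have w1 := cyc_third H e2.symm e1.symm hcl.symm δ1
    have w2 := cyc_third H hcl.symm e2.symm e1.symm δ2
    linarith
  · -- FFT
    obtain ⟨e1, s1⟩ := h01
    obtain ⟨e2, s2⟩ := h12
    have := tra_one H (h1 := a1) (h := a0) (h3 := a2) e1.symm e2 hcl δ1 δ0 δ2
    linarith
  · -- FTF
    obtain ⟨e1, s1⟩ := h01
    obtain ⟨e2, s2⟩ := h12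
    have := tra_one H (h1 := a0) (h := a2) (h3 := a1) hcl.symm e1 e2 δ0 δ2 δ1
    linarith
  · -- FTT
    obtain ⟨e1, s1⟩ := h01
    obtain ⟨e2, s2⟩ := h12
    have := tra_one H (h1 := a1) (h := a2) (h3 := a0) e2 e1.symm hcl.symm δ1 δ2 δ0
    linarith
  · -- TFF
    obtain ⟨e1, s1⟩ := h01
    obtain ⟨e2, s2⟩ := h12
    have := tra_one H (h1 := a2) (h := a1) (h3 := a0) e2.symm hcl e1 δ2 δ1 δ0
    linarith
  · -- TFT
    obtain ⟨e1, s1⟩ := h01
    obtain ⟨e2, s2⟩ := h12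
    have := tra_one H (h1 := a2) (h := a0) (h3 := a1) hcl e2.symm e1.symm δ2 δ0 δ1
    linarith
  · -- TTF
    obtain ⟨e1, s1⟩ := h01
    obtain ⟨e2, s2⟩ := h12
    have := tra_one H (h1 := a0) (h := a1) (h3 := a2) e1 hcl.symm e2.symm δ0 δ1 δ2
    linarith
  · -- TTT
    obtain ⟨e1, s1⟩ := h01
    obtain ⟨e2, s2⟩ := h12
    have w0 := cyc_third H hcl e1 e2 δ0
    have w1 := cyc_third H e1 e2 hcl δ1
    have w2 := cyc_third H e2 hcl e1 δ2
    linarith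

theorem three_closed (H : Hyp tl hd sg) (c0 c1 c2 : A × Bool × Bool)
    (h01 : aoutg tl hd sg c0 = aing tl hd sg c1) (h12 : aoutg tl hd sg c1 = aing tl hd sg c2)
    (hd01 : (aing tl hd sg c0).1 ≠ (aing tl hd sg c1).1)
    (hd12 : (aing tl hd sg c1).1 ≠ (aing tl hd sg c2).1)
    (hd02 : (aing tl hd sg c0).1 ≠ (aing tl hd sg c2).1)
    (hcl : aoutg tl hd sg c2 = aing tl hd sg c0) :
    2 ≤ wt tl hd sg c0.1 c0.2.1 + wt tl hd sg c1.1 c1.2.1 + wt tl hd sg c2.1 c2.2.1 := by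
  clear hd01 hd12 hd02
  obtain ⟨a0, δ0, d0⟩ := c0
  obtain ⟨a1, δ1, d1⟩ := c1
  obtain ⟨a2, δ2, d2⟩ := c2
  cases d0 <;> cases d1 <;> cases d2 <;>
    simp only [aing, aoutg, if_true, if_false, Bool.false_eq_true, Prod.mk.injEq]
      at h01 h12 hcl ⊢ <;>
    obtain ⟨e1, s1⟩ := h01 <;> obtain ⟨e2, s2⟩ := h12 <;> obtain ⟨e3, s3⟩ := hcl
  · -- FFF
    have w0 := cyc_two H e1.symm e3.symm e2.symm δ0 s1
    have w1 := cyc_two H e2.symm e1.symm e3.symm δ1 s2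
    have w2 := cyc_two H e3.symm e2.symm e1.symm δ2 s3
    linarith
  · -- FFT
    have := tra_two H (h1 := a1) (h := a0) (h3 := a2) e1.symm e2 e3 s3 δ1 δ0 δ2 s1
    linarith
  · -- FTF
    have := tra_two H (h1 := a0) (h := a2) (h3 := a1) e3.symm e1 e2 s2 δ0 δ2 δ1 s3
    linarith
  · -- FTT
    have := tra_two H (h1 := a1) (h := a2) (h3 := a0) e2 e1.symm e3.symm s3.symm δ1 δ2 δ0 s2.symm
    linarith
  · -- TFF
    have := tra_two H (h1 := a2) (h := a1) (h3 := a0) e2.symm e3 e1 s1 δ2 δ1 δ0 s2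
    linarith
  · -- TFT
    have := tra_two H (h1 := a2) (h := a0) (h3 := a1) e3 e2.symm e1.symm s1.symm δ2 δ0 δ1 s3.symm
    linarith
  · -- TTF
    have := tra_two H (h1 := a0) (h := a1) (h3 := a2) e1 e3.symm e2.symm s2.symm δ0 δ1 δ2 s1.symm
    linarith
  · -- TTT
    have w0 := cyc_two H e3 e1 e2 δ0 s3.symm
    have w1 := cyc_two H e1 e2 e3 δ1 s1.symm
    have w2 := cyc_two H e2 e3 e1 δ2 s2.symm
    linarith

end

end Pool.Agent.LOT
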