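import Pool.Agent.LOT.Two
import Pool.Agent.LOT.Three
import Pool.Agent.LOT.Long

/-!
# LOT-ArcWeight: every reduced closed link walk has weight at least 2

PLAN. `v n = (aing (c n)).1`, `W n = wt (c n).1 (c n).2.1`; `v (n + 1) = (aoutg (c n)).1`, `v (n + m) = v n`.
`unit_ge`: if `i < j`, `v j = v i` and `v` is injective on `[i, j)` then `1 ≤ ∑ n ∈ Ico i j, W n`: `j = i + 1` is a loop
(impossible), `j = i + 2`: `two_steps`, `j = i + 3`: `three_steps`, `j ≥ i + 4`: `long_steps` for `n ↦ c (i + n)`.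
`exists_unit`: if `a < b`, `v a = v b` there are `a ≤ i < j ≤ b` with `v i = v j`, `v` injective on `[i, j)` (minimal
`j` with `v j ∈ v '' [a, j)`; `Nat.find`). Hence `1 ≤ ∑ n ∈ Ico a b, W n` (`wt_nonneg`).
Main: `exists_unit` for `a = 0`, `b = m` gives `i, j`. The sum over `range m` equals the sum over `Ico i (i + m)`
(periodicity). If `j - i < m`: `v (i + m) = v i = v j`, so the sum over `Ico j (i + m)` is also `≥ 1`. If `j - i = m`:
`i = 0`, `j = m`, and `c m = c 0`: `m = 1` is a loop, `m = 2`: `two_closed`, `m = 3`: `three_closed`, `m ≥ 4`: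
`long_steps`.
-/

namespace Pool.Agent.LOT

open Finset

section
variable {V A : Type} [DecidableEq V] [DecidableEq A] {tl hd : A → V} {sg : A → Bool}

private theorem noloop (H : Hyp tl hd sg) (x : A × Bool × Bool) :
    (aing tl hd sg x).1 ≠ (aoutg tl hd sg x).1 := by
  obtain ⟨a, δ, d⟩ := x
  cases d
  · simpa [aing, aoutg] using (H.loop a).symm
  · simpa [aing, aoutg] using H.loop a

private theorem long_shift (H : Hyp tl hd sg) (c : ℕ → A × Bool × Bool)
    (hadj : ∀ n, aoutg tl hd sg (c n) = aing tl hd sg (c (n + 1))) (i k : ℕ) (hk : 4 ≤ k)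
    (hv : (aing tl hd sg (c (i + k))).1 = (aing tl hd sg (c i)).1)
    (hinj : ∀ a b, a < k → b < k →
      (aing tl hd sg (c (i + a))).1 = (aing tl hd sg (c (i + b))).1 → a = b) :
    2 ≤ ∑ n ∈ range k, wt tl hd sg (c (i + n)).1 (c (i + n)).2.1 := by
  refine long_steps H k hk (fun n => c (i + n)) ?_ hinj ?_
  · intro n _
    show (aoutg tl hd sg (c (i + n))).1 = (aing tl hd sg (c (i + (n + 1)))).1
    rw [hadj (i + n)]
    rfl
  · show (aoutg tl hd sg (c (i + (k - 1)))).1 = (aing tl hd sg (c (i + 0))).1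
    rw [hadj (i + (k - 1)), show i + (k - 1) + 1 = i + k by omega]
    exact hv

private theorem unit_ge (H : Hyp tl hd sg) (c : ℕ → A × Bool × Bool)
    (hadj : ∀ n, aoutg tl hd sg (c n) = aing tl hd sg (c (n + 1)))
    (hred : ∀ n, ¬ aback (c n) (c (n + 1))) (i k : ℕ) (hk : 0 < k)
    (hv : (aing tl hd sg (c (i + k))).1 = (aing tl hd sg (c i)).1)
    (hinj : ∀ a b, a < k → b < k →
      (aing tl hd sg (c (i + a))).1 = (aing tl hd sg (c (i + b))).1 → a = b) :
    1 ≤ ∑ n ∈ range k, wt tl hd sg (c (i + n)).1 (c (i + n)).2.1 := by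
  rcases (by omega : k = 1 ∨ k = 2 ∨ k = 3 ∨ 4 ≤ k) with h | h | h | h
  · subst h
    exfalso
    apply noloop H (c i)
    rw [hadj i, hv]
  · subst h
    have h2 := two_steps H (c i) (c (i + 1)) (hadj i) (hred i)
      (by rw [hadj (i + 1)]; exact hv)
    simpa [Finset.sum_range_succ] using h2
  · subst h
    have h3 := three_steps H (c i) (c (i + 1)) (c (i + 2)) (hadj i) (hadj (i + 1))
      (fun e => absurd (hinj 0 1 (by omega) (by omega) e) (by omega))
      (fun e => absurd (hinj 1 2 (by omega) (by omega) e) (by omega))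
      (fun e => absurd (hinj 0 2 (by omega) (by omega) e) (by omega))
      (by rw [hadj (i + 2)]; exact hv)
    simpa [Finset.sum_range_succ] using h3
  · have h4 := long_shift H c hadj i k h hv hinj
    linarith

private theorem exists_unit {X : Type} (v : ℕ → X) : ∀ (d a b : ℕ), b - a = d → a < b → v a = v b →
    ∃ i k, a ≤ i ∧ 0 < k ∧ i + k ≤ b ∧ v (i + k) = v i ∧
      ∀ x y, x < k → y < k → v (i + x) = v (i + y) → x = y := by
  intro d
  induction d using Nat.strong_induction_on with
  | _ d ih =>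
    intro a b hd hab hv
    by_cases hinj : ∀ x y, x < b - a → y < b - a → v (a + x) = v (a + y) → x = y
    · refine ⟨a, b - a, le_refl _, by omega, by omega, ?_, hinj⟩
      rw [show a + (b - a) = b by omega, hv]
    · push Not at hinj
      obtain ⟨x, y, hx, hy, hxy, hne⟩ := hinj
      rcases lt_or_gt_of_ne hne with h | h
      · obtain ⟨i, k, h1, h2, h3, h4, h5⟩ := ih (a + y - (a + x)) (by omega) (a + x) (a + y) rfl
          (by omega) hxy
        exact ⟨i, k, by omega, h2, by omega, h4, h5⟩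
      · obtain ⟨i, k, h1, h2, h3, h4, h5⟩ := ih (a + x - (a + y)) (by omega) (a + y) (a + x) rfl
          (by omega) hxy.symm
        exact ⟨i, k, by omega, h2, by omega, h4, h5⟩

private theorem ge_one (H : Hyp tl hd sg) (c : ℕ → A × Bool × Bool)
    (hadj : ∀ n, aoutg tl hd sg (c n) = aing tl hd sg (c (n + 1)))
    (hred : ∀ n, ¬ aback (c n) (c (n + 1))) (a b : ℕ) (hab : a < b)
    (hv : (aing tl hd sg (c a)).1 = (aing tl hd sg (c b)).1) :
    1 ≤ ∑ n ∈ Ico a b, wt tl hd sg (c n).1 (c n).2.1 := by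
  obtain ⟨i, k, h1, h2, h3, h4, h5⟩ := exists_unit (fun n => (aing tl hd sg (c n)).1) (b - a) a b
    rfl hab hv
  have h6 := unit_ge H c hadj hred i k h2 h4 h5
  refine h6.trans ?_
  have h7 : ∑ n ∈ range k, wt tl hd sg (c (i + n)).1 (c (i + n)).2.1
      = ∑ n ∈ Ico i (i + k), wt tl hd sg (c n).1 (c n).2.1 := by
    rw [Finset.sum_Ico_eq_sum_range, show i + k - i = k by omega]
  rw [h7]
  exact Finset.sum_le_sum_of_subset_of_nonneg (Finset.Ico_subset_Ico h1 h3)
    (fun n _ _ => wt_nonneg _ _)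

private theorem sum_shift (W : ℕ → ℚ) (m : ℕ) (hW : ∀ n, W (n + m) = W n) (i : ℕ) :
    ∑ n ∈ range m, W (i + n) = ∑ n ∈ range m, W n := by
  induction i with
  | zero => simp
  | succ i ih =>
    rw [← ih]
    have h1 : ∑ n ∈ range (m + 1), W (i + n) = ∑ n ∈ range m, W (i + n) + W (i + m) :=
      Finset.sum_range_succ _ _
    have h2 : ∑ n ∈ range (m + 1), W (i + n) = ∑ n ∈ range m, W (i + (n + 1)) + W (i + 0) :=
      Finset.sum_range_succ' _ _
    rw [hW i] at h1
    rw [add_zero] at h2
    have h3 : ∑ n ∈ range m, W (i + 1 + n) = ∑ n ∈ range m, W (i + (n + 1)) := by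
      refine Finset.sum_congr rfl fun n _ => ?_
      rw [show i + 1 + n = i + (n + 1) by omega]
    rw [h3]
    linarith

theorem arc_weight (H : Hyp tl hd sg) (m : ℕ) (hm : 0 < m) (c : ℕ → A × Bool × Bool)
    (hper : ∀ n, c (n + m) = c n)
    (hadj : ∀ n, aoutg tl hd sg (c n) = aing tl hd sg (c (n + 1)))
    (hred : ∀ n, ¬ aback (c n) (c (n + 1))) :
    2 ≤ ∑ n ∈ range m, wt tl hd sg (c n).1 (c n).2.1 := by
  have hm0 : c m = c 0 := by
    have := hper 0
    rwa [zero_add] at this
  obtain ⟨i, k, h1, h2, h3, h4, h5⟩ := exists_unit (fun n => (aing tl hd sg (c n)).1) (m - 0) 0 m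
    rfl hm (by show (aing tl hd sg (c 0)).1 = (aing tl hd sg (c m)).1; rw [hm0])
  by_cases hk : k < m
  · have h6 : ∑ n ∈ range m, wt tl hd sg (c n).1 (c n).2.1
        = ∑ n ∈ Ico i (i + m), wt tl hd sg (c n).1 (c n).2.1 := by
      rw [Finset.sum_Ico_eq_sum_range, show i + m - i = m by omega]
      exact (sum_shift (fun n => wt tl hd sg (c n).1 (c n).2.1) m
        (fun n => by show wt tl hd sg (c (n + m)).1 (c (n + m)).2.1 = _; rw [hper n]) i).symm
    rw [h6, ← Finset.sum_Ico_consecutive _ (show i ≤ i + k by omega) (show i + k ≤ i + m by omega)]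
    have h7 := ge_one H c hadj hred i (i + k) (by omega) h4.symm
    have h8 := ge_one H c hadj hred (i + k) (i + m) (by omega)
      (by rw [hper i]; exact h4)
    linarith
  · have hkm : k = m := by omega
    have hi : i = 0 := by omega
    subst hkm
    subst hi
    simp only [zero_add] at h4 h5
    rcases (by omega : k = 1 ∨ k = 2 ∨ k = 3 ∨ 4 ≤ k) with h | h | h | h
    · subst h
      exfalso
      apply noloop H (c 0)
      rw [hadj 0, zero_add, hm0]
    · subst h
      have h6 := two_closed H (c 0) (c 1) (hadj 0) (hred 0)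
        (by rw [hadj 1, show 1 + 1 = 2 from rfl, hm0])
        (by have := hred 1; rwa [show 1 + 1 = 2 from rfl, hm0] at this)
      simpa [Finset.sum_range_succ] using h6
    · subst h
      have h6 := three_closed H (c 0) (c 1) (c 2) (hadj 0) (hadj 1)
        (fun e => absurd (h5 0 1 (by omega) (by omega) e) (by omega))
        (fun e => absurd (h5 1 2 (by omega) (by omega) e) (by omega))
        (fun e => absurd (h5 0 2 (by omega) (by omega) e) (by omega))
        (by rw [hadj 2, show 2 + 1 = 3 from rfl, hm0])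
      simpa [Finset.sum_range_succ] using h6
    · have h6 := long_shift H c hadj 0 k h (by rw [zero_add]; exact h4)
        (by intro a b ha hb e; rw [zero_add, zero_add] at e; exact h5 a b ha hb e)
      simpa using h6

end

end Pool.Agent.LOT
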