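import Pool.Agent.LOT.ArcWeight

/-!
# LOT-ExWeight: a reduced sparse LOG satisfies the weight test

PLAN. Corner `(e, κ, s)` of the square of `e` corresponds to the step
`κ = 0: ((e, true), true, !s)`, `κ = 1: ((e, true), false, s)`, `κ = 2: ((e, false), false, !s)`,
`κ = 3: ((e, false), true, s)` (`cstep`). Put `w e κ := wt (cstep).1 (cstep).2.1`, i.e. `w e 0 = wt (e, true) true`,
`w e 1 = wt (e, true) false`, `w e 2 = wt (e, false) false`, `w e 3 = wt (e, false) true`; their sum is `2` by `wt_sum`.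
`Γ.ing c = aing (cstep c)`, `Γ.outg c = aoutg (cstep c)` (with `tl = Γ.tl`, `hd = Γ.hd`, `sg h = h.2`): by cases on `κ`
and `s`. Backtracking corresponds to `aback`. Apply `arc_weight` to `cstep ∘ c`.
-/

namespace Pool.Agent.LOT

open Finset

private def cst (κ : Fin 4) (s : Bool) : Bool × Bool × Bool :=
  ![(true, true, !s), (true, false, s), (false, false, !s), (false, true, s)] κ

private theorem cst_fst : ∀ (κ : Fin 4) (s : Bool), (cst κ s).1 = (cst κ true).1 := by decide

private theorem cst_snd : ∀ (κ : Fin 4) (s : Bool), (cst κ s).2.1 = (cst κ true).2.1 := by decide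

private theorem cst_inj : ∀ (κ κ' : Fin 4) (s s' : Bool), (cst κ s).1 = (cst κ' s').1 →
    (cst κ s).2.1 = (cst κ' s').2.1 → (cst κ s).2.2 ≠ (cst κ' s').2.2 → κ = κ' ∧ s ≠ s' := by
  decide

private def cstep {E : Type} (c : E × Fin 4 × Bool) : (E × Bool) × Bool × Bool :=
  ((c.1, (cst c.2.1 c.2.2).1), (cst c.2.1 c.2.2).2.1, (cst c.2.1 c.2.2).2.2)

private theorem ing_cstep {V E : Type} (Γ : LOG V E) (c : E × Fin 4 × Bool) :
    aing Γ.tl Γ.hd (fun h => h.2) (cstep c) = Γ.ing c := by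
  obtain ⟨e, κ, s⟩ := c
  fin_cases κ <;> cases s <;> rfl

private theorem outg_cstep {V E : Type} (Γ : LOG V E) (c : E × Fin 4 × Bool) :
    aoutg Γ.tl Γ.hd (fun h => h.2) (cstep c) = Γ.outg c := by
  obtain ⟨e, κ, s⟩ := c
  fin_cases κ <;> cases s <;> rfl

section
variable {V E : Type} [DecidableEq V] [DecidableEq E]

theorem exists_weight (Γ : LOG V E) (H : Hyp Γ.tl Γ.hd (fun h => h.2)) :
    ∃ w : E → Fin 4 → ℚ, IsWeight Γ w := by
  refine ⟨fun e κ => wt Γ.tl Γ.hd (fun h => h.2) (e, (cst κ true).1) (cst κ true).2.1, ?_, ?_⟩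
  · intro e
    rw [Fin.sum_univ_four]
    have h1 := wt_sum (tl := Γ.tl) (hd := Γ.hd) (sg := fun h => h.2) (e, true)
    have h2 := wt_sum (tl := Γ.tl) (hd := Γ.hd) (sg := fun h => h.2) (e, false)
    show wt Γ.tl Γ.hd (fun h => h.2) (e, true) true + wt Γ.tl Γ.hd (fun h => h.2) (e, true) false +
      wt Γ.tl Γ.hd (fun h => h.2) (e, false) false + wt Γ.tl Γ.hd (fun h => h.2) (e, false) true = 2
    linarith
  · intro m c hm hper hadj hred
    have key := arc_weight H m hm (fun n => cstep (c n)) (fun n => by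
        show cstep (c (n + m)) = cstep (c n)
        rw [hper]) (fun n => by
        show aoutg Γ.tl Γ.hd (fun h => h.2) (cstep (c n)) =
          aing Γ.tl Γ.hd (fun h => h.2) (cstep (c (n + 1)))
        rw [ing_cstep, outg_cstep]
        exact hadj n) (fun n => by
        rintro ⟨h1, h2, h3⟩
        apply hred n
        have h4 : (cstep (c n)).1.1 = (cstep (c (n + 1))).1.1 := by rw [h1]
        have h5 : (cstep (c n)).1.2 = (cstep (c (n + 1))).1.2 := by rw [h1]
        have h6 := cst_inj _ _ _ _ h5 h2 h3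
        exact ⟨h4, h6.1, h6.2⟩)
    refine key.trans (le_of_eq ?_)
    refine Finset.sum_congr rfl fun n _ => ?_
    show wt Γ.tl Γ.hd (fun h => h.2) ((c n).1, (cst (c n).2.1 (c n).2.2).1)
      (cst (c n).2.1 (c n).2.2).2.1 = _
    rw [cst_fst, cst_snd]

end

end Pool.Agent.LOT
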