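import Pool.Agent.LOT.Defs

/-!
# LOT-Lift: asphericity of the collapsed LOG implies asphericity

PLAN. `asph_collapse`: let `x` have zero image, `J = jac Γ gen`, `J' = jac Γ' gen'`. For `e ≠ e0` the push-forward
`∑ w with coll b a w = v, J e w` equals `J' e v` (because `gen' (coll b a w) = gen w`; `Finset.sum_ite_eq`-type
computation: each of the four terms `if Γ.i e = w then c else 0` summed over `w` with `coll w = v` is
`if coll (Γ.i e) = v then c else 0`). Summing the equations over the fibre of `v` and using `h0`: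
`∑ e ≠ e0, (x e + k e • x e0) * J' e v = 0` (integers are central), so `x e = - k e • x e0` for `e ≠ e0`. Inserting this,
`x e0 * (J e0 v - ∑ e, k e • J e v) = 0` for every `v`; for the `v` of `hu` this is `x e0 * single g z = 0` with `z = ±1`, so
`x e0 = 0` (multiply by `single g⁻¹ z` on the right), and all `x e = 0`.
`asph_loop`: `k = 0`; the push-forward of `J e0` vanishes (`gen i = gen t`); at `v = Γ.i e0` the entry is
`single (gen i) 1` if `l = i`, and `1` if `l = t`.
`asph_fold_i`, `asph_fold_t`: `k e = if e = e1 then 1 else 0`; at the vertex `b` the difference `J e0 b - J e1 b` is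
`- single (gen l) 1` resp. `1` (note that `l ≠ b` is NOT needed: the `l`-terms of `e0` and `e1` are equal).
-/

namespace Pool.Agent.LOT

open Finset

section
variable {V E : Type} [DecidableEq V] [Fintype V] [DecidableEq E] [Fintype E] {G : Type} [Group G]

private theorem push1 (b : V) (a : {v : V // v ≠ b}) (v : {v : V // v ≠ b}) (c : V)
    (X : MonoidAlgebra ℤ G) :
    ∑ w with coll b a w = v, (if c = w then X else 0) = if coll b a c = v then X else 0 := by
  rw [Finset.sum_ite_eq]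
  simp only [Finset.mem_filter, Finset.mem_univ, true_and]

private theorem push_jac (Γ : LOG V E) (gen : V → G) (b : V) (a : {v : V // v ≠ b})
    (v : {v : V // v ≠ b}) (e : E) :
    ∑ w with coll b a w = v, jac Γ gen e w =
      (if coll b a (Γ.i e) = v then 1 else 0)
        + (if coll b a (Γ.l e) = v then MonoidAlgebra.single (gen (Γ.i e)) 1 else 0)
        - (if coll b a (Γ.t e) = v then MonoidAlgebra.single (gen (Γ.l e)) 1 else 0)
        - (if coll b a (Γ.l e) = v then 1 else 0) := by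
  unfold jac
  rw [Finset.sum_sub_distrib, Finset.sum_sub_distrib, Finset.sum_add_distrib, push1, push1, push1,
    push1]

private theorem gen_coll {gen : V → G} {b : V} {a : {v : V // v ≠ b}} (hab : gen a.1 = gen b)
    (w : V) : gen (coll b a w).1 = gen w := by
  unfold coll
  by_cases h : w = b
  · rw [dif_pos h, hab, h]
  · rw [dif_neg h]

private theorem push_jac' (Γ : LOG V E) {gen : V → G} {b : V} {a : {v : V // v ≠ b}}
    (hab : gen a.1 = gen b) (e0 : E)
    (v : {v : V // v ≠ b}) (e : {e : E // e ≠ e0}) :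
    ∑ w with coll b a w = v, jac Γ gen e.1 w =
      jac (Γ.collapse e0 b a) (fun v => gen v.1) e v := by
  rw [push_jac]
  unfold jac LOG.collapse
  simp only [gen_coll hab]

theorem asph_collapse {Γ : LOG V E} {gen : V → G} (e0 : E) (b : V)
    (a : {v : V // v ≠ b}) (hab : gen a.1 = gen b)
    (hA : Asph (Γ.collapse e0 b a) (fun v => gen v.1)) (k : {e : E // e ≠ e0} → ℤ)
    (h0 : ∀ v, ∑ w with coll b a w = v, jac Γ gen e0 w
      = ∑ e, k e • jac (Γ.collapse e0 b a) (fun v => gen v.1) e v)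
    (hu : ∃ v g, ∃ z : ℤ, z * z = 1 ∧
      jac Γ gen e0 v - ∑ e : {e : E // e ≠ e0}, k e • jac Γ gen e.1 v = MonoidAlgebra.single g z) :
    Asph Γ gen := by
  intro x hx
  have hsplit : ∀ w, x e0 * jac Γ gen e0 w + ∑ e : {e : E // e ≠ e0}, x e.1 * jac Γ gen e.1 w = 0 := by
    intro w
    rw [← hx w]
    exact (Fintype.sum_eq_add_sum_subtype_ne (fun e => x e * jac Γ gen e w) e0).symm
  have h1 : (fun e : {e : E // e ≠ e0} => x e.1 + k e • x e0) = 0 := by
    refine hA _ fun v => ?_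
    have h2 : ∑ w with coll b a w = v, (x e0 * jac Γ gen e0 w +
        ∑ e : {e : E // e ≠ e0}, x e.1 * jac Γ gen e.1 w) = 0 :=
      Finset.sum_eq_zero fun w _ => hsplit w
    rw [Finset.sum_add_distrib, ← Finset.mul_sum, h0, Finset.sum_comm] at h2
    simp only [← Finset.mul_sum, push_jac' Γ hab e0] at h2
    rw [Finset.mul_sum, ← Finset.sum_add_distrib] at h2
    rw [← h2]
    refine Finset.sum_congr rfl fun e _ => ?_
    rw [add_mul, smul_mul_assoc, mul_smul_comm, add_comm]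
  have h2 : ∀ e : {e : E // e ≠ e0}, x e.1 = -(k e • x e0) := fun e =>
    eq_neg_of_add_eq_zero_left (congrFun h1 e)
  obtain ⟨v, g, z, hz, hv⟩ := hu
  have h3 : x e0 * MonoidAlgebra.single g z = 0 := by
    rw [← hv, mul_sub, Finset.mul_sum]
    have h4 := hsplit v
    rw [← h4]
    simp only [h2]
    rw [sub_eq_add_neg, ← Finset.sum_neg_distrib]
    congr 1
    refine Finset.sum_congr rfl fun e _ => ?_
    rw [neg_mul, smul_mul_assoc, mul_smul_comm]
  have h4 : x e0 = 0 := by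
    have h5 := congrArg (fun y => y * MonoidAlgebra.single g⁻¹ z) h3
    simp only [zero_mul, mul_assoc, MonoidAlgebra.single_mul_single, mul_inv_cancel, hz] at h5
    rwa [← MonoidAlgebra.one_def, mul_one] at h5
  funext e
  by_cases he : e = e0
  · rw [he, h4]
    rfl
  · rw [h2 ⟨e, he⟩, h4, smul_zero, neg_zero]
    rfl

private theorem coll_self (b : V) (a : {v : V // v ≠ b}) : coll b a b = a := by
  unfold coll
  rw [dif_pos rfl]

private theorem coll_of_ne {b : V} (a : {v : V // v ≠ b}) {w : V} (h : w ≠ b) :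
    coll b a w = ⟨w, h⟩ := by
  unfold coll
  rw [dif_neg h]

theorem asph_loop {Γ : LOG V E} {gen : V → G} (e0 : E)
    (hne : Γ.i e0 ≠ Γ.t e0) (hl : Γ.l e0 = Γ.i e0 ∨ Γ.l e0 = Γ.t e0)
    (hab : gen (Γ.i e0) = gen (Γ.t e0))
    (hA : Asph (Γ.collapse e0 (Γ.t e0) ⟨Γ.i e0, hne⟩) (fun v => gen v.1)) : Asph Γ gen := by
  refine asph_collapse e0 (Γ.t e0) ⟨Γ.i e0, hne⟩ hab hA (fun _ => 0) (fun v => ?_) ?_
  · rw [push_jac]
    have h1 : coll (Γ.t e0) ⟨Γ.i e0, hne⟩ (Γ.t e0) = ⟨Γ.i e0, hne⟩ := coll_self _ _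
    have h2 : coll (Γ.t e0) ⟨Γ.i e0, hne⟩ (Γ.i e0) = ⟨Γ.i e0, hne⟩ := coll_of_ne _ hne
    have h3 : coll (Γ.t e0) ⟨Γ.i e0, hne⟩ (Γ.l e0) = ⟨Γ.i e0, hne⟩ ∧
        gen (Γ.l e0) = gen (Γ.i e0) := by
      rcases hl with h | h
      · rw [h]
        exact ⟨h2, rfl⟩
      · rw [h]
        exact ⟨h1, hab.symm⟩
    rw [h1, h2, h3.1, h3.2]
    simp only [zero_smul, Finset.sum_const_zero]
    abel
  · refine ⟨Γ.i e0, ?_⟩
    simp only [zero_smul, Finset.sum_const_zero, sub_zero]
    unfold jac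
    rw [if_pos rfl, if_neg hne.symm]
    rcases hl with h | h
    · refine ⟨gen (Γ.i e0), 1, by norm_num, ?_⟩
      rw [h, if_pos rfl, if_pos rfl]
      abel
    · refine ⟨1, 1, by norm_num, ?_⟩
      rw [h, if_neg hne.symm, if_neg hne.symm, MonoidAlgebra.one_def]
      abel

private theorem sum_k {M : Type} [AddCommGroup M] {e0 : E} (e1 : {e : E // e ≠ e0})
    (f : {e : E // e ≠ e0} → M) :
    ∑ e, (if e = e1 then (1 : ℤ) else 0) • f e = f e1 := by
  simp only [ite_smul, one_smul, zero_smul]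
  rw [Finset.sum_ite_eq' Finset.univ e1 f]
  simp

theorem asph_fold_i {Γ : LOG V E} {gen : V → G} (e0 e1 : E) (he : e1 ≠ e0)
    (hl : Γ.l e0 = Γ.l e1) (hi : Γ.i e0 = Γ.i e1) (hne : Γ.t e1 ≠ Γ.t e0)
    (hab : gen (Γ.t e1) = gen (Γ.t e0))
    (hA : Asph (Γ.collapse e0 (Γ.t e0) ⟨Γ.t e1, hne⟩) (fun v => gen v.1)) : Asph Γ gen := by
  refine asph_collapse e0 (Γ.t e0) ⟨Γ.t e1, hne⟩ hab hA
    (fun e => if e = ⟨e1, he⟩ then 1 else 0) (fun v => ?_) ?_
  · rw [sum_k, ← push_jac' Γ hab e0 v ⟨e1, he⟩, push_jac, push_jac]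
    rw [coll_self, coll_of_ne _ hne, hl, hi]
  · refine ⟨Γ.t e0, gen (Γ.l e0), -1, by norm_num, ?_⟩
    rw [sum_k]
    unfold jac
    rw [← hl, ← hi, if_pos rfl, if_neg hne, MonoidAlgebra.single_neg]
    abel

theorem asph_fold_t {Γ : LOG V E} {gen : V → G} (e0 e1 : E) (he : e1 ≠ e0)
    (hl : Γ.l e0 = Γ.l e1) (ht : Γ.t e0 = Γ.t e1) (hne : Γ.i e1 ≠ Γ.i e0)
    (hab : gen (Γ.i e1) = gen (Γ.i e0))
    (hA : Asph (Γ.collapse e0 (Γ.i e0) ⟨Γ.i e1, hne⟩) (fun v => gen v.1)) : Asph Γ gen := by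
  refine asph_collapse e0 (Γ.i e0) ⟨Γ.i e1, hne⟩ hab hA
    (fun e => if e = ⟨e1, he⟩ then 1 else 0) (fun v => ?_) ?_
  · rw [sum_k, ← push_jac' Γ hab e0 v ⟨e1, he⟩, push_jac, push_jac]
    rw [coll_self, coll_of_ne _ hne, hl, ht, hab]
  · refine ⟨Γ.i e0, 1, 1, by norm_num, ?_⟩
    rw [sum_k]
    unfold jac
    rw [← hl, ← ht, if_pos rfl, if_neg hne, hab, ← MonoidAlgebra.one_def]
    abel

end

end Pool.Agent.LOT
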