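import Pool.Agent.LOT.Defs

/-!
# LOT-MarksI: sparsity with marked vertices is preserved by folds at the initial vertex

Notation: `V(S) = vset Γ.tl Γ.hd S`, `m(S) = |V(S) ∩ M|`, `V'`, `m'`, `M' = insert a (M.image (coll b a))` for the
collapsed LOG `Γ'`.

For comparison, the easier loop case (loop; `i = Γ.i e0`, `b = t = Γ.t e0`, `R = {(e0, true), (e0, false)}`). `V(R) = {i, t}`. If `i = t` then `|R| = 2 > 1 = |V(R)|`,
against the hypothesis for `R` (`2 + 5 m(R) ≤ 132`). So `i ≠ t`, and `2 + m(R) ≤ 2` gives that `i`, `t` are not marked.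
Let `S'` be a set of arcs of `Γ'` with `|S'| + 5 m'(S') ≤ 132`, `S` its image under `(e, c) ↦ (e.1, c)` (same cardinality).
`V'(S') = coll '' V(S)`.
 (a) `i ∉ V(S)` and `t ∉ V(S)`: `coll` is injective on `V(S)`, `V'(S')` does not contain `a`, `|V'(S')| = |V(S)|`,
 `m'(S') = m(S)`; the hypothesis for `S` is the claim.
 (b) otherwise `T = S ∪ R`: `|T| = |S| + 2`, `V(T) = V(S) ∪ {i, t}`, `|V(T)| = |V'(S')| + 1` (`V'(S') = coll '' V(T)`,
 and `coll` identifies exactly `t` with `i`), `m'(S') = m(T) + 1` (`a` is marked in `M'`, not in `M`). So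
 `|T| + 5 m(T) = |S'| + 2 + 5 m'(S') - 5 ≤ 132` and `|S'| + 2 + m'(S') - 1 ≤ |V'(S')| + 1`.
PLAN (fold; `a0 = Γ.i e0 = Γ.i e1`, `c = l`, `b = Γ.t e0`, `a = Γ.t e1`, `Q = {(e0, true), (e0, false), (e1, true), (e1, false)}`,
 4 different arcs). `V(Q) = {a0, c, Γ.t e0, Γ.t e1}` has at most 4 elements, so by the hypothesis exactly 4 and none is
 marked. (a) as before (neither `t e0` nor `t e1` in `V(S)`). (b) otherwise `T = S ∪ Q`. Let `p` = number of arcs of
 `{(e1, true), (e1, false)}` not in `S`, `r = |V(T) \ V(S)|` restricted to `{a0, c}` i.e. number of elements of `{a0, c}` not in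
 `V(S)`; `r ≤ p` (if `(e1, false) ∈ S` then `c ∈ V(S)`, if `(e1, true) ∈ S` then `a0, c ∈ V(S)`). `|T| = |S| + 2 + p`,
 `|V(T)| = |V'(S')| + r + 1`, `m'(S') = m(T) + 1`. So `|T| + 5 m(T) ≤ 132` and
 `|S'| + 2 + p + m'(S') - 1 ≤ |V'(S')| + r + 1`, hence the claim.
-/

namespace Pool.Agent.LOT

open Finset

section
variable {V E : Type} [DecidableEq V] [DecidableEq E]

private theorem coll_self' {b : V} {a : {v : V // v ≠ b}} : coll b a b = a := by
  unfold coll
  rw [dif_pos rfl]

private theorem coll_of_ne {b : V} {a : {v : V // v ≠ b}} {v : V} (h : v ≠ b) :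
    coll b a v = ⟨v, h⟩ := by
  unfold coll
  rw [dif_neg h]

private theorem coll_inj {b : V} {a : {v : V // v ≠ b}} {v w : V} (hv : v ≠ b) (hw : w ≠ b)
    (h : coll b a v = coll b a w) : v = w := by
  rw [coll_of_ne hv, coll_of_ne hw] at h
  exact congrArg Subtype.val h

private theorem coll_eq_a {b : V} {a : {v : V // v ≠ b}} {v : V} (h : coll b a v = a) :
    v = a.1 ∨ v = b := by
  by_cases hv : v = b
  · exact Or.inr hv
  · rw [coll_of_ne hv] at h
    left
    exact congrArg Subtype.val h

private theorem vset_coll (Γ : LOG V E) (e0 : E) (b : V) (a : {v : V // v ≠ b})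
    (S' : Finset ({e : E // e ≠ e0} × Bool)) :
    vset (Γ.collapse e0 b a).tl (Γ.collapse e0 b a).hd S' =
      (vset Γ.tl Γ.hd (S'.image (fun x => (x.1.1, x.2)))).image (coll b a) := by
  unfold vset
  rw [Finset.image_union, Finset.image_image, Finset.image_image, Finset.image_image,
    Finset.image_image]
  congr 1
  apply Finset.image_congr
  intro x _
  obtain ⟨e, s⟩ := x
  cases s <;> rfl

/-- the part without the two ends of the fold -/
private theorem count_a {b : V} {a : {v : V // v ≠ b}} {W M : Finset V} (haW : a.1 ∉ W)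
    (hbW : b ∉ W) (hbM : b ∉ M) :
    (W.image (coll b a)).card = W.card ∧
      (W.image (coll b a) ∩ insert a (M.image (coll b a))).card = (W ∩ M).card := by
  have hinj : ∀ A : Finset V, b ∉ A → (A.image (coll b a)).card = A.card := by
    intro A hA
    apply Finset.card_image_of_injOn
    intro v hv w hw h
    exact coll_inj (ne_of_mem_of_not_mem (Finset.mem_coe.1 hv) hA)
      (ne_of_mem_of_not_mem (Finset.mem_coe.1 hw) hA) h
  refine ⟨hinj W hbW, ?_⟩
  have h1 : W.image (coll b a) ∩ insert a (M.image (coll b a)) = (W ∩ M).image (coll b a) := by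
    ext v'
    rw [Finset.mem_inter, Finset.mem_insert, Finset.mem_image, Finset.mem_image, Finset.mem_image]
    constructor
    · rintro ⟨⟨v, hv, rfl⟩, h2 | ⟨w, hw, h3⟩⟩
      · rcases coll_eq_a h2 with h4 | h4
        · exact absurd (h4 ▸ hv) haW
        · exact absurd (h4 ▸ hv) hbW
      · have h4 : w = v := coll_inj (ne_of_mem_of_not_mem hw hbM) (ne_of_mem_of_not_mem hv hbW) h3
        exact ⟨v, Finset.mem_inter.2 ⟨hv, h4 ▸ hw⟩, rfl⟩
    · rintro ⟨v, hv, rfl⟩
      rw [Finset.mem_inter] at hv
      exact ⟨⟨v, hv.1, rfl⟩, Or.inr ⟨v, hv.2, rfl⟩⟩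
  rw [h1]
  exact hinj _ (fun h => hbW (Finset.mem_inter.1 h).1)

private theorem count_b {b : V} {a : {v : V // v ≠ b}} {W M : Finset V}
    (h : a.1 ∈ W ∨ b ∈ W) (haM : a.1 ∉ M) (hbM : b ∉ M) :
    (W ∪ {a.1, b}).card = (W.image (coll b a)).card + 1 ∧
      (W.image (coll b a) ∩ insert a (M.image (coll b a))).card = (W ∩ M).card + 1 := by
  have hinj : ∀ A : Finset V, b ∉ A → (A.image (coll b a)).card = A.card := by
    intro A hA
    apply Finset.card_image_of_injOn
    intro v hv w hw h
    exact coll_inj (ne_of_mem_of_not_mem (Finset.mem_coe.1 hv) hA)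
      (ne_of_mem_of_not_mem (Finset.mem_coe.1 hw) hA) h
  have hca : coll b a a.1 = a := by
    rw [coll_of_ne a.2]
  have haV : a ∈ W.image (coll b a) := by
    rw [Finset.mem_image]
    rcases h with h | h
    · exact ⟨a.1, h, hca⟩
    · exact ⟨b, h, coll_self'⟩
  constructor
  · have h1 : W.image (coll b a) = ((W ∪ {a.1, b}).erase b).image (coll b a) := by
      ext v'
      rw [Finset.mem_image, Finset.mem_image]
      constructor
      · rintro ⟨v, hv, rfl⟩
        by_cases hvb : v = b
        · refine ⟨a.1, ?_, ?_⟩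
          · rw [Finset.mem_erase]
            exact ⟨a.2, Finset.mem_union_right _ (by simp)⟩
          · rw [hca, hvb, coll_self']
        · exact ⟨v, Finset.mem_erase.2 ⟨hvb, Finset.mem_union_left _ hv⟩, rfl⟩
      · rintro ⟨v, hv, rfl⟩
        rw [Finset.mem_erase, Finset.mem_union] at hv
        obtain ⟨h2, h3 | h3⟩ := hv
        · exact ⟨v, h3, rfl⟩
        · rw [Finset.mem_insert, Finset.mem_singleton] at h3
          rcases h3 with h3 | h3
          · rw [h3, hca]
            exact Finset.mem_image.1 haV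
          · exact absurd h3 h2
    rw [h1, hinj _ (Finset.notMem_erase _ _)]
    rw [Finset.card_erase_of_mem (Finset.mem_union_right _ (by simp))]
    have h2 : 0 < (W ∪ {a.1, b}).card :=
      Finset.card_pos.2 ⟨b, Finset.mem_union_right _ (by simp)⟩
    omega
  · have h1 : W.image (coll b a) ∩ insert a (M.image (coll b a)) =
        insert a ((W ∩ M).image (coll b a)) := by
      ext v'
      rw [Finset.mem_inter, Finset.mem_insert, Finset.mem_insert]
      constructor
      · rintro ⟨h2, h3 | h3⟩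
        · exact Or.inl h3
        · obtain ⟨v, hv, rfl⟩ := Finset.mem_image.1 h2
          obtain ⟨w, hw, h4⟩ := Finset.mem_image.1 h3
          by_cases hvb : v = b
          · left
            rw [hvb, coll_self']
          · right
            have h5 : w = v := coll_inj (ne_of_mem_of_not_mem hw hbM) hvb h4
            exact Finset.mem_image.2 ⟨v, Finset.mem_inter.2 ⟨hv, h5 ▸ hw⟩, rfl⟩
      · rintro (h2 | h2)
        · rw [h2]
          exact ⟨haV, Or.inl rfl⟩
        · obtain ⟨v, hv, rfl⟩ := Finset.mem_image.1 h2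
          rw [Finset.mem_inter] at hv
          exact ⟨Finset.mem_image_of_mem _ hv.1, Or.inr (Finset.mem_image_of_mem _ hv.2)⟩
    rw [h1, Finset.card_insert_of_notMem, hinj _ (fun h => hbM (Finset.mem_inter.1 h).2)]
    intro h2
    obtain ⟨v, hv, h3⟩ := Finset.mem_image.1 h2
    rw [Finset.mem_inter] at hv
    rcases coll_eq_a h3 with h4 | h4
    · exact haM (h4 ▸ hv.2)
    · exact hbM (h4 ▸ hv.2)

private theorem tl_mem (Γ : LOG V E) {S : Finset (E × Bool)} {x : E × Bool} (h : x ∈ S) :
    Γ.tl x ∈ vset Γ.tl Γ.hd S :=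
  Finset.mem_union_left _ (Finset.mem_image_of_mem _ h)

private theorem hd_mem (Γ : LOG V E) {S : Finset (E × Bool)} {x : E × Bool} (h : x ∈ S) :
    Γ.hd x ∈ vset Γ.tl Γ.hd S :=
  Finset.mem_union_right _ (Finset.mem_image_of_mem _ h)

theorem marks_fold_i {Γ : LOG V E} {M : Finset V} (hS : SparseM Γ.tl Γ.hd 132 M) (e0 e1 : E)
    (he : e1 ≠ e0) (hl : Γ.l e0 = Γ.l e1) (hi : Γ.i e0 = Γ.i e1) :
    ∃ hne : Γ.t e1 ≠ Γ.t e0,
      SparseM (Γ.collapse e0 (Γ.t e0) ⟨Γ.t e1, hne⟩).tl (Γ.collapse e0 (Γ.t e0) ⟨Γ.t e1, hne⟩).hd 132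
        (insert ⟨Γ.t e1, hne⟩ (M.image (coll (Γ.t e0) ⟨Γ.t e1, hne⟩))) := by
  obtain ⟨Q, hQ⟩ : ∃ Q : Finset (E × Bool),
      Q = {(e0, true), (e0, false), (e1, true), (e1, false)} := ⟨_, rfl⟩
  have he' : e0 ≠ e1 := Ne.symm he
  have hQc : Q.card = 4 := by
    rw [hQ, Finset.card_insert_of_notMem, Finset.card_insert_of_notMem,
      Finset.card_insert_of_notMem, Finset.card_singleton]
    · simp
    · simp [he']
    · simp [he']
  have hQv : vset Γ.tl Γ.hd Q = {Γ.i e0, Γ.t e0, Γ.t e1, Γ.l e0} := by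
    rw [hQ]
    unfold vset LOG.tl LOG.hd
    ext v
    simp only [Finset.mem_union, Finset.mem_image, Finset.mem_insert, Finset.mem_singleton]
    constructor
    · rintro (⟨x, hx, rfl⟩ | ⟨x, hx, rfl⟩)
      · rcases hx with rfl | rfl | rfl | rfl <;> simp [hi]
      · rcases hx with rfl | rfl | rfl | rfl <;> simp [hl]
    · rintro (rfl | rfl | rfl | rfl)
      · exact Or.inl ⟨(e0, true), by simp, by simp⟩
      · exact Or.inl ⟨(e0, false), by simp, by simp⟩
      · exact Or.inl ⟨(e1, false), by simp, by simp⟩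
      · exact Or.inr ⟨(e0, true), by simp, rfl⟩
  have hQ4 : (vset Γ.tl Γ.hd Q).card ≤ 4 := by
    rw [hQv]
    exact Finset.card_le_four
  have hQm : (vset Γ.tl Γ.hd Q ∩ M).card ≤ 4 :=
    (Finset.card_le_card Finset.inter_subset_left).trans hQ4
  have hQS := hS Q (by rw [hQc]; omega)
  rw [hQc] at hQS
  have hQm0 : (vset Γ.tl Γ.hd Q ∩ M).card = 0 := by omega
  have hQv4 : (vset Γ.tl Γ.hd Q).card = 4 := by omega
  rw [Finset.card_eq_zero] at hQm0
  have hnm : ∀ v ∈ vset Γ.tl Γ.hd Q, v ∉ M := by
    intro v hv hvM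
    have h1 : v ∈ vset Γ.tl Γ.hd Q ∩ M := Finset.mem_inter.2 ⟨hv, hvM⟩
    rw [hQm0] at h1
    exact absurd h1 (Finset.notMem_empty _)
  have hne : Γ.t e1 ≠ Γ.t e0 := by
    intro h
    rw [hQv, h] at hQv4
    have h1 : ({Γ.i e0, Γ.t e0, Γ.t e0, Γ.l e0} : Finset V) = {Γ.i e0, Γ.t e0, Γ.l e0} := by
      ext v
      simp
    rw [h1] at hQv4
    have h2 : ({Γ.i e0, Γ.t e0, Γ.l e0} : Finset V).card ≤ 3 := Finset.card_le_three
    omega
  refine ⟨hne, ?_⟩
  intro S' hS'
  obtain ⟨S, hSdef⟩ : ∃ S : Finset (E × Bool),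
      S = S'.image (fun x : {e : E // e ≠ e0} × Bool => (x.1.1, x.2)) := ⟨_, rfl⟩
  rw [vset_coll, ← hSdef] at hS' ⊢
  obtain ⟨W, hW⟩ : ∃ W : Finset V, W = vset Γ.tl Γ.hd S := ⟨_, rfl⟩
  rw [← hW] at hS' ⊢
  have hSc : S.card = S'.card := by
    rw [hSdef]
    apply Finset.card_image_of_injective
    intro x y hxy
    have h1 := congrArg Prod.fst hxy
    have h2 := congrArg Prod.snd hxy
    exact Prod.ext (Subtype.ext h1) h2
  have hSe0 : ∀ s, (e0, s) ∉ S := by
    intro s hs
    rw [hSdef] at hs
    obtain ⟨x, _, hx⟩ := Finset.mem_image.1 hs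
    exact x.1.2 (congrArg Prod.fst hx)
  have hbM : Γ.t e0 ∉ M := hnm _ (by rw [hQv]; simp)
  have haM : Γ.t e1 ∉ M := hnm _ (by rw [hQv]; simp)
  by_cases hab : Γ.t e1 ∈ W ∨ Γ.t e0 ∈ W
  · obtain ⟨k1, k2⟩ := count_b (a := ⟨Γ.t e1, hne⟩) hab haM hbM
    rw [k2] at hS' ⊢
    -- the union
    have hT1 : (S ∪ Q).card = S.card + (Q \ S).card := by
      rw [← Finset.union_sdiff_self_eq_union, Finset.card_union_of_disjoint]
      exact Finset.disjoint_sdiff
    have hQS4 : (Q \ S).card ≤ 4 := by
      rw [← hQc]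
      exact Finset.card_le_card Finset.sdiff_subset
    have hVT : vset Γ.tl Γ.hd (S ∪ Q) = W ∪ vset Γ.tl Γ.hd Q := by
      rw [hW]
      unfold vset
      rw [Finset.image_union, Finset.image_union]
      ext v
      simp only [Finset.mem_union]
      tauto
    have hmT : vset Γ.tl Γ.hd (S ∪ Q) ∩ M = W ∩ M := by
      rw [hVT]
      ext v
      rw [Finset.mem_inter, Finset.mem_inter, Finset.mem_union]
      constructor
      · rintro ⟨h1 | h1, h2⟩
        · exact ⟨h1, h2⟩
        · exact absurd h2 (hnm v h1)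
      · rintro ⟨h1, h2⟩
        exact ⟨Or.inl h1, h2⟩
    have hcT : (vset Γ.tl Γ.hd (S ∪ Q)).card ≤
        (W ∪ {Γ.t e1, Γ.t e0}).card + (({Γ.i e0, Γ.l e0} : Finset V) \ W).card := by
      have h1 : vset Γ.tl Γ.hd (S ∪ Q) ⊆
          (W ∪ {Γ.t e1, Γ.t e0}) ∪ (({Γ.i e0, Γ.l e0} : Finset V) \ W) := by
        rw [hVT, hQv]
        intro v hv
        simp only [Finset.mem_union, Finset.mem_insert, Finset.mem_singleton,
          Finset.mem_sdiff] at hv ⊢
        tauto
      exact (Finset.card_le_card h1).trans (Finset.card_union_le _ _)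
    have hkey : (({Γ.i e0, Γ.l e0} : Finset V) \ W).card + 2 ≤ (Q \ S).card := by
      have h00 : (e0, true) ∈ Q \ S := by
        rw [Finset.mem_sdiff]
        exact ⟨by rw [hQ]; simp, hSe0 true⟩
      have h01 : (e0, false) ∈ Q \ S := by
        rw [Finset.mem_sdiff]
        exact ⟨by rw [hQ]; simp, hSe0 false⟩
      by_cases h1 : (e1, true) ∈ S
      · have hc : Γ.l e0 ∈ W := by
          rw [hW, hl]
          exact hd_mem Γ h1
        have ha : Γ.i e0 ∈ W := by
          rw [hW, hi]
          exact tl_mem Γ h1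
        have h2 : (({Γ.i e0, Γ.l e0} : Finset V) \ W) = ∅ := by
          rw [Finset.sdiff_eq_empty_iff_subset]
          intro v hv
          rw [Finset.mem_insert, Finset.mem_singleton] at hv
          rcases hv with rfl | rfl
          · exact ha
          · exact hc
        rw [h2, Finset.card_empty, zero_add]
        have h3 : ({(e0, true), (e0, false)} : Finset (E × Bool)) ⊆ Q \ S := by
          intro x hx
          rw [Finset.mem_insert, Finset.mem_singleton] at hx
          rcases hx with rfl | rfl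
          · exact h00
          · exact h01
        refine le_trans (le_of_eq ?_) (Finset.card_le_card h3)
        rw [Finset.card_pair]
        simp
      · have h10 : (e1, true) ∈ Q \ S := by
          rw [Finset.mem_sdiff]
          exact ⟨by rw [hQ]; simp, h1⟩
        by_cases h2 : (e1, false) ∈ S
        · have hc : Γ.l e0 ∈ W := by
            rw [hW, hl]
            exact hd_mem Γ h2
          have h4 : (({Γ.i e0, Γ.l e0} : Finset V) \ W) ⊆ {Γ.i e0} := by
            intro v hv
            rw [Finset.mem_sdiff, Finset.mem_insert, Finset.mem_singleton] at hv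
            rw [Finset.mem_singleton]
            rcases hv.1 with h5 | h5
            · exact h5
            · exact absurd (h5 ▸ hc) hv.2
          have h5 := Finset.card_le_card h4
          rw [Finset.card_singleton] at h5
          have h3 : ({(e0, true), (e0, false), (e1, true)} : Finset (E × Bool)) ⊆ Q \ S := by
            intro x hx
            rw [Finset.mem_insert, Finset.mem_insert, Finset.mem_singleton] at hx
            rcases hx with rfl | rfl | rfl
            · exact h00
            · exact h01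
            · exact h10
          have h6 := Finset.card_le_card h3
          have h7 : ({(e0, true), (e0, false), (e1, true)} : Finset (E × Bool)).card = 3 := by
            rw [Finset.card_insert_of_notMem, Finset.card_insert_of_notMem,
              Finset.card_singleton]
            · simp [he']
            · simp [he']
          omega
        · have h4 : Q \ S = Q := by
            rw [Finset.sdiff_eq_self_iff_disjoint, Finset.disjoint_left]
            intro x hx
            rw [hQ] at hx
            simp only [Finset.mem_insert, Finset.mem_singleton] at hx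
            rcases hx with rfl | rfl | rfl | rfl
            · exact hSe0 true
            · exact hSe0 false
            · exact h1
            · exact h2
          rw [h4, hQc]
          have h5 : (({Γ.i e0, Γ.l e0} : Finset V) \ W).card ≤ 2 :=
            (Finset.card_le_card Finset.sdiff_subset).trans Finset.card_le_two
          omega
    have hfin := hS (S ∪ Q) (by rw [hmT, hT1, hSc]; omega)
    rw [hmT, hT1, hSc] at hfin
    have k1' : (W ∪ {Γ.t e1, Γ.t e0}).card =
      (W.image (coll (Γ.t e0) ⟨Γ.t e1, hne⟩)).card + 1 := k1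
    omega
  · have haW : Γ.t e1 ∉ W := fun h => hab (Or.inl h)
    have hbW : Γ.t e0 ∉ W := fun h => hab (Or.inr h)
    obtain ⟨k1, k2⟩ := count_a (a := ⟨Γ.t e1, hne⟩) (M := M) haW hbW hbM
    rw [k2] at hS'
    rw [k1, k2]
    have h1 := hS S (by rw [hSc, ← hW]; exact hS')
    rw [← hW, hSc] at h1
    exact h1

end

end Pool.Agent.LOT
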