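import Pool.Agent.LOT.MarksI

/-!
# LOT-MarksT: sparsity with marked vertices is preserved by folds at the terminal vertex

Obtained from `marks_fold_i` by exchanging the initial and the terminal vertices of all edges.
-/

namespace Pool.Agent.LOT

open Finset

section
variable {V E : Type} [DecidableEq V] [DecidableEq E]

/-- exchange the initial and the terminal vertices -/
private def flipL {V E : Type} (Γ : LOG V E) : LOG V E where
  i := Γ.t
  t := Γ.i
  l := Γ.l

private theorem sparseM_flip {V E : Type} [DecidableEq V] [DecidableEq E] {Γ : LOG V E} {N : ℕ}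
    {M : Finset V} (h : SparseM Γ.tl Γ.hd N M) :
    SparseM (flipL Γ).tl (flipL Γ).hd N M := by
  intro S hS
  let g : E × Bool → E × Bool := fun x => (x.1, !x.2)
  have hg : Function.Injective g := by
    rintro ⟨e, c⟩ ⟨e', c'⟩ hx
    simp only [g, Prod.mk.injEq] at hx
    rw [Prod.mk.injEq]
    exact ⟨hx.1, Bool.not_inj hx.2⟩
  have htl : ∀ x, Γ.tl (g x) = (flipL Γ).tl x := by
    rintro ⟨e, c⟩
    cases c <;> rfl
  have hhd : ∀ x, Γ.hd (g x) = (flipL Γ).hd x := fun x => rfl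
  have hcard : (S.image g).card = S.card := Finset.card_image_of_injective S hg
  have hv : vset Γ.tl Γ.hd (S.image g) = vset (flipL Γ).tl (flipL Γ).hd S := by
    unfold vset
    rw [Finset.image_image, Finset.image_image]
    congr 1
    exact Finset.image_congr fun x _ => htl x
  have h1 := h (S.image g)
  rw [hcard, hv] at h1
  exact h1 hS

theorem marks_fold_t {Γ : LOG V E} {M : Finset V} (hS : SparseM Γ.tl Γ.hd 132 M) (e0 e1 : E)
    (he : e1 ≠ e0) (hl : Γ.l e0 = Γ.l e1) (ht : Γ.t e0 = Γ.t e1) :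
    ∃ hne : Γ.i e1 ≠ Γ.i e0,
      SparseM (Γ.collapse e0 (Γ.i e0) ⟨Γ.i e1, hne⟩).tl (Γ.collapse e0 (Γ.i e0) ⟨Γ.i e1, hne⟩).hd 132
        (insert ⟨Γ.i e1, hne⟩ (M.image (coll (Γ.i e0) ⟨Γ.i e1, hne⟩))) := by
  have hf : SparseM (flipL Γ).tl (flipL Γ).hd 132 M := sparseM_flip hS
  obtain ⟨hne, h⟩ := marks_fold_i (Γ := flipL Γ) hf e0 e1 he hl ht
  have hne' : Γ.i e1 ≠ Γ.i e0 := hne
  refine ⟨hne', ?_⟩
  have h2 := sparseM_flip (Γ := (flipL Γ).collapse e0 (Γ.i e0) ⟨Γ.i e1, hne'⟩) h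
  exact h2

end

end Pool.Agent.LOT
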