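import Pool.Agent.LOT.MarksL
import Pool.Agent.LOT.MarksI
import Pool.Agent.LOT.MarksT
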