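import Pool.Agent.LOT.Defs

/-!
# LOT-Pres: collapsing an edge does not change the group

PLAN. `π = coll b a`, `Γ' = Γ.collapse e0 b a`, `gen' v = gen v.1`. `gen' (π v) = gen v` (cases `v = b`), hence
`FreeGroup.lift gen' (FreeGroup.map π x) = FreeGroup.lift gen x` (`FreeGroup.induction_on` or `FreeGroup.lift` ext).
`FreeGroup.map π` is surjective (`π` is: `π v.1 = v`). So `lift gen'` is surjective and
`(lift gen').ker = (lift gen).ker.map (FreeGroup.map π)` (`⊇` clear; `⊆`: lift `y` to `x`)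
`= (normalClosure (range Γ.rel)).map _ = normalClosure (FreeGroup.map π '' range Γ.rel)` (`Subgroup.map_normalClosure`,
surjective). `FreeGroup.map π (Γ.rel e) = Γ'.rel ⟨e, _⟩` for `e ≠ e0` (by `simp [LOG.rel, LOG.relw]`) and
`FreeGroup.map π (Γ.rel e0)` lies in the normal closure of the others by `h0`; `le_antisymm` with
`Subgroup.normalClosure_le_normal` / `Subgroup.normalClosure_mono`.
`pres_loop`, `pres_fold_i`, `pres_fold_t`: apply `pres_collapse`; `gen a = gen b` from the relation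
`gen i * gen l = gen l * gen t` (loop: `l = i` gives `gen i = gen t`; fold: cancel). In the loop case the image of the relator
is `a a a⁻¹ a⁻¹ = 1`; in the fold cases it is the image of the relator of `e1`.
-/

namespace Pool.Agent.LOT

section
variable {V E : Type} [DecidableEq V] {G : Type} [Group G]

private theorem lift_rel (Γ : LOG V E) (gen : V → G) (e : E) :
    FreeGroup.lift gen (Γ.rel e)
      = gen (Γ.i e) * (gen (Γ.l e) * ((gen (Γ.t e))⁻¹ * (gen (Γ.l e))⁻¹)) := by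
  simp [LOG.rel, LOG.relw, FreeGroup.lift_mk]

theorem rel_of_pres {Γ : LOG V E} {gen : V → G} (hP : IsPres Γ gen) (e : E) :
    gen (Γ.i e) * gen (Γ.l e) = gen (Γ.l e) * gen (Γ.t e) := by
  have h : Γ.rel e ∈ (FreeGroup.lift gen).ker := by
    rw [hP.ker]
    exact Subgroup.subset_normalClosure ⟨e, rfl⟩
  rw [MonoidHom.mem_ker, lift_rel] at h
  have h2 : gen (Γ.i e) * gen (Γ.l e) * (gen (Γ.l e) * gen (Γ.t e))⁻¹ = 1 := by
    rw [mul_inv_rev, ← h]
    group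
  exact mul_inv_eq_one.mp h2

private theorem map_rel (Γ : LOG V E) (b : V) (a : {v : V // v ≠ b}) (e : E) :
    FreeGroup.map (coll b a) (Γ.rel e)
      = FreeGroup.mk [(coll b a (Γ.i e), true), (coll b a (Γ.l e), true),
        (coll b a (Γ.t e), false), (coll b a (Γ.l e), false)] := by
  simp [LOG.rel, LOG.relw]

private theorem map_rel_ne (Γ : LOG V E) (b : V) (a : {v : V // v ≠ b}) (e0 e : E) (he : e ≠ e0) :
    FreeGroup.map (coll b a) (Γ.rel e) = (Γ.collapse e0 b a).rel ⟨e, he⟩ := by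
  rw [map_rel]
  rfl

private theorem coll_coe (b : V) (a : {v : V // v ≠ b}) (v : {v : V // v ≠ b}) :
    coll b a v.1 = v := by
  simp [coll, v.2]

private theorem gen_coll {gen : V → G} (b : V) (a : {v : V // v ≠ b}) (hab : gen a.1 = gen b)
    (v : V) : gen (coll b a v).1 = gen v := by
  unfold coll
  split_ifs with h
  · rw [hab, h]
  · rfl

theorem pres_collapse {Γ : LOG V E} {gen : V → G} (hP : IsPres Γ gen) (e0 : E) (b : V)
    (a : {v : V // v ≠ b}) (hab : gen a.1 = gen b)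
    (h0 : FreeGroup.map (coll b a) (Γ.rel e0)
      ∈ Subgroup.normalClosure (Set.range (Γ.collapse e0 b a).rel)) :
    IsPres (Γ.collapse e0 b a) (fun v => gen v.1) := by
  have hcomp : (FreeGroup.lift (fun v : {v : V // v ≠ b} => gen v.1)).comp
      (FreeGroup.map (coll b a)) = FreeGroup.lift gen := by
    refine FreeGroup.ext_hom _ _ ?_
    intro v
    simp only [MonoidHom.comp_apply, FreeGroup.map.of, FreeGroup.lift_apply_of]
    exact gen_coll b a hab v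
  have hcomp' : ∀ x, FreeGroup.lift (fun v : {v : V // v ≠ b} => gen v.1)
      (FreeGroup.map (coll b a) x) = FreeGroup.lift gen x := by
    intro x
    rw [← hcomp]
    rfl
  have hsurj : Function.Surjective (FreeGroup.map (coll b a)) := by
    intro y
    refine ⟨FreeGroup.map (fun v : {v : V // v ≠ b} => v.1) y, ?_⟩
    rw [← MonoidHom.comp_apply]
    have : (FreeGroup.map (coll b a)).comp (FreeGroup.map (fun v : {v : V // v ≠ b} => v.1))
        = MonoidHom.id _ := by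
      refine FreeGroup.ext_hom _ _ ?_
      intro v
      simp only [MonoidHom.comp_apply, FreeGroup.map.of, MonoidHom.id_apply]
      rw [coll_coe]
    rw [this]
    rfl
  constructor
  · intro g
    obtain ⟨x, hx⟩ := hP.surj g
    exact ⟨FreeGroup.map (coll b a) x, by rw [hcomp', hx]⟩
  · have hker : (FreeGroup.lift (fun v : {v : V // v ≠ b} => gen v.1)).ker
        = ((FreeGroup.lift gen).ker).map (FreeGroup.map (coll b a)) := by
      ext y
      rw [MonoidHom.mem_ker, Subgroup.mem_map]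
      constructor
      · intro hy
        obtain ⟨x, rfl⟩ := hsurj y
        exact ⟨x, by rw [MonoidHom.mem_ker, ← hcomp']; exact hy, rfl⟩
      · rintro ⟨x, hx, rfl⟩
        rw [hcomp']
        exact hx
    rw [hker, hP.ker, Subgroup.map_normalClosure _ _ hsurj]
    apply le_antisymm
    · refine Subgroup.normalClosure_le_normal ?_
      rintro _ ⟨_, ⟨e, rfl⟩, rfl⟩
      by_cases he : e = e0
      · subst he
        exact h0
      · rw [map_rel_ne Γ b a e0 e he]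
        exact Subgroup.subset_normalClosure ⟨_, rfl⟩
    · refine Subgroup.normalClosure_mono ?_
      rintro _ ⟨⟨e, he⟩, rfl⟩
      exact ⟨Γ.rel e, ⟨e, rfl⟩, map_rel_ne Γ b a e0 e he⟩

theorem pres_loop {Γ : LOG V E} {gen : V → G} (hP : IsPres Γ gen) (e0 : E)
    (hne : Γ.i e0 ≠ Γ.t e0) (hl : Γ.l e0 = Γ.i e0 ∨ Γ.l e0 = Γ.t e0) :
    gen (Γ.i e0) = gen (Γ.t e0) ∧
    IsPres (Γ.collapse e0 (Γ.t e0) ⟨Γ.i e0, hne⟩) (fun v => gen v.1) := by
  have hr := rel_of_pres hP e0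
  have hg : gen (Γ.i e0) = gen (Γ.t e0) := by
    rcases hl with h | h
    · rw [h] at hr
      exact mul_left_cancel hr
    · rw [h] at hr
      exact mul_right_cancel hr
  refine ⟨hg, pres_collapse hP e0 _ _ hg ?_⟩
  have h1 : coll (Γ.t e0) ⟨Γ.i e0, hne⟩ (Γ.i e0) = ⟨Γ.i e0, hne⟩ := by
    simp [coll, hne]
  have h2 : coll (Γ.t e0) ⟨Γ.i e0, hne⟩ (Γ.t e0) = ⟨Γ.i e0, hne⟩ := by
    simp [coll]
  have h3 : coll (Γ.t e0) ⟨Γ.i e0, hne⟩ (Γ.l e0) = ⟨Γ.i e0, hne⟩ := by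
    rcases hl with h | h
    · rw [h]; exact h1
    · rw [h]; exact h2
  have h4 : FreeGroup.map (coll (Γ.t e0) ⟨Γ.i e0, hne⟩) (Γ.rel e0) = 1 := by
    rw [map_rel, h1, h2, h3]
    have : (FreeGroup.mk [((⟨Γ.i e0, hne⟩ : {v : V // v ≠ Γ.t e0}), true), (⟨Γ.i e0, hne⟩, true),
        (⟨Γ.i e0, hne⟩, false), (⟨Γ.i e0, hne⟩, false)])
        = FreeGroup.of ⟨Γ.i e0, hne⟩ * FreeGroup.of ⟨Γ.i e0, hne⟩ *
          (FreeGroup.of ⟨Γ.i e0, hne⟩)⁻¹ * (FreeGroup.of ⟨Γ.i e0, hne⟩)⁻¹ := by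
      simp [FreeGroup.of, FreeGroup.invRev]
    rw [this]
    group
  rw [h4]
  exact Subgroup.one_mem _

theorem pres_fold_i {Γ : LOG V E} {gen : V → G} (hP : IsPres Γ gen) (e0 e1 : E) (he : e1 ≠ e0)
    (hl : Γ.l e0 = Γ.l e1) (hi : Γ.i e0 = Γ.i e1) (hne : Γ.t e1 ≠ Γ.t e0) :
    gen (Γ.t e1) = gen (Γ.t e0) ∧
    IsPres (Γ.collapse e0 (Γ.t e0) ⟨Γ.t e1, hne⟩) (fun v => gen v.1) := by
  have hr0 := rel_of_pres hP e0
  have hr1 := rel_of_pres hP e1
  have hg : gen (Γ.t e1) = gen (Γ.t e0) := by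
    rw [hl, hi, hr1] at hr0
    exact mul_left_cancel hr0
  refine ⟨hg, pres_collapse hP e0 _ _ hg ?_⟩
  have h1 : FreeGroup.map (coll (Γ.t e0) ⟨Γ.t e1, hne⟩) (Γ.rel e0)
      = FreeGroup.map (coll (Γ.t e0) ⟨Γ.t e1, hne⟩) (Γ.rel e1) := by
    rw [map_rel, map_rel, hl, hi]
    have h2 : coll (Γ.t e0) ⟨Γ.t e1, hne⟩ (Γ.t e0) = ⟨Γ.t e1, hne⟩ := by
      simp [coll]
    have h3 : coll (Γ.t e0) ⟨Γ.t e1, hne⟩ (Γ.t e1) = ⟨Γ.t e1, hne⟩ := by
      simp [coll, hne]
    rw [h2, h3]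
  rw [h1, map_rel_ne Γ _ _ e0 e1 he]
  exact Subgroup.subset_normalClosure ⟨_, rfl⟩

theorem pres_fold_t {Γ : LOG V E} {gen : V → G} (hP : IsPres Γ gen) (e0 e1 : E) (he : e1 ≠ e0)
    (hl : Γ.l e0 = Γ.l e1) (ht : Γ.t e0 = Γ.t e1) (hne : Γ.i e1 ≠ Γ.i e0) :
    gen (Γ.i e1) = gen (Γ.i e0) ∧
    IsPres (Γ.collapse e0 (Γ.i e0) ⟨Γ.i e1, hne⟩) (fun v => gen v.1) := by
  have hr0 := rel_of_pres hP e0
  have hr1 := rel_of_pres hP e1
  have hg : gen (Γ.i e1) = gen (Γ.i e0) := by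
    rw [hl, ht, ← hr1] at hr0
    exact (mul_right_cancel hr0).symm
  refine ⟨hg, pres_collapse hP e0 _ _ hg ?_⟩
  have h1 : FreeGroup.map (coll (Γ.i e0) ⟨Γ.i e1, hne⟩) (Γ.rel e0)
      = FreeGroup.map (coll (Γ.i e0) ⟨Γ.i e1, hne⟩) (Γ.rel e1) := by
    rw [map_rel, map_rel, hl, ht]
    have h2 : coll (Γ.i e0) ⟨Γ.i e1, hne⟩ (Γ.i e0) = ⟨Γ.i e1, hne⟩ := by
      simp [coll]
    have h3 : coll (Γ.i e0) ⟨Γ.i e1, hne⟩ (Γ.i e1) = ⟨Γ.i e1, hne⟩ := by
      simp [coll, hne]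
    rw [h2, h3]
  rw [h1, map_rel_ne Γ _ _ e0 e1 he]
  exact Subgroup.subset_normalClosure ⟨_, rfl⟩

end

end Pool.Agent.LOT
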