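import Pool.Agent.LOT.WeightTest
import Pool.Agent.LOT.ExWeight
import Pool.Agent.LOT.Pres
import Pool.Agent.LOT.Lift
import Pool.Agent.LOT.Marks

/-!
# LOT-Core: every sparse LOG is aspherical (induction on the number of edges)
-/

namespace Pool.Agent.LOT

open Finset

theorem sparse_asph_aux (N : ℕ) : ∀ (V E : Type) (_ : Fintype V) (_ : DecidableEq V) (_ : Fintype E)
    (_ : DecidableEq E) (Γ : LOG V E) (G : Type) (_ : Group G) (gen : V → G) (M : Finset V),
    Fintype.card E ≤ N → IsPres Γ gen → SparseM Γ.tl Γ.hd 132 M → Asph Γ gen := by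
  induction N with
  | zero =>
    intro V E _ _ _ _ Γ G _ gen M hc hP hS x hx
    have : IsEmpty E := Fintype.card_eq_zero_iff.1 (Nat.le_zero.1 hc)
    funext e
    exact (IsEmpty.false e).elim
  | succ N ih =>
    intro V E _ _ _ _ Γ G _ gen M hc hP hS
    have hcard : ∀ e0 : E, Fintype.card {e : E // e ≠ e0} ≤ N := by
      intro e0
      have h1 : Fintype.card {e : E // e ≠ e0} = Fintype.card E - 1 := by
        simp [Fintype.card_subtype_compl]
      omega
    by_cases hloop : ∃ e0, Γ.l e0 = Γ.i e0 ∨ Γ.l e0 = Γ.t e0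
    · obtain ⟨e0, hl⟩ := hloop
      obtain ⟨hne, hS'⟩ := marks_loop hS e0 hl
      obtain ⟨hab, hP'⟩ := pres_loop hP e0 hne hl
      exact asph_loop e0 hne hl hab (ih _ _ inferInstance inferInstance inferInstance inferInstance _ G _ _ _
        (hcard e0) hP' hS')
    push Not at hloop
    by_cases hfi : ∃ e0 e1, e1 ≠ e0 ∧ Γ.l e0 = Γ.l e1 ∧ Γ.i e0 = Γ.i e1
    · obtain ⟨e0, e1, he, hl, hi⟩ := hfi
      obtain ⟨hne, hS'⟩ := marks_fold_i hS e0 e1 he hl hi
      obtain ⟨hab, hP'⟩ := pres_fold_i hP e0 e1 he hl hi hne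
      exact asph_fold_i e0 e1 he hl hi hne hab (ih _ _ inferInstance inferInstance inferInstance inferInstance _ G _ _ _
        (hcard e0) hP' hS')
    by_cases hft : ∃ e0 e1, e1 ≠ e0 ∧ Γ.l e0 = Γ.l e1 ∧ Γ.t e0 = Γ.t e1
    · obtain ⟨e0, e1, he, hl, ht⟩ := hft
      obtain ⟨hne, hS'⟩ := marks_fold_t hS e0 e1 he hl ht
      obtain ⟨hab, hP'⟩ := pres_fold_t hP e0 e1 he hl ht hne
      exact asph_fold_t e0 e1 he hl ht hne hab (ih _ _ inferInstance inferInstance inferInstance inferInstance _ G _ _ _
        (hcard e0) hP' hS')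
    push Not at hfi hft
    have H : Hyp Γ.tl Γ.hd (fun h : E × Bool => h.2) := by
      refine ⟨?_, ?_, ?_⟩
      · rintro ⟨e, b⟩ h
        cases b
        · simp only [LOG.tl, LOG.hd, Bool.false_eq_true, if_false] at h
          exact (hloop e).2 h.symm
        · simp only [LOG.tl, LOG.hd, if_true] at h
          exact (hloop e).1 h.symm
      · rintro ⟨e, b⟩ ⟨e', b'⟩ h1 h2 h3
        simp only at h3
        subst h3
        cases b
        · simp only [LOG.tl, LOG.hd, Bool.false_eq_true, if_false] at h1 h2
          by_contra hcon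
          have hne : e' ≠ e := fun h => hcon (by rw [h])
          exact hft e e' hne h2 h1
        · simp only [LOG.tl, LOG.hd, if_true] at h1 h2
          by_contra hcon
          have hne : e' ≠ e := fun h => hcon (by rw [h])
          exact hfi e e' hne h2 h1
      · intro S hS12
        have h1 : (vset Γ.tl Γ.hd S).card ≤ 24 := by
          refine le_trans (card_union_le _ _) ?_
          have h2 := card_image_le (s := S) (f := Γ.tl)
          have h3 := card_image_le (s := S) (f := Γ.hd)
          omega
        have h2 : (vset Γ.tl Γ.hd S ∩ M).card ≤ 24 :=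
          le_trans (card_le_card inter_subset_left) h1
        have h3 := hS S (by omega)
        omega
    obtain ⟨w, hw⟩ := exists_weight Γ H
    exact weight_test hP hw

/-- MAIN DETERMINISTIC THEOREM: a LOG in which at most 132 arcs of the label graph never span fewer
vertices than arcs is aspherical -/
theorem sparse_asph {V E : Type} [Fintype V] [DecidableEq V] [Fintype E] [DecidableEq E]
    (Γ : LOG V E) {G : Type} [Group G] {gen : V → G} (hP : IsPres Γ gen)
    (hS : Sparse Γ.tl Γ.hd 132) : Asph Γ gen := by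
  refine sparse_asph_aux _ V E inferInstance inferInstance inferInstance inferInstance Γ G _ gen ∅
    le_rfl hP ?_
  intro S hc
  simp only [inter_empty, card_empty, mul_zero, add_zero] at hc ⊢
  exact hS S hc

end Pool.Agent.LOT
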