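import Pool.Agent.LOT.Defs

/-!
# LOT-CountU: number of vertex sets with many tree edges

PLAN. Induction on `p`, for all `r`. Depth of `v`: least `k` with `(pstep f)^[k] v = 0` (`hf`); `depth x.succ =
depth (f x) + 1`. For `U` with `U.card = p + 1` let `u` be an element of maximal depth (`Finset.exists_max_image`) and
`U' = U.erase u`. No `x` with `x.succ ∈ U'` has `f x = u` (its depth would be larger), so
`JU f U' = JU f U` if `u = 0` or `u = y.succ` with `f y ∉ U`, and `JU f U' = (JU f U).erase y` if `u = y.succ`, `f y ∈ U` (then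
`f y ∈ U'`). So the map `U ↦ (U', u)` is injective into the disjoint union of
`{(U', u) : (U', r) ∈ class (p, r), u arbitrary}` (at most `(n + 1) * c(p, r)` elements) and
`{(U', y.succ) : U' ∈ class (p, r - 1), f y ∈ U'}` (at most `p * Δ * c(p, r - 1)` elements, since `∑_{v ∈ U'} nch f v ≤ p Δ`).
Hence `c(p + 1, r) ≤ (n + 1) c(p, r) + p Δ c(p, r - 1)` (second term absent for `r = 0`), and the claimed bound
`c(p, r) ≤ 2^p (n + 1)^(p - r) (p Δ)^r` follows for `r ≤ p` (`c(p, r) = 0` for `r > p`, as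
`(JU f U).card ≤ U.card` via `x ↦ x.succ`).
-/

namespace Pool.Agent.LOT

open Finset

/-- tree edges inside `U` -/
def JU {n : ℕ} (f : Fin n → Fin (n + 1)) (U : Finset (Fin (n + 1))) : Finset (Fin n) :=
  univ.filter (fun x => x.succ ∈ U ∧ f x ∈ U)

theorem JU_card_le {n : ℕ} (f : Fin n → Fin (n + 1)) (U : Finset (Fin (n + 1))) :
    (JU f U).card ≤ U.card := by
  apply Finset.card_le_card_of_injOn (fun x : Fin n => x.succ)
  · intro x hx
    have h1 := Finset.mem_coe.1 hx
    unfold JU at h1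
    exact Finset.mem_coe.2 (Finset.mem_filter.1 h1).2.1
  · intro x _ y _ hxy
    exact Fin.succ_injective n hxy

private theorem exists_depth {n : ℕ} (f : Fin n → Fin (n + 1)) (hf : IsTreeFn f) :
    ∃ dep : Fin (n + 1) → ℕ, ∀ x : Fin n, dep (f x) < dep x.succ := by
  classical
  refine ⟨fun v => Nat.find (hf v), fun x => ?_⟩
  have h1 := Nat.find_spec (hf x.succ)
  obtain ⟨k, hk⟩ : ∃ k, Nat.find (hf x.succ) = k := ⟨_, rfl⟩
  rw [hk] at h1
  change Nat.find (hf (f x)) < Nat.find (hf x.succ)
  rw [hk]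
  cases k with
  | zero => exact absurd h1 (Fin.succ_ne_zero x)
  | succ k =>
    rw [Function.iterate_succ_apply] at h1
    have h2 : pstep f x.succ = f x := rfl
    rw [h2] at h1
    exact Nat.lt_succ_of_le (Nat.find_min' _ h1)

private theorem step_dec {n : ℕ} (f : Fin n → Fin (n + 1)) (hf : IsTreeFn f)
    (U : Finset (Fin (n + 1))) (p : ℕ) (hU : U.card = p + 1) :
    ∃ (u : Fin (n + 1)) (U' : Finset (Fin (n + 1))), U = insert u U' ∧ U'.card = p ∧
      ((JU f U').card = (JU f U).card ∨
        ∃ y : Fin n, u = y.succ ∧ f y ∈ U' ∧ (JU f U').card + 1 = (JU f U).card) := by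
  obtain ⟨dep, hdep⟩ := exists_depth f hf
  have hne : U.Nonempty := by
    rw [← Finset.card_pos, hU]
    exact Nat.succ_pos p
  obtain ⟨u, hu, hmax⟩ := Finset.exists_max_image U dep hne
  have hfx : ∀ x : Fin n, x.succ ∈ U → f x ≠ u := by
    intro x hx h
    have h1 := hmax _ hx
    have h2 := hdep x
    rw [h] at h2
    exact absurd h1 (not_le.2 h2)
  have hJ : JU f (U.erase u) = (JU f U).filter (fun x => x.succ ≠ u) := by
    ext x
    simp only [JU, Finset.mem_filter, Finset.mem_univ, true_and, Finset.mem_erase]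
    constructor
    · rintro ⟨⟨h1, h2⟩, h3, h4⟩
      exact ⟨⟨h2, h4⟩, h1⟩
    · rintro ⟨⟨h1, h2⟩, h3⟩
      exact ⟨⟨h3, h1⟩, hfx x h1, h2⟩
  refine ⟨u, U.erase u, (Finset.insert_erase hu).symm, ?_, ?_⟩
  · rw [Finset.card_erase_of_mem hu, hU]
    rfl
  · by_cases hy : ∃ y : Fin n, y ∈ JU f U ∧ y.succ = u
    · obtain ⟨y, hyJ, hyu⟩ := hy
      right
      have h1 := hyJ
      simp only [JU, Finset.mem_filter, Finset.mem_univ, true_and] at h1
      refine ⟨y, hyu.symm, Finset.mem_erase.2 ⟨hfx y h1.1, h1.2⟩, ?_⟩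
      have h2 : JU f (U.erase u) = (JU f U).erase y := by
        rw [hJ]
        ext x
        rw [Finset.mem_filter, Finset.mem_erase]
        constructor
        · rintro ⟨h3, h4⟩
          refine ⟨?_, h3⟩
          intro h5
          rw [h5] at h4
          exact h4 hyu
        · rintro ⟨h3, h4⟩
          refine ⟨h4, ?_⟩
          intro h5
          rw [← hyu] at h5
          exact h3 (Fin.succ_injective n h5)
      rw [h2, Finset.card_erase_of_mem hyJ]
      have h3 : 0 < (JU f U).card := Finset.card_pos.2 ⟨y, hyJ⟩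
      omega
    · left
      rw [hJ, Finset.filter_true_of_mem]
      intro x hx h
      exact hy ⟨x, hx, h⟩

/-- the class of the sets with `p` elements and `r` inner tree edges -/
private def cls {n : ℕ} (f : Fin n → Fin (n + 1)) (p r : ℕ) : Finset (Finset (Fin (n + 1))) :=
  univ.filter (fun U : Finset (Fin (n + 1)) => U.card = p ∧ (JU f U).card = r)

private theorem mem_cls {n : ℕ} (f : Fin n → Fin (n + 1)) (p r : ℕ) (U : Finset (Fin (n + 1))) :
    U ∈ cls f p r ↔ U.card = p ∧ (JU f U).card = r := by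
  unfold cls
  rw [Finset.mem_filter]
  simp

private theorem first_bd {n : ℕ} (f : Fin n → Fin (n + 1)) (p r : ℕ) :
    (((cls f p r) ×ˢ (univ : Finset (Fin (n + 1)))).image (fun z => insert z.2 z.1)).card
      ≤ (n + 1) * (cls f p r).card := by
  refine Finset.card_image_le.trans ?_
  rw [Finset.card_product, Finset.card_univ, Fintype.card_fin, mul_comm]

private theorem step_zero {n : ℕ} (f : Fin n → Fin (n + 1)) (hf : IsTreeFn f) (p : ℕ) :
    (cls f (p + 1) 0).card ≤ (n + 1) * (cls f p 0).card := by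
  refine le_trans (Finset.card_le_card ?_) (first_bd f p 0)
  intro U hU
  rw [mem_cls] at hU
  obtain ⟨u, U', h1, h2, h3⟩ := step_dec f hf U p hU.1
  rcases h3 with h3 | ⟨y, -, -, h4⟩
  · refine Finset.mem_image.2 ⟨(U', u), ?_, h1.symm⟩
    refine Finset.mem_product.2 ⟨?_, Finset.mem_univ _⟩
    rw [mem_cls]
    exact ⟨h2, by rw [h3, hU.2]⟩
  · rw [hU.2] at h4
    omega

private theorem step_succ {n : ℕ} (f : Fin n → Fin (n + 1)) (hf : IsTreeFn f) (Δ : ℕ)
    (hΔ : ∀ v, nch f v ≤ Δ) (p r : ℕ) :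
    (cls f (p + 1) (r + 1)).card ≤ (n + 1) * (cls f p (r + 1)).card +
      p * Δ * (cls f p r).card := by
  have hsub : cls f (p + 1) (r + 1) ⊆
      (((cls f p (r + 1)) ×ˢ (univ : Finset (Fin (n + 1)))).image (fun z => insert z.2 z.1)) ∪
      ((cls f p r).biUnion (fun U' =>
        (univ.filter (fun y : Fin n => f y ∈ U')).image (fun y => insert y.succ U'))) := by
    intro U hU
    rw [mem_cls] at hU
    obtain ⟨u, U', h1, h2, h3⟩ := step_dec f hf U p hU.1
    rw [Finset.mem_union]
    rcases h3 with h3 | ⟨y, h4, h5, h6⟩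
    · left
      refine Finset.mem_image.2 ⟨(U', u), ?_, h1.symm⟩
      refine Finset.mem_product.2 ⟨?_, Finset.mem_univ _⟩
      rw [mem_cls]
      exact ⟨h2, by rw [h3, hU.2]⟩
    · right
      rw [Finset.mem_biUnion]
      refine ⟨U', ?_, ?_⟩
      · rw [mem_cls]
        refine ⟨h2, ?_⟩
        rw [hU.2] at h6
        omega
      · refine Finset.mem_image.2 ⟨y, Finset.mem_filter.2 ⟨Finset.mem_univ _, h5⟩, ?_⟩
        rw [← h4]
        exact h1.symm
  refine (Finset.card_le_card hsub).trans ((Finset.card_union_le _ _).trans ?_)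
  apply Nat.add_le_add (first_bd f p (r + 1))
  refine Finset.card_biUnion_le.trans ?_
  have hb : ∀ U' ∈ cls f p r, ((univ.filter (fun y : Fin n => f y ∈ U')).image
      (fun y => insert y.succ U')).card ≤ p * Δ := by
    intro U' hU'
    rw [mem_cls] at hU'
    refine Finset.card_image_le.trans ?_
    have h1 : (univ.filter (fun y : Fin n => f y ∈ U')).card =
        ∑ v ∈ U', ((univ.filter (fun y : Fin n => f y ∈ U')).filter (fun y => f y = v)).card := by
      apply Finset.card_eq_sum_card_fiberwise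
      intro y hy
      have h2 := Finset.mem_coe.1 hy
      exact Finset.mem_coe.2 (Finset.mem_filter.1 h2).2
    rw [h1]
    have h3 : ∀ v ∈ U', ((univ.filter (fun y : Fin n => f y ∈ U')).filter
        (fun y => f y = v)).card ≤ Δ := by
      intro v _
      refine le_trans (Finset.card_le_card ?_) (hΔ v)
      intro y hy
      rw [Finset.mem_filter] at hy ⊢
      exact ⟨Finset.mem_univ _, hy.2⟩
    refine (Finset.sum_le_card_nsmul _ _ _ h3).trans ?_
    rw [hU'.1, smul_eq_mul]
  refine (Finset.sum_le_card_nsmul _ _ _ hb).trans ?_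
  rw [smul_eq_mul, mul_comm]

private theorem cls_bound {n : ℕ} (f : Fin n → Fin (n + 1)) (hf : IsTreeFn f) (Δ : ℕ)
    (hΔ : ∀ v, nch f v ≤ Δ) (p : ℕ) : ∀ r : ℕ, r ≤ p →
    (cls f p r).card ≤ 2 ^ p * (n + 1) ^ (p - r) * (p * Δ) ^ r := by
  induction p with
  | zero =>
    intro r hr
    have hr0 : r = 0 := Nat.le_zero.1 hr
    subst hr0
    have h1 : cls f 0 0 ⊆ {∅} := by
      intro U hU
      rw [mem_cls] at hU
      rw [Finset.mem_singleton]
      exact Finset.card_eq_zero.1 hU.1
    have h2 := Finset.card_le_card h1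
    simpa using h2
  | succ p ih =>
    intro r hr
    have hmono : p * Δ ≤ (p + 1) * Δ := Nat.mul_le_mul_right _ (Nat.le_succ p)
    cases r with
    | zero =>
      have h1 := step_zero f hf p
      have h2 := ih 0 (Nat.zero_le _)
      calc (cls f (p + 1) 0).card ≤ (n + 1) * (cls f p 0).card := h1
        _ ≤ (n + 1) * (2 ^ p * (n + 1) ^ (p - 0) * (p * Δ) ^ 0) := Nat.mul_le_mul_left _ h2
        _ = 2 ^ p * (n + 1) ^ (p + 1) := by
          rw [Nat.sub_zero, pow_zero, pow_succ (n + 1) p]
          ring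
        _ ≤ 2 ^ (p + 1) * (n + 1) ^ (p + 1) :=
          Nat.mul_le_mul_right _ (Nat.pow_le_pow_right (by norm_num) (Nat.le_succ p))
        _ = 2 ^ (p + 1) * (n + 1) ^ (p + 1 - 0) * ((p + 1) * Δ) ^ 0 := by
          rw [Nat.sub_zero, pow_zero, mul_one]
    | succ r =>
      have hrp : r ≤ p := Nat.le_of_succ_le_succ hr
      have h1 := step_succ f hf Δ hΔ p r
      have h2 := ih r hrp
      have h3 : (n + 1) * (cls f p (r + 1)).card ≤
          2 ^ p * (n + 1) ^ (p - r) * (p * Δ) ^ (r + 1) := by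
        by_cases hlt : r + 1 ≤ p
        · have h4 := ih (r + 1) hlt
          calc (n + 1) * (cls f p (r + 1)).card
              ≤ (n + 1) * (2 ^ p * (n + 1) ^ (p - (r + 1)) * (p * Δ) ^ (r + 1)) :=
                Nat.mul_le_mul_left _ h4
            _ = 2 ^ p * (n + 1) ^ (p - (r + 1) + 1) * (p * Δ) ^ (r + 1) := by
                rw [pow_succ (n + 1)]
                ring
            _ = 2 ^ p * (n + 1) ^ (p - r) * (p * Δ) ^ (r + 1) := by
                have h5 : p - (r + 1) + 1 = p - r := by omega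
                rw [h5]
        · have h4 : cls f p (r + 1) = ∅ := by
            rw [Finset.eq_empty_iff_forall_notMem]
            intro U hU
            rw [mem_cls] at hU
            have h5 := JU_card_le f U
            omega
          rw [h4, Finset.card_empty, mul_zero]
          exact Nat.zero_le _
      have h6 : p * Δ * (cls f p r).card ≤ 2 ^ p * (n + 1) ^ (p - r) * (p * Δ) ^ (r + 1) := by
        calc p * Δ * (cls f p r).card
            ≤ p * Δ * (2 ^ p * (n + 1) ^ (p - r) * (p * Δ) ^ r) := Nat.mul_le_mul_left _ h2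
          _ = 2 ^ p * (n + 1) ^ (p - r) * (p * Δ) ^ (r + 1) := by
              rw [pow_succ (p * Δ)]
              ring
      calc (cls f (p + 1) (r + 1)).card
          ≤ 2 ^ p * (n + 1) ^ (p - r) * (p * Δ) ^ (r + 1) +
            2 ^ p * (n + 1) ^ (p - r) * (p * Δ) ^ (r + 1) :=
            h1.trans (Nat.add_le_add h3 h6)
        _ = 2 ^ (p + 1) * (n + 1) ^ (p - r) * (p * Δ) ^ (r + 1) := by
            rw [pow_succ 2 p]
            ring
        _ ≤ 2 ^ (p + 1) * (n + 1) ^ (p - r) * ((p + 1) * Δ) ^ (r + 1) :=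
            Nat.mul_le_mul_left _ (Nat.pow_le_pow_left hmono _)
        _ = 2 ^ (p + 1) * (n + 1) ^ (p + 1 - (r + 1)) * ((p + 1) * Δ) ^ (r + 1) := by
            have h5 : p + 1 - (r + 1) = p - r := by omega
            rw [h5]

theorem card_U {n : ℕ} (f : Fin n → Fin (n + 1)) (hf : IsTreeFn f) (Δ : ℕ)
    (hΔ : ∀ v, nch f v ≤ Δ) (p r : ℕ) (hr : r ≤ p) :
    (univ.filter (fun U : Finset (Fin (n + 1)) => U.card = p ∧ (JU f U).card = r)).card
      ≤ 2 ^ p * (n + 1) ^ (p - r) * (p * Δ) ^ r := by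
  exact cls_bound f hf Δ hΔ p r hr

end Pool.Agent.LOT
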