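import Mathlib

/-!
# Project LOT (MP_c801b5_gt): common definitions

A labelled oriented graph (LOG) `Γ` with vertex set `V` and edge set `E`, the relators
`i(e) l(e) t(e)^{-1} l(e)^{-1}`, the corners of the square of an edge, diagrams.
-/

namespace Pool.Agent.LOT

open Finset

/-- A labelled oriented graph: initial vertex, terminal vertex and label of every edge. -/
structure LOG (V E : Type) where
  i : E → V
  t : E → V
  l : E → V

section
variable {V E : Type}

/-- inverse letter -/
def inv (a : V × Bool) : V × Bool := (a.1, !a.2)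

/-- the four letters of the relator `i l t^{-1} l^{-1}` -/
def LOG.side (Γ : LOG V E) (e : E) : Fin 4 → V × Bool :=
  ![(Γ.i e, true), (Γ.l e, true), (Γ.t e, false), (Γ.l e, false)]

/-- the relator as a word -/
def LOG.relw (Γ : LOG V E) (e : E) : List (V × Bool) :=
  [(Γ.i e, true), (Γ.l e, true), (Γ.t e, false), (Γ.l e, false)]

/-- the relator as an element of the free group -/
def LOG.rel (Γ : LOG V E) (e : E) : FreeGroup V := FreeGroup.mk (Γ.relw e)

/-- `gen : V → G` is a presentation of the group `G` by the generators `V` and the relators of `Γ` -/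
structure IsPres (Γ : LOG V E) {G : Type} [Group G] (gen : V → G) : Prop where
  surj : Function.Surjective (FreeGroup.lift gen)
  ker : (FreeGroup.lift gen).ker = Subgroup.normalClosure (Set.range Γ.rel)

/-- the row of the edge `e` of the Jacobian matrix (boundary `C_2 → C_1` of the universal cover) -/
noncomputable def jac [DecidableEq V] (Γ : LOG V E) {G : Type} [Group G] (gen : V → G)
    (e : E) (v : V) : MonoidAlgebra ℤ G :=
  (if Γ.i e = v then 1 else 0)
    + (if Γ.l e = v then MonoidAlgebra.single (gen (Γ.i e)) 1 else 0)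
    - (if Γ.t e = v then MonoidAlgebra.single (gen (Γ.l e)) 1 else 0)
    - (if Γ.l e = v then 1 else 0)

/-- asphericity in algebraic form: the boundary map `C_2 → C_1` of the universal cover is injective -/
def Asph [Fintype E] [DecidableEq V] (Γ : LOG V E) {G : Type} [Group G] (gen : V → G) : Prop :=
  ∀ x : E → MonoidAlgebra ℤ G, (∀ v, ∑ e, x e * jac Γ gen e v = 0) → x = 0

/-! ### corners of squares

The square of the edge `e` has corners `0,1,2,3`; side `k` goes from corner `k` to corner `k+1` and is
labelled `Γ.side e k`. -/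

/-- position of the corner `k` of the square of `e` relative to the corner `0` -/
def pt (Γ : LOG V E) {G : Type} [Group G] (gen : V → G) (e : E) : Fin 4 → G :=
  ![1, gen (Γ.i e), gen (Γ.i e) * gen (Γ.l e), gen (Γ.l e)]

/-- start corner of side `k` of a square read with sign `s` -/
def sc (s : Bool) (k : Fin 4) : Fin 4 := if s then k else k + 1

/-- end corner of side `k` of a square read with sign `s` -/
def ec (s : Bool) (k : Fin 4) : Fin 4 := if s then k + 1 else k

/-- letter read with sign `s` -/
def sgnl (s : Bool) (a : V × Bool) : V × Bool := if s then a else inv a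

/-- A (spherical) diagram over `Γ`: squares indexed by `ι`, `j` being the square of the edge `e j` read
with sign `s j` with corner `0` at `g j`; `μ` is the gluing involution of the sides `(j, k)`.
`coh` : every `ZMod 2`-cocycle is a coboundary (this replaces planarity). -/
structure Diag (Γ : LOG V E) {G : Type} [Group G] (gen : V → G) (ι : Type) [Fintype ι] where
  e : ι → E
  s : ι → Bool
  g : ι → G
  μ : ι × Fin 4 → ι × Fin 4
  invol : ∀ x, μ (μ x) = x
  lab : ∀ x, sgnl (s (μ x).1) (Γ.side (e (μ x).1) (μ x).2)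
    = inv (sgnl (s x.1) (Γ.side (e x.1) x.2))
  pos : ∀ x, g (μ x).1 * pt Γ gen (e (μ x).1) (sc (s (μ x).1) (μ x).2)
    = g x.1 * pt Γ gen (e x.1) (ec (s x.1) x.2)
  coh : ∀ φ : ι × Fin 4 → ZMod 2, (∀ x, φ (μ x) = φ x) → (∀ j, ∑ k, φ (j, k) = 0) →
    ∃ q : ι × Fin 4 → ZMod 2, (∀ j k, q (j, k) + q (j, k + 1) = φ (j, k)) ∧
      ∀ x, q ((μ x).1, sc (s (μ x).1) (μ x).2) = q (x.1, ec (s x.1) x.2)

/-- the class of a diagram in `C_2` -/
noncomputable def Diag.cls [DecidableEq E] {Γ : LOG V E} {G : Type} [Group G] {gen : V → G} {ι : Type}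
    [Fintype ι] (D : Diag Γ gen ι) : E → MonoidAlgebra ℤ G :=
  fun f => ∑ j, if D.e j = f then MonoidAlgebra.single (D.g j) (if D.s j then 1 else -1) else 0

/-- next corner around a vertex: leave the corner `(j, κ)` through the side starting there -/
def Diag.beta {Γ : LOG V E} {G : Type} [Group G] {gen : V → G} {ι : Type}
    [Fintype ι] (D : Diag Γ gen ι) (c : ι × Fin 4) : ι × Fin 4 :=
  let y := D.μ (c.1, if D.s c.1 then c.2 else c.2 - 1)
  (y.1, ec (D.s y.1) y.2)

/-! ### identity sequences -/

/-- value of a word in `G` -/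
def evw {G : Type} [Group G] (gen : V → G) (u : List (V × Bool)) : G :=
  FreeGroup.lift gen (FreeGroup.mk u)

/-- the word `u r^{s} u^{-1}` -/
def LOG.lolw (Γ : LOG V E) (a : List (V × Bool) × E × Bool) : List (V × Bool) :=
  a.1 ++ (if a.2.2 then Γ.relw a.2.1 else FreeGroup.invRev (Γ.relw a.2.1)) ++ FreeGroup.invRev a.1

/-- the class in `C_2` of a sequence -/
noncomputable def seqCls [DecidableEq E] {G : Type} [Group G] (gen : V → G)
    (h : List (List (V × Bool) × E × Bool)) : E → MonoidAlgebra ℤ G :=
  fun f => (h.map (fun a => if a.2.1 = f then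
    MonoidAlgebra.single (evw gen a.1) (if a.2.2 then (1 : ℤ) else -1) else 0)).sum

/-! ### link walks of a LOG -/

/-- incoming germ of the corner `c = (e, κ, s)` -/
def LOG.ing (Γ : LOG V E) (c : E × Fin 4 × Bool) : V × Bool :=
  if c.2.2 then inv (Γ.side c.1 (c.2.1 - 1)) else Γ.side c.1 c.2.1

/-- outgoing germ of the corner `c = (e, κ, s)` -/
def LOG.outg (Γ : LOG V E) (c : E × Fin 4 × Bool) : V × Bool :=
  if c.2.2 then Γ.side c.1 c.2.1 else inv (Γ.side c.1 (c.2.1 - 1))

/-- Gersten's weight test: every reduced closed walk in the link has weight at least 2, every square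
has weight 2 -/
def IsWeight (Γ : LOG V E) (w : E → Fin 4 → ℚ) : Prop :=
  (∀ e, ∑ k, w e k = 2) ∧
  ∀ (m : ℕ) (c : ℕ → E × Fin 4 × Bool), 0 < m → (∀ n, c (n + m) = c n) →
    (∀ n, Γ.outg (c n) = Γ.ing (c (n + 1))) →
    (∀ n, ¬ ((c n).1 = (c (n + 1)).1 ∧ (c n).2.1 = (c (n + 1)).2.1 ∧ (c n).2.2 ≠ (c (n + 1)).2.2)) →
    2 ≤ ∑ n ∈ range m, w (c n).1 (c n).2.1

/-- the map collapsing the vertex `b` onto `a` -/
def coll [DecidableEq V] (b : V) (a : {v : V // v ≠ b}) (v : V) : {v : V // v ≠ b} :=
  if h : v = b then a else ⟨v, h⟩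

/-- remove the edge `e0`, identify the vertex `b` with `a` -/
def LOG.collapse [DecidableEq V] (Γ : LOG V E) (e0 : E) (b : V) (a : {v : V // v ≠ b}) :
    LOG {v : V // v ≠ b} {e : E // e ≠ e0} where
  i := fun e => coll b a (Γ.i e.1)
  t := fun e => coll b a (Γ.t e.1)
  l := fun e => coll b a (Γ.l e.1)

/-! ### the label graph: arcs `(e, true) : i(e) → l(e)` and `(e, false) : t(e) → l(e)` -/

/-- tail of an arc -/
def LOG.tl (Γ : LOG V E) (h : E × Bool) : V := if h.2 then Γ.i h.1 else Γ.t h.1

/-- head of an arc -/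
def LOG.hd (Γ : LOG V E) (h : E × Bool) : V := Γ.l h.1

end

/-- vertex set of a set of arcs -/
def vset {V A : Type} [DecidableEq V] (tl hd : A → V) (S : Finset A) : Finset V :=
  S.image tl ∪ S.image hd

/-- sparsity of a directed multigraph: at most `N` arcs never span fewer vertices than arcs -/
def Sparse {V A : Type} [DecidableEq V] (tl hd : A → V) (N : ℕ) : Prop :=
  ∀ S : Finset A, S.card ≤ N → S.card ≤ (vset tl hd S).card

/-- sparsity with a set `M` of marked vertices -/
def SparseM {V A : Type} [DecidableEq V] (tl hd : A → V) (N : ℕ) (M : Finset V) : Prop :=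
  ∀ S : Finset A, S.card + 5 * (vset tl hd S ∩ M).card ≤ N →
    S.card + (vset tl hd S ∩ M).card ≤ (vset tl hd S).card

/-! ### abstract link walks: a step `(h, δ, d)` runs along the arc `h` between the germ `(tl h, δ)` and
the germ `(hd h, sg h)`, from tail to head iff `d = true` -/

section
variable {V A : Type}

/-- incoming germ -/
def aing (tl hd : A → V) (sg : A → Bool) (c : A × Bool × Bool) : V × Bool :=
  if c.2.2 then (tl c.1, c.2.1) else (hd c.1, sg c.1)

/-- outgoing germ -/
def aoutg (tl hd : A → V) (sg : A → Bool) (c : A × Bool × Bool) : V × Bool :=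
  if c.2.2 then (hd c.1, sg c.1) else (tl c.1, c.2.1)

/-- backtracking in the link -/
def aback (c c' : A × Bool × Bool) : Prop := c.1 = c'.1 ∧ c.2.1 = c'.2.1 ∧ c.2.2 ≠ c'.2.2

/-- antiparallel pair -/
def Anti (tl hd : A → V) (h h' : A) : Prop := tl h = hd h' ∧ hd h = tl h'

/-- cyclic triangle `h0, h, h1` -/
def Cyc (tl hd : A → V) (h0 h h1 : A) : Prop := hd h0 = tl h ∧ hd h = tl h1 ∧ hd h1 = tl h0

/-- transitive triangle `h1 : x → c`, `h : c → d`, `h3 : x → d` with equal signs at `d` -/
def Tra (tl hd : A → V) (sg : A → Bool) (h1 h h3 : A) : Prop :=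
  hd h1 = tl h ∧ tl h1 = tl h3 ∧ hd h3 = hd h ∧ sg h3 = sg h

open Classical in
/-- the weights -/
noncomputable def wt (tl hd : A → V) (sg : A → Bool) (h : A) (δ : Bool) : ℚ :=
  if H : ∃ h', Anti tl hd h h' then (if δ = sg H.choose then 1 else 0)
  else if H : ∃ h0, ∃ h1, Cyc tl hd h0 h h1 then (if δ = sg H.choose then 2 / 3 else 1 / 3)
  else if H : ∃ h1, ∃ h3, Tra tl hd sg h1 h h3 then (if δ = sg H.choose then 1 else 0)
  else 1 / 2

end

/-! ### random labelled oriented trees -/

/-- parent map of a parent function `f` (the vertex `0` is the root) -/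
def pstep {n : ℕ} (f : Fin n → Fin (n + 1)) (v : Fin (n + 1)) : Fin (n + 1) :=
  Fin.cases 0 f v

/-- `f` is the parent function of a tree with root `0` -/
def IsTreeFn {n : ℕ} (f : Fin n → Fin (n + 1)) : Prop := ∀ v, ∃ k, (pstep f)^[k] v = 0

/-- the labelled oriented tree with parent function `f`, orientations `o` and labels `lam` -/
def treeLOG {n : ℕ} (f : Fin n → Fin (n + 1)) (o : Fin n → Bool) (lam : Fin n → Fin (n + 1)) :
    LOG (Fin (n + 1)) (Fin n) where
  i := fun x => if o x then x.succ else f x
  t := fun x => if o x then f x else x.succ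
  l := lam

/-- number of children -/
def nch {n : ℕ} (f : Fin n → Fin (n + 1)) (v : Fin (n + 1)) : ℕ :=
  (univ.filter (fun x => f x = v)).card

end Pool.Agent.LOT
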