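import Pool.Agent.LOT.Defs

/-!
# LOT-Degree: large degrees are rare in random trees

PLAN (`nch_step`). Let `S_k = {f | IsTreeFn f ∧ nch f v = k}`. For `f ∈ S_{k+1}`, `x` with `f x = v` and a vertex `y ≠ v`
which is not a descendant of `x.succ` (`Desc f x y := ∃ j, (pstep f)^[j] y = x.succ`) put
`f' = Function.update f x y ∈ S_k`: the iterates of `pstep f'` starting from a vertex that never meets `x.succ` are those of
`pstep f`; from `x.succ` one goes to `y`, whose path does not meet `x.succ`; so `IsTreeFn f'`. The map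
`(f, x, y) ↦ (f', x)` is injective (`f = update f' x v`, `y = f' x`). For fixed `f`, the number of pairs `(x, y)` is
`∑_{x : f x = v} (n + 1 - |Desc x| - 1) ≥ (k + 1) n - n = k n` since the sets `Desc x`, `f x = v`, are pairwise disjoint and do
not contain `v` (if `(pstep f)^[j] v = x.succ` then `v` is periodic for `pstep f` and never reaches `0`, unless `v = 0` where
`pstep f 0 = 0`). So `k * n * |S_{k+1}| ≤ n * |S_k|`. For `n = 0` both sides are trivial (`nch f v = 0`).
(`nch_tail`): `|S_{j+1}| * j! ≤ |S_1|` by induction, so for `j ≥ Δ`: `|S_{j+1}| * Δ! ≤ card of all tree functions`; union over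
`j + 1 ≤ n` and over the `n + 1` vertices.
-/

namespace Pool.Agent.LOT

open Finset

/-- `y` is a descendant of `x.succ` -/
private def DegDesc {n : ℕ} (f : Fin n → Fin (n + 1)) (x : Fin n) (y : Fin (n + 1)) : Prop :=
  ∃ j, (pstep f)^[j] y = x.succ

private lemma deg_pstep_zero {n : ℕ} (f : Fin n → Fin (n + 1)) : pstep f 0 = 0 := rfl

private lemma deg_pstep_succ {n : ℕ} (f : Fin n → Fin (n + 1)) (x : Fin n) :
    pstep f x.succ = f x := rfl

private lemma deg_iter_zero {n : ℕ} (f : Fin n → Fin (n + 1)) (k : ℕ) :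
    (pstep f)^[k] 0 = 0 := Function.iterate_fixed (deg_pstep_zero f) k

private lemma deg_iter_le {n : ℕ} (f : Fin n → Fin (n + 1)) {v : Fin (n + 1)} {k m : ℕ}
    (h : (pstep f)^[k] v = 0) (hkm : k ≤ m) : (pstep f)^[m] v = 0 := by
  obtain ⟨d, rfl⟩ := Nat.exists_eq_add_of_le hkm
  rw [add_comm k d, Function.iterate_add_apply, h]
  exact deg_iter_zero f d

private lemma deg_pstep_update {n : ℕ} (f : Fin n → Fin (n + 1)) (x : Fin n) (y w : Fin (n + 1))
    (hw : w ≠ x.succ) : pstep (Function.update f x y) w = pstep f w := by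
  rcases Fin.eq_zero_or_eq_succ w with rfl | ⟨z, rfl⟩
  · rfl
  · rw [deg_pstep_succ, deg_pstep_succ]
    have hz : z ≠ x := fun h => hw (by rw [h])
    exact Function.update_of_ne hz _ _

private lemma deg_reach {n : ℕ} (f : Fin n → Fin (n + 1)) (x : Fin n) (y : Fin (n + 1)) :
    ∀ (k : ℕ) (w : Fin (n + 1)), (pstep f)^[k] w = 0 → ¬ DegDesc f x w →
      ∃ k', (pstep (Function.update f x y))^[k'] w = 0 := by
  intro k
  induction k with
  | zero => intro w hw _; exact ⟨0, hw⟩
  | succ k ih =>
    intro w hw hd
    have hne : w ≠ x.succ := fun h => hd ⟨0, h⟩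
    rw [Function.iterate_succ_apply] at hw
    have hd' : ¬ DegDesc f x (pstep f w) := by
      rintro ⟨j, hj⟩
      exact hd ⟨j + 1, by rw [Function.iterate_succ_apply]; exact hj⟩
    obtain ⟨k', hk'⟩ := ih _ hw hd'
    refine ⟨k' + 1, ?_⟩
    rw [Function.iterate_succ_apply, deg_pstep_update f x y w hne]
    exact hk'

private lemma deg_tree_update {n : ℕ} {f : Fin n → Fin (n + 1)} (hf : IsTreeFn f) {x : Fin n}
    {y : Fin (n + 1)} (hy : ¬ DegDesc f x y) : IsTreeFn (Function.update f x y) := by
  have key : ∀ (k : ℕ) (w : Fin (n + 1)), (pstep f)^[k] w = 0 →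
      ∃ k', (pstep (Function.update f x y))^[k'] w = 0 := by
    intro k
    induction k with
    | zero => intro w hw; exact ⟨0, hw⟩
    | succ k ih =>
      intro w hw
      rw [Function.iterate_succ_apply] at hw
      by_cases hx : w = x.succ
      · obtain ⟨m, hm⟩ := hf y
        obtain ⟨k', hk'⟩ := deg_reach f x y m y hm hy
        refine ⟨k' + 1, ?_⟩
        rw [Function.iterate_succ_apply, hx, deg_pstep_succ, Function.update_self]
        exact hk'
      · obtain ⟨k', hk'⟩ := ih _ hw
        refine ⟨k' + 1, ?_⟩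
        rw [Function.iterate_succ_apply, deg_pstep_update f x y w hx]
        exact hk'
  intro v
  obtain ⟨k, hk⟩ := hf v
  exact key k v hk

private lemma deg_not_desc {n : ℕ} {f : Fin n → Fin (n + 1)} (hf : IsTreeFn f) {x : Fin n}
    {v : Fin (n + 1)} (hx : f x = v) : ¬ DegDesc f x v := by
  rintro ⟨d, hd⟩
  have hper : (pstep f)^[d + 1] v = v := by
    rw [Function.iterate_succ_apply', hd, deg_pstep_succ, hx]
  obtain ⟨k, hk⟩ := hf v
  have h1 : (pstep f)^[(d + 1) * k] v = v := by
    rw [Function.iterate_mul]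
    exact Function.iterate_fixed hper k
  have h2 : (pstep f)^[(d + 1) * k] v = 0 := deg_iter_le f hk (by nlinarith [Nat.zero_le (d * k)])
  have h3 : v = 0 := h1.symm.trans h2
  rw [h3, deg_iter_zero] at hd
  exact (Fin.succ_ne_zero x) hd.symm

private lemma deg_desc_aux {n : ℕ} {f : Fin n → Fin (n + 1)} (hf : IsTreeFn f) {x x' : Fin n}
    {v y : Fin (n + 1)} (hx : f x = v) (hx' : f x' = v) {j j' : ℕ}
    (hj : (pstep f)^[j] y = x.succ) (hj' : (pstep f)^[j'] y = x'.succ) (hle : j ≤ j') :
    x = x' := by
  rcases Nat.eq_or_lt_of_le hle with h | h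
  · subst h
    exact Fin.succ_injective _ (hj.symm.trans hj')
  · exfalso
    obtain ⟨d, hd⟩ := Nat.exists_eq_add_of_lt h
    have hd' : j' = d + (1 + j) := by omega
    rw [hd', Function.iterate_add_apply, Function.iterate_add_apply, hj,
      Function.iterate_one, deg_pstep_succ, hx] at hj'
    exact deg_not_desc hf hx' ⟨d, hj'⟩

private lemma deg_desc_unique {n : ℕ} {f : Fin n → Fin (n + 1)} (hf : IsTreeFn f) {x x' : Fin n}
    {v y : Fin (n + 1)} (hx : f x = v) (hx' : f x' = v)
    (h : DegDesc f x y) (h' : DegDesc f x' y) : x = x' := by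
  obtain ⟨j, hj⟩ := h
  obtain ⟨j', hj'⟩ := h'
  rcases le_total j j' with hle | hle
  · exact deg_desc_aux hf hx hx' hj hj' hle
  · exact (deg_desc_aux hf hx' hx hj' hj hle).symm

private lemma deg_nch_update {n : ℕ} {f : Fin n → Fin (n + 1)} {x : Fin n}
    {v y : Fin (n + 1)} (hx : f x = v) (hy : y ≠ v) :
    nch (Function.update f x y) v + 1 = nch f v := by
  unfold nch
  have h1 : (univ.filter (fun z => Function.update f x y z = v))
      = (univ.filter (fun z => f z = v)).erase x := by
    ext z
    rw [mem_erase, mem_filter, mem_filter]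
    by_cases hz : z = x
    · subst hz
      simp [Function.update_self, hy]
    · simp [hz]
  rw [h1]
  exact card_erase_add_one (by rw [mem_filter]; exact ⟨mem_univ _, hx⟩)

open Classical in
private lemma deg_pairs {n : ℕ} {f : Fin n → Fin (n + 1)} (hf : IsTreeFn f) (v : Fin (n + 1))
    (k : ℕ) (hk : nch f v = k + 1) :
    k * n ≤ ((univ : Finset (Fin n × Fin (n + 1))).filter
      (fun p => f p.1 = v ∧ p.2 ≠ v ∧ ¬ DegDesc f p.1 p.2)).card := by
  have h1 : (((univ : Finset (Fin n)).filter (fun x => f x = v)) ×ˢ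
      ((univ : Finset (Fin (n + 1))).erase v)).card = (k + 1) * n := by
    rw [card_product, card_erase_of_mem (mem_univ v), card_univ, Fintype.card_fin]
    have : (univ.filter (fun x => f x = v)).card = k + 1 := hk
    rw [this]
    simp
  have h2 : ((((univ : Finset (Fin n)).filter (fun x => f x = v)) ×ˢ
      ((univ : Finset (Fin (n + 1))).erase v)).filter (fun p => DegDesc f p.1 p.2)).card ≤ n := by
    have h3 : ((((univ : Finset (Fin n)).filter (fun x => f x = v)) ×ˢ
      ((univ : Finset (Fin (n + 1))).erase v)).filter (fun p => DegDesc f p.1 p.2)).card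
        ≤ ((univ : Finset (Fin (n + 1))).erase v).card := by
      apply card_le_card_of_injOn Prod.snd
      · intro p hp
        rw [mem_coe, mem_filter, mem_product] at hp
        exact hp.1.2
      · intro p hp q hq hpq
        rw [mem_coe, mem_filter, mem_product, mem_filter] at hp hq
        have h4 : p.1 = q.1 :=
          deg_desc_unique hf hp.1.1.2 hq.1.1.2 hp.2 (by rw [hpq]; exact hq.2)
        exact Prod.ext h4 hpq
    rw [card_erase_of_mem (mem_univ v), card_univ, Fintype.card_fin] at h3
    simpa using h3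
  have h5 := card_filter_add_card_filter_not (s := ((univ : Finset (Fin n)).filter (fun x => f x = v)) ×ˢ
      ((univ : Finset (Fin (n + 1))).erase v)) (fun p => DegDesc f p.1 p.2)
  have h6 : ((((univ : Finset (Fin n)).filter (fun x => f x = v)) ×ˢ
      ((univ : Finset (Fin (n + 1))).erase v)).filter (fun p => ¬ DegDesc f p.1 p.2))
      = ((univ : Finset (Fin n × Fin (n + 1))).filter
      (fun p => f p.1 = v ∧ p.2 ≠ v ∧ ¬ DegDesc f p.1 p.2)) := by
    ext p
    simp only [mem_filter, mem_product, mem_erase, mem_univ, true_and, and_true, and_assoc]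
  rw [h6, h1] at h5
  have h7 : (k + 1) * n = k * n + n := by ring
  omega

open Classical in
theorem nch_step {n : ℕ} (v : Fin (n + 1)) (k : ℕ) :
    k * (univ.filter (fun f : Fin n → Fin (n + 1) => IsTreeFn f ∧ nch f v = k + 1)).card
      ≤ (univ.filter (fun f : Fin n → Fin (n + 1) => IsTreeFn f ∧ nch f v = k)).card := by
  rcases Nat.eq_zero_or_pos n with hn | hn
  · subst hn
    have h0 : (univ.filter (fun f : Fin 0 → Fin (0 + 1) => IsTreeFn f ∧ nch f v = k + 1)) = ∅ := by
      apply filter_eq_empty_iff.mpr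
      rintro f - ⟨_, h⟩
      unfold nch at h
      rw [univ_eq_empty, filter_empty, card_empty] at h
      omega
    rw [h0, card_empty, mul_zero]
    exact Nat.zero_le _
  · set A := (univ.filter (fun f : Fin n → Fin (n + 1) => IsTreeFn f ∧ nch f v = k + 1)) with hA
    set B := (univ.filter (fun f : Fin n → Fin (n + 1) => IsTreeFn f ∧ nch f v = k)) with hB
    have h1 : A.card * (k * n) ≤ (A.sigma (fun f => (univ : Finset (Fin n × Fin (n + 1))).filter
        (fun p => f p.1 = v ∧ p.2 ≠ v ∧ ¬ DegDesc f p.1 p.2))).card := by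
      rw [card_sigma, ← smul_eq_mul, ← sum_const]
      apply sum_le_sum
      intro f hf
      rw [hA, mem_filter] at hf
      exact deg_pairs hf.2.1 v k hf.2.2
    have h2 : (A.sigma (fun f => (univ : Finset (Fin n × Fin (n + 1))).filter
        (fun p => f p.1 = v ∧ p.2 ≠ v ∧ ¬ DegDesc f p.1 p.2))).card
          ≤ (B ×ˢ (univ : Finset (Fin n))).card := by
      apply card_le_card_of_injOn (fun q => (Function.update q.1 q.2.1 q.2.2, q.2.1))
      · rintro ⟨f, x, y⟩ hq
        rw [mem_coe, mem_sigma] at hq
        obtain ⟨hf, hq2⟩ := hq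
        rw [mem_filter] at hq2
        obtain ⟨-, hx, hy, hd⟩ := hq2
        simp only at hf hx hy hd
        rw [hA, mem_filter] at hf
        rw [mem_coe, mem_product]
        refine ⟨?_, mem_univ _⟩
        rw [hB, mem_filter]
        refine ⟨mem_univ _, deg_tree_update hf.2.1 hd, ?_⟩
        have := deg_nch_update hx hy
        have h3 := hf.2.2
        simp only
        omega
      · rintro ⟨f, x, y⟩ hq ⟨f', x', y'⟩ hq' heq
        rw [mem_coe, mem_sigma] at hq hq'
        obtain ⟨hf, hq2⟩ := hq
        obtain ⟨hf', hq2'⟩ := hq'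
        rw [mem_filter] at hq2 hq2'
        obtain ⟨-, hx, hy, hd⟩ := hq2
        obtain ⟨-, hx', hy', hd'⟩ := hq2'
        simp only at hf hx hy hd hf' hx' hy' hd'
        simp only [Prod.mk.injEq] at heq
        obtain ⟨h1, h2⟩ := heq
        subst h2
        have hyy : y = y' := by
          have := congrFun h1 x
          rwa [Function.update_self, Function.update_self] at this
        subst hyy
        have hff : f = f' := by
          funext z
          by_cases hz : z = x
          · subst hz
            rw [hx, hx']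
          · have := congrFun h1 z
            rwa [Function.update_of_ne hz, Function.update_of_ne hz] at this
        subst hff
        rfl
    rw [card_product, card_univ, Fintype.card_fin] at h2
    have h3 : n * (k * A.card) ≤ n * B.card := by
      calc n * (k * A.card) = A.card * (k * n) := by ring
        _ ≤ B.card * n := h1.trans h2
        _ = n * B.card := by ring
    exact Nat.le_of_mul_le_mul_left h3 hn

open Classical in
private lemma deg_iter_step {n : ℕ} (v : Fin (n + 1)) (j : ℕ) :
    (univ.filter (fun f : Fin n → Fin (n + 1) => IsTreeFn f ∧ nch f v = j + 1)).card * j.factorial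
      ≤ (univ.filter (fun f : Fin n → Fin (n + 1) => IsTreeFn f ∧ nch f v = 1)).card := by
  induction j with
  | zero => simp
  | succ j ih =>
    have h := nch_step v (j + 1)
    calc (univ.filter (fun f : Fin n → Fin (n + 1) => IsTreeFn f ∧ nch f v = j + 1 + 1)).card
          * (j + 1).factorial
        = ((j + 1) * (univ.filter (fun f : Fin n → Fin (n + 1) =>
            IsTreeFn f ∧ nch f v = j + 1 + 1)).card) * j.factorial := by
          rw [Nat.factorial_succ]; ring
      _ ≤ (univ.filter (fun f : Fin n → Fin (n + 1) =>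
            IsTreeFn f ∧ nch f v = j + 1)).card * j.factorial := Nat.mul_le_mul_right _ h
      _ ≤ _ := ih

open Classical in
theorem nch_tail (n Δ : ℕ) :
    (univ.filter (fun f : Fin n → Fin (n + 1) => IsTreeFn f ∧ ∃ v, Δ < nch f v)).card * Δ.factorial
      ≤ (n + 1) ^ 2 * (univ.filter (fun f : Fin n → Fin (n + 1) => IsTreeFn f)).card := by
  have hsub : (univ.filter (fun f : Fin n → Fin (n + 1) => IsTreeFn f ∧ ∃ v, Δ < nch f v))
      ⊆ ((univ : Finset (Fin (n + 1))) ×ˢ range (n + 1)).biUnion (fun p =>
        univ.filter (fun f : Fin n → Fin (n + 1) => (IsTreeFn f ∧ nch f p.1 = p.2) ∧ Δ < p.2)) := by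
    intro f hf
    rw [mem_filter] at hf
    obtain ⟨-, hf, v, hv⟩ := hf
    rw [mem_biUnion]
    refine ⟨(v, nch f v), ?_, ?_⟩
    · rw [mem_product, mem_range]
      refine ⟨mem_univ _, ?_⟩
      have : nch f v ≤ n := by
        unfold nch
        calc _ ≤ (univ : Finset (Fin n)).card := card_filter_le _ _
          _ = n := by rw [card_univ, Fintype.card_fin]
      simp only
      omega
    · rw [mem_filter]
      exact ⟨mem_univ _, ⟨hf, rfl⟩, hv⟩
  have h1 : (univ.filter (fun f : Fin n → Fin (n + 1) => IsTreeFn f ∧ ∃ v, Δ < nch f v)).card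
      ≤ ∑ p ∈ ((univ : Finset (Fin (n + 1))) ×ˢ range (n + 1)),
        (univ.filter (fun f : Fin n → Fin (n + 1) =>
          (IsTreeFn f ∧ nch f p.1 = p.2) ∧ Δ < p.2)).card :=
    (card_le_card hsub).trans card_biUnion_le
  have h2 : ∀ p ∈ ((univ : Finset (Fin (n + 1))) ×ˢ range (n + 1)),
      (univ.filter (fun f : Fin n → Fin (n + 1) =>
          (IsTreeFn f ∧ nch f p.1 = p.2) ∧ Δ < p.2)).card * Δ.factorial
        ≤ (univ.filter (fun f : Fin n → Fin (n + 1) => IsTreeFn f)).card := by
    rintro ⟨v, m⟩ -
    simp only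
    by_cases hm : Δ < m
    · obtain ⟨j, rfl⟩ : ∃ j, m = j + 1 := ⟨m - 1, by omega⟩
      calc (univ.filter (fun f : Fin n → Fin (n + 1) =>
          (IsTreeFn f ∧ nch f v = j + 1) ∧ Δ < j + 1)).card * Δ.factorial
          ≤ (univ.filter (fun f : Fin n → Fin (n + 1) =>
            IsTreeFn f ∧ nch f v = j + 1)).card * j.factorial := by
            apply Nat.mul_le_mul
            · apply card_le_card
              intro f hf
              rw [mem_filter] at hf ⊢
              exact ⟨hf.1, hf.2.1⟩
            · exact Nat.factorial_le (by omega)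
        _ ≤ (univ.filter (fun f : Fin n → Fin (n + 1) => IsTreeFn f ∧ nch f v = 1)).card :=
            deg_iter_step v j
        _ ≤ _ := by
            apply card_le_card
            intro f hf
            rw [mem_filter] at hf ⊢
            exact ⟨hf.1, hf.2.1⟩
    · have : (univ.filter (fun f : Fin n → Fin (n + 1) =>
          (IsTreeFn f ∧ nch f v = m) ∧ Δ < m)) = ∅ := by
        apply filter_eq_empty_iff.mpr
        rintro f - ⟨_, h⟩
        exact hm h
      rw [this, card_empty, zero_mul]
      exact Nat.zero_le _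
  calc (univ.filter (fun f : Fin n → Fin (n + 1) => IsTreeFn f ∧ ∃ v, Δ < nch f v)).card * Δ.factorial
      ≤ (∑ p ∈ ((univ : Finset (Fin (n + 1))) ×ˢ range (n + 1)),
        (univ.filter (fun f : Fin n → Fin (n + 1) =>
          (IsTreeFn f ∧ nch f p.1 = p.2) ∧ Δ < p.2)).card) * Δ.factorial :=
        Nat.mul_le_mul_right _ h1
    _ = ∑ p ∈ ((univ : Finset (Fin (n + 1))) ×ˢ range (n + 1)),
        (univ.filter (fun f : Fin n → Fin (n + 1) =>
          (IsTreeFn f ∧ nch f p.1 = p.2) ∧ Δ < p.2)).card * Δ.factorial := by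
        rw [sum_mul]
    _ ≤ ∑ _p ∈ ((univ : Finset (Fin (n + 1))) ×ˢ range (n + 1)),
        (univ.filter (fun f : Fin n → Fin (n + 1) => IsTreeFn f)).card := sum_le_sum h2
    _ = (n + 1) ^ 2 * (univ.filter (fun f : Fin n → Fin (n + 1) => IsTreeFn f)).card := by
        rw [sum_const, smul_eq_mul, card_product, card_univ, Fintype.card_fin, card_range]
        ring

end Pool.Agent.LOT
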