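import Pool.Agent.LOT.Magnus

/-!
# LOT-ExSeq: an element of the kernel of the Jacobian is the class of an identity sequence

PLAN. Let `K` be the set of pairs `(w, x) : FreeGroup V × (E → MonoidAlgebra ℤ G)` such that there is `h` with
`FreeGroup.mk (h.flatMap Γ.lolw) = w` and `seqCls gen h = x`.
* `K` is closed under `(w, x), (w', x') ↦ (w w', x + x')` (append of lists) and `(w, x) ↦ (w⁻¹, -x)` (reverse the
  list and flip all signs: `lolw (u, e, !s) = invRev (lolw (u, e, s))` up to `FreeGroup.mk`).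
* every `x` occurs: the `x` with `(w, x) ∈ K` for some `w` form an additive subgroup containing
  `Pi.single e (single g 1)` (surjectivity gives a word `u` with `evw gen u = g`), hence everything
  (`Finsupp`-induction, `E` finite).
* `(w, x) ∈ K` implies `lift gen w = 1` and `foxw gen (word) v = ∑ e, x e * jac Γ gen e v`: by
  `foxw_append`, `foxw_invRev` one gets for one factor
  `foxw (u r^s u⁻¹) v = ± single (evw u) 1 * foxw r v` because `evw r = 1`, and `foxw (relw e) v = jac Γ gen e v` because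
  `gen i * gen l = gen l * gen t` in `G` (from `hP.ker`, see `gen_rel`).
* every `n` in `N = (lift gen).ker = normalClosure` has some `x` with `(n, x) ∈ K`
  (`Subgroup.normalClosure_induction` or `Subgroup.closure_induction` on the conjugates), so for `n, m ∈ N` the pair
  `(⁅n, m⁆, 0) ∈ K`; the elements `w` with `(w, 0) ∈ K` form a subgroup, so `(w, 0) ∈ K` for all `w ∈ ⁅N, N⁆`.
* given `x` with zero image choose `(w, x) ∈ K`; `foxw w = 0` so `w ∈ ⁅N, N⁆` (`magnus`), so `(w, 0) ∈ K` and
  `(1, x) = (w, x) (w, 0)⁻¹ ∈ K`.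
-/

namespace Pool.Agent.LOT

open Finset

section
variable {V E : Type} {G : Type} [Group G]

theorem gen_rel {Γ : LOG V E} {gen : V → G} (hP : IsPres Γ gen) (e : E) :
    gen (Γ.i e) * gen (Γ.l e) = gen (Γ.l e) * gen (Γ.t e) := by
  have h1 : Γ.rel e ∈ (FreeGroup.lift gen).ker := by
    rw [hP.ker]
    exact Subgroup.subset_normalClosure ⟨e, rfl⟩
  rw [MonoidHom.mem_ker, LOG.rel, LOG.relw, FreeGroup.lift_mk] at h1
  simp only [List.map_cons, List.map_nil, List.prod_cons, List.prod_nil, cond_true, cond_false,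
    mul_one] at h1
  calc gen (Γ.i e) * gen (Γ.l e)
      = (gen (Γ.i e) * (gen (Γ.l e) * ((gen (Γ.t e))⁻¹ * (gen (Γ.l e))⁻¹)))
          * (gen (Γ.l e) * gen (Γ.t e)) := by group
    _ = gen (Γ.l e) * gen (Γ.t e) := by rw [h1, one_mul]

private theorem evw_relw {Γ : LOG V E} {gen : V → G} (hP : IsPres Γ gen) (e : E) :
    evw gen (Γ.relw e) = 1 := by
  have h1 : Γ.rel e ∈ (FreeGroup.lift gen).ker := by
    rw [hP.ker]
    exact Subgroup.subset_normalClosure ⟨e, rfl⟩
  exact h1

private theorem fox_relw [DecidableEq V] {Γ : LOG V E} {gen : V → G} (hP : IsPres Γ gen) (e : E)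
    (v : V) : foxw gen (Γ.relw e) v = jac Γ gen e v := by
  have h := gen_rel hP e
  have h1 : gen (Γ.i e) * gen (Γ.l e) * (gen (Γ.t e))⁻¹ = gen (Γ.l e) := by rw [h]; group
  simp only [LOG.relw, foxw, jac, mul_zero, add_zero, mul_add, mul_neg, mul_ite,
    MonoidAlgebra.single_mul_single, mul_one, ← mul_assoc, h1, mul_inv_cancel]
  have h3 : (MonoidAlgebra.single (1 : G) (1 : ℤ)) = 1 := rfl
  rw [h3]
  by_cases hi : Γ.i e = v <;> by_cases hl : Γ.l e = v <;> by_cases ht : Γ.t e = v <;>
    simp [hi, hl, ht] <;> abel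

private theorem fox_conj [DecidableEq V] (gen : V → G) (u r : List (V × Bool))
    (hr : evw gen r = 1) (v : V) :
    foxw gen (u ++ r ++ FreeGroup.invRev u) v
      = MonoidAlgebra.single (evw gen u) 1 * foxw gen r v := by
  rw [foxw_append, foxw_append, foxw_invRev, evw_append, hr, mul_one, mul_neg, ← mul_assoc,
    MonoidAlgebra.single_mul_single, mul_inv_cancel, mul_one]
  have h3 : (MonoidAlgebra.single (1 : G) (1 : ℤ)) = 1 := rfl
  rw [h3, one_mul]
  abel

private theorem evw_lolw {Γ : LOG V E} {gen : V → G} (hP : IsPres Γ gen)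
    (a : List (V × Bool) × E × Bool) : evw gen (Γ.lolw a) = 1 := by
  obtain ⟨u, e, s⟩ := a
  have h : evw gen (if s then Γ.relw e else FreeGroup.invRev (Γ.relw e)) = 1 := by
    cases s
    · simp only [Bool.false_eq_true, if_false]
      rw [evw_invRev, evw_relw hP, inv_one]
    · simp only [if_true]
      exact evw_relw hP e
  rw [LOG.lolw, evw_append, evw_append, evw_invRev]
  simp only at h ⊢
  rw [h, mul_one, mul_inv_cancel]

private theorem fox_lolw [DecidableEq V] [DecidableEq E] [Fintype E] {Γ : LOG V E} {gen : V → G}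
    (hP : IsPres Γ gen) (a : List (V × Bool) × E × Bool) (v : V) :
    foxw gen (Γ.lolw a) v = ∑ e, (if a.2.1 = e then
      MonoidAlgebra.single (evw gen a.1) (if a.2.2 then (1 : ℤ) else -1) else 0)
        * jac Γ gen e v := by
  obtain ⟨u, e, s⟩ := a
  simp only [ite_mul, zero_mul, Finset.sum_ite_eq, Finset.mem_univ, if_true]
  rw [LOG.lolw]
  simp only
  cases s
  · simp only [Bool.false_eq_true, if_false]
    have h : evw gen (FreeGroup.invRev (Γ.relw e)) = 1 := by
      rw [evw_invRev, evw_relw hP, inv_one]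
    rw [fox_conj gen u _ h, foxw_invRev, evw_relw hP, inv_one, fox_relw hP]
    have h3 : (MonoidAlgebra.single (1 : G) (1 : ℤ)) = 1 := rfl
    rw [h3, one_mul, mul_neg]
    have h4 : (MonoidAlgebra.single (evw gen u) (-1 : ℤ)) = -MonoidAlgebra.single (evw gen u) 1 :=
      MonoidAlgebra.single_neg _ _
    rw [h4, neg_mul]
  · simp only [if_true]
    rw [fox_conj gen u _ (evw_relw hP e), fox_relw hP]

private theorem seqCls_cons [DecidableEq E] (gen : V → G) (a : List (V × Bool) × E × Bool)
    (h : List (List (V × Bool) × E × Bool)) :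
    seqCls gen (a :: h) = (fun f => if a.2.1 = f then
      MonoidAlgebra.single (evw gen a.1) (if a.2.2 then (1 : ℤ) else -1) else 0)
        + seqCls gen h := by
  funext f
  simp [seqCls]

private theorem seqCls_append [DecidableEq E] (gen : V → G)
    (h h' : List (List (V × Bool) × E × Bool)) :
    seqCls gen (h ++ h') = seqCls gen h + seqCls gen h' := by
  funext f
  simp [seqCls]

private theorem evw_flat {Γ : LOG V E} {gen : V → G} (hP : IsPres Γ gen)
    (h : List (List (V × Bool) × E × Bool)) : evw gen (h.flatMap Γ.lolw) = 1 := by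
  induction h with
  | nil => simp [evw, ← FreeGroup.one_eq_mk]
  | cons a h ih => rw [List.flatMap_cons, evw_append, evw_lolw hP, ih, one_mul]

private theorem fox_flat [DecidableEq V] [DecidableEq E] [Fintype E] {Γ : LOG V E} {gen : V → G}
    (hP : IsPres Γ gen) (h : List (List (V × Bool) × E × Bool)) (v : V) :
    foxw gen (h.flatMap Γ.lolw) v = ∑ e, seqCls gen h e * jac Γ gen e v := by
  induction h with
  | nil => simp [foxw, seqCls]
  | cons a h ih =>
      have h3 : (MonoidAlgebra.single (1 : G) (1 : ℤ)) = 1 := rfl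
      rw [List.flatMap_cons, foxw_append, evw_lolw hP, h3, one_mul, ih, fox_lolw hP, seqCls_cons,
        ← Finset.sum_add_distrib]
      refine Finset.sum_congr rfl fun e _ => ?_
      rw [Pi.add_apply, add_mul]

/-- the relation `K` of the plan -/
private def KK [DecidableEq E] (Γ : LOG V E) (gen : V → G) (w : FreeGroup V)
    (x : E → MonoidAlgebra ℤ G) : Prop :=
  ∃ h : List (List (V × Bool) × E × Bool),
    FreeGroup.mk (h.flatMap Γ.lolw) = w ∧ seqCls gen h = x

private theorem KK_one [DecidableEq E] (Γ : LOG V E) (gen : V → G) : KK Γ gen 1 0 := by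
  refine ⟨[], ?_, ?_⟩
  · simp [← FreeGroup.one_eq_mk]
  · funext f; simp [seqCls]

private theorem KK_mul [DecidableEq E] {Γ : LOG V E} {gen : V → G} {w w' : FreeGroup V}
    {x x' : E → MonoidAlgebra ℤ G} (h : KK Γ gen w x) (h' : KK Γ gen w' x') :
    KK Γ gen (w * w') (x + x') := by
  obtain ⟨l, h1, h2⟩ := h
  obtain ⟨l', h1', h2'⟩ := h'
  refine ⟨l ++ l', ?_, ?_⟩
  · rw [List.flatMap_append, ← FreeGroup.mul_mk, h1, h1']
  · rw [seqCls_append, h2, h2']

private theorem lolw_flip (Γ : LOG V E) (u : List (V × Bool)) (e : E) (s : Bool) :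
    FreeGroup.mk (Γ.lolw (u, e, !s)) = (FreeGroup.mk (Γ.lolw (u, e, s)))⁻¹ := by
  rw [FreeGroup.inv_mk]
  cases s <;> simp [LOG.lolw, FreeGroup.invRev_append, FreeGroup.invRev_invRev]

private theorem KK_inv [DecidableEq E] {Γ : LOG V E} {gen : V → G} {w : FreeGroup V}
    {x : E → MonoidAlgebra ℤ G} (h : KK Γ gen w x) : KK Γ gen w⁻¹ (-x) := by
  obtain ⟨l, rfl, rfl⟩ := h
  induction l with
  | nil =>
      have := KK_one Γ gen
      have h1 : (FreeGroup.mk (List.flatMap Γ.lolw []))⁻¹ = (1 : FreeGroup V) := by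
        simp [← FreeGroup.one_eq_mk]
      have h2 : -seqCls gen ([] : List (List (V × Bool) × E × Bool)) = 0 := by
        funext f; simp [seqCls]
      rw [h1, h2]
      exact this
  | cons a l ih =>
      obtain ⟨u, e, s⟩ := a
      have h1 : KK Γ gen (FreeGroup.mk (Γ.lolw (u, e, !s))) (seqCls gen [(u, e, !s)]) :=
        ⟨[(u, e, !s)], by simp, rfl⟩
      have h2 := KK_mul ih h1
      have h3 : (FreeGroup.mk (List.flatMap Γ.lolw ((u, e, s) :: l)))⁻¹
          = (FreeGroup.mk (List.flatMap Γ.lolw l))⁻¹ * FreeGroup.mk (Γ.lolw (u, e, !s)) := by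
        rw [lolw_flip, ← mul_inv_rev, FreeGroup.mul_mk, List.flatMap_cons]
      have h4 : -seqCls gen ((u, e, s) :: l) = -seqCls gen l + seqCls gen [(u, e, !s)] := by
        rw [seqCls_cons gen (u, e, s) l, seqCls_cons gen (u, e, !s) []]
        funext f
        have h5 : seqCls gen ([] : List (List (V × Bool) × E × Bool)) f = 0 := by simp [seqCls]
        simp only [Pi.neg_apply, Pi.add_apply, h5, add_zero]
        by_cases hf : e = f
        · cases s <;> simp [hf, MonoidAlgebra.single_neg, add_comm]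
        · simp [hf]
      rw [h3, h4]
      exact h2

private theorem KK_base [DecidableEq E] {Γ : LOG V E} (gen : V → G) (u : List (V × Bool)) (e : E) :
    KK Γ gen (FreeGroup.mk u * Γ.rel e * (FreeGroup.mk u)⁻¹)
      (Pi.single e (MonoidAlgebra.single (evw gen u) 1)) := by
  refine ⟨[(u, e, true)], ?_, ?_⟩
  · rw [FreeGroup.inv_mk, LOG.rel, FreeGroup.mul_mk, FreeGroup.mul_mk]
    simp [LOG.lolw]
  · funext f
    by_cases hf : e = f
    · subst hf; simp [seqCls]
    · have hf' : f ≠ e := fun h => hf h.symm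
      simp [seqCls, hf, hf']

private theorem exists_word [DecidableEq E] [Fintype E] {Γ : LOG V E} {gen : V → G}
    (hs : Function.Surjective (FreeGroup.lift gen)) (x : E → MonoidAlgebra ℤ G) :
    ∃ w, KK Γ gen w x := by
  let S : AddSubgroup (E → MonoidAlgebra ℤ G) :=
    { carrier := {x | ∃ w, KK Γ gen w x}
      add_mem' := fun {a b} ha hb => by
        obtain ⟨w, hw⟩ := ha
        obtain ⟨w', hw'⟩ := hb
        exact ⟨w * w', KK_mul hw hw'⟩
      zero_mem' := ⟨1, KK_one Γ gen⟩
      neg_mem' := fun {a} ha => by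
        obtain ⟨w, hw⟩ := ha
        exact ⟨w⁻¹, KK_inv hw⟩ }
  have hS1 : ∀ (e : E) (g : G), Pi.single e (MonoidAlgebra.single g 1) ∈ S := by
    intro e g
    obtain ⟨y, hy⟩ := hs g
    obtain ⟨u, rfl⟩ : ∃ u, FreeGroup.mk u = y := ⟨Quot.out y, Quot.out_eq y⟩
    have h := KK_base (Γ := Γ) gen u e
    have h1 : evw gen u = g := hy
    rw [h1] at h
    exact ⟨_, h⟩
  have hS2 : ∀ (e : E) (f : MonoidAlgebra ℤ G), Pi.single e f ∈ S := by
    intro e f
    induction f using MonoidAlgebra.induction_linear with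
    | zero => rw [Pi.single_zero]; exact S.zero_mem
    | add a b ha hb => rw [Pi.single_add]; exact S.add_mem ha hb
    | single g n =>
        have h1 : (Pi.single e (MonoidAlgebra.single g n) : E → MonoidAlgebra ℤ G)
            = n • Pi.single e (MonoidAlgebra.single g 1) := by
          rw [← Pi.single_zsmul]
          congr 1
          simp
        rw [h1]
        exact S.zsmul_mem (hS1 e g) n
  have hx : x = ∑ e, Pi.single e (x e) := (Finset.univ_sum_single x).symm
  have h : x ∈ S := by
    rw [hx]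
    exact S.sum_mem fun e _ => hS2 e _
  exact h

private theorem exists_cls [DecidableEq E] {Γ : LOG V E} (gen : V → G) (n : FreeGroup V)
    (hn : n ∈ Subgroup.normalClosure (Set.range Γ.rel)) : ∃ x, KK Γ gen n x := by
  have h : Subgroup.normalClosure (Set.range Γ.rel) =
      Subgroup.closure (Group.conjugatesOfSet (Set.range Γ.rel)) := rfl
  rw [h] at hn
  induction hn using Subgroup.closure_induction with
  | mem x hx =>
      obtain ⟨r, ⟨e, rfl⟩, hc⟩ := Group.mem_conjugatesOfSet_iff.1 hx
      obtain ⟨c, hc⟩ := isConj_iff.1 hc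
      obtain ⟨u, rfl⟩ : ∃ u, FreeGroup.mk u = c := ⟨Quot.out c, Quot.out_eq c⟩
      rw [← hc]
      exact ⟨_, KK_base gen u e⟩
  | one => exact ⟨0, KK_one Γ gen⟩
  | mul a b _ _ ha hb =>
      obtain ⟨x, hx⟩ := ha
      obtain ⟨y, hy⟩ := hb
      exact ⟨x + y, KK_mul hx hy⟩
  | inv a _ ha =>
      obtain ⟨x, hx⟩ := ha
      exact ⟨-x, KK_inv hx⟩

theorem exists_seq [DecidableEq V] [Fintype V] [DecidableEq E] [Fintype E] {Γ : LOG V E} {gen : V → G}
    (hP : IsPres Γ gen) (x : E → MonoidAlgebra ℤ G) (hx : ∀ v, ∑ e, x e * jac Γ gen e v = 0) :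
    ∃ h : List (List (V × Bool) × E × Bool),
      FreeGroup.mk (h.flatMap Γ.lolw) = 1 ∧ seqCls gen h = x := by
  obtain ⟨w, h, hw, hxh⟩ := exists_word (Γ := Γ) hP.surj x
  have hf : ∀ v, foxw gen (h.flatMap Γ.lolw) v = 0 := by
    intro v
    rw [fox_flat hP, hxh]
    exact hx v
  have hmem := magnus gen hP.surj (h.flatMap Γ.lolw) (evw_flat hP h) hf
  rw [hw] at hmem
  let Z : Subgroup (FreeGroup V) :=
    { carrier := {w | KK Γ gen w 0}
      mul_mem' := fun {a b} ha hb => by
        have := KK_mul ha hb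
        rwa [add_zero] at this
      one_mem' := KK_one Γ gen
      inv_mem' := fun {a} ha => by
        have := KK_inv ha
        rwa [neg_zero] at this }
  have hle : ⁅(FreeGroup.lift gen).ker, (FreeGroup.lift gen).ker⁆ ≤ Z := by
    rw [Subgroup.commutator_le]
    intro a ha b hb
    rw [hP.ker] at ha hb
    obtain ⟨y, hy⟩ := exists_cls gen a ha
    obtain ⟨z, hz⟩ := exists_cls gen b hb
    have h1 := KK_mul (KK_mul (KK_mul hy hz) (KK_inv hy)) (KK_inv hz)
    have h2 : y + z + -y + -z = 0 := by abel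
    rw [h2] at h1
    exact h1
  have hz : KK Γ gen w 0 := hle hmem
  have h1 : KK Γ gen (w * w⁻¹) (x + -0) := KK_mul ⟨h, hw, hxh⟩ (KK_inv hz)
  rw [mul_inv_cancel, neg_zero, add_zero] at h1
  exact h1

end

end Pool.Agent.LOT
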