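import Pool.Agent.LOT.Union
import Pool.Agent.LOT.Degree

/-!
# LOT-Prob: almost all rooted labelled oriented trees are sparse

PLAN. `NB n` = number of non-sparse, `NA n` = number of all `(f, o, lam)` with `IsTreeFn f`; `t n` = number of tree functions
(`t n > 0`: `f = 0`), so `NA n = t n * 2^n * (n + 1)^n`. With `Δ = Nat.log 2 (n + 1)`: if `(f, o, lam)` is not sparse then
either `∃ v, Δ < nch f v`, or `f` is good and `lam` has a bad pair (`violation`). Hence
`NB n ≤ #{f : ∃ v, Δ < nch f v} * 2^n * (n+1)^n + t n * 2^n * (C (Δ+1)^264 (n+1)^n / (n+1))`, so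
`NB n / NA n ≤ (n+1)^2 / Δ! + C (Δ+1)^264 / (n+1)`, and both terms tend to `0` (`Δ! ≥ (n+1)^3` for large `n`, e.g. from
`(m/2)^(m/2) ≤ m!` and `2^(Δ+1) > n + 1`; `(Nat.log 2 (n+1) + 1)^264 / (n+1) → 0` from `2^Δ ≤ n + 1` and
`tendsto_pow_const_div_const_pow_of_one_lt`).
-/
namespace Pool.Agent.LOT

open Finset Filter Topology

theorem log_tendsto : Tendsto (fun n : ℕ => Nat.log 2 (n + 1)) atTop atTop := by
  refine tendsto_atTop.2 (fun b => ?_)
  filter_upwards [eventually_ge_atTop (2 ^ b)] with n hn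
  exact Nat.le_log_of_pow_le (by norm_num) (by omega)

theorem first_tendsto : Tendsto (fun n : ℕ =>
    ((n : ℝ) + 1) ^ 2 / ((Nat.log 2 (n + 1)).factorial : ℝ)) atTop (𝓝 0) := by
  have h1 : Tendsto (fun n : ℕ => 4 * ((4 : ℝ) ^ (Nat.log 2 (n + 1)) /
      ((Nat.log 2 (n + 1)).factorial : ℝ))) atTop (𝓝 (4 * 0)) :=
    ((FloorSemiring.tendsto_pow_div_factorial_atTop (4 : ℝ)).comp log_tendsto).const_mul 4
  rw [mul_zero] at h1
  refine squeeze_zero (fun n => by positivity) (fun n => ?_) h1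
  rw [← mul_div_assoc]
  refine div_le_div_of_nonneg_right ?_ (by positivity)
  have h2 : n + 1 < 2 ^ (Nat.log 2 (n + 1) + 1) := Nat.lt_pow_succ_log_self (by norm_num) _
  have h3 : ((n : ℝ) + 1) ≤ 2 ^ (Nat.log 2 (n + 1) + 1) := by
    exact_mod_cast h2.le
  calc ((n : ℝ) + 1) ^ 2 ≤ (2 ^ (Nat.log 2 (n + 1) + 1)) ^ 2 := by gcongr
    _ = 4 * 4 ^ (Nat.log 2 (n + 1)) := by
      rw [← pow_mul, mul_comm (Nat.log 2 (n + 1) + 1) 2, pow_mul, pow_succ]
      norm_num
      ring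

theorem second_tendsto (k : ℕ) : Tendsto (fun n : ℕ =>
    ((Nat.log 2 (n + 1) : ℝ) + 1) ^ k / ((n : ℝ) + 1)) atTop (𝓝 0) := by
  have h0 : Tendsto (fun n : ℕ => Nat.log 2 (n + 1) + 1) atTop atTop :=
    (tendsto_add_atTop_nat 1).comp log_tendsto
  have h1 : Tendsto (fun n : ℕ => 2 * (((Nat.log 2 (n + 1) + 1 : ℕ) : ℝ) ^ k /
      (2 : ℝ) ^ (Nat.log 2 (n + 1) + 1))) atTop (𝓝 (2 * 0)) :=
    ((tendsto_pow_const_div_const_pow_of_one_lt k (by norm_num : (1 : ℝ) < 2)).comp h0).const_mul 2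
  rw [mul_zero] at h1
  refine squeeze_zero (fun n => by positivity) (fun n => ?_) h1
  have h2 : 2 ^ (Nat.log 2 (n + 1)) ≤ n + 1 := Nat.pow_log_le_self 2 (by omega)
  have h3 : (2 : ℝ) ^ (Nat.log 2 (n + 1)) ≤ (n : ℝ) + 1 := by exact_mod_cast h2
  calc ((Nat.log 2 (n + 1) : ℝ) + 1) ^ k / ((n : ℝ) + 1)
      ≤ ((Nat.log 2 (n + 1) : ℝ) + 1) ^ k / (2 : ℝ) ^ (Nat.log 2 (n + 1)) :=
        div_le_div_of_nonneg_left (by positivity) (by positivity) h3
    _ = 2 * (((Nat.log 2 (n + 1) + 1 : ℕ) : ℝ) ^ k / (2 : ℝ) ^ (Nat.log 2 (n + 1) + 1)) := by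
      rw [pow_succ]
      push_cast
      field_simp

open Classical in
theorem nonsparse_bound (C n Δ X : ℕ)
    (hC : ∀ (f : Fin n → Fin (n + 1)), IsTreeFn f → (∀ v, nch f v ≤ Δ) →
      (univ.filter (fun lam : Fin n → Fin (n + 1) => ∃ U F, BadPair 132 f lam U F)).card * (n + 1)
        ≤ C * X * (n + 1) ^ n) :
    ((univ.filter (fun p : (Fin n → Fin (n + 1)) × (Fin n → Bool) × (Fin n → Fin (n + 1)) =>
        IsTreeFn p.1 ∧ ¬ Sparse (treeLOG p.1 p.2.1 p.2.2).tl (treeLOG p.1 p.2.1 p.2.2).hd 132)).card : ℝ)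
      / ((univ.filter (fun p : (Fin n → Fin (n + 1)) × (Fin n → Bool) × (Fin n → Fin (n + 1)) =>
        IsTreeFn p.1)).card : ℝ)
      ≤ ((n : ℝ) + 1) ^ 2 / (Δ.factorial : ℝ) + C * ((X : ℝ) / ((n : ℝ) + 1)) := by
  set T := univ.filter (fun f : Fin n → Fin (n + 1) => IsTreeFn f) with hT
  set TB := univ.filter (fun f : Fin n → Fin (n + 1) => IsTreeFn f ∧ ∃ v, Δ < nch f v) with hTB
  set TG := univ.filter (fun f : Fin n → Fin (n + 1) => IsTreeFn f ∧ ∀ v, nch f v ≤ Δ) with hTG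
  set W : ℕ := 2 ^ n * (n + 1) ^ n with hW
  have hA : (univ.filter (fun p : (Fin n → Fin (n + 1)) × (Fin n → Bool) × (Fin n → Fin (n + 1)) =>
        IsTreeFn p.1)).card = T.card * W := by
    have : univ.filter (fun p : (Fin n → Fin (n + 1)) × (Fin n → Bool) × (Fin n → Fin (n + 1)) =>
        IsTreeFn p.1) = T ×ˢ (univ : Finset ((Fin n → Bool) × (Fin n → Fin (n + 1)))) := by
      ext p
      simp [hT]
    rw [this, Finset.card_product, Finset.card_univ, Fintype.card_prod]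
    simp [hW]
  have hBsub : univ.filter (fun p : (Fin n → Fin (n + 1)) × (Fin n → Bool) × (Fin n → Fin (n + 1)) =>
        IsTreeFn p.1 ∧ ¬ Sparse (treeLOG p.1 p.2.1 p.2.2).tl (treeLOG p.1 p.2.1 p.2.2).hd 132)
      ⊆ (TB ×ˢ (univ : Finset ((Fin n → Bool) × (Fin n → Fin (n + 1))))) ∪
        TG.biUnion (fun f => ({f} : Finset (Fin n → Fin (n + 1))) ×ˢ ((univ : Finset (Fin n → Bool)) ×ˢ
          (univ.filter (fun lam : Fin n → Fin (n + 1) => ∃ U F, BadPair 132 f lam U F)))) := by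
    rintro ⟨f, o, lam⟩ hp
    rw [Finset.mem_filter] at hp
    obtain ⟨_, hf, hs⟩ := hp
    rw [Finset.mem_union]
    by_cases hd : ∃ v, Δ < nch f v
    · left
      simp only [Finset.mem_product, Finset.mem_univ, and_true, hTB, Finset.mem_filter, true_and]
      exact ⟨hf, hd⟩
    · right
      rw [Finset.mem_biUnion]
      refine ⟨f, ?_, ?_⟩
      · rw [hTG, Finset.mem_filter]
        refine ⟨Finset.mem_univ _, hf, fun v => ?_⟩
        by_contra hv
        exact hd ⟨v, by omega⟩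
      · simp only [Finset.mem_product, Finset.mem_singleton, Finset.mem_univ, true_and,
          Finset.mem_filter]
        exact violation f o lam hs
  have hB := Finset.card_le_card hBsub
  have hB2 : (univ.filter (fun p : (Fin n → Fin (n + 1)) × (Fin n → Bool) × (Fin n → Fin (n + 1)) =>
        IsTreeFn p.1 ∧ ¬ Sparse (treeLOG p.1 p.2.1 p.2.2).tl (treeLOG p.1 p.2.1 p.2.2).hd 132)).card
      ≤ TB.card * W + ∑ f ∈ TG, 2 ^ n *
        (univ.filter (fun lam : Fin n → Fin (n + 1) => ∃ U F, BadPair 132 f lam U F)).card := by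
    refine hB.trans ((Finset.card_union_le _ _).trans (add_le_add ?_ ?_))
    · rw [Finset.card_product, Finset.card_univ, Fintype.card_prod]
      simp [hW]
    · refine Finset.card_biUnion_le.trans (Finset.sum_le_sum (fun f _ => ?_))
      rw [Finset.card_product, Finset.card_product]
      simp
  have hTGT : TG.card ≤ T.card := by
    refine Finset.card_le_card (fun f hf => ?_)
    rw [hTG, Finset.mem_filter] at hf
    rw [hT, Finset.mem_filter]
    exact ⟨hf.1, hf.2.1⟩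
  have htail : TB.card * Δ.factorial ≤ (n + 1) ^ 2 * T.card := nch_tail n Δ
  have hTpos : 0 < T.card := by
    refine Finset.card_pos.2 ⟨fun _ => 0, ?_⟩
    rw [hT, Finset.mem_filter]
    refine ⟨Finset.mem_univ _, fun v => ⟨1, ?_⟩⟩
    simp only [Function.iterate_one, pstep]
    refine Fin.cases ?_ (fun x => ?_) v
    · rfl
    · rfl
  -- sum over good functions, times (n+1)
  have hsum : (∑ f ∈ TG, 2 ^ n *
        (univ.filter (fun lam : Fin n → Fin (n + 1) => ∃ U F, BadPair 132 f lam U F)).card) * (n + 1)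
      ≤ T.card * (C * X * W) := by
    rw [Finset.sum_mul]
    refine (Finset.sum_le_card_nsmul TG _ (C * X * W) (fun f hf => ?_)).trans ?_
    · rw [hTG, Finset.mem_filter] at hf
      have h := hC f hf.2.1 hf.2.2
      calc 2 ^ n * (univ.filter (fun lam : Fin n → Fin (n + 1) => ∃ U F, BadPair 132 f lam U F)).card
            * (n + 1)
          = 2 ^ n * ((univ.filter (fun lam : Fin n → Fin (n + 1) =>
              ∃ U F, BadPair 132 f lam U F)).card * (n + 1)) := by ring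
        _ ≤ 2 ^ n * (C * X * (n + 1) ^ n) := Nat.mul_le_mul_left _ h
        _ = C * X * W := by rw [hW]; ring
    · rw [smul_eq_mul]
      exact Nat.mul_le_mul_right _ hTGT
  -- pass to the reals
  have hWpos : (0 : ℝ) < (W : ℝ) := by
    rw [hW]
    positivity
  have hTr : (0 : ℝ) < (T.card : ℝ) := by exact_mod_cast hTpos
  have hfac : (0 : ℝ) < (Δ.factorial : ℝ) := by exact_mod_cast Nat.factorial_pos Δ
  have hn1 : (0 : ℝ) < (n : ℝ) + 1 := by positivity
  rw [hA, div_le_iff₀ (by push_cast; positivity)]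
  have e1 : (TB.card : ℝ) ≤ ((n : ℝ) + 1) ^ 2 / (Δ.factorial : ℝ) * (T.card : ℝ) := by
    rw [div_mul_eq_mul_div, le_div_iff₀ hfac]
    exact_mod_cast htail
  have e2 : ((∑ f ∈ TG, 2 ^ n *
        (univ.filter (fun lam : Fin n → Fin (n + 1) => ∃ U F, BadPair 132 f lam U F)).card : ℕ) : ℝ)
      ≤ C * ((X : ℝ) / ((n : ℝ) + 1)) * ((T.card : ℝ) * W) := by
    have h := hsum
    have h' : ((∑ f ∈ TG, 2 ^ n *
        (univ.filter (fun lam : Fin n → Fin (n + 1) => ∃ U F, BadPair 132 f lam U F)).card : ℕ) : ℝ)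
          * ((n : ℝ) + 1)
        ≤ (T.card : ℝ) * (C * (X : ℝ) * W) := by
      exact_mod_cast h
    rw [show C * ((X : ℝ) / ((n : ℝ) + 1)) * ((T.card : ℝ) * W)
      = ((T.card : ℝ) * (C * (X : ℝ) * W)) / ((n : ℝ) + 1) by ring, le_div_iff₀ hn1]
    exact h'
  have e3 : ((univ.filter (fun p : (Fin n → Fin (n + 1)) × (Fin n → Bool) × (Fin n → Fin (n + 1)) =>
        IsTreeFn p.1 ∧ ¬ Sparse (treeLOG p.1 p.2.1 p.2.2).tl (treeLOG p.1 p.2.1 p.2.2).hd 132)).card : ℝ)
      ≤ (TB.card : ℝ) * W + ((∑ f ∈ TG, 2 ^ n *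
        (univ.filter (fun lam : Fin n → Fin (n + 1) => ∃ U F, BadPair 132 f lam U F)).card : ℕ) : ℝ) := by
    exact_mod_cast hB2
  refine e3.trans ?_
  push_cast at e2 ⊢
  have e4 : (TB.card : ℝ) * W ≤ ((n : ℝ) + 1) ^ 2 / (Δ.factorial : ℝ) * (T.card : ℝ) * W :=
    mul_le_mul_of_nonneg_right e1 hWpos.le
  linarith

open Classical in
theorem nonsparse_tendsto :
    Tendsto (fun n : ℕ =>
      ((univ.filter (fun p : (Fin n → Fin (n + 1)) × (Fin n → Bool) × (Fin n → Fin (n + 1)) =>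
        IsTreeFn p.1 ∧ ¬ Sparse (treeLOG p.1 p.2.1 p.2.2).tl (treeLOG p.1 p.2.1 p.2.2).hd 132)).card : ℝ)
      / ((univ.filter (fun p : (Fin n → Fin (n + 1)) × (Fin n → Bool) × (Fin n → Fin (n + 1)) =>
        IsTreeFn p.1)).card : ℝ)) atTop (𝓝 0) := by
  obtain ⟨C, hC⟩ := card_bad 132
  have h1 := first_tendsto.add ((second_tendsto 264).const_mul (C : ℝ))
  rw [mul_zero, add_zero] at h1
  refine squeeze_zero (fun n => by positivity) (fun n => ?_) h1
  have h2 := nonsparse_bound C n (Nat.log 2 (n + 1)) ((Nat.log 2 (n + 1) + 1) ^ 264)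
    (fun f hf hd => hC n (Nat.log 2 (n + 1)) f hf hd)
  rw [Nat.cast_pow, Nat.cast_add, Nat.cast_one] at h2
  exact h2

end Pool.Agent.LOT
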