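import Pool.Agent.LOT.TreeDefs

/-!
# LOT-TreeDec: every labelled oriented tree has a parent function

PLAN. Let `T = fromRel ..` be the tree of `L`. For `x : Fin n` (`x.succ ≠ 0`) let `f x` be a neighbour of `x.succ` with
`T.dist (f x) 0 + 1 = T.dist x.succ 0` (second vertex of a shortest walk; `SimpleGraph.Connected.exists_walk_length_eq_dist`
and cases on the walk). Iterating, `(pstep f)^[k] v` has distance `dist v - k`, so `IsTreeFn f`. The edges
`s(x.succ, f x)` are `n` different edges of `T` (distances), and `T` has exactly `n` edges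
(`SimpleGraph.IsTree.card_edgeFinset`), so these are all the edges. For every `x` exactly one of `L x.succ (f x)`,
`L (f x) x.succ` is `some`; let `o x` be `true` in the first case and `lam x` the value. Then `L a b = enc f o lam a b` for all
`a`, `b`: both are `none` if `a`, `b` are not adjacent, and otherwise `{a, b} = {x.succ, f x}` for one `x` (`enc_some`).
-/

namespace Pool.Agent.LOT

private theorem exists_parent {n : ℕ} {T : SimpleGraph (Fin (n + 1))} (hT : T.Connected)
    (x : Fin n) : ∃ w, T.Adj x.succ w ∧ T.dist w 0 + 1 = T.dist x.succ 0 := by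
  obtain ⟨p, hp⟩ := hT.exists_walk_length_eq_dist x.succ 0
  generalize hv : x.succ = v at p hp
  generalize hz : (0 : Fin (n + 1)) = z at p hp
  cases p with
  | nil =>
    exfalso
    exact Fin.succ_ne_zero x (hv.trans hz.symm)
  | cons h q =>
    rename_i w
    subst hz
    refine ⟨w, h, ?_⟩
    have h1 : T.dist w 0 ≤ q.length := SimpleGraph.dist_le q
    have h2 : q.length + 1 = T.dist v 0 := by
      rw [← hp]
      exact (SimpleGraph.Walk.length_cons h q).symm
    have h3 : T.dist v 0 ≤ T.dist v w + T.dist w 0 := hT.dist_triangle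
    have h4 : T.dist v w = 1 := SimpleGraph.dist_eq_one_iff_adj.2 h
    omega

private theorem treeFn_of_dist {n : ℕ} {T : SimpleGraph (Fin (n + 1))}
    (f : Fin n → Fin (n + 1)) (hf : ∀ x, T.dist (f x) 0 + 1 = T.dist x.succ 0) : IsTreeFn f := by
  have key : ∀ (d : ℕ) (v : Fin (n + 1)), T.dist v 0 = d → ∃ k, (pstep f)^[k] v = 0 := by
    intro d
    induction d using Nat.strong_induction_on with
    | _ d ih =>
      intro v hv
      rcases Fin.eq_zero_or_eq_succ v with h0 | ⟨x, hx⟩
      · exact ⟨0, h0⟩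
      · subst hx
        have h1 := hf x
        obtain ⟨k, hk⟩ := ih (T.dist (f x) 0) (by omega) (f x) rfl
        refine ⟨k + 1, ?_⟩
        rw [Function.iterate_succ_apply]
        have h2 : pstep f x.succ = f x := by simp [pstep]
        rw [h2, hk]
  exact fun v => key _ v rfl

private theorem edge_surj {n : ℕ} {T : SimpleGraph (Fin (n + 1))} (hT : T.IsTree)
    (f : Fin n → Fin (n + 1)) (hadj : ∀ x, T.Adj x.succ (f x))
    (hf : ∀ x, T.dist (f x) 0 + 1 = T.dist x.succ 0) (a b : Fin (n + 1)) (h : T.Adj a b) :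
    ∃ x : Fin n, (a = x.succ ∧ b = f x) ∨ (a = f x ∧ b = x.succ) := by
  classical
  have hinj : Function.Injective (fun x : Fin n => s(x.succ, f x)) := by
    intro x y hxy
    have hxy' : s(x.succ, f x) = s(y.succ, f y) := hxy
    rw [Sym2.eq_iff] at hxy'
    rcases hxy' with ⟨h1, _⟩ | ⟨h1, h2⟩
    · exact Fin.succ_injective _ h1
    · exfalso
      have h3 := hf x
      have h4 := hf y
      rw [h2] at h3
      rw [← h1] at h4
      omega
  have hsub : (Finset.univ.image (fun x : Fin n => s(x.succ, f x))) ⊆ T.edgeFinset := by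
    intro e he
    obtain ⟨x, _, hx⟩ := Finset.mem_image.1 he
    rw [← hx, SimpleGraph.mem_edgeFinset, SimpleGraph.mem_edgeSet]
    exact hadj x
  have hcard : T.edgeFinset.card ≤ (Finset.univ.image (fun x : Fin n => s(x.succ, f x))).card := by
    rw [Finset.card_image_of_injective _ hinj, Finset.card_univ, Fintype.card_fin]
    have h1 := hT.card_edgeFinset
    rw [Fintype.card_fin] at h1
    omega
  have heq := Finset.eq_of_subset_of_card_le hsub hcard
  have hmem : s(a, b) ∈ T.edgeFinset := by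
    rw [SimpleGraph.mem_edgeFinset, SimpleGraph.mem_edgeSet]
    exact h
  rw [← heq] at hmem
  obtain ⟨x, _, hx⟩ := Finset.mem_image.1 hmem
  have hx' : s(x.succ, f x) = s(a, b) := hx
  rw [Sym2.eq_iff] at hx'
  rcases hx' with ⟨h1, h2⟩ | ⟨h1, h2⟩
  · exact ⟨x, Or.inl ⟨h1.symm, h2.symm⟩⟩
  · exact ⟨x, Or.inr ⟨h2.symm, h1.symm⟩⟩

theorem lot_cover {n : ℕ} (L : Fin (n + 1) → Fin (n + 1) → Option (Fin (n + 1))) (hL : IsLOT L) :
    ∃ f o lam, IsTreeFn f ∧ L = enc f o lam := by
  obtain ⟨hanti, hT⟩ := hL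
  set T := SimpleGraph.fromRel (fun a b => (L a b).isSome = true) with hTdef
  have hadjiff : ∀ a b, T.Adj a b ↔ a ≠ b ∧ ((L a b).isSome = true ∨ (L b a).isSome = true) := by
    intro a b
    rw [hTdef, SimpleGraph.fromRel_adj]
  have hne : ∀ a b c, L a b = some c → a ≠ b := by
    intro a b c hc hab
    subst hab
    have h1 := hanti a a (by rw [hc]; rfl)
    rw [hc] at h1
    exact absurd h1 (by simp)
  have hno : ∀ a b c d, L a b = some c → L b a = some d → False := by
    intro a b c d hc hd
    have h1 := hanti a b (by rw [hc]; rfl)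
    rw [hd] at h1
    exact absurd h1 (by simp)
  choose f hadj hfd using fun x : Fin n => exists_parent hT.connected x
  have hol : ∀ x : Fin n, ∃ (ob : Bool) (c : Fin (n + 1)),
      (ob = true ∧ L x.succ (f x) = some c) ∨ (ob = false ∧ L (f x) x.succ = some c) := by
    intro x
    rcases ((hadjiff _ _).1 (hadj x)).2 with h | h
    · obtain ⟨c, hc⟩ := Option.isSome_iff_exists.1 h
      exact ⟨true, c, Or.inl ⟨rfl, hc⟩⟩
    · obtain ⟨c, hc⟩ := Option.isSome_iff_exists.1 h
      exact ⟨false, c, Or.inr ⟨rfl, hc⟩⟩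
  choose o lam hol using hol
  have htree : IsTreeFn f := treeFn_of_dist f hfd
  refine ⟨f, o, lam, htree, ?_⟩
  funext a b
  apply Option.ext
  intro c
  rw [enc_some f o lam htree]
  constructor
  · intro hc
    have hab : T.Adj a b := (hadjiff a b).2 ⟨hne a b c hc, Or.inl (by rw [hc]; rfl)⟩
    obtain ⟨x, ⟨ha, hb⟩ | ⟨ha, hb⟩⟩ := edge_surj hT f hadj hfd a b hab
    · subst ha
      subst hb
      rcases hol x with ⟨h1, h2⟩ | ⟨h1, h2⟩
      · rw [h2] at hc
        exact ⟨x, (Option.some.inj hc).symm, Or.inl ⟨h1, rfl, rfl⟩⟩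
      · exact (hno _ _ _ _ hc h2).elim
    · subst ha
      subst hb
      rcases hol x with ⟨h1, h2⟩ | ⟨h1, h2⟩
      · exact (hno _ _ _ _ hc h2).elim
      · rw [h2] at hc
        exact ⟨x, (Option.some.inj hc).symm, Or.inr ⟨h1, rfl, rfl⟩⟩
  · rintro ⟨x, hc, ⟨ho, ha, hb⟩ | ⟨ho, ha, hb⟩⟩
    · subst ha
      subst hb
      rcases hol x with ⟨h1, h2⟩ | ⟨h1, h2⟩
      · rw [h2, hc]
      · rw [h1] at ho
        exact absurd ho (by simp)
    · subst ha
      subst hb
      rcases hol x with ⟨h1, h2⟩ | ⟨h1, h2⟩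
      · rw [h1] at ho
        exact absurd ho (by simp)
      · rw [h2, hc]

end Pool.Agent.LOT
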