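import Pool.Agent.LOT.TreeDefs

/-!
# LOT-TreeEnc: the labelled oriented tree of a parent function

PLAN. `enc_some`, `tree_ne`, `tree_ne2` are proved in `TreeDefs`.
`enc_isLOT`: `enc a b` and `enc b a` both `some` give `x`, `y` with `{x.succ, f x} = {y.succ, f y}`; `x = y` is impossible because
`f x ≠ x.succ` (fixed point of `pstep f` different from `0`) fixes the direction, and `x ≠ y` gives a 2-cycle. Tree:
`SimpleGraph.isTree_iff_connected_and_card`: connected because every vertex is joined to `0` by iterating `pstep f`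
(adjacent or equal at every step); the edge set is the injective image of `Fin n` under `x ↦ s(x.succ, f x)`, so it has `n`
elements.
`enc_inj`: from equality of the functions, `f = f'` : otherwise let `D = {x | f x ≠ f' x}`; for `x ∈ D` the edge
`{x.succ, f x}` is an edge of the second tree, so `f x = y.succ` and `f' y = x.succ` for some `y`, and `y ∈ D` because
`f y = x.succ` would be a 2-cycle. So the `pstep f`-orbit of `x.succ` stays in `{y.succ : y ∈ D}` and never reaches `0`.
Then `o = o'` and `lam = lam'` from `enc_some` (`f x ≠ x.succ`).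
`sparse_enc`: the map `p ↦ x` from the edges of `toLOG (enc f o lam)` to `Fin n` (`enc_some`) is injective and compatible with
`i`, `t`, `l`, so a set of arcs of the first maps injectively to a set of arcs of the second with the same `vset`.
-/

namespace Pool.Agent.LOT

private theorem te_edge {n : ℕ} (f : Fin n → Fin (n + 1)) (o : Fin n → Bool)
    (lam : Fin n → Fin (n + 1)) (hf : IsTreeFn f) (x : Fin n) :
    enc f o lam x.succ (f x) = some (lam x) ∨ enc f o lam (f x) x.succ = some (lam x) := by
  cases ho : o x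
  · exact Or.inr ((enc_some f o lam hf _ _ _).2 ⟨x, rfl, Or.inr ⟨ho, rfl, rfl⟩⟩)
  · exact Or.inl ((enc_some f o lam hf _ _ _).2 ⟨x, rfl, Or.inl ⟨ho, rfl, rfl⟩⟩)

theorem enc_isLOT {n : ℕ} (f : Fin n → Fin (n + 1)) (o : Fin n → Bool)
    (lam : Fin n → Fin (n + 1)) (hf : IsTreeFn f) : IsLOT (enc f o lam) := by
  refine ⟨?_, ?_⟩
  · intro a b hab
    obtain ⟨c, hc⟩ := Option.isSome_iff_exists.1 hab
    rcases hba : enc f o lam b a with _ | c'
    · rfl
    · exfalso
      obtain ⟨x, -, hx⟩ := (enc_some f o lam hf _ _ _).1 hc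
      obtain ⟨y, -, hy⟩ := (enc_some f o lam hf _ _ _).1 hba
      rcases hx with ⟨ox, hx1, hx2⟩ | ⟨ox, hx1, hx2⟩ <;>
        rcases hy with ⟨oy, hy1, hy2⟩ | ⟨oy, hy1, hy2⟩
      · exact tree_ne2 hf x y (by rw [← hx2, hy1]) (by rw [← hy2, hx1])
      · have hxy : x = y := Fin.succ_injective _ (by rw [← hx1, hy2])
        subst hxy
        rw [ox] at oy
        exact absurd oy (by decide)
      · have hxy : x = y := Fin.succ_injective _ (by rw [← hx2, hy1])
        subst hxy
        rw [ox] at oy
        exact absurd oy (by decide)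
      · exact tree_ne2 hf x y (by rw [← hx1, hy2]) (by rw [← hy1, hx2])
  · rw [SimpleGraph.isTree_iff_connected_and_card]
    have hadj : ∀ x : Fin n, (SimpleGraph.fromRel
        (fun a b => (enc f o lam a b).isSome = true)).Adj x.succ (f x) := by
      intro x
      rw [SimpleGraph.fromRel_adj]
      refine ⟨fun h => tree_ne hf x h.symm, ?_⟩
      rcases te_edge f o lam hf x with h | h
      · exact Or.inl (by rw [h]; rfl)
      · exact Or.inr (by rw [h]; rfl)
    have hstep : ∀ v, (SimpleGraph.fromRel
        (fun a b => (enc f o lam a b).isSome = true)).Reachable v (pstep f v) := by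
      intro v
      refine Fin.cases ?_ (fun x => ?_) v
      · exact SimpleGraph.Reachable.refl _
      · exact (hadj x).reachable
    have hreach : ∀ k v, (pstep f)^[k] v = 0 → (SimpleGraph.fromRel
        (fun a b => (enc f o lam a b).isSome = true)).Reachable v 0 := by
      intro k
      induction k with
      | zero =>
        intro v hv
        have hv' : v = 0 := hv
        rw [hv']
      | succ k ih =>
        intro v hv
        rw [Function.iterate_succ_apply] at hv
        exact (hstep v).trans (ih _ hv)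
    refine ⟨⟨fun u v => ?_⟩, ?_⟩
    · obtain ⟨k, hk⟩ := hf u
      obtain ⟨l, hl⟩ := hf v
      exact (hreach k u hk).trans (hreach l v hl).symm
    · have hset : (SimpleGraph.fromRel
          (fun a b => (enc f o lam a b).isSome = true)).edgeSet =
          Set.range (fun x : Fin n => s(x.succ, f x)) := by
        ext e
        induction e using Sym2.ind with
        | _ a b =>
          rw [SimpleGraph.mem_edgeSet, SimpleGraph.fromRel_adj]
          constructor
          · rintro ⟨-, h | h⟩
            · obtain ⟨c, hc⟩ := Option.isSome_iff_exists.1 h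
              obtain ⟨x, -, ⟨-, rfl, rfl⟩ | ⟨-, rfl, rfl⟩⟩ := (enc_some f o lam hf _ _ _).1 hc
              · exact ⟨x, rfl⟩
              · exact ⟨x, Sym2.eq_swap⟩
            · obtain ⟨c, hc⟩ := Option.isSome_iff_exists.1 h
              obtain ⟨x, -, ⟨-, rfl, rfl⟩ | ⟨-, rfl, rfl⟩⟩ := (enc_some f o lam hf _ _ _).1 hc
              · exact ⟨x, Sym2.eq_swap⟩
              · exact ⟨x, rfl⟩
          · rintro ⟨x, hx⟩
            have h1 := hadj x
            rw [SimpleGraph.fromRel_adj] at h1
            rcases Sym2.eq_iff.1 hx with ⟨rfl, rfl⟩ | ⟨rfl, rfl⟩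
            · exact h1
            · exact ⟨h1.1.symm, h1.2.symm⟩
      have hinj : Function.Injective (fun x : Fin n => s(x.succ, f x)) := by
        intro x y hxy
        rcases Sym2.eq_iff.1 hxy with ⟨h1, -⟩ | ⟨h1, h2⟩
        · exact Fin.succ_injective _ h1
        · exact absurd (tree_ne2 hf x y h2 h1.symm) id
      rw [hset, Nat.card_range_of_injective hinj]
      simp

private theorem te_other {n : ℕ} (f f' : Fin n → Fin (n + 1)) (o o' : Fin n → Bool)
    (lam lam' : Fin n → Fin (n + 1)) (hf : IsTreeFn f) (hf' : IsTreeFn f')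
    (h : enc f o lam = enc f' o' lam') (x : Fin n) :
    f' x = f x ∨ ∃ y, f x = y.succ ∧ f' y = x.succ := by
  rcases te_edge f o lam hf x with h1 | h1
  · rw [h] at h1
    obtain ⟨y, -, ⟨-, h2, h3⟩ | ⟨-, h2, h3⟩⟩ := (enc_some f' o' lam' hf' _ _ _).1 h1
    · have hxy := Fin.succ_injective _ h2
      subst hxy
      exact Or.inl h3.symm
    · exact Or.inr ⟨y, h3, h2.symm⟩
  · rw [h] at h1
    obtain ⟨y, -, ⟨-, h2, h3⟩ | ⟨-, h2, h3⟩⟩ := (enc_some f' o' lam' hf' _ _ _).1 h1
    · exact Or.inr ⟨y, h2, h3.symm⟩
    · have hxy := Fin.succ_injective _ h3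
      subst hxy
      exact Or.inl h2.symm

theorem enc_inj {n : ℕ} (f f' : Fin n → Fin (n + 1)) (o o' : Fin n → Bool)
    (lam lam' : Fin n → Fin (n + 1)) (hf : IsTreeFn f) (hf' : IsTreeFn f')
    (h : enc f o lam = enc f' o' lam') : f = f' ∧ o = o' ∧ lam = lam' := by
  have hff : f = f' := by
    by_contra hne
    obtain ⟨x0, hx0⟩ := Function.ne_iff.1 hne
    obtain ⟨k, hk⟩ := hf x0.succ
    have hit : ∀ k, ∃ y : Fin n, (pstep f)^[k] x0.succ = y.succ ∧ f y ≠ f' y := by
      intro k
      induction k with
      | zero => exact ⟨x0, rfl, hx0⟩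
      | succ k ih =>
        obtain ⟨y, hy1, hy2⟩ := ih
        rw [Function.iterate_succ_apply', hy1]
        rcases te_other f f' o o' lam lam' hf hf' h y with h1 | ⟨z, h1, h2⟩
        · exact absurd h1.symm hy2
        · refine ⟨z, h1, fun h3 => ?_⟩
          exact tree_ne2 hf y z h1 (by rw [h3, h2])
    obtain ⟨y, hy, -⟩ := hit k
    rw [hk] at hy
    exact Fin.succ_ne_zero y hy.symm
  subst hff
  have key : ∀ x, o x = o' x ∧ lam x = lam' x := by
    intro x
    cases ho : o x
    · have h1 : enc f o lam (f x) x.succ = some (lam x) :=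
        (enc_some f o lam hf _ _ _).2 ⟨x, rfl, Or.inr ⟨ho, rfl, rfl⟩⟩
      rw [h] at h1
      obtain ⟨y, h0, ⟨h1, h2, h3⟩ | ⟨h1, h2, h3⟩⟩ := (enc_some f o' lam' hf _ _ _).1 h1
      · exact absurd (tree_ne2 hf x y h2 h3.symm) id
      · have hxy := Fin.succ_injective _ h3
        subst hxy
        exact ⟨h1.symm, h0⟩
    · have h1 : enc f o lam x.succ (f x) = some (lam x) :=
        (enc_some f o lam hf _ _ _).2 ⟨x, rfl, Or.inl ⟨ho, rfl, rfl⟩⟩
      rw [h] at h1
      obtain ⟨y, h0, ⟨h1, h2, h3⟩ | ⟨h1, h2, h3⟩⟩ := (enc_some f o' lam' hf _ _ _).1 h1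
      · have hxy := Fin.succ_injective _ h2
        subst hxy
        exact ⟨h1.symm, h0⟩
      · exact absurd (tree_ne2 hf x y h3 h2.symm) id
  exact ⟨rfl, funext fun x => (key x).1, funext fun x => (key x).2⟩

theorem sparse_enc {n B : ℕ} (f : Fin n → Fin (n + 1)) (o : Fin n → Bool)
    (lam : Fin n → Fin (n + 1)) (hf : IsTreeFn f)
    (h : Sparse (treeLOG f o lam).tl (treeLOG f o lam).hd B) :
    Sparse (toLOG (enc f o lam)).tl (toLOG (enc f o lam)).hd B := by
  have hex : ∀ p : {p : Fin (n + 1) × Fin (n + 1) // (enc f o lam p.1 p.2).isSome = true},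
      ∃ x : Fin n, (toLOG (enc f o lam)).i p = (treeLOG f o lam).i x ∧
        (toLOG (enc f o lam)).t p = (treeLOG f o lam).t x ∧
        (toLOG (enc f o lam)).l p = (treeLOG f o lam).l x := by
    intro p
    have h1 : enc f o lam p.1.1 p.1.2 = some ((enc f o lam p.1.1 p.1.2).get p.2) := by simp
    obtain ⟨x, h0, ⟨h2, h3, h4⟩ | ⟨h2, h3, h4⟩⟩ := (enc_some f o lam hf _ _ _).1 h1
    · refine ⟨x, ?_, ?_, h0⟩
      · show p.1.1 = if o x then x.succ else f x
        rw [h2, h3]; rfl
      · show p.1.2 = if o x then f x else x.succ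
        rw [h2, h4]; rfl
    · refine ⟨x, ?_, ?_, h0⟩
      · show p.1.1 = if o x then x.succ else f x
        rw [h2, h3]; rfl
      · show p.1.2 = if o x then f x else x.succ
        rw [h2, h4]; rfl
  choose g hg1 hg2 hg3 using hex
  have ginj : Function.Injective g := by
    intro p q hpq
    apply Subtype.ext
    apply Prod.ext
    · show (toLOG (enc f o lam)).i p = (toLOG (enc f o lam)).i q
      rw [hg1, hg1, hpq]
    · show (toLOG (enc f o lam)).t p = (toLOG (enc f o lam)).t q
      rw [hg2, hg2, hpq]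
  intro S hS
  have minj : Function.Injective (fun e : {p : Fin (n + 1) × Fin (n + 1) //
      (enc f o lam p.1 p.2).isSome = true} × Bool => (g e.1, e.2)) := by
    intro e e' hee
    simp only [Prod.mk.injEq] at hee
    exact Prod.ext (ginj hee.1) hee.2
  have htl : ∀ e : {p : Fin (n + 1) × Fin (n + 1) // (enc f o lam p.1 p.2).isSome = true} × Bool,
      (treeLOG f o lam).tl (g e.1, e.2) = (toLOG (enc f o lam)).tl e := by
    rintro ⟨p, b⟩
    cases b
    · exact (hg2 p).symm
    · exact (hg1 p).symm
  have hhd : ∀ e : {p : Fin (n + 1) × Fin (n + 1) // (enc f o lam p.1 p.2).isSome = true} × Bool,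
      (treeLOG f o lam).hd (g e.1, e.2) = (toLOG (enc f o lam)).hd e := by
    rintro ⟨p, b⟩
    exact (hg3 p).symm
  have hc : (S.image (fun e => (g e.1, e.2))).card = S.card :=
    Finset.card_image_of_injective _ minj
  have hv : vset (treeLOG f o lam).tl (treeLOG f o lam).hd (S.image (fun e => (g e.1, e.2))) =
      vset (toLOG (enc f o lam)).tl (toLOG (enc f o lam)).hd S := by
    unfold vset
    rw [Finset.image_image, Finset.image_image]
    congr 1
    · exact Finset.image_congr fun e _ => htl e
    · exact Finset.image_congr fun e _ => hhd e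
  have := h (S.image (fun e => (g e.1, e.2))) (by rw [hc]; exact hS)
  rwa [hc, hv] at this

end Pool.Agent.LOT
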