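import Pool.Agent.LOT.Core
import Pool.Agent.LOT.Prob
import Pool.Agent.LOT.TreeEnc
import Pool.Agent.LOT.TreeDec

/-!
# LOT-Final: almost all labelled oriented trees are aspherical
-/

namespace Pool.Agent.LOT

open Finset Filter Topology

/-- the canonical generators of the presented group -/
def pgen {V E : Type} (Γ : LOG V E) : V → PresentedGroup (Set.range Γ.rel) :=
  fun v => PresentedGroup.of v

theorem lift_pgen {V E : Type} (Γ : LOG V E) :
    FreeGroup.lift (pgen Γ) = PresentedGroup.mk (Set.range Γ.rel) := by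
  ext v
  simp [pgen, PresentedGroup.of]

theorem isPres_pgen {V E : Type} (Γ : LOG V E) : IsPres Γ (pgen Γ) := by
  constructor
  · rw [lift_pgen]
    exact PresentedGroup.mk_surjective _
  · rw [lift_pgen]
    exact QuotientGroup.ker_mk' _

open Classical in
/-- a labelled oriented tree that is not aspherical comes from a non-sparse triple -/
theorem card_nonasph (n : ℕ) :
    (univ.filter (fun L : Fin (n + 1) → Fin (n + 1) → Option (Fin (n + 1)) =>
        IsLOT L ∧ ¬ Asph (toLOG L) (pgen (toLOG L)))).card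
      ≤ (univ.filter (fun p : (Fin n → Fin (n + 1)) × (Fin n → Bool) × (Fin n → Fin (n + 1)) =>
        IsTreeFn p.1 ∧
          ¬ Sparse (treeLOG p.1 p.2.1 p.2.2).tl (treeLOG p.1 p.2.1 p.2.2).hd 132)).card := by
  refine card_le_card_of_surjOn (fun p => enc p.1 p.2.1 p.2.2) ?_
  intro L hL
  simp only [coe_filter, mem_univ, true_and, Set.mem_setOf_eq] at hL
  obtain ⟨hL1, hL2⟩ := hL
  obtain ⟨f, o, lam, hf, rfl⟩ := lot_cover L hL1
  refine ⟨(f, o, lam), ?_, rfl⟩
  simp only [coe_filter, mem_univ, true_and, Set.mem_setOf_eq]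
  refine ⟨hf, fun hs => hL2 ?_⟩
  exact sparse_asph _ (isPres_pgen _) (sparse_enc f o lam hf hs)

open Classical in
theorem card_lot (n : ℕ) :
    (univ.filter (fun p : (Fin n → Fin (n + 1)) × (Fin n → Bool) × (Fin n → Fin (n + 1)) =>
        IsTreeFn p.1)).card
      ≤ (univ.filter (fun L : Fin (n + 1) → Fin (n + 1) → Option (Fin (n + 1)) => IsLOT L)).card := by
  refine card_le_card_of_injOn (fun p => enc p.1 p.2.1 p.2.2) ?_ ?_
  · intro p hp
    simp only [coe_filter, mem_univ, true_and, Set.mem_setOf_eq] at hp ⊢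
    exact enc_isLOT _ _ _ hp
  · rintro ⟨f, o, lam⟩ hp ⟨f', o', lam'⟩ hp' h
    simp only [coe_filter, mem_univ, true_and, Set.mem_setOf_eq] at hp hp' h
    obtain ⟨h1, h2, h3⟩ := enc_inj f f' o o' lam lam' hp hp' h
    rw [h1, h2, h3]

open Classical in
theorem card_tree_pos (n : ℕ) :
    0 < (univ.filter (fun p : (Fin n → Fin (n + 1)) × (Fin n → Bool) × (Fin n → Fin (n + 1)) =>
        IsTreeFn p.1)).card := by
  refine card_pos.2 ⟨(fun _ => 0, fun _ => true, fun _ => 0), ?_⟩
  simp only [mem_filter, mem_univ, true_and]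
  intro v
  refine ⟨1, ?_⟩
  rw [Function.iterate_one]
  refine Fin.cases ?_ (fun x => ?_) v
  · rfl
  · rfl

open Classical in
theorem final_tendsto :
    Tendsto (fun n : ℕ =>
      ((univ.filter (fun L : Fin n → Fin n → Option (Fin n) =>
        IsLOT L ∧ Asph (toLOG L) (pgen (toLOG L)))).card : ℝ)
      / ((univ.filter (fun L : Fin n → Fin n → Option (Fin n) => IsLOT L)).card : ℝ))
      atTop (𝓝 1) := by
  rw [← tendsto_add_atTop_iff_nat 1]
  have hkey : ∀ n : ℕ,
      ((univ.filter (fun L : Fin (n + 1) → Fin (n + 1) → Option (Fin (n + 1)) =>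
        IsLOT L ∧ Asph (toLOG L) (pgen (toLOG L)))).card : ℝ)
      / ((univ.filter (fun L : Fin (n + 1) → Fin (n + 1) → Option (Fin (n + 1)) =>
        IsLOT L)).card : ℝ)
      = 1 - ((univ.filter (fun L : Fin (n + 1) → Fin (n + 1) → Option (Fin (n + 1)) =>
        IsLOT L ∧ ¬ Asph (toLOG L) (pgen (toLOG L)))).card : ℝ)
      / ((univ.filter (fun L : Fin (n + 1) → Fin (n + 1) → Option (Fin (n + 1)) =>
        IsLOT L)).card : ℝ) := by
    intro n
    have hpos : (0 : ℝ) < ((univ.filter (fun L : Fin (n + 1) → Fin (n + 1) → Option (Fin (n + 1)) =>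
        IsLOT L)).card : ℝ) := by
      exact_mod_cast lt_of_lt_of_le (card_tree_pos n) (card_lot n)
    have hsum : (univ.filter (fun L : Fin (n + 1) → Fin (n + 1) → Option (Fin (n + 1)) =>
        IsLOT L ∧ Asph (toLOG L) (pgen (toLOG L)))).card
        + (univ.filter (fun L : Fin (n + 1) → Fin (n + 1) → Option (Fin (n + 1)) =>
        IsLOT L ∧ ¬ Asph (toLOG L) (pgen (toLOG L)))).card
        = (univ.filter (fun L : Fin (n + 1) → Fin (n + 1) → Option (Fin (n + 1)) =>
        IsLOT L)).card := by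
      rw [← filter_filter, ← filter_filter]
      exact card_filter_add_card_filter_not _
    have hsum' : ((univ.filter (fun L : Fin (n + 1) → Fin (n + 1) → Option (Fin (n + 1)) =>
        IsLOT L ∧ Asph (toLOG L) (pgen (toLOG L)))).card : ℝ)
        = ((univ.filter (fun L : Fin (n + 1) → Fin (n + 1) → Option (Fin (n + 1)) =>
        IsLOT L)).card : ℝ) - ((univ.filter (fun L : Fin (n + 1) → Fin (n + 1) → Option (Fin (n + 1)) =>
        IsLOT L ∧ ¬ Asph (toLOG L) (pgen (toLOG L)))).card : ℝ) := by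
      rw [← hsum]
      push_cast
      ring
    rw [hsum', sub_div, div_self hpos.ne']
  have h0 : Tendsto (fun n : ℕ =>
      ((univ.filter (fun L : Fin (n + 1) → Fin (n + 1) → Option (Fin (n + 1)) =>
        IsLOT L ∧ ¬ Asph (toLOG L) (pgen (toLOG L)))).card : ℝ)
      / ((univ.filter (fun L : Fin (n + 1) → Fin (n + 1) → Option (Fin (n + 1)) =>
        IsLOT L)).card : ℝ)) atTop (𝓝 0) := by
    refine squeeze_zero (fun n => by positivity) (fun n => ?_) nonsparse_tendsto
    have h1 : (0 : ℝ) < ((univ.filter (fun p : (Fin n → Fin (n + 1)) × (Fin n → Bool) ×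
        (Fin n → Fin (n + 1)) => IsTreeFn p.1)).card : ℝ) := by
      exact_mod_cast card_tree_pos n
    refine div_le_div₀ (by positivity) ?_ h1 ?_
    · exact_mod_cast card_nonasph n
    · exact_mod_cast card_lot n
  have h1 := (tendsto_const_nhds (x := (1 : ℝ))).sub h0
  rw [sub_zero] at h1
  exact h1.congr (fun n => (hkey n).symm)

end Pool.Agent.LOT
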