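import Pool.Agent.LOT.Viol
import Pool.Agent.LOT.CountU

/-!
# LOT-Union: union bound over the bad pairs

PLAN. The number of `lam` with a bad pair is at most the sum over `(U, F)` with `F.card ≤ B`, `U.card ≤ B`,
`F ⊆ T(U) := {x | x.succ ∈ U ∨ f x ∈ U}`, `U.card + 1 ≤ F.card + (JU f U).card` of the number of `lam` with `lam x ∈ U` on `F`,
which is `U.card ^ F.card * (n + 1) ^ (n - F.card)` (`Fintype.card_piFinset` with the sets `U` on `F`, `univ` off `F`).
Group by `p = U.card ≤ B`, `q = F.card ≤ B`, `r = (JU f U).card ≤ p`, `p + 1 ≤ q + r`: number of `U` by `card_U`, number of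
`F` is `choose (T(U).card) q ≤ (p (1 + Δ))^q` (`T(U).card ≤ p + p Δ`, `Nat.choose_le_pow`-like). One term, times `(n + 1)`:
`2^p (n+1)^(p-r) (p Δ)^r (p (1+Δ))^q p^q (n+1)^(n-q) (n+1) ≤ 2^B B^(3B) (1+Δ)^(2B) (n+1)^n` because
`(p - r) + (n - q) + 1 ≤ n` (`q ≤ n`). At most `(B+1)^3` triples. So `C = (B+1)^3 * 2^B * (B+1)^(3B)` works.
-/

namespace Pool.Agent.LOT

open Finset

private def TT {n : ℕ} (f : Fin n → Fin (n + 1)) (U : Finset (Fin (n + 1))) : Finset (Fin n) :=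
  univ.filter (fun x => x.succ ∈ U ∨ f x ∈ U)

private def LL {n : ℕ} (U : Finset (Fin (n + 1))) (F : Finset (Fin n)) :
    Finset (Fin n → Fin (n + 1)) :=
  Fintype.piFinset (fun x => if x ∈ F then U else univ)

private def UU {n : ℕ} (f : Fin n → Fin (n + 1)) (p r : ℕ) : Finset (Finset (Fin (n + 1))) :=
  univ.filter (fun U : Finset (Fin (n + 1)) => U.card = p ∧ (JU f U).card = r)

private theorem mem_LL {n : ℕ} (U : Finset (Fin (n + 1))) (F : Finset (Fin n))
    (lam : Fin n → Fin (n + 1)) : lam ∈ LL U F ↔ ∀ x ∈ F, lam x ∈ U := by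
  unfold LL
  rw [Fintype.mem_piFinset]
  constructor
  · intro h x hx
    have := h x
    rwa [if_pos hx] at this
  · intro h x
    by_cases hx : x ∈ F
    · rw [if_pos hx]; exact h x hx
    · rw [if_neg hx]; exact mem_univ _

private theorem card_LL {n : ℕ} (U : Finset (Fin (n + 1))) (F : Finset (Fin n)) :
    (LL U F).card = U.card ^ F.card * (n + 1) ^ (n - F.card) := by
  unfold LL
  rw [Fintype.card_piFinset]
  have h1 : ∀ x : Fin n, (if x ∈ F then U else univ).card = if x ∈ F then U.card else n + 1 := by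
    intro x
    by_cases hx : x ∈ F
    · rw [if_pos hx, if_pos hx]
    · rw [if_neg hx, if_neg hx, card_univ, Fintype.card_fin]
  rw [prod_congr rfl fun x _ => h1 x, prod_ite, prod_const, prod_const]
  have h2 : (univ.filter (fun x => x ∈ F)) = F := by ext x; simp
  have h3 : (univ.filter (fun x => x ∉ F)) = Fᶜ := by ext x; simp
  rw [h2, h3, card_compl, Fintype.card_fin]

private theorem card_TT {n : ℕ} (f : Fin n → Fin (n + 1)) (Δ : ℕ) (hΔ : ∀ v, nch f v ≤ Δ)
    (U : Finset (Fin (n + 1))) : (TT f U).card ≤ U.card * (1 + Δ) := by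
  unfold TT
  rw [filter_or]
  refine (card_union_le _ _).trans ?_
  rw [mul_add, mul_one]
  refine Nat.add_le_add ?_ ?_
  · refine card_le_card_of_injOn Fin.succ ?_ (Fin.succ_injective n).injOn
    intro x hx
    simpa using hx
  · have h1 : univ.filter (fun x => f x ∈ U) =
        U.biUnion (fun v => univ.filter (fun x => f x = v)) := by
      ext x
      simp
    rw [h1]
    refine card_biUnion_le.trans ?_
    rw [← smul_eq_mul]
    exact sum_le_card_nsmul _ _ _ fun v _ => hΔ v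

private theorem term_bound (B n Δ : ℕ) (f : Fin n → Fin (n + 1)) (hf : IsTreeFn f)
    (hΔ : ∀ v, nch f v ≤ Δ) (p q r : ℕ) (hp : p ≤ B) (hq : q ≤ B) (hpqr : p + 1 ≤ q + r)
    (hr : r ≤ p) (hqn : q ≤ n) :
    (∑ U ∈ UU f p r, ∑ F ∈ powersetCard q (TT f U), (LL U F).card) * (n + 1)
      ≤ 2 ^ B * (B + 1) ^ (3 * B) * (Δ + 1) ^ (2 * B) * (n + 1) ^ n := by
  have h1 : ∀ U ∈ UU f p r, ∑ F ∈ powersetCard q (TT f U), (LL U F).card ≤
      (p * (1 + Δ)) ^ q * (p ^ q * (n + 1) ^ (n - q)) := by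
    intro U hU
    obtain ⟨e1, e2⟩ := (mem_filter.1 hU).2
    calc ∑ F ∈ powersetCard q (TT f U), (LL U F).card
        = ∑ F ∈ powersetCard q (TT f U), p ^ q * (n + 1) ^ (n - q) := by
          refine sum_congr rfl fun F hF => ?_
          rw [card_LL, e1, (mem_powersetCard.1 hF).2]
      _ = (TT f U).card.choose q * (p ^ q * (n + 1) ^ (n - q)) := by
          rw [sum_const, smul_eq_mul, card_powersetCard]
      _ ≤ (p * (1 + Δ)) ^ q * (p ^ q * (n + 1) ^ (n - q)) := by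
          refine Nat.mul_le_mul_right _ ?_
          refine (Nat.choose_le_pow _ _).trans ?_
          refine Nat.pow_le_pow_left ?_ q
          have := card_TT f Δ hΔ U
          rwa [e1] at this
  have h2 : ∑ U ∈ UU f p r, ∑ F ∈ powersetCard q (TT f U), (LL U F).card ≤
      (2 ^ p * (n + 1) ^ (p - r) * (p * Δ) ^ r) *
        ((p * (1 + Δ)) ^ q * (p ^ q * (n + 1) ^ (n - q))) := by
    refine (sum_le_card_nsmul _ _ _ h1).trans ?_
    rw [smul_eq_mul]
    exact Nat.mul_le_mul_right _ (card_U f hf Δ hΔ p r hr)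
  calc (∑ U ∈ UU f p r, ∑ F ∈ powersetCard q (TT f U), (LL U F).card) * (n + 1)
      ≤ (2 ^ p * (n + 1) ^ (p - r) * (p * Δ) ^ r) *
        ((p * (1 + Δ)) ^ q * (p ^ q * (n + 1) ^ (n - q))) * (n + 1) := Nat.mul_le_mul_right _ h2
    _ = 2 ^ p * (p ^ r * p ^ q * p ^ q) * (Δ ^ r * (Δ + 1) ^ q) *
        (n + 1) ^ (p - r + (n - q) + 1) := by
        rw [mul_pow, mul_pow, pow_add, pow_add, pow_one, Nat.add_comm 1 Δ]
        ring
    _ ≤ 2 ^ B * ((B + 1) ^ B * (B + 1) ^ B * (B + 1) ^ B) * ((Δ + 1) ^ B * (Δ + 1) ^ B) *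
        (n + 1) ^ n := by
        have a1 : 2 ^ p ≤ 2 ^ B := Nat.pow_le_pow_right (by norm_num) hp
        have a2 : ∀ m, m ≤ B → p ^ m ≤ (B + 1) ^ B := fun m hm =>
          (Nat.pow_le_pow_left (by omega) m).trans (Nat.pow_le_pow_right (by omega) hm)
        have a3 : Δ ^ r ≤ (Δ + 1) ^ B :=
          (Nat.pow_le_pow_left (by omega) r).trans (Nat.pow_le_pow_right (by omega) (hr.trans hp))
        have a4 : (Δ + 1) ^ q ≤ (Δ + 1) ^ B := Nat.pow_le_pow_right (by omega) hq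
        have a5 : (n + 1) ^ (p - r + (n - q) + 1) ≤ (n + 1) ^ n :=
          Nat.pow_le_pow_right (by omega) (by omega)
        exact Nat.mul_le_mul (Nat.mul_le_mul (Nat.mul_le_mul a1 (Nat.mul_le_mul
          (Nat.mul_le_mul (a2 r (hr.trans hp)) (a2 q hq)) (a2 q hq))) (Nat.mul_le_mul a3 a4)) a5
    _ = 2 ^ B * (B + 1) ^ (3 * B) * (Δ + 1) ^ (2 * B) * (n + 1) ^ n := by
        rw [Nat.mul_comm 3 B, Nat.mul_comm 2 B, pow_mul, pow_mul]
        ring

open Classical in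
theorem card_bad (B : ℕ) : ∃ C : ℕ, ∀ (n Δ : ℕ) (f : Fin n → Fin (n + 1)), IsTreeFn f →
    (∀ v, nch f v ≤ Δ) →
    (univ.filter (fun lam : Fin n → Fin (n + 1) => ∃ U F, BadPair B f lam U F)).card * (n + 1)
      ≤ C * (Δ + 1) ^ (2 * B) * (n + 1) ^ n := by
  refine ⟨(B + 1) * ((B + 1) * (B + 1)) * (2 ^ B * (B + 1) ^ (3 * B)), fun n Δ f hf hΔ => ?_⟩
  obtain ⟨I, hI⟩ : ∃ I : Finset (ℕ × ℕ × ℕ), I = (range (B + 1) ×ˢ range (B + 1) ×ˢ
    range (B + 1)).filter (fun t => t.1 + 1 ≤ t.2.1 + t.2.2 ∧ t.2.2 ≤ t.1 ∧ t.2.1 ≤ n) := ⟨_, rfl⟩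
  have hsub : univ.filter (fun lam : Fin n → Fin (n + 1) => ∃ U F, BadPair B f lam U F) ⊆
      I.biUnion (fun t => (UU f t.1 t.2.2).biUnion
        (fun U => (powersetCard t.2.1 (TT f U)).biUnion (fun F => LL U F))) := by
    intro lam hlam
    obtain ⟨U, F, h1, h2, h3, h4⟩ := (mem_filter.1 hlam).2
    have h5 : (JU f U).card ≤ U.card := JU_card_le f U
    have h6 : F.card ≤ n := (card_le_univ F).trans (by rw [Fintype.card_fin])
    rw [mem_biUnion]
    refine ⟨(U.card, F.card, (JU f U).card), ?_, ?_⟩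
    · rw [hI, mem_filter, mem_product, mem_product, mem_range, mem_range, mem_range]
      refine ⟨⟨?_, ?_, ?_⟩, ?_, ?_, ?_⟩
      · exact Nat.lt_succ_of_le h2
      · exact Nat.lt_succ_of_le h1
      · exact Nat.lt_succ_of_le (h5.trans h2)
      · exact h4
      · exact h5
      · exact h6
    · rw [mem_biUnion]
      refine ⟨U, mem_filter.2 ⟨mem_univ _, rfl, rfl⟩, ?_⟩
      rw [mem_biUnion]
      refine ⟨F, mem_powersetCard.2 ⟨?_, rfl⟩, (mem_LL U F lam).2 fun x hx => (h3 x hx).1⟩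
      intro x hx
      exact mem_filter.2 ⟨mem_univ _, (h3 x hx).2⟩
  have hcard : I.card ≤ (B + 1) * ((B + 1) * (B + 1)) := by
    rw [hI]
    refine (card_filter_le _ _).trans ?_
    rw [card_product, card_product, card_range]
  calc (univ.filter (fun lam : Fin n → Fin (n + 1) => ∃ U F, BadPair B f lam U F)).card * (n + 1)
      ≤ (∑ t ∈ I, ∑ U ∈ UU f t.1 t.2.2, ∑ F ∈ powersetCard t.2.1 (TT f U), (LL U F).card) *
        (n + 1) := by
        refine Nat.mul_le_mul_right _ ((card_le_card hsub).trans ?_)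
        refine card_biUnion_le.trans (sum_le_sum fun t _ => ?_)
        refine card_biUnion_le.trans (sum_le_sum fun U _ => ?_)
        exact card_biUnion_le
    _ = ∑ t ∈ I, (∑ U ∈ UU f t.1 t.2.2, ∑ F ∈ powersetCard t.2.1 (TT f U), (LL U F).card) *
        (n + 1) := by rw [sum_mul]
    _ ≤ ∑ t ∈ I, 2 ^ B * (B + 1) ^ (3 * B) * (Δ + 1) ^ (2 * B) * (n + 1) ^ n := by
        refine sum_le_sum fun t ht => ?_
        rw [hI, mem_filter, mem_product, mem_product, mem_range, mem_range, mem_range] at ht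
        obtain ⟨⟨b1, b2, b3⟩, b4, b5, b6⟩ := ht
        exact term_bound B n Δ f hf hΔ t.1 t.2.1 t.2.2 (Nat.le_of_lt_succ b1)
          (Nat.le_of_lt_succ b2) b4 b5 b6
    _ = I.card * (2 ^ B * (B + 1) ^ (3 * B) * (Δ + 1) ^ (2 * B) * (n + 1) ^ n) := by
        rw [sum_const, smul_eq_mul]
    _ ≤ (B + 1) * ((B + 1) * (B + 1)) *
        (2 ^ B * (B + 1) ^ (3 * B) * (Δ + 1) ^ (2 * B) * (n + 1) ^ n) :=
        Nat.mul_le_mul_right _ hcard
    _ = (B + 1) * ((B + 1) * (B + 1)) * (2 ^ B * (B + 1) ^ (3 * B)) * (Δ + 1) ^ (2 * B) *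
        (n + 1) ^ n := by ring

end Pool.Agent.LOT
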