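import Pool.Agent.LOT.Final
import Pool.Agent.LOT.Union

/-!
# LOT-Fixed: almost all labellings of a fixed oriented tree are aspherical
-/

namespace Pool.Agent.LOT

open Finset

theorem sparse_map {V E E' : Type} [DecidableEq V] [DecidableEq E] [DecidableEq E'] {B : ℕ} {Γ : LOG V E}
    {Γ' : LOG V E'} (g : E → E') (ginj : Function.Injective g)
    (hi : ∀ e, Γ'.i (g e) = Γ.i e) (ht : ∀ e, Γ'.t (g e) = Γ.t e) (hl : ∀ e, Γ'.l (g e) = Γ.l e)
    (h : Sparse Γ'.tl Γ'.hd B) : Sparse Γ.tl Γ.hd B := by
  intro S hS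
  have minj : Function.Injective (fun e : E × Bool => (g e.1, e.2)) := by
    intro e e' hee
    simp only [Prod.mk.injEq] at hee
    exact Prod.ext (ginj hee.1) hee.2
  have htl : ∀ e : E × Bool, Γ'.tl (g e.1, e.2) = Γ.tl e := by
    rintro ⟨p, b⟩
    cases b
    · exact ht p
    · exact hi p
  have hhd : ∀ e : E × Bool, Γ'.hd (g e.1, e.2) = Γ.hd e := by
    rintro ⟨p, b⟩
    exact hl p
  have hc : (S.image (fun e => (g e.1, e.2))).card = S.card :=
    Finset.card_image_of_injective _ minj
  have hv : vset Γ'.tl Γ'.hd (S.image (fun e => (g e.1, e.2))) = vset Γ.tl Γ.hd S := by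
    unfold vset
    rw [Finset.image_image, Finset.image_image]
    congr 1
    · exact Finset.image_congr fun e _ => htl e
    · exact Finset.image_congr fun e _ => hhd e
  have := h (S.image (fun e => (g e.1, e.2))) (by rw [hc]; exact hS)
  rwa [hc, hv] at this

theorem exists_parent' {n : ℕ} {T : SimpleGraph (Fin (n + 1))} (hT : T.Connected)
    (x : Fin n) : ∃ w, T.Adj x.succ w ∧ T.dist w 0 + 1 = T.dist x.succ 0 := by
  obtain ⟨p, hp⟩ := hT.exists_walk_length_eq_dist x.succ 0
  generalize hv : x.succ = v at p hp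
  generalize hz : (0 : Fin (n + 1)) = z at p hp
  cases p with
  | nil =>
    exfalso
    exact Fin.succ_ne_zero x (hv.trans hz.symm)
  | cons h q =>
    rename_i w
    subst hz
    refine ⟨w, h, ?_⟩
    have h1 : T.dist w 0 ≤ q.length := SimpleGraph.dist_le q
    have h2 : q.length + 1 = T.dist v 0 := by
      rw [← hp]
      exact (SimpleGraph.Walk.length_cons h q).symm
    have h3 : T.dist v 0 ≤ T.dist v w + T.dist w 0 := hT.dist_triangle
    have h4 : T.dist v w = 1 := SimpleGraph.dist_eq_one_iff_adj.2 h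
    omega

theorem treeFn_of_dist' {n : ℕ} {T : SimpleGraph (Fin (n + 1))}
    (f : Fin n → Fin (n + 1)) (hf : ∀ x, T.dist (f x) 0 + 1 = T.dist x.succ 0) : IsTreeFn f := by
  have key : ∀ (d : ℕ) (v : Fin (n + 1)), T.dist v 0 = d → ∃ k, (pstep f)^[k] v = 0 := by
    intro d
    induction d using Nat.strong_induction_on with
    | _ d ih =>
      intro v hv
      rcases Fin.eq_zero_or_eq_succ v with h0 | ⟨x, hx⟩
      · exact ⟨0, h0⟩
      · subst hx
        have h1 := hf x
        obtain ⟨k, hk⟩ := ih (T.dist (f x) 0) (by omega) (f x) rfl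
        refine ⟨k + 1, ?_⟩
        rw [Function.iterate_succ_apply]
        have h2 : pstep f x.succ = f x := by simp [pstep]
        rw [h2, hk]
  exact fun v => key _ v rfl

/-- a tree with `m` indexed directed edges comes from a parent function -/
theorem tree_param {m : ℕ} (i t : Fin m → Fin (m + 1))
    (hT : (SimpleGraph.fromRel (fun a b => ∃ e, i e = a ∧ t e = b)).IsTree) :
    ∃ (f : Fin m → Fin (m + 1)) (o : Fin m → Bool) (φ : Fin m ≃ Fin m), IsTreeFn f ∧
      (∀ x, i (φ x) = if o x then x.succ else f x) ∧ (∀ x, t (φ x) = if o x then f x else x.succ) := by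
  set T := SimpleGraph.fromRel (fun a b => ∃ e, i e = a ∧ t e = b) with hTdef
  choose f hadj hfd using fun x : Fin m => exists_parent' hT.connected x
  have hex : ∀ x : Fin m, ∃ e, ∃ ob : Bool,
      i e = (if ob then x.succ else f x) ∧ t e = (if ob then f x else x.succ) := by
    intro x
    have h := hadj x
    rw [hTdef, SimpleGraph.fromRel_adj] at h
    rcases h.2 with ⟨e, h1, h2⟩ | ⟨e, h1, h2⟩
    · exact ⟨e, true, by simp [h1], by simp [h2]⟩
    · exact ⟨e, false, by simp [h1], by simp [h2]⟩
  choose g o hi ht using hex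
  have hinj : Function.Injective g := by
    intro x y hxy
    have h1 := hi x
    have h2 := ht x
    rw [hxy, hi y] at h1
    rw [hxy, ht y] at h2
    have h3 := hfd x
    have h4 := hfd y
    cases hox : o x <;> cases hoy : o y <;> simp only [hox, hoy, if_true, Bool.false_eq_true, if_false] at h1 h2
    · exact (Fin.succ_injective _ h2).symm
    · exfalso
      rw [← h1] at h3
      rw [h2] at h4
      omega
    · exfalso
      rw [h1] at h4
      rw [← h2] at h3
      omega
    · exact (Fin.succ_injective _ h1).symm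
  exact ⟨f, o, Equiv.ofBijective g (Finite.injective_iff_bijective.1 hinj),
    treeFn_of_dist' f hfd, hi, ht⟩

open Classical in
theorem fixed_tree : ∃ C : ℕ, ∀ (m Δ : ℕ) (i t : Fin m → Fin (m + 1)),
    (SimpleGraph.fromRel (fun a b => ∃ e, i e = a ∧ t e = b)).IsTree →
    (∀ v, (univ.filter (fun e => i e = v ∨ t e = v)).card ≤ Δ) →
    (univ.filter (fun lab : Fin m → Fin (m + 1) =>
      ¬ Asph (⟨i, t, lab⟩ : LOG (Fin (m + 1)) (Fin m)) (pgen ⟨i, t, lab⟩))).card * (m + 1)
      ≤ C * (Δ + 1) ^ (2 * 132) * (m + 1) ^ m := by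
  obtain ⟨C, hC⟩ := card_bad 132
  refine ⟨C, fun m Δ i t hT hΔ => ?_⟩
  obtain ⟨f, o, φ, hf, hi, ht⟩ := tree_param i t hT
  have hnch : ∀ v, nch f v ≤ Δ := by
    intro v
    refine le_trans ?_ (hΔ v)
    refine card_le_card_of_injOn φ ?_ (fun x _ y _ h => φ.injective h)
    intro x hx
    simp only [coe_filter, mem_univ, true_and, Set.mem_setOf_eq] at hx ⊢
    cases ho : o x
    · left
      rw [hi x, ho, hx]
      rfl
    · right
      rw [ht x, ho, hx]
      rfl
  refine le_trans (Nat.mul_le_mul_right _ ?_) (hC m Δ f hf hnch)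
  refine card_le_card_of_injOn (fun lab => lab ∘ φ) ?_ ?_
  · intro lab hlab
    simp only [coe_filter, mem_univ, true_and, Set.mem_setOf_eq] at hlab ⊢
    refine violation f o (lab ∘ φ) (fun hs => hlab ?_)
    refine sparse_asph _ (isPres_pgen _) ?_
    refine sparse_map (Γ' := treeLOG f o (lab ∘ φ)) φ.symm φ.symm.injective ?_ ?_ ?_ hs
    · intro e
      show (if o (φ.symm e) then (φ.symm e).succ else f (φ.symm e)) = i e
      rw [← hi, φ.apply_symm_apply]
    · intro e
      show (if o (φ.symm e) then f (φ.symm e) else (φ.symm e).succ) = t e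
      rw [← ht, φ.apply_symm_apply]
    · intro e
      show lab (φ (φ.symm e)) = lab e
      rw [φ.apply_symm_apply]
  · intro lab _ lab' _ h
    funext e
    have := congrFun h (φ.symm e)
    simpa using this

end Pool.Agent.LOT
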