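import Pool.Agent.LOT.Defs

/-!
# LOT-Fox: Fox derivatives

`foxw` = Fox derivative of a word, with values in `MonoidAlgebra ℤ G`.

PLAN.
* `evw_append`, `evw_invRev`: `FreeGroup.mul_mk`, `FreeGroup.inv_mk`, `map_mul`, `map_inv`.
* `foxw_append`: induction on `u`; `evw gen (a :: u) = (gen a.1)^{±1} * evw gen u`.
* `foxw_mk`: equal elements of the free group have equal `foxw` (`FreeGroup.Red.exact : mk L1 = mk L2 ↔
  Join Red L1 L2`; `foxw` is invariant under `FreeGroup.Red.Step` by `foxw_append`, hence under `FreeGroup.Red`).
* `foxw_invRev`: from `foxw_append` and `foxw_mk` applied to `invRev u ++ u` (`mk = 1`), or induction.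
-/

namespace Pool.Agent.LOT

open Finset

section
variable {V : Type} {G : Type} [Group G]

/-- Fox derivative of a word with respect to the generator `v` -/
noncomputable def foxw [DecidableEq V] (gen : V → G) : List (V × Bool) → V → MonoidAlgebra ℤ G
  | [], _ => 0
  | (a, true) :: w, v => (if a = v then 1 else 0) + MonoidAlgebra.single (gen a) 1 * foxw gen w v
  | (a, false) :: w, v => -(if a = v then MonoidAlgebra.single (gen a)⁻¹ 1 else 0)
      + MonoidAlgebra.single (gen a)⁻¹ 1 * foxw gen w v

theorem evw_append (gen : V → G) (u w : List (V × Bool)) :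
    evw gen (u ++ w) = evw gen u * evw gen w := by
  unfold evw
  rw [← FreeGroup.mul_mk, map_mul]

theorem evw_invRev (gen : V → G) (u : List (V × Bool)) :
    evw gen (FreeGroup.invRev u) = (evw gen u)⁻¹ := by
  unfold evw
  rw [← FreeGroup.inv_mk, map_inv]

private theorem evw_nil (gen : V → G) : evw gen [] = 1 := by
  unfold evw
  rw [← FreeGroup.one_eq_mk, map_one]

private theorem evw_cons_true (gen : V → G) (a : V) (u : List (V × Bool)) :
    evw gen ((a, true) :: u) = gen a * evw gen u := by
  have h := evw_append gen [(a, true)] u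
  rw [List.singleton_append] at h
  rw [h]
  congr 1
  unfold evw
  simp [FreeGroup.lift_mk]

private theorem evw_cons_false (gen : V → G) (a : V) (u : List (V × Bool)) :
    evw gen ((a, false) :: u) = (gen a)⁻¹ * evw gen u := by
  have h := evw_append gen [(a, false)] u
  rw [List.singleton_append] at h
  rw [h]
  congr 1
  unfold evw
  simp [FreeGroup.lift_mk]

theorem foxw_append [DecidableEq V] (gen : V → G) (u w : List (V × Bool)) (v : V) :
    foxw gen (u ++ w) v = foxw gen u v + MonoidAlgebra.single (evw gen u) 1 * foxw gen w v := by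
  induction u with
  | nil =>
    rw [List.nil_append, evw_nil]
    simp only [foxw, zero_add]
    rw [← MonoidAlgebra.one_def, one_mul]
  | cons a u ih =>
    obtain ⟨a, b⟩ := a
    cases b with
    | true =>
      rw [List.cons_append, evw_cons_true]
      simp only [foxw]
      rw [ih, mul_add, ← mul_assoc, MonoidAlgebra.single_mul_single, mul_one, add_assoc]
    | false =>
      rw [List.cons_append, evw_cons_false]
      simp only [foxw]
      rw [ih, mul_add, ← mul_assoc, MonoidAlgebra.single_mul_single, mul_one, add_assoc]

private theorem foxw_pair [DecidableEq V] (gen : V → G) (a : V) (b : Bool) (w : List (V × Bool))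
    (v : V) : foxw gen ((a, b) :: (a, !b) :: w) v = foxw gen w v := by
  cases b with
  | true =>
    simp only [foxw, Bool.not_true]
    rw [mul_add, ← mul_assoc, MonoidAlgebra.single_mul_single, mul_one, mul_inv_cancel,
      ← MonoidAlgebra.one_def, one_mul, ← add_assoc]
    have : (if a = v then (1 : MonoidAlgebra ℤ G) else 0)
        + MonoidAlgebra.single (gen a) 1
          * -(if a = v then MonoidAlgebra.single (gen a)⁻¹ (1 : ℤ) else 0) = 0 := by
      by_cases h : a = v
      · rw [if_pos h, if_pos h, mul_neg, MonoidAlgebra.single_mul_single, mul_one, mul_inv_cancel,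
          ← MonoidAlgebra.one_def, add_neg_cancel]
      · rw [if_neg h, if_neg h, neg_zero, mul_zero, add_zero]
    rw [this, zero_add]
  | false =>
    simp only [foxw, Bool.not_false]
    rw [mul_add, ← mul_assoc, MonoidAlgebra.single_mul_single, mul_one, inv_mul_cancel,
      ← MonoidAlgebra.one_def, one_mul, ← add_assoc]
    have : -(if a = v then MonoidAlgebra.single (gen a)⁻¹ (1 : ℤ) else 0)
        + MonoidAlgebra.single (gen a)⁻¹ 1
          * (if a = v then (1 : MonoidAlgebra ℤ G) else 0) = 0 := by
      by_cases h : a = v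
      · rw [if_pos h, if_pos h, mul_one, neg_add_cancel]
      · rw [if_neg h, if_neg h, neg_zero, mul_zero, add_zero]
    rw [this, zero_add]

private theorem foxw_step [DecidableEq V] (gen : V → G) (u w : List (V × Bool))
    (h : FreeGroup.Red.Step u w) (v : V) : foxw gen u v = foxw gen w v := by
  cases h with
  | not =>
    rw [foxw_append, foxw_append, foxw_pair]

private theorem foxw_red [DecidableEq V] (gen : V → G) (u w : List (V × Bool))
    (h : FreeGroup.Red u w) (v : V) : foxw gen u v = foxw gen w v := by
  induction h with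
  | refl => rfl
  | tail _ h2 ih => rw [ih, foxw_step gen _ _ h2 v]

theorem foxw_mk [DecidableEq V] (gen : V → G) (u w : List (V × Bool))
    (h : FreeGroup.mk u = FreeGroup.mk w) (v : V) : foxw gen u v = foxw gen w v := by
  obtain ⟨c, h1, h2⟩ := FreeGroup.Red.exact.1 h
  rw [foxw_red gen u c h1 v, foxw_red gen w c h2 v]

theorem foxw_invRev [DecidableEq V] (gen : V → G) (u : List (V × Bool)) (v : V) :
    foxw gen (FreeGroup.invRev u) v
      = - (MonoidAlgebra.single (evw gen u)⁻¹ 1 * foxw gen u v) := by
  have h1 : FreeGroup.mk (FreeGroup.invRev u ++ u) = FreeGroup.mk [] := by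
    rw [← FreeGroup.mul_mk, ← FreeGroup.inv_mk, inv_mul_cancel, FreeGroup.one_eq_mk]
  have h2 := foxw_mk gen _ _ h1 v
  rw [foxw_append, evw_invRev] at h2
  exact eq_neg_of_add_eq_zero_left h2

end

end Pool.Agent.LOT
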