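import Mathlib

/-!
# LOT-GaussCount: counting Gauss diagrams of long virtual knots with prescribed labels

A diagram is an injection `h : Fin m → Fin N` (positions of the over-crossing points, the other positions are the
under-crossing points); `nuG h p` is the number of under-crossing points before the position `p`.
-/

namespace Pool.Agent.LOT

open Finset

/-- number of points not in the range of `h` before `p` -/
def nuG {m N : ℕ} (h : Fin m → Fin N) (p : ℕ) : ℕ :=
  (univ.filter (fun q : Fin N => (q : ℕ) < p ∧ ∀ y, h y ≠ q)).card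

/-- insertion of a point at `p` -/
def insG {m N : ℕ} (h : Fin m → Fin N) (p : Fin (N + 1)) : Fin (m + 1) → Fin (N + 1) :=
  Fin.snoc (α := fun _ => Fin (N + 1)) (fun x => p.succAbove (h x)) p

private theorem ins_cast {m N : ℕ} (h : Fin m → Fin N) (p : Fin (N + 1)) (x : Fin m) :
    insG h p x.castSucc = p.succAbove (h x) := by
  unfold insG
  rw [Fin.snoc_castSucc]

private theorem ins_last {m N : ℕ} (h : Fin m → Fin N) (p : Fin (N + 1)) :
    insG h p (Fin.last m) = p := by
  unfold insG
  rw [Fin.snoc_last]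

private theorem nu_ins {m N : ℕ} (h : Fin m → Fin N) (p : Fin (N + 1)) (r : ℕ) :
    nuG (insG h p) r = (univ.filter (fun z : Fin N => (p.succAbove z : ℕ) < r ∧ ∀ y, h y ≠ z)).card := by
  unfold nuG
  rw [← card_map p.succAboveEmb]
  congr 1
  ext q
  simp only [mem_filter, mem_univ, true_and, mem_map]
  constructor
  · rintro ⟨h1, h2⟩
    have hq : q ≠ p := by
      intro h3
      exact h2 (Fin.last m) (by rw [ins_last, h3])
    obtain ⟨z, hz⟩ := Fin.exists_succAbove_eq hq
    refine ⟨z, ⟨by rw [hz]; exact h1, ?_⟩, hz⟩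
    intro y hy
    exact h2 y.castSucc (by rw [ins_cast, hy, hz])
  · rintro ⟨z, ⟨h1, h2⟩, rfl⟩
    refine ⟨h1, ?_⟩
    intro y
    refine Fin.lastCases ?_ (fun y => ?_) y
    · rw [ins_last]
      exact (Fin.succAbove_ne p z).symm
    · rw [ins_cast]
      intro h3
      exact h2 y (Fin.succAbove_right_injective h3)

private theorem nu_ins_old {m N : ℕ} (h : Fin m → Fin N) (p : Fin (N + 1)) (x : Fin m) :
    nuG (insG h p) (insG h p x.castSucc) = nuG h (h x) := by
  rw [nu_ins, ins_cast]
  unfold nuG
  congr 1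
  ext z
  simp only [mem_filter, mem_univ, true_and]
  have h1 : ((p.succAbove z : ℕ) < (p.succAbove (h x) : ℕ)) ↔ ((z : ℕ) < (h x : ℕ)) := by
    rw [← Fin.lt_def, ← Fin.lt_def]
    exact (Fin.strictMono_succAbove p).lt_iff_lt
  rw [h1]

private theorem nu_ins_new {m N : ℕ} (h : Fin m → Fin N) (p : Fin (N + 1)) :
    nuG (insG h p) (insG h p (Fin.last m)) = nuG h p := by
  rw [nu_ins, ins_last]
  unfold nuG
  congr 1
  ext z
  simp only [mem_filter, mem_univ, true_and]
  have h1 : ((p.succAbove z : ℕ) < (p : ℕ)) ↔ ((z : ℕ) < (p : ℕ)) := by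
    rw [← Fin.lt_def, Fin.succAbove_lt_iff_castSucc_lt, Fin.lt_def]
    rfl
  rw [h1]

private theorem gap_card {m N : ℕ} (h : Fin m → Fin N) (j : ℕ) :
    (univ.filter (fun p : Fin (N + 1) => nuG h p = j)).card ≤ m + 1 := by
  obtain ⟨P, hP⟩ : ∃ P : Finset (Fin (N + 1)), P = univ.filter (fun p : Fin (N + 1) => nuG h p = j) :=
    ⟨_, rfl⟩
  rw [← hP]
  rcases P.eq_empty_or_nonempty with h0 | hne
  · rw [h0, card_empty]
    exact Nat.zero_le _
  have hmax := P.max'_mem hne
  have hlt : ∀ p ∈ P.erase (P.max' hne), (p : ℕ) < (P.max' hne : ℕ) := by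
    intro p hp
    exact Fin.lt_def.1 (P.lt_max'_of_mem_erase_max' hne hp)
  have hcard : (P.erase (P.max' hne)).card ≤ (univ.image (fun y => ((h y : Fin N) : ℕ))).card := by
    refine card_le_card_of_injOn (fun p : Fin (N + 1) => (p : ℕ)) ?_ ?_
    · intro p hp
      have hp' := mem_coe.1 hp
      have h1 := hlt p hp'
      have h2 : nuG h p = j := by
        have := mem_of_mem_erase hp'
        rw [hP] at this
        exact (mem_filter.1 this).2
      have h3 : nuG h (P.max' hne) = j := by
        have h7 : P.max' hne ∈ univ.filter (fun p : Fin (N + 1) => nuG h p = j) := by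
          rw [← hP]
          exact hmax
        exact (mem_filter.1 h7).2
      have hpN : (p : ℕ) < N := by
        have := (P.max' hne).isLt
        omega
      by_contra hcon
      have hnot : ∀ y, h y ≠ ⟨(p : ℕ), hpN⟩ := by
        intro y hy
        apply hcon
        rw [mem_coe, mem_image]
        exact ⟨y, mem_univ _, by rw [hy]⟩
      have h4 : nuG h p < nuG h (P.max' hne) := by
        unfold nuG
        apply card_lt_card
        rw [ssubset_iff_of_subset]
        · refine ⟨⟨(p : ℕ), hpN⟩, ?_, ?_⟩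
          · rw [mem_filter]
            exact ⟨mem_univ _, h1, hnot⟩
          · rw [mem_filter]
            rintro ⟨-, h5, -⟩
            exact absurd h5 (lt_irrefl _)
        · intro q hq
          rw [mem_filter] at hq ⊢
          exact ⟨hq.1, lt_trans hq.2.1 h1, hq.2.2⟩
      omega
    · intro p _ p' _ hpp
      exact Fin.ext hpp
  have h5 : (univ.image (fun y => ((h y : Fin N) : ℕ))).card ≤ m := by
    refine card_image_le.trans ?_
    rw [card_univ, Fintype.card_fin]
  have h6 := card_erase_of_mem hmax
  omega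

open Classical in
/-- injections with prescribed labels of the first `k` points -/
private noncomputable def AG (n m k : ℕ) (μ : ℕ → ℕ) : Finset (Fin m → Fin (n + m)) :=
  univ.filter (fun h => Function.Injective h ∧ ∀ x : Fin m, (x : ℕ) < k → nuG h (h x) = μ x)

private theorem exists_ins {m N : ℕ} (h : Fin (m + 1) → Fin (N + 1)) (hi : Function.Injective h) :
    ∃ h' : Fin m → Fin N, Function.Injective h' ∧ h = insG h' (h (Fin.last m)) := by
  have hne : ∀ x : Fin m, h x.castSucc ≠ h (Fin.last m) := by
    intro x hx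
    have := hi hx
    exact absurd this (Fin.castSucc_lt_last x).ne
  choose h' hh' using fun x => Fin.exists_succAbove_eq (hne x)
  refine ⟨h', ?_, ?_⟩
  · intro x y hxy
    have h1 : h x.castSucc = h y.castSucc := by rw [← hh', ← hh', hxy]
    exact Fin.castSucc_injective _ (hi h1)
  · funext x
    refine Fin.lastCases ?_ (fun y => ?_) x
    · rw [ins_last]
    · rw [ins_cast, hh']

open Classical in
private theorem AG_step (n m k : ℕ) (μ : ℕ → ℕ) :
    (AG n (m + 1) k μ).card ≤ (if m < k then m + 1 else n + m + 1) * (AG n m k μ).card := by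
  have hsub : AG n (m + 1) k μ ⊆ (AG n m k μ).biUnion (fun h' =>
      (univ.filter (fun p : Fin (n + m + 1) => m < k → nuG h' p = μ m)).image (fun p => insG h' p)) := by
    intro h hh
    obtain ⟨hinj, hlab⟩ := (mem_filter.1 hh).2
    obtain ⟨h', hi', he⟩ := exists_ins (N := n + m) h hinj
    rw [mem_biUnion]
    refine ⟨h', ?_, ?_⟩
    · refine mem_filter.2 ⟨mem_univ _, hi', ?_⟩
      intro x hx
      have h1 := hlab x.castSucc hx
      rw [he, nu_ins_old] at h1
      exact h1
    · rw [mem_image]
      refine ⟨h (Fin.last m), ?_, he.symm⟩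
      rw [mem_filter]
      refine ⟨mem_univ _, fun hmk => ?_⟩
      have h1 := hlab (Fin.last m) hmk
      rw [he, nu_ins_new] at h1
      exact h1
  refine (card_le_card hsub).trans ?_
  refine card_biUnion_le.trans ?_
  rw [mul_comm, ← smul_eq_mul]
  refine sum_le_card_nsmul _ _ _ fun h' _ => ?_
  refine card_image_le.trans ?_
  split_ifs with hmk
  · refine le_trans (card_le_card ?_) (gap_card h' (μ m))
    intro p hp
    rw [mem_filter] at hp ⊢
    exact ⟨hp.1, hp.2 hmk⟩
  · refine (card_filter_le _ _).trans ?_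
    rw [card_univ, Fintype.card_fin]
    exact le_rfl

private theorem AG_small (n k : ℕ) (μ : ℕ → ℕ) (m : ℕ) (hm : m ≤ k) : (AG n m k μ).card ≤ m.factorial := by
  induction m with
  | zero =>
    rw [Nat.factorial_zero]
    refine (card_le_univ _).trans ?_
    rw [Fintype.card_fun, Fintype.card_fin, Fintype.card_fin, pow_zero]
  | succ m ih =>
    refine (AG_step n m k μ).trans ?_
    rw [if_pos (by omega), Nat.factorial_succ]
    exact Nat.mul_le_mul_left _ (ih (by omega))

private theorem AG_large (n k : ℕ) (μ : ℕ → ℕ) (m : ℕ) (hm : k ≤ m) :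
    (AG n m k μ).card * (n + 1) ^ k ≤ k.factorial * (n + m).descFactorial m := by
  induction m, hm using Nat.le_induction with
  | base =>
    refine Nat.mul_le_mul (AG_small n k μ k le_rfl) ?_
    have h1 := Nat.pow_sub_le_descFactorial (n + k) k
    have h2 : n + k + 1 - k = n + 1 := by omega
    rwa [h2] at h1
  | succ m hm ih =>
    have h1 := AG_step n m k μ
    rw [if_neg (by omega)] at h1
    have h2 : (n + (m + 1)).descFactorial (m + 1) = (n + m + 1) * (n + m).descFactorial m :=
      Nat.succ_descFactorial_succ (n + m) m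
    rw [h2]
    calc (AG n (m + 1) k μ).card * (n + 1) ^ k ≤ ((n + m + 1) * (AG n m k μ).card) * (n + 1) ^ k :=
          Nat.mul_le_mul_right _ h1
      _ = (n + m + 1) * ((AG n m k μ).card * (n + 1) ^ k) := by ring
      _ ≤ (n + m + 1) * (k.factorial * (n + m).descFactorial m) := Nat.mul_le_mul_left _ ih
      _ = k.factorial * ((n + m + 1) * (n + m).descFactorial m) := by ring

private theorem exists_perm {n : ℕ} (F : Finset (Fin n)) :
    ∃ σ : Equiv.Perm (Fin n), ∀ x : Fin n, (x : ℕ) < F.card → σ x ∈ F := by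
  have hc : Fintype.card {x : Fin n // (x : ℕ) < F.card} = Fintype.card {x : Fin n // x ∈ F} := by
    rw [Fintype.card_subtype, Fintype.card_coe]
    have h1 : F.card ≤ n := (card_le_univ F).trans (by rw [Fintype.card_fin])
    rw [Fin.card_filter_val_lt]
    exact min_eq_right h1
  obtain ⟨e⟩ := Fintype.card_eq.1 hc
  exact ⟨e.extendSubtype, fun x hx => e.extendSubtype_mem x hx⟩

private theorem nu_comp {m N : ℕ} (h : Fin m → Fin N) (σ : Equiv.Perm (Fin m)) (p : ℕ) :
    nuG (h ∘ σ) p = nuG h p := by
  unfold nuG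
  congr 1
  ext q
  simp only [mem_filter, mem_univ, true_and]
  constructor
  · rintro ⟨h1, h2⟩
    refine ⟨h1, fun y => ?_⟩
    have := h2 (σ.symm y)
    rwa [Function.comp_apply, Equiv.apply_symm_apply] at this
  · rintro ⟨h1, h2⟩
    exact ⟨h1, fun y => h2 (σ y)⟩

open Classical in
/-- the number of diagrams with prescribed labels on `F` -/
theorem gauss_count {n N : ℕ} (hN : N = n + n) (F : Finset (Fin n)) (μ : Fin n → ℕ) :
    (univ.filter (fun h : Fin n ↪ Fin N => ∀ x ∈ F, nuG h (h x) = μ x)).card * (n + 1) ^ F.card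
      ≤ F.card.factorial * Fintype.card (Fin n ↪ Fin N) := by
  subst hN
  obtain ⟨σ, hσ⟩ := exists_perm F
  obtain ⟨μ', hμ'⟩ : ∃ μ' : ℕ → ℕ, ∀ x : Fin n, μ' x = μ (σ x) :=
    ⟨fun i => if hi : i < n then μ (σ ⟨i, hi⟩) else 0, fun x => by simp⟩
  have hle : (univ.filter (fun h : Fin n ↪ Fin (n + n) => ∀ x ∈ F, nuG h (h x) = μ x)).card ≤
      (AG n n F.card μ').card := by
    refine card_le_card_of_injOn (fun h => (h : Fin n → Fin (n + n)) ∘ σ) ?_ ?_
    · intro h hh
      have hh' := (mem_filter.1 (mem_coe.1 hh)).2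
      refine mem_coe.2 (mem_filter.2 ⟨mem_univ _, h.injective.comp σ.injective, ?_⟩)
      intro x hx
      rw [nu_comp, hμ']
      exact hh' (σ x) (hσ x hx)
    · intro h _ h' _ hhh
      apply DFunLike.coe_injective
      exact σ.surjective.injective_comp_right hhh
  have h1 : F.card ≤ n := (card_le_univ F).trans (by rw [Fintype.card_fin])
  have h2 := AG_large n F.card μ' n h1
  rw [Fintype.card_embedding_eq, Fintype.card_fin, Fintype.card_fin]
  exact (Nat.mul_le_mul_right _ hle).trans h2

end Pool.Agent.LOT
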