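import Pool.Agent.LOT.Viol
import Pool.Agent.LOT.CountU

/-!
# LOT-UnionG: union bound over the bad pairs for a general random labelling

The labelling `lab ω` of the tree `f` is random (`ω` uniform in a finite set); the probability that the labels of `q`
given edges are prescribed is at most `K / (n + 1) ^ q`.
-/

namespace Pool.Agent.LOT

open Finset

private def TG {n : ℕ} (f : Fin n → Fin (n + 1)) (U : Finset (Fin (n + 1))) : Finset (Fin n) :=
  univ.filter (fun x => x.succ ∈ U ∨ f x ∈ U)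

private def UG {n : ℕ} (f : Fin n → Fin (n + 1)) (p r : ℕ) : Finset (Finset (Fin (n + 1))) :=
  univ.filter (fun U : Finset (Fin (n + 1)) => U.card = p ∧ (JU f U).card = r)

private theorem card_TG {n : ℕ} (f : Fin n → Fin (n + 1)) (Δ : ℕ) (hΔ : ∀ v, nch f v ≤ Δ)
    (U : Finset (Fin (n + 1))) : (TG f U).card ≤ U.card * (1 + Δ) := by
  unfold TG
  rw [filter_or]
  refine (card_union_le _ _).trans ?_
  rw [mul_add, mul_one]
  refine Nat.add_le_add ?_ ?_
  · refine card_le_card_of_injOn Fin.succ ?_ (Fin.succ_injective n).injOn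
    intro x hx
    simpa using hx
  · have h1 : univ.filter (fun x => f x ∈ U) =
        U.biUnion (fun v => univ.filter (fun x => f x = v)) := by
      ext x
      simp
    rw [h1]
    refine card_biUnion_le.trans ?_
    rw [← smul_eq_mul]
    exact sum_le_card_nsmul _ _ _ fun v _ => hΔ v

open Classical in
private noncomputable def LG {n : ℕ} {Ω : Type} [Fintype Ω] (lab : Ω → Fin n → Fin (n + 1)) (U : Finset (Fin (n + 1)))
    (F : Finset (Fin n)) : Finset Ω :=
  univ.filter (fun ω => ∀ x ∈ F, lab ω x ∈ U)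

open Classical in
private theorem card_LG {n K : ℕ} {Ω : Type} [Fintype Ω] (lab : Ω → Fin n → Fin (n + 1)) (U : Finset (Fin (n + 1)))
    (F : Finset (Fin n))
    (h : ∀ μ : Fin n → Fin (n + 1),
      (univ.filter (fun ω => ∀ x ∈ F, lab ω x = μ x)).card * (n + 1) ^ F.card ≤ K * Fintype.card Ω) :
    (LG lab U F).card * (n + 1) ^ F.card ≤ U.card ^ F.card * (K * Fintype.card Ω) := by
  obtain ⟨I, hI⟩ : ∃ I : Finset (Fin n → Fin (n + 1)), I = Fintype.piFinset (fun x => if x ∈ F then U else {0}) :=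
    ⟨_, rfl⟩
  have hIc : I.card = U.card ^ F.card := by
    rw [hI, Fintype.card_piFinset]
    have h1 : ∀ x : Fin n, (if x ∈ F then U else {0}).card = if x ∈ F then U.card else 1 := by
      intro x
      by_cases hx : x ∈ F
      · rw [if_pos hx, if_pos hx]
      · rw [if_neg hx, if_neg hx, card_singleton]
    rw [prod_congr rfl fun x _ => h1 x, prod_ite, prod_const, prod_const, one_pow, mul_one]
    congr 2
    ext x
    simp
  have hsub : LG lab U F ⊆ I.biUnion (fun μ => univ.filter (fun ω => ∀ x ∈ F, lab ω x = μ x)) := by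
    intro ω hω
    have hω' := (mem_filter.1 hω).2
    rw [mem_biUnion]
    refine ⟨fun x => if x ∈ F then lab ω x else 0, ?_, ?_⟩
    · rw [hI, Fintype.mem_piFinset]
      intro x
      by_cases hx : x ∈ F
      · rw [if_pos hx, if_pos hx]
        exact hω' x hx
      · rw [if_neg hx, if_neg hx]
        exact mem_singleton_self _
    · refine mem_filter.2 ⟨mem_univ _, fun x hx => ?_⟩
      show lab ω x = if x ∈ F then lab ω x else 0
      rw [if_pos hx]
  calc (LG lab U F).card * (n + 1) ^ F.card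
      ≤ (∑ μ ∈ I, (univ.filter (fun ω => ∀ x ∈ F, lab ω x = μ x)).card) * (n + 1) ^ F.card :=
        Nat.mul_le_mul_right _ ((card_le_card hsub).trans card_biUnion_le)
    _ = ∑ μ ∈ I, (univ.filter (fun ω => ∀ x ∈ F, lab ω x = μ x)).card * (n + 1) ^ F.card := by
        rw [sum_mul]
    _ ≤ ∑ _μ ∈ I, K * Fintype.card Ω := sum_le_sum fun μ _ => h μ
    _ = U.card ^ F.card * (K * Fintype.card Ω) := by
        rw [sum_const, hIc, smul_eq_mul]

open Classical in
private theorem term_G (B n Δ K : ℕ) (f : Fin n → Fin (n + 1)) (hf : IsTreeFn f)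
    (hΔ : ∀ v, nch f v ≤ Δ) {Ω : Type} [Fintype Ω] (lab : Ω → Fin n → Fin (n + 1))
    (h : ∀ (F : Finset (Fin n)) (μ : Fin n → Fin (n + 1)), F.card ≤ B →
      (univ.filter (fun ω => ∀ x ∈ F, lab ω x = μ x)).card * (n + 1) ^ F.card ≤ K * Fintype.card Ω)
    (p q r : ℕ) (hp : p ≤ B) (hq : q ≤ B) (hpqr : p + 1 ≤ q + r) (hr : r ≤ p) :
    (∑ U ∈ UG f p r, ∑ F ∈ powersetCard q (TG f U), (LG lab U F).card) * (n + 1)
      ≤ 2 ^ B * (B + 1) ^ (3 * B) * (Δ + 1) ^ (2 * B) * (K * Fintype.card Ω) := by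
  obtain ⟨Y, hY⟩ : ∃ Y : ℕ, Y = ∑ U ∈ UG f p r, ∑ F ∈ powersetCard q (TG f U), (LG lab U F).card := ⟨_, rfl⟩
  obtain ⟨A, hA⟩ : ∃ A : ℕ, A = 2 ^ p * (p * Δ) ^ r * ((p * (1 + Δ)) ^ q * p ^ q) := ⟨_, rfl⟩
  have h1 : ∀ U ∈ UG f p r, (∑ F ∈ powersetCard q (TG f U), (LG lab U F).card) * (n + 1) ^ q ≤
      (p * (1 + Δ)) ^ q * (p ^ q * (K * Fintype.card Ω)) := by
    intro U hU
    obtain ⟨e1, e2⟩ := (mem_filter.1 hU).2
    calc (∑ F ∈ powersetCard q (TG f U), (LG lab U F).card) * (n + 1) ^ q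
        = ∑ F ∈ powersetCard q (TG f U), (LG lab U F).card * (n + 1) ^ q := by rw [sum_mul]
      _ ≤ ∑ F ∈ powersetCard q (TG f U), p ^ q * (K * Fintype.card Ω) := by
          refine sum_le_sum fun F hF => ?_
          have hFc := (mem_powersetCard.1 hF).2
          have h2 := card_LG lab U F (fun μ => h F μ (by rw [hFc]; exact hq))
          rwa [hFc, e1] at h2
      _ = (TG f U).card.choose q * (p ^ q * (K * Fintype.card Ω)) := by
          rw [sum_const, smul_eq_mul, card_powersetCard]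
      _ ≤ (p * (1 + Δ)) ^ q * (p ^ q * (K * Fintype.card Ω)) := by
          refine Nat.mul_le_mul_right _ ?_
          refine (Nat.choose_le_pow _ _).trans ?_
          refine Nat.pow_le_pow_left ?_ q
          have := card_TG f Δ hΔ U
          rwa [e1] at this
  have h2 : Y * (n + 1) ^ q ≤ A * (n + 1) ^ (p - r) * (K * Fintype.card Ω) := by
    rw [hY, sum_mul]
    refine (sum_le_card_nsmul _ _ _ h1).trans ?_
    rw [smul_eq_mul]
    refine (Nat.mul_le_mul_right _ (card_U f hf Δ hΔ p r hr)).trans (le_of_eq ?_)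
    rw [hA]
    ring
  have h3 : Y * (n + 1) ≤ A * (K * Fintype.card Ω) := by
    have h4 : Y * (n + 1) * (n + 1) ^ (p - r) ≤ A * (K * Fintype.card Ω) * (n + 1) ^ (p - r) := by
      calc Y * (n + 1) * (n + 1) ^ (p - r) = Y * (n + 1) ^ (p - r + 1) := by ring
        _ ≤ Y * (n + 1) ^ q := Nat.mul_le_mul_left _ (Nat.pow_le_pow_right (by omega) (by omega))
        _ ≤ A * (n + 1) ^ (p - r) * (K * Fintype.card Ω) := h2
        _ = A * (K * Fintype.card Ω) * (n + 1) ^ (p - r) := by ring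
    exact Nat.le_of_mul_le_mul_right h4 (Nat.pow_pos (by omega))
  rw [← hY]
  refine h3.trans (Nat.mul_le_mul_right _ ?_)
  have a1 : 2 ^ p ≤ 2 ^ B := Nat.pow_le_pow_right (by norm_num) hp
  have a2 : ∀ m, m ≤ B → p ^ m ≤ (B + 1) ^ B := fun m hm =>
    (Nat.pow_le_pow_left (by omega) m).trans (Nat.pow_le_pow_right (by omega) hm)
  have a3 : Δ ^ r ≤ (Δ + 1) ^ B :=
    (Nat.pow_le_pow_left (by omega) r).trans (Nat.pow_le_pow_right (by omega) (hr.trans hp))
  have a4 : (Δ + 1) ^ q ≤ (Δ + 1) ^ B := Nat.pow_le_pow_right (by omega) hq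
  calc A = 2 ^ p * (p ^ r * p ^ q * p ^ q) * (Δ ^ r * (Δ + 1) ^ q) := by
        rw [hA, mul_pow, mul_pow, Nat.add_comm 1 Δ]
        ring
    _ ≤ 2 ^ B * ((B + 1) ^ B * (B + 1) ^ B * (B + 1) ^ B) * ((Δ + 1) ^ B * (Δ + 1) ^ B) :=
        Nat.mul_le_mul (Nat.mul_le_mul a1 (Nat.mul_le_mul
          (Nat.mul_le_mul (a2 r (hr.trans hp)) (a2 q hq)) (a2 q hq))) (Nat.mul_le_mul a3 a4)
    _ = 2 ^ B * (B + 1) ^ (3 * B) * (Δ + 1) ^ (2 * B) := by
        rw [Nat.mul_comm 3 B, Nat.mul_comm 2 B, pow_mul, pow_mul]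
        ring

open Classical in
theorem card_badG (B : ℕ) : ∃ C : ℕ, ∀ (n Δ K : ℕ) (f : Fin n → Fin (n + 1)), IsTreeFn f →
    (∀ v, nch f v ≤ Δ) → ∀ (Ω : Type) [Fintype Ω] (lab : Ω → Fin n → Fin (n + 1)),
    (∀ (F : Finset (Fin n)) (μ : Fin n → Fin (n + 1)), F.card ≤ B →
      (univ.filter (fun ω => ∀ x ∈ F, lab ω x = μ x)).card * (n + 1) ^ F.card ≤ K * Fintype.card Ω) →
    (univ.filter (fun ω => ∃ U F, BadPair B f (lab ω) U F)).card * (n + 1)
      ≤ C * (Δ + 1) ^ (2 * B) * (K * Fintype.card Ω) := by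
  refine ⟨(B + 1) * ((B + 1) * (B + 1)) * (2 ^ B * (B + 1) ^ (3 * B)), fun n Δ K f hf hΔ Ω _ lab h => ?_⟩
  obtain ⟨I, hI⟩ : ∃ I : Finset (ℕ × ℕ × ℕ), I = (range (B + 1) ×ˢ range (B + 1) ×ˢ
    range (B + 1)).filter (fun t => t.1 + 1 ≤ t.2.1 + t.2.2 ∧ t.2.2 ≤ t.1) := ⟨_, rfl⟩
  have hsub : univ.filter (fun ω => ∃ U F, BadPair B f (lab ω) U F) ⊆
      I.biUnion (fun t => (UG f t.1 t.2.2).biUnion
        (fun U => (powersetCard t.2.1 (TG f U)).biUnion (fun F => LG lab U F))) := by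
    intro ω hω
    obtain ⟨U, F, h1, h2, h3, h4⟩ := (mem_filter.1 hω).2
    have h5 : (JU f U).card ≤ U.card := JU_card_le f U
    rw [mem_biUnion]
    refine ⟨(U.card, F.card, (JU f U).card), ?_, ?_⟩
    · rw [hI, mem_filter, mem_product, mem_product, mem_range, mem_range, mem_range]
      refine ⟨⟨?_, ?_, ?_⟩, ?_, ?_⟩
      · exact Nat.lt_succ_of_le h2
      · exact Nat.lt_succ_of_le h1
      · exact Nat.lt_succ_of_le (h5.trans h2)
      · exact h4
      · exact h5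
    · rw [mem_biUnion]
      refine ⟨U, mem_filter.2 ⟨mem_univ _, rfl, rfl⟩, ?_⟩
      rw [mem_biUnion]
      refine ⟨F, mem_powersetCard.2 ⟨?_, rfl⟩, mem_filter.2 ⟨mem_univ _, fun x hx => (h3 x hx).1⟩⟩
      intro x hx
      exact mem_filter.2 ⟨mem_univ _, (h3 x hx).2⟩
  have hcard : I.card ≤ (B + 1) * ((B + 1) * (B + 1)) := by
    rw [hI]
    refine (card_filter_le _ _).trans ?_
    rw [card_product, card_product, card_range]
  calc (univ.filter (fun ω => ∃ U F, BadPair B f (lab ω) U F)).card * (n + 1)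
      ≤ (∑ t ∈ I, ∑ U ∈ UG f t.1 t.2.2, ∑ F ∈ powersetCard t.2.1 (TG f U), (LG lab U F).card) *
        (n + 1) := by
        refine Nat.mul_le_mul_right _ ((card_le_card hsub).trans ?_)
        refine card_biUnion_le.trans (sum_le_sum fun t _ => ?_)
        refine card_biUnion_le.trans (sum_le_sum fun U _ => ?_)
        exact card_biUnion_le
    _ = ∑ t ∈ I, (∑ U ∈ UG f t.1 t.2.2, ∑ F ∈ powersetCard t.2.1 (TG f U), (LG lab U F).card) *
        (n + 1) := by rw [sum_mul]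
    _ ≤ ∑ t ∈ I, 2 ^ B * (B + 1) ^ (3 * B) * (Δ + 1) ^ (2 * B) * (K * Fintype.card Ω) := by
        refine sum_le_sum fun t ht => ?_
        rw [hI, mem_filter, mem_product, mem_product, mem_range, mem_range, mem_range] at ht
        obtain ⟨⟨b1, b2, b3⟩, b4, b5⟩ := ht
        exact term_G B n Δ K f hf hΔ lab h t.1 t.2.1 t.2.2 (Nat.le_of_lt_succ b1)
          (Nat.le_of_lt_succ b2) b4 b5
    _ = I.card * (2 ^ B * (B + 1) ^ (3 * B) * (Δ + 1) ^ (2 * B) * (K * Fintype.card Ω)) := by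
        rw [sum_const, smul_eq_mul]
    _ ≤ (B + 1) * ((B + 1) * (B + 1)) *
        (2 ^ B * (B + 1) ^ (3 * B) * (Δ + 1) ^ (2 * B) * (K * Fintype.card Ω)) :=
        Nat.mul_le_mul_right _ hcard
    _ = (B + 1) * ((B + 1) * (B + 1)) * (2 ^ B * (B + 1) ^ (3 * B)) * (Δ + 1) ^ (2 * B) *
        (K * Fintype.card Ω) := by ring

end Pool.Agent.LOT
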