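import Pool.Agent.LOT.Fixed
import Pool.Agent.LOT.UnionG
import Pool.Agent.LOT.GaussCount

/-!
# LOT-Gauss: almost all Gauss diagrams of long virtual knots give aspherical labelled oriented intervals
-/

namespace Pool.Agent.LOT

open Finset

theorem nuG_le {n N : ℕ} (hN : N = n + n) (h : Fin n ↪ Fin N) (p : ℕ) : nuG h p ≤ n := by
  unfold nuG
  have h1 : univ.filter (fun q : Fin N => (q : ℕ) < p ∧ ∀ y, h y ≠ q) ⊆ (univ.image h)ᶜ := by
    intro q hq
    have h2 := (mem_filter.1 hq).2.2
    rw [mem_compl, mem_image]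
    rintro ⟨y, -, hy⟩
    exact h2 y hy
  refine (card_le_card h1).trans ?_
  rw [card_compl, card_image_of_injective _ h.injective, card_univ, Fintype.card_fin, Fintype.card_fin]
  omega

/-- the label of the edge `x` -/
def labG {n N : ℕ} (hN : N = n + n) (h : Fin n ↪ Fin N) (x : Fin n) : Fin (n + 1) :=
  ⟨nuG h (h x), Nat.lt_succ_of_le (nuG_le hN h _)⟩

private theorem path_tree (n : ℕ) : IsTreeFn (fun x : Fin n => x.castSucc) := by
  have key : ∀ (d : ℕ) (v : Fin (n + 1)), (v : ℕ) = d → ∃ k, (pstep (fun x : Fin n => x.castSucc))^[k] v = 0 := by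
    intro d
    induction d with
    | zero =>
      intro v hv
      exact ⟨0, Fin.ext hv⟩
    | succ d ih =>
      intro v hv
      rcases Fin.eq_zero_or_eq_succ v with h0 | ⟨x, hx⟩
      · exact ⟨0, h0⟩
      · subst hx
        have h1 : (x : ℕ) = d := by
          rw [Fin.val_succ] at hv
          omega
        obtain ⟨k, hk⟩ := ih x.castSucc h1
        refine ⟨k + 1, ?_⟩
        rw [Function.iterate_succ_apply]
        have h2 : pstep (fun x : Fin n => x.castSucc) x.succ = x.castSucc := by simp [pstep]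
        rw [h2, hk]
  exact fun v => key _ v rfl

private theorem path_nch (n : ℕ) (v : Fin (n + 1)) : nch (fun x : Fin n => x.castSucc) v ≤ 1 := by
  unfold nch
  rw [card_le_one]
  intro a ha b hb
  have h1 := (mem_filter.1 ha).2
  have h2 := (mem_filter.1 hb).2
  exact Fin.castSucc_injective n (h1.trans h2.symm)

open Classical in
theorem gauss_asph : ∃ C : ℕ, ∀ (n N : ℕ) (hN : N = n + n),
    (univ.filter (fun h : Fin n ↪ Fin N => ∃ s : Fin n → Bool,
      ¬ Asph (treeLOG (fun x : Fin n => x.castSucc) s (labG hN h))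
        (pgen (treeLOG (fun x : Fin n => x.castSucc) s (labG hN h))))).card * (n + 1) ≤
      C * Fintype.card (Fin n ↪ Fin N) := by
  obtain ⟨C, hC⟩ := card_badG 132
  refine ⟨C * (1 + 1) ^ (2 * 132) * (132).factorial, fun n N hN => ?_⟩
  have h1 := hC n 1 (132).factorial (fun x : Fin n => x.castSucc) (path_tree n) (path_nch n)
    (Fin n ↪ Fin N) (fun h => labG hN h) ?_
  · refine le_trans (Nat.mul_le_mul_right _ (card_le_card ?_)) (h1.trans (le_of_eq ?_))
    · intro h hh
      obtain ⟨s, hs⟩ := (mem_filter.1 hh).2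
      refine mem_filter.2 ⟨mem_univ _, violation (fun x : Fin n => x.castSucc) s (labG hN h) fun hsp => hs ?_⟩
      exact sparse_asph _ (isPres_pgen _) hsp
    · rw [mul_assoc (C * (1 + 1) ^ (2 * 132))]
  · intro F μ hF
    have h2 := gauss_count hN F (fun x => ((μ x : Fin (n + 1)) : ℕ))
    refine le_trans (Nat.mul_le_mul_right _ (card_le_card ?_)) (h2.trans (Nat.mul_le_mul_right _
      (Nat.factorial_le hF)))
    intro h hh
    refine mem_filter.2 ⟨mem_univ _, fun x hx => ?_⟩
    have h3 := (mem_filter.1 hh).2 x hx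
    exact congrArg Fin.val h3

end Pool.Agent.LOT
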