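import Pool.Agent.LOT.Match

/-!
# LOT-Lolli: tokens of the word of an identity sequence, partial products

The word `Γ.lolw (u_0, e_0, s_0) ++ Γ.lolw (u_1, e_1, s_1) ++ ...` is represented by the list `toks h` of distinct
tokens: `(j, Sum.inl (a, true))` = `a`-th letter of `u_j` on the way to the square, `(j, Sum.inr k)` = side `k` of
the square `j`, `(j, Sum.inl (a, false))` = the same letter (inverse) on the way back.

PLAN. `toks_nodup`: `List.nodup_flatMap` (different `j`), `lol j` is nodup by inspection.
`toks_map`: `(lolly ..).map (tl h) = Γ.lolw h[j]`: `List.map_map`, `List.range`-`getElem` lemmas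
(`List.map_getElem_range`-like; `invRev u = (u.map (fun (a, b) => (a, !b))).reverse`).
`pre` lemmas: prove first `pre f (l1 ++ l2) x = (l1.map f).prod * pre f l2 x` for `x ∉ l1` and
`pre f (l1 ++ l2) x = pre f l1 x` for `x ∈ l1`. Every lollipop has product `1` under the hypotheses (H1) (H2), so
`pre f (toks h) (j, _) = pre f (lolly h j) (j, _)`.
`side_pot`: `P κ := pre f (toks h) (j, Sum.inr (if s then κ else κ - 1))`; use `pre_side`, cases on `s` and `k`
(`fin_cases`), and (H2) for the last side.
-/

namespace Pool.Agent.LOT

section
variable {V E : Type}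

/-- tokens -/
abbrev Tok : Type := ℕ × ((ℕ × Bool) ⊕ Fin 4)

/-- order in which the sides are read -/
def sideOrd (s : Bool) : List (Fin 4) := if s then [0, 1, 2, 3] else [3, 2, 1, 0]

/-- tokens of the `j`-th lollipop, `m` = length of the stick -/
def lolly (j m : ℕ) (s : Bool) : List Tok :=
  (List.range m).map (fun a => (j, Sum.inl (a, true))) ++ (sideOrd s).map (fun k => (j, Sum.inr k))
    ++ (List.range m).reverse.map (fun a => (j, Sum.inl (a, false)))

/-- all tokens of a sequence -/
def toks (h : List (List (V × Bool) × E × Bool)) : List Tok :=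
  (List.range h.length).flatMap (fun j =>
    lolly j (h[j]?.elim 0 (fun a => a.1.length)) (h[j]?.elim true (fun a => a.2.2)))

/-- letters of the tokens (`d` is a default letter) -/
def tokl (Γ : LOG V E) (d : V × Bool) (h : List (List (V × Bool) × E × Bool)) (x : Tok) : V × Bool :=
  match h[x.1]? with
  | none => d
  | some a => match x.2 with
    | Sum.inl (b, true) => a.1.getD b d
    | Sum.inl (b, false) => inv (a.1.getD b d)
    | Sum.inr k => sgnl a.2.2 (Γ.side a.2.1 k)

private theorem sideOrd_nodup (s : Bool) : (sideOrd s).Nodup := by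
  cases s <;> decide

private theorem mem_sideOrd (s : Bool) (k : Fin 4) : k ∈ sideOrd s := by
  cases s <;> fin_cases k <;> decide

private theorem lolly_nodup (j m : ℕ) (s : Bool) : (lolly j m s).Nodup := by
  unfold lolly
  rw [List.nodup_append', List.nodup_append']
  refine ⟨⟨?_, ?_, ?_⟩, ?_, ?_⟩
  · refine List.Nodup.map (fun a b h => ?_) List.nodup_range
    simpa using h
  · refine List.Nodup.map (fun a b h => ?_) (sideOrd_nodup s)
    simpa using h
  · intro x hx hy
    rw [List.mem_map] at hx hy
    obtain ⟨a, -, rfl⟩ := hx
    obtain ⟨b, -, hb⟩ := hy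
    simp at hb
  · refine List.Nodup.map (fun a b h => ?_) (List.nodup_reverse.2 List.nodup_range)
    simpa using h
  · intro x hx hy
    rw [List.mem_append, List.mem_map, List.mem_map] at hx
    rw [List.mem_map] at hy
    obtain ⟨b, -, hb⟩ := hy
    rcases hx with ⟨a, -, rfl⟩ | ⟨a, -, rfl⟩
    · simp at hb
    · simp at hb

private theorem mem_lolly (j m : ℕ) (s : Bool) (x : Tok) :
    x ∈ lolly j m s ↔ x.1 = j ∧ ∀ b c, x.2 = Sum.inl (b, c) → b < m := by
  obtain ⟨i, y⟩ := x
  unfold lolly
  rw [List.mem_append, List.mem_append, List.mem_map, List.mem_map, List.mem_map]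
  constructor
  · rintro ((⟨a, ha, h⟩ | ⟨a, -, h⟩) | ⟨a, ha, h⟩)
    · rw [Prod.mk.injEq] at h
      obtain ⟨rfl, rfl⟩ := h
      refine ⟨rfl, fun b c hbc => ?_⟩
      simp only [Sum.inl.injEq, Prod.mk.injEq] at hbc
      rw [← hbc.1]
      exact List.mem_range.1 ha
    · rw [Prod.mk.injEq] at h
      obtain ⟨rfl, rfl⟩ := h
      refine ⟨rfl, fun b c hbc => ?_⟩
      simp at hbc
    · rw [Prod.mk.injEq] at h
      obtain ⟨rfl, rfl⟩ := h
      refine ⟨rfl, fun b c hbc => ?_⟩
      simp only [Sum.inl.injEq, Prod.mk.injEq] at hbc
      rw [← hbc.1]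
      exact List.mem_range.1 (List.mem_reverse.1 ha)
  · rintro ⟨h1, h2⟩
    simp only at h1 h2
    subst h1
    rcases y with ⟨b, c⟩ | k
    · have hb := h2 b c rfl
      cases c
      · exact Or.inr ⟨b, List.mem_reverse.2 (List.mem_range.2 hb), rfl⟩
      · exact Or.inl (Or.inl ⟨b, List.mem_range.2 hb, rfl⟩)
    · exact Or.inl (Or.inr ⟨k, mem_sideOrd s k, rfl⟩)

theorem toks_nodup (h : List (List (V × Bool) × E × Bool)) : (toks h).Nodup := by
  unfold toks
  rw [List.nodup_flatMap]
  refine ⟨fun j _ => lolly_nodup _ _ _, ?_⟩
  refine List.Pairwise.imp ?_ List.nodup_range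
  intro a b hab x hx hy
  rw [mem_lolly] at hx hy
  exact hab (hx.1.symm.trans hy.1)

private theorem range_map_getD {α β : Type} (u : List α) (d : α) (g : α → β) :
    (List.range u.length).map (fun a => g (u.getD a d)) = u.map g := by
  refine List.ext_getElem (by simp) fun i h1 h2 => ?_
  rw [List.length_map] at h2
  simp [List.getD_eq_getElem?_getD, List.getElem?_eq_getElem h2]

private theorem lolly_map (Γ : LOG V E) (d : V × Bool) (h : List (List (V × Bool) × E × Bool))
    (j : ℕ) (c : List (V × Bool) × E × Bool) (hj : h[j]? = some c) :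
    (lolly j c.1.length c.2.2).map (tokl Γ d h) = Γ.lolw c := by
  obtain ⟨u, e, s⟩ := c
  unfold lolly LOG.lolw
  rw [List.map_append, List.map_append, List.map_map, List.map_map, List.map_map]
  congr 1
  · congr 1
    · have e1 : (List.range u.length).map (tokl Γ d h ∘ fun a => (j, Sum.inl (a, true))) =
          (List.range u.length).map (fun a => id (u.getD a d)) := by
        refine List.map_congr_left fun a _ => ?_
        simp only [Function.comp, tokl, hj, id]
      rw [e1, range_map_getD, List.map_id]
    · have e1 : (sideOrd s).map (tokl Γ d h ∘ fun k => (j, Sum.inr k)) =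
          (sideOrd s).map (fun k => sgnl s (Γ.side e k)) := by
        refine List.map_congr_left fun a _ => ?_
        simp only [Function.comp, tokl, hj]
      rw [e1]
      cases s
      · simp [sideOrd, sgnl, LOG.side, LOG.relw, inv, FreeGroup.invRev]
      · simp [sideOrd, sgnl, LOG.side, LOG.relw]
  · have e1 : (List.range u.length).reverse.map (tokl Γ d h ∘ fun a => (j, Sum.inl (a, false))) =
        (List.range u.length).reverse.map (fun a => inv (u.getD a d)) := by
      refine List.map_congr_left fun a _ => ?_
      simp only [Function.comp, tokl, hj]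
    rw [e1, List.map_reverse, range_map_getD]
    rfl

theorem toks_map (Γ : LOG V E) (d : V × Bool) (h : List (List (V × Bool) × E × Bool)) :
    (toks h).map (tokl Γ d h) = h.flatMap Γ.lolw := by
  unfold toks
  rw [List.map_flatMap, List.flatMap_def, List.flatMap_def]
  congr 1
  refine List.ext_getElem (by simp) fun i h1 h2 => ?_
  rw [List.length_map] at h2
  have hi : h[i]? = some h[i] := List.getElem?_eq_getElem h2
  rw [List.getElem_map, List.getElem_map, List.getElem_range, hi]
  exact lolly_map Γ d h i _ hi

theorem mem_toks (h : List (List (V × Bool) × E × Bool)) (x : Tok) :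
    x ∈ toks h ↔ ∃ a, h[x.1]? = some a ∧ (∀ b c, x.2 = Sum.inl (b, c) → b < a.1.length) := by
  unfold toks
  rw [List.mem_flatMap]
  constructor
  · rintro ⟨j, hj, hx⟩
    rw [List.mem_range] at hj
    rw [mem_lolly] at hx
    obtain ⟨h1, h2⟩ := hx
    have hi : h[j]? = some h[j] := List.getElem?_eq_getElem hj
    rw [hi] at h2
    refine ⟨h[j], by rw [h1, hi], h2⟩
  · rintro ⟨a, ha, h2⟩
    have hlt : x.1 < h.length := (List.getElem?_eq_some_iff.1 ha).1
    refine ⟨x.1, List.mem_range.2 hlt, ?_⟩
    rw [mem_lolly, ha]
    exact ⟨rfl, h2⟩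

/-- hypotheses on a labelling of the tokens -/
structure LolHyp {H : Type} [Group H] (h : List (List (V × Bool) × E × Bool)) (f : Tok → H) : Prop where
  stick : ∀ (j a : ℕ) (c : List (V × Bool) × E × Bool), h[j]? = some c → a < c.1.length →
    f (j, Sum.inl (a, false)) = (f (j, Sum.inl (a, true)))⁻¹
  sq : ∀ (j : ℕ) (c : List (V × Bool) × E × Bool), h[j]? = some c →
    ((sideOrd c.2.2).map (fun k => f (j, Sum.inr k))).prod = 1

/-! ### partial products -/

section
variable {T H : Type} [DecidableEq T] [Group H]

private theorem pre_append_mem (f : T → H) (l1 l2 : List T) {x : T} (hx : x ∈ l1) :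
    pre f (l1 ++ l2) x = pre f l1 x := by
  unfold pre
  induction l1 with
  | nil => exact absurd hx (List.not_mem_nil)
  | cons y l ih =>
    rw [List.cons_append, List.takeWhile_cons, List.takeWhile_cons]
    by_cases hy : y = x
    · simp [hy]
    · have hx' : x ∈ l := by
        rcases List.mem_cons.1 hx with h | h
        · exact absurd h.symm hy
        · exact h
      have := ih hx'
      simp only [hy, ne_eq, not_false_eq_true, decide_true, if_true, List.map_cons,
        List.prod_cons]
      rw [this]

private theorem pre_append_not (f : T → H) (l1 l2 : List T) {x : T} (hx : x ∉ l1) :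
    pre f (l1 ++ l2) x = (l1.map f).prod * pre f l2 x := by
  unfold pre
  induction l1 with
  | nil => simp
  | cons y l ih =>
    rw [List.mem_cons, not_or] at hx
    rw [List.cons_append, List.takeWhile_cons]
    have hy : y ≠ x := fun h => hx.1 h.symm
    have := ih hx.2
    simp only [hy, ne_eq, not_false_eq_true, decide_true, if_true, List.map_cons,
      List.prod_cons]
    rw [this, mul_assoc]

end

/-- product along the first `i` letters of the stick -/
private def FF {H : Type} [Group H] (f : Tok → H) (j i : ℕ) : H :=
  ((List.range i).map (fun a => f (j, Sum.inl (a, true)))).prod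

private theorem FF_succ {H : Type} [Group H] (f : Tok → H) (j i : ℕ) :
    FF f j (i + 1) = FF f j i * f (j, Sum.inl (i, true)) := by
  unfold FF
  rw [List.range_succ, List.map_append, List.prod_append]
  simp

private theorem back_prod {H : Type} [Group H] (f : Tok → H) (j m : ℕ)
    (hf : ∀ a < m, f (j, Sum.inl (a, false)) = (f (j, Sum.inl (a, true)))⁻¹) :
    ((((List.range m).reverse.map (fun a => ((j, Sum.inl (a, false)) : Tok)))).map f).prod =
      (FF f j m)⁻¹ := by
  induction m with
  | zero => simp [FF]
  | succ m ih =>
    rw [List.range_succ, List.reverse_append, List.reverse_singleton, List.singleton_append,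
      List.map_cons, List.map_cons, List.prod_cons, ih (fun a ha => hf a (by omega)),
      hf m (by omega), FF_succ, mul_inv_rev]

private theorem back_pre {H : Type} [Group H] (f : Tok → H) (j m a : ℕ) (ha : a < m)
    (hf : ∀ a < m, f (j, Sum.inl (a, false)) = (f (j, Sum.inl (a, true)))⁻¹) :
    pre f ((List.range m).reverse.map (fun a => ((j, Sum.inl (a, false)) : Tok)))
      (j, Sum.inl (a, false)) = (FF f j m)⁻¹ * FF f j (a + 1) := by
  induction m with
  | zero => exact absurd ha (by omega)
  | succ m ih =>
    rw [List.range_succ, List.reverse_append, List.reverse_singleton, List.singleton_append,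
      List.map_cons]
    by_cases hm : m = a
    · subst hm
      rw [inv_mul_cancel]
      simp [pre]
    · have hne : ((j, Sum.inl (m, false)) : Tok) ≠ (j, Sum.inl (a, false)) := by
        intro h
        simp only [Prod.mk.injEq, Sum.inl.injEq, and_true, true_and] at h
        exact hm h
      have e : ((j, Sum.inl (m, false)) : Tok) ::
          (List.range m).reverse.map (fun a => ((j, Sum.inl (a, false)) : Tok)) =
          [((j, Sum.inl (m, false)) : Tok)] ++
            (List.range m).reverse.map (fun a => ((j, Sum.inl (a, false)) : Tok)) := rfl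
      rw [e, pre_append_not f _ _ (by
        rw [List.mem_singleton]
        exact fun h => hne h.symm), ih (by omega) (fun a ha => hf a (by omega))]
      have e5 : (FF f j (m + 1))⁻¹ = f (j, Sum.inl (m, false)) * (FF f j m)⁻¹ := by
        rw [FF_succ, mul_inv_rev, ← hf m (by omega)]
      rw [e5, mul_assoc]
      simp

private theorem front_pre {H : Type} [Group H] (f : Tok → H) (j m a : ℕ) (ha : a < m) :
    pre f ((List.range m).map (fun a => ((j, Sum.inl (a, true)) : Tok)))
      (j, Sum.inl (a, true)) = FF f j a := by
  induction m with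
  | zero => exact absurd ha (by omega)
  | succ m ih =>
    rw [List.range_succ, List.map_append]
    by_cases hm : m = a
    · subst hm
      rw [pre_append_not f _ _ (by
        intro h
        rw [List.mem_map] at h
        obtain ⟨b, hb, h⟩ := h
        simp only [Prod.mk.injEq, Sum.inl.injEq, and_true, true_and] at h
        rw [List.mem_range] at hb
        omega)]
      rw [List.map_map]
      have e : pre f ([m].map (fun a => ((j, Sum.inl (a, true)) : Tok)))
          (j, Sum.inl (m, true)) = 1 := by simp [pre]
      rw [e, mul_one]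
      rfl
    · rw [pre_append_mem f _ _ (by
        rw [List.mem_map]
        exact ⟨a, List.mem_range.2 (by omega), rfl⟩), ih (by omega)]

private theorem front_prod {H : Type} [Group H] (f : Tok → H) (j m : ℕ) :
    ((((List.range m).map (fun a => ((j, Sum.inl (a, true)) : Tok)))).map f).prod = FF f j m := by
  rw [List.map_map]
  rfl

private theorem side_prod {H : Type} [Group H] (f : Tok → H) (j : ℕ) (s : Bool) :
    ((((sideOrd s).map (fun k => ((j, Sum.inr k) : Tok)))).map f).prod =
      ((sideOrd s).map (fun k => f (j, Sum.inr k))).prod := by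
  rw [List.map_map]
  rfl

private theorem lolly_prod {H : Type} [Group H] (f : Tok → H) (j m : ℕ) (s : Bool)
    (hf : ∀ a < m, f (j, Sum.inl (a, false)) = (f (j, Sum.inl (a, true)))⁻¹)
    (hs : ((sideOrd s).map (fun k => f (j, Sum.inr k))).prod = 1) :
    ((lolly j m s).map f).prod = 1 := by
  unfold lolly
  rw [List.map_append, List.map_append, List.prod_append, List.prod_append, front_prod,
    side_prod, hs, back_prod f j m hf, mul_one, mul_inv_cancel]

private theorem pre_flat {H : Type} [Group H] (f : Tok → H) (m : ℕ → ℕ) (s : ℕ → Bool) (n : ℕ)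
    (hp : ∀ i < n, ((lolly i (m i) (s i)).map f).prod = 1) {j : ℕ} (hj : j < n)
    (y : (ℕ × Bool) ⊕ Fin 4) (hy : ((j, y) : Tok) ∈ lolly j (m j) (s j)) :
    pre f ((List.range n).flatMap (fun i => lolly i (m i) (s i))) (j, y) =
      pre f (lolly j (m j) (s j)) (j, y) := by
  induction n with
  | zero => exact absurd hj (by omega)
  | succ n ih =>
    rw [List.range_succ, List.flatMap_append]
    have e : [n].flatMap (fun i => lolly i (m i) (s i)) = lolly n (m n) (s n) := by simp
    rw [e]
    by_cases hn : j = n
    · subst hn
      rw [pre_append_not]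
      · have e2 : (((List.range j).flatMap (fun i => lolly i (m i) (s i))).map f).prod = 1 := by
          clear ih hj hy e
          have : ∀ k ≤ j, (((List.range k).flatMap (fun i => lolly i (m i) (s i))).map f).prod
              = 1 := by
            intro k
            induction k with
            | zero => intro _; simp
            | succ k ihk =>
              intro hk
              rw [List.range_succ, List.flatMap_append, List.map_append, List.prod_append,
                ihk (by omega), one_mul]
              have e3 : [k].flatMap (fun i => lolly i (m i) (s i)) = lolly k (m k) (s k) := by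
                simp
              rw [e3]
              exact hp k (by omega)
          exact this j le_rfl
        rw [e2, one_mul]
      · intro h
        rw [List.mem_flatMap] at h
        obtain ⟨i, hi, h⟩ := h
        rw [mem_lolly] at h
        rw [List.mem_range] at hi
        have := h.1
        simp only at this
        omega
    · rw [pre_append_mem]
      · exact ih (fun i hi => hp i (by omega)) (by omega)
      · rw [List.mem_flatMap]
        exact ⟨j, List.mem_range.2 (by omega), hy⟩

private theorem pre_toks {H : Type} [Group H] (h : List (List (V × Bool) × E × Bool))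
    (f : Tok → H) (hf : LolHyp h f) (j : ℕ) (c : List (V × Bool) × E × Bool)
    (hj : h[j]? = some c) (y : (ℕ × Bool) ⊕ Fin 4)
    (hy : ∀ b c', y = Sum.inl (b, c') → b < c.1.length) :
    pre f (toks h) (j, y) = pre f (lolly j c.1.length c.2.2) (j, y) := by
  have hlt : j < h.length := (List.getElem?_eq_some_iff.1 hj).1
  have h1 := pre_flat f (fun j => h[j]?.elim 0 (fun a => a.1.length))
    (fun j => h[j]?.elim true (fun a => a.2.2)) h.length ?_ hlt y ?_
  · simp only [hj, Option.elim_some] at h1
    exact h1
  · intro i hi
    have hi' : h[i]? = some h[i] := List.getElem?_eq_getElem hi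
    simp only [hi', Option.elim_some]
    exact lolly_prod f i _ _ (fun a ha => hf.stick i a _ hi' ha) (hf.sq i _ hi')
  · simp only [hj, Option.elim_some]
    rw [mem_lolly]
    exact ⟨rfl, hy⟩

private theorem pre_lolly_true {H : Type} [Group H] (f : Tok → H) (j m a : ℕ) (s : Bool)
    (ha : a < m) : pre f (lolly j m s) (j, Sum.inl (a, true)) = FF f j a := by
  have hmem : ((j, Sum.inl (a, true)) : Tok) ∈
      (List.range m).map (fun a => ((j, Sum.inl (a, true)) : Tok)) := by
    rw [List.mem_map]
    exact ⟨a, List.mem_range.2 ha, rfl⟩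
  unfold lolly
  rw [pre_append_mem _ _ _ (List.mem_append_left _ hmem), pre_append_mem _ _ _ hmem,
    front_pre f j m a ha]

private theorem pre_lolly_false {H : Type} [Group H] (f : Tok → H) (j m a : ℕ) (s : Bool)
    (ha : a < m) (hf : ∀ a < m, f (j, Sum.inl (a, false)) = (f (j, Sum.inl (a, true)))⁻¹)
    (hs : ((sideOrd s).map (fun k => f (j, Sum.inr k))).prod = 1) :
    pre f (lolly j m s) (j, Sum.inl (a, false)) = FF f j (a + 1) := by
  unfold lolly
  rw [pre_append_not]
  · rw [List.map_append, List.prod_append, front_prod, side_prod, hs, mul_one,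
      back_pre f j m a ha hf, mul_inv_cancel_left]
  · rw [List.mem_append, List.mem_map, List.mem_map]
    rintro (⟨b, -, h⟩ | ⟨b, -, h⟩) <;> simp at h

private theorem pre_map_side {H : Type} [Group H] (f : Tok → H) (j : ℕ) (k : Fin 4)
    (l : List (Fin 4)) : pre f (l.map (fun k => ((j, Sum.inr k) : Tok))) (j, Sum.inr k) =
      ((l.takeWhile (fun k' => decide (k' ≠ k))).map (fun k' => f (j, Sum.inr k'))).prod := by
  unfold pre
  induction l with
  | nil => simp
  | cons y l ih =>
    rw [List.map_cons, List.takeWhile_cons, List.takeWhile_cons]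
    by_cases hy : y = k
    · simp [hy]
    · have hne : ((j, Sum.inr y) : Tok) ≠ (j, Sum.inr k) := by
        intro h
        simp only [Prod.mk.injEq, Sum.inr.injEq, true_and] at h
        exact hy h
      simp only [hy, hne, ne_eq, not_false_eq_true, decide_true, if_true, List.map_cons,
        List.prod_cons]
      rw [ih]

private theorem pre_lolly_side {H : Type} [Group H] (f : Tok → H) (j m : ℕ) (s : Bool)
    (k : Fin 4) : pre f (lolly j m s) (j, Sum.inr k) = FF f j m *
      (((sideOrd s).takeWhile (fun k' => decide (k' ≠ k))).map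
        (fun k' => f (j, Sum.inr k'))).prod := by
  have hmem : ((j, Sum.inr k) : Tok) ∈ (sideOrd s).map (fun k => ((j, Sum.inr k) : Tok)) := by
    rw [List.mem_map]
    exact ⟨k, mem_sideOrd s k, rfl⟩
  unfold lolly
  rw [pre_append_mem _ _ _ (List.mem_append_right _ hmem), pre_append_not]
  · rw [front_prod, pre_map_side]
  · rw [List.mem_map]
    rintro ⟨b, -, h⟩
    simp at h

theorem pre_stick {H : Type} [Group H] (h : List (List (V × Bool) × E × Bool)) (f : Tok → H)
    (hf : LolHyp h f) (j a : ℕ) (c : List (V × Bool) × E × Bool) (hj : h[j]? = some c)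
    (ha : a < c.1.length) :
    pre f (toks h) (j, Sum.inl (a, false))
      = pre f (toks h) (j, Sum.inl (a, true)) * f (j, Sum.inl (a, true)) := by
  have hb : ∀ (t : Bool) (b : ℕ) (c' : Bool),
      (Sum.inl (a, t) : (ℕ × Bool) ⊕ Fin 4) = Sum.inl (b, c') → b < c.1.length := by
    intro t b c' h1
    simp only [Sum.inl.injEq, Prod.mk.injEq] at h1
    rw [← h1.1]
    exact ha
  rw [pre_toks h f hf j c hj _ (hb false), pre_toks h f hf j c hj _ (hb true),
    pre_lolly_true f j _ a _ ha,
    pre_lolly_false f j _ a _ ha (fun b hb => hf.stick j b c hj hb) (hf.sq j c hj), FF_succ]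

theorem pre_side {H : Type} [Group H] (h : List (List (V × Bool) × E × Bool)) (f : Tok → H)
    (hf : LolHyp h f) (j : ℕ) (c : List (V × Bool) × E × Bool) (hj : h[j]? = some c) (k : Fin 4) :
    pre f (toks h) (j, Sum.inr k)
      = ((List.range c.1.length).map (fun a => f (j, Sum.inl (a, true)))).prod
        * (((sideOrd c.2.2).takeWhile (fun k' => decide (k' ≠ k))).map
            (fun k' => f (j, Sum.inr k'))).prod := by
  rw [pre_toks h f hf j c hj (Sum.inr k) (fun b c' h1 => by simp at h1), pre_lolly_side]
  rfl

/-- potential at the corners of the square `j`: start and end of side `k` are the corners `sc s k`, `ec s k` -/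
theorem side_pot {H : Type} [Group H] (h : List (List (V × Bool) × E × Bool)) (f : Tok → H)
    (hf : LolHyp h f) (j : ℕ) (c : List (V × Bool) × E × Bool) (hj : h[j]? = some c) :
    ∃ P : Fin 4 → H, ∀ k, pre f (toks h) (j, Sum.inr k) = P (sc c.2.2 k) ∧
      pre f (toks h) (j, Sum.inr k) * f (j, Sum.inr k) = P (ec c.2.2 k) := by
  have hsq := hf.sq j c hj
  have hp := pre_side h f hf j c hj
  obtain ⟨u, e, s⟩ := c
  simp only at hsq hp
  generalize hA : ((List.range u.length).map (fun a => f (j, Sum.inl (a, true)))).prod = A at hp
  cases s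
  · have hsq' : f (j, Sum.inr 3) * (f (j, Sum.inr 2) * (f (j, Sum.inr 1) * f (j, Sum.inr 0))) = 1 := by
      simpa [sideOrd] using hsq
    refine ⟨fun κ => pre f (toks h) (j, Sum.inr (κ - 1)), fun k => ⟨?_, ?_⟩⟩
    · change _ = pre f (toks h) (j, Sum.inr (k + 1 - 1))
      rw [add_sub_cancel_right]
    · change _ = pre f (toks h) (j, Sum.inr (k - 1))
      rw [hp k, hp (k - 1)]
      fin_cases k
      · have e1 : (sideOrd false).takeWhile (fun k' => decide (k' ≠ (0 : Fin 4))) = [3, 2, 1] := by
          decide
        have e2 : (sideOrd false).takeWhile (fun k' => decide (k' ≠ (0 - 1 : Fin 4))) = [] := by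
          decide
        simp only [Fin.zero_eta]
        rw [e1, e2]
        simp only [List.map_cons, List.map_nil, List.prod_cons, List.prod_nil, mul_one, mul_assoc]
        rw [hsq', mul_one]
      · have e1 : (sideOrd false).takeWhile (fun k' => decide (k' ≠ (1 : Fin 4))) = [3, 2] := by
          decide
        have e2 : (sideOrd false).takeWhile (fun k' => decide (k' ≠ (1 - 1 : Fin 4))) =
            [3, 2, 1] := by decide
        simp only [Fin.mk_one]
        rw [e1, e2]
        simp only [List.map_cons, List.map_nil, List.prod_cons, List.prod_nil, mul_one, mul_assoc]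
      · have e1 : (sideOrd false).takeWhile (fun k' => decide (k' ≠ (2 : Fin 4))) = [3] := by
          decide
        have e2 : (sideOrd false).takeWhile (fun k' => decide (k' ≠ (2 - 1 : Fin 4))) =
            [3, 2] := by decide
        simp only [Fin.reduceFinMk]
        rw [e1, e2]
        simp only [List.map_cons, List.map_nil, List.prod_cons, List.prod_nil, mul_one, mul_assoc]
      · have e1 : (sideOrd false).takeWhile (fun k' => decide (k' ≠ (3 : Fin 4))) = [] := by
          decide
        have e2 : (sideOrd false).takeWhile (fun k' => decide (k' ≠ (3 - 1 : Fin 4))) =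
            [3] := by decide
        simp only [Fin.reduceFinMk]
        rw [e1, e2]
        simp only [List.map_cons, List.map_nil, List.prod_cons, List.prod_nil, mul_one, mul_assoc]
  · have hsq' : f (j, Sum.inr 0) * (f (j, Sum.inr 1) * (f (j, Sum.inr 2) * f (j, Sum.inr 3))) = 1 := by
      simpa [sideOrd] using hsq
    refine ⟨fun κ => pre f (toks h) (j, Sum.inr κ), fun k => ⟨rfl, ?_⟩⟩
    change _ = pre f (toks h) (j, Sum.inr (k + 1))
    rw [hp k, hp (k + 1)]
    fin_cases k
    · have e1 : (sideOrd true).takeWhile (fun k' => decide (k' ≠ (0 : Fin 4))) = [] := by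
        decide
      have e2 : (sideOrd true).takeWhile (fun k' => decide (k' ≠ (0 + 1 : Fin 4))) = [0] := by
        decide
      simp only [Fin.zero_eta]
      rw [e1, e2]
      simp only [List.map_cons, List.map_nil, List.prod_cons, List.prod_nil, mul_one, mul_assoc]
    · have e1 : (sideOrd true).takeWhile (fun k' => decide (k' ≠ (1 : Fin 4))) = [0] := by
        decide
      have e2 : (sideOrd true).takeWhile (fun k' => decide (k' ≠ (1 + 1 : Fin 4))) =
          [0, 1] := by decide
      simp only [Fin.mk_one]
      rw [e1, e2]
      simp only [List.map_cons, List.map_nil, List.prod_cons, List.prod_nil, mul_one, mul_assoc]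
    · have e1 : (sideOrd true).takeWhile (fun k' => decide (k' ≠ (2 : Fin 4))) = [0, 1] := by
        decide
      have e2 : (sideOrd true).takeWhile (fun k' => decide (k' ≠ (2 + 1 : Fin 4))) =
          [0, 1, 2] := by decide
      simp only [Fin.reduceFinMk]
      rw [e1, e2]
      simp only [List.map_cons, List.map_nil, List.prod_cons, List.prod_nil, mul_one, mul_assoc]
    · have e1 : (sideOrd true).takeWhile (fun k' => decide (k' ≠ (3 : Fin 4))) = [0, 1, 2] := by
        decide
      have e2 : (sideOrd true).takeWhile (fun k' => decide (k' ≠ (3 + 1 : Fin 4))) = [] := by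
        decide
      simp only [Fin.reduceFinMk]
      rw [e1, e2]
      simp only [List.map_cons, List.map_nil, List.prod_cons, List.prod_nil, mul_one, mul_assoc]
      rw [hsq', mul_one]

end

end Pool.Agent.LOT
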