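import Pool.Agent.LOT.Fox

/-!
# LOT-Magnus: Magnus' theorem

PLAN. `magnus`: choose a section `s : G → FreeGroup V` of `FreeGroup.lift gen` with `s 1 = 1`
  (surjectivity). `N := (FreeGroup.lift gen).ker`, `A := Additive (Abelianization N)` or directly the quotient
  of `N` by `⁅N, N⁆`. For `g : G`, `w : FreeGroup V` put `c g w := s g * w * (s (g * lift gen w))⁻¹ ∈ N`; then
  `c g (w w') = c g w * c (g * lift gen w) w'`. Define `ψ : (V → MonoidAlgebra ℤ G) →+ A` by
  `ψ x = ∑ v, (x v).sum (fun g n => n • [c g (of v)])`. By induction on the word `w`: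
  `[c g (mk w)] = ψ (fun v => single g 1 * foxw gen w v)`. For `lift gen (mk w) = 1`, `g = 1`: `c 1 (mk w) = mk w`,
  and `foxw gen w = 0` gives `[mk w] = 0` in `A`, i.e. `mk w ∈ ⁅N, N⁆` (an element of the subgroup `N` whose class in
  `Abelianization N` is trivial lies in `commutator N`, map it to `FreeGroup V` with `Subgroup.map_commutator`/
  `Subgroup.commutator` lemmas).
-/

namespace Pool.Agent.LOT

open Finset

section
variable {V : Type} {G : Type} [Group G]

/-- additive map on the group ring with given values on the group elements -/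
private noncomputable def psi0 {A : Type} [AddCommGroup A] (h : G → A) : MonoidAlgebra ℤ G →+ A :=
  (Finsupp.liftAddHom (fun g => zmultiplesHom A (h g))).comp
    (MonoidAlgebra.coeffAddEquiv (R := ℤ) (M := G)).toAddMonoidHom

private theorem psi0_single {A : Type} [AddCommGroup A] (h : G → A) (g : G) (n : ℤ) :
    psi0 h (MonoidAlgebra.single g n) = n • h g := by
  have h1 : psi0 h (MonoidAlgebra.single g n) =
      (Finsupp.liftAddHom (fun g => zmultiplesHom A (h g))) (Finsupp.single g n) := rfl
  rw [h1, Finsupp.liftAddHom_apply_single, zmultiplesHom_apply]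

private theorem key_ind [DecidableEq V] [Fintype V] (gen : V → G) {A : Type} [AddCommGroup A]
    (cc : G → FreeGroup V → A)
    (hcc : ∀ g u w, cc g (u * w) = cc g u + cc (g * FreeGroup.lift gen u) w)
    (w : List (V × Bool)) : ∀ g : G,
    cc g (FreeGroup.mk w) = ∑ v, psi0 (fun x => cc x (FreeGroup.of v))
      (MonoidAlgebra.single g 1 * foxw gen w v) := by
  have cc1 : ∀ g, cc g 1 = 0 := by
    intro g
    have h1 := hcc g 1 1
    rw [mul_one, map_one, mul_one] at h1
    have h2 : cc g 1 + 0 = cc g 1 + cc g 1 := by rw [add_zero]; exact h1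
    exact (add_left_cancel h2).symm
  induction w with
  | nil =>
    intro g
    have h1 : (FreeGroup.mk ([] : List (V × Bool))) = 1 := rfl
    rw [h1, cc1]
    symm
    apply Finset.sum_eq_zero
    intro v _
    have h2 : foxw gen ([] : List (V × Bool)) v = 0 := rfl
    rw [h2, mul_zero, map_zero]
  | cons a w ih =>
    intro g
    obtain ⟨a, b⟩ := a
    have hmk : FreeGroup.mk ((a, b) :: w) = FreeGroup.mk [(a, b)] * FreeGroup.mk w := by
      rw [FreeGroup.mul_mk]
      rfl
    cases b with
    | true =>
      have ha : FreeGroup.mk [(a, true)] = FreeGroup.of a := rfl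
      rw [hmk, ha, hcc, FreeGroup.lift_apply_of, ih]
      have hf : ∀ v, psi0 (fun x => cc x (FreeGroup.of v))
          (MonoidAlgebra.single g 1 * foxw gen ((a, true) :: w) v) =
          (if a = v then cc g (FreeGroup.of v) else 0) + psi0 (fun x => cc x (FreeGroup.of v))
          (MonoidAlgebra.single (g * gen a) 1 * foxw gen w v) := by
        intro v
        have h2 : foxw gen ((a, true) :: w) v =
          (if a = v then 1 else 0) + MonoidAlgebra.single (gen a) 1 * foxw gen w v := rfl
        rw [h2, mul_add, map_add, ← mul_assoc, MonoidAlgebra.single_mul_single, mul_one]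
        congr 1
        by_cases hv : a = v
        · rw [if_pos hv, if_pos hv, mul_one, psi0_single, one_smul]
        · rw [if_neg hv, if_neg hv, mul_zero, map_zero]
      rw [Finset.sum_congr rfl (fun v _ => hf v), Finset.sum_add_distrib, Finset.sum_ite_eq,
        if_pos (Finset.mem_univ a)]
    | false =>
      have ha : FreeGroup.mk [(a, false)] = (FreeGroup.of a)⁻¹ := by
        rw [FreeGroup.of, FreeGroup.inv_mk]
        rfl
      have hinv : cc g (FreeGroup.of a)⁻¹ = - cc (g * (gen a)⁻¹) (FreeGroup.of a) := by
        have h3 := hcc g (FreeGroup.of a)⁻¹ (FreeGroup.of a)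
        rw [inv_mul_cancel, cc1, map_inv, FreeGroup.lift_apply_of] at h3
        exact eq_neg_of_add_eq_zero_left h3.symm
      rw [hmk, ha, hcc, map_inv, FreeGroup.lift_apply_of, ih, hinv]
      have hf : ∀ v, psi0 (fun x => cc x (FreeGroup.of v))
          (MonoidAlgebra.single g 1 * foxw gen ((a, false) :: w) v) =
          (if a = v then - cc (g * (gen a)⁻¹) (FreeGroup.of v) else 0) +
          psi0 (fun x => cc x (FreeGroup.of v))
          (MonoidAlgebra.single (g * (gen a)⁻¹) 1 * foxw gen w v) := by
        intro v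
        have h2 : foxw gen ((a, false) :: w) v =
          -(if a = v then MonoidAlgebra.single (gen a)⁻¹ 1 else 0)
          + MonoidAlgebra.single (gen a)⁻¹ 1 * foxw gen w v := rfl
        rw [h2, mul_add, map_add, ← mul_assoc, MonoidAlgebra.single_mul_single, mul_one]
        congr 1
        by_cases hv : a = v
        · rw [if_pos hv, if_pos hv, mul_neg, MonoidAlgebra.single_mul_single, mul_one, map_neg,
            psi0_single, one_smul]
        · rw [if_neg hv, if_neg hv, neg_zero, mul_zero, map_zero]
      rw [Finset.sum_congr rfl (fun v _ => hf v), Finset.sum_add_distrib, Finset.sum_ite_eq,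
        if_pos (Finset.mem_univ a)]

theorem magnus [DecidableEq V] [Fintype V] (gen : V → G) (hs : Function.Surjective (FreeGroup.lift gen))
    (w : List (V × Bool)) (hw : evw gen w = 1) (hf : ∀ v, foxw gen w v = 0) :
    FreeGroup.mk w ∈ ⁅(FreeGroup.lift gen).ker, (FreeGroup.lift gen).ker⁆ := by
  classical
  obtain ⟨s, hs1, hs2⟩ : ∃ s : G → FreeGroup V, s 1 = 1 ∧ ∀ g, FreeGroup.lift gen (s g) = g := by
    refine ⟨fun g => if g = 1 then 1 else Classical.choose (hs g), by simp, ?_⟩
    intro g
    by_cases hg : g = 1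
    · simp [hg]
    · simp only [if_neg hg]
      exact Classical.choose_spec (hs g)
  have hmem : ∀ g w, s g * w * (s (g * FreeGroup.lift gen w))⁻¹ ∈ (FreeGroup.lift gen).ker := by
    intro g w
    rw [MonoidHom.mem_ker, map_mul, map_mul, map_inv, hs2, hs2, mul_inv_cancel]
  let N := (FreeGroup.lift gen).ker
  let c : G → FreeGroup V → N := fun g w => ⟨s g * w * (s (g * FreeGroup.lift gen w))⁻¹, hmem g w⟩
  have hc : ∀ g u w, c g (u * w) = c g u * c (g * FreeGroup.lift gen u) w := by
    intro g u w
    apply Subtype.ext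
    change s g * (u * w) * (s (g * FreeGroup.lift gen (u * w)))⁻¹ =
      (s g * u * (s (g * FreeGroup.lift gen u))⁻¹) *
      (s (g * FreeGroup.lift gen u) * w * (s (g * FreeGroup.lift gen u * FreeGroup.lift gen w))⁻¹)
    rw [map_mul, mul_assoc g]
    group
  let cc : G → FreeGroup V → Additive (Abelianization N) :=
    fun g w => Additive.ofMul (Abelianization.of (c g w))
  have hcc : ∀ g u w, cc g (u * w) = cc g u + cc (g * FreeGroup.lift gen u) w := by
    intro g u w
    change Additive.ofMul (Abelianization.of (c g (u * w))) = _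
    rw [hc, map_mul]
    rfl
  have key := key_ind gen cc hcc w 1
  have h0 : cc 1 (FreeGroup.mk w) = 0 := by
    rw [key]
    apply Finset.sum_eq_zero
    intro v _
    rw [hf v, mul_zero, map_zero]
  have h1 : Abelianization.of (c 1 (FreeGroup.mk w)) = 1 := h0
  have hw' : FreeGroup.lift gen (FreeGroup.mk w) = 1 := hw
  have h2 : c 1 (FreeGroup.mk w) ∈ commutator N := by
    have h3 : (QuotientGroup.mk (c 1 (FreeGroup.mk w)) : N ⧸ commutator N) = 1 := h1
    exact (QuotientGroup.eq_one_iff _).1 h3
  have h4 : ((c 1 (FreeGroup.mk w) : N) : FreeGroup V) = FreeGroup.mk w := by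
    change s 1 * FreeGroup.mk w * (s (1 * FreeGroup.lift gen (FreeGroup.mk w)))⁻¹ = FreeGroup.mk w
    rw [hw', mul_one, hs1]
    simp
  have h5 : (N.subtype (c 1 (FreeGroup.mk w))) ∈ (commutator N).map N.subtype :=
    Subgroup.mem_map_of_mem _ h2
  rw [commutator_def, Subgroup.map_commutator, ← MonoidHom.range_eq_map, Subgroup.range_subtype] at h5
  have h6 : N.subtype (c 1 (FreeGroup.mk w)) = FreeGroup.mk w := h4
  rw [h6] at h5
  exact h5

end

end Pool.Agent.LOT
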