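import Pool.Agent.LOT.Defs

/-!
# LOT-MarksL: sparsity with marked vertices is preserved by the collapse of a loop

Notation: `V(S) = vset Γ.tl Γ.hd S`, `m(S) = |V(S) ∩ M|`, `V'`, `m'`, `M' = insert a (M.image (coll b a))` for the
collapsed LOG `Γ'`.

PLAN (loop; `i = Γ.i e0`, `b = t = Γ.t e0`, `R = {(e0, true), (e0, false)}`). `V(R) = {i, t}`. If `i = t` then `|R| = 2 > 1 = |V(R)|`,
against the hypothesis for `R` (`2 + 5 m(R) ≤ 132`). So `i ≠ t`, and `2 + m(R) ≤ 2` gives that `i`, `t` are not marked.
Let `S'` be a set of arcs of `Γ'` with `|S'| + 5 m'(S') ≤ 132`, `S` its image under `(e, c) ↦ (e.1, c)` (same cardinality).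
`V'(S') = coll '' V(S)`.
 (a) `i ∉ V(S)` and `t ∉ V(S)`: `coll` is injective on `V(S)`, `V'(S')` does not contain `a`, `|V'(S')| = |V(S)|`,
 `m'(S') = m(S)`; the hypothesis for `S` is the claim.
 (b) otherwise `T = S ∪ R`: `|T| = |S| + 2`, `V(T) = V(S) ∪ {i, t}`, `|V(T)| = |V'(S')| + 1` (`V'(S') = coll '' V(T)`,
 and `coll` identifies exactly `t` with `i`), `m'(S') = m(T) + 1` (`a` is marked in `M'`, not in `M`). So
 `|T| + 5 m(T) = |S'| + 2 + 5 m'(S') - 5 ≤ 132` and `|S'| + 2 + m'(S') - 1 ≤ |V'(S')| + 1`.
-/

namespace Pool.Agent.LOT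

open Finset

section
variable {V E : Type} [DecidableEq V] [DecidableEq E]

/-- the collapse as a map of the vertex set to itself -/
private def kap (i t v : V) : V := if v = t then i else v

private theorem coll_val {b : V} (a : {v : V // v ≠ b}) (v : V) :
    ((coll b a v : {v : V // v ≠ b}) : V) = kap a.1 b v := by
  unfold coll kap
  by_cases h : v = b
  · rw [dif_pos h, if_pos h]
  · rw [dif_neg h, if_neg h]

private theorem vset_val {Γ : LOG V E} (e0 : E) {b : V} (a : {v : V // v ≠ b})
    (S' : Finset ({e : E // e ≠ e0} × Bool)) :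
    (vset (Γ.collapse e0 b a).tl (Γ.collapse e0 b a).hd S').image Subtype.val =
      (vset Γ.tl Γ.hd (S'.image (fun x => (x.1.1, x.2)))).image (kap a.1 b) := by
  unfold vset
  rw [Finset.image_union, Finset.image_union, Finset.image_image, Finset.image_image,
    Finset.image_image, Finset.image_image, Finset.image_image, Finset.image_image]
  congr 1
  · apply Finset.image_congr
    intro x _
    obtain ⟨⟨e, he⟩, c⟩ := x
    cases c
    · exact coll_val a (Γ.t e)
    · exact coll_val a (Γ.i e)
  · apply Finset.image_congr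
    intro x _
    obtain ⟨⟨e, he⟩, c⟩ := x
    exact coll_val a (Γ.l e)

theorem marks_loop {Γ : LOG V E} {M : Finset V} (hS : SparseM Γ.tl Γ.hd 132 M) (e0 : E)
    (hl : Γ.l e0 = Γ.i e0 ∨ Γ.l e0 = Γ.t e0) :
    ∃ hne : Γ.i e0 ≠ Γ.t e0,
      SparseM (Γ.collapse e0 (Γ.t e0) ⟨Γ.i e0, hne⟩).tl (Γ.collapse e0 (Γ.t e0) ⟨Γ.i e0, hne⟩).hd 132
        (insert ⟨Γ.i e0, hne⟩ (M.image (coll (Γ.t e0) ⟨Γ.i e0, hne⟩))) := by
  classical
  set i := Γ.i e0 with hi
  set t := Γ.t e0 with ht
  have hRv : vset Γ.tl Γ.hd ({(e0, true), (e0, false)} : Finset (E × Bool)) = {i, t} := by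
    have h1 : Γ.tl (e0, true) = i := rfl
    have h2 : Γ.tl (e0, false) = t := rfl
    have h3 : Γ.hd (e0, true) = Γ.l e0 := rfl
    have h4 : Γ.hd (e0, false) = Γ.l e0 := rfl
    unfold vset
    ext v
    simp only [Finset.mem_union, Finset.mem_image, Finset.mem_insert, Finset.mem_singleton,
      exists_eq_or_imp, exists_eq_left, h1, h2, h3, h4]
    rcases hl with hl | hl
    · rw [hl]
      constructor
      · rintro ((h | h) | (h | h))
        · exact Or.inl h.symm
        · exact Or.inr h.symm
        · exact Or.inl h.symm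
        · exact Or.inl h.symm
      · rintro (h | h)
        · exact Or.inl (Or.inl h.symm)
        · exact Or.inl (Or.inr h.symm)
    · rw [hl]
      constructor
      · rintro ((h | h) | (h | h))
        · exact Or.inl h.symm
        · exact Or.inr h.symm
        · exact Or.inr h.symm
        · exact Or.inr h.symm
      · rintro (h | h)
        · exact Or.inl (Or.inl h.symm)
        · exact Or.inl (Or.inr h.symm)
  have hRc : ({(e0, true), (e0, false)} : Finset (E × Bool)).card = 2 := by
    rw [Finset.card_pair]
    intro h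
    simp at h
  have hR := hS {(e0, true), (e0, false)}
  rw [hRv, hRc] at hR
  have hne : i ≠ t := by
    intro h
    rw [h] at hR
    have h1 : (({t, t} : Finset V) ∩ M).card ≤ ({t, t} : Finset V).card :=
      Finset.card_le_card Finset.inter_subset_left
    have h2 : ({t, t} : Finset V).card = 1 := by simp
    have h3 := hR (by omega)
    omega
  have hc2 : ({i, t} : Finset V).card = 2 := Finset.card_pair hne
  have hm0 : (({i, t} : Finset V) ∩ M).card = 0 := by
    have h1 : (({i, t} : Finset V) ∩ M).card ≤ ({i, t} : Finset V).card :=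
      Finset.card_le_card Finset.inter_subset_left
    have h3 := hR (by omega)
    omega
  rw [Finset.card_eq_zero] at hm0
  have hiM : i ∉ M := by
    intro h
    have h1 : i ∈ ({i, t} : Finset V) ∩ M := by simp [h]
    rw [hm0] at h1
    simp at h1
  have htM : t ∉ M := by
    intro h
    have h1 : t ∈ ({i, t} : Finset V) ∩ M := by simp [h]
    rw [hm0] at h1
    simp at h1
  refine ⟨hne, ?_⟩
  intro S' hS'
  -- the image of S'
  set S : Finset (E × Bool) := S'.image (fun x => (x.1.1, x.2)) with hSdef
  have hcS : S.card = S'.card := by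
    rw [hSdef]
    apply Finset.card_image_of_injective
    rintro ⟨⟨e, he⟩, c⟩ ⟨⟨e', he'⟩, c'⟩ h
    simp only [Prod.mk.injEq] at h
    obtain ⟨h1, h2⟩ := h
    subst h1
    subst h2
    rfl
  set W := vset Γ.tl Γ.hd S with hW
  set V' := vset (Γ.collapse e0 t ⟨i, hne⟩).tl (Γ.collapse e0 t ⟨i, hne⟩).hd S' with hV'
  have hval : V'.image Subtype.val = W.image (kap i t) := vset_val e0 ⟨i, hne⟩ S'
  have hcV : V'.card = (W.image (kap i t)).card := by
    rw [← hval, Finset.card_image_of_injective _ Subtype.val_injective]
  have hM : (insert (⟨i, hne⟩ : {v : V // v ≠ t}) (M.image (coll t ⟨i, hne⟩))).image Subtype.val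
      = insert i M := by
    rw [Finset.image_insert, Finset.image_image]
    congr 1
    ext v
    simp only [Finset.mem_image, Function.comp]
    constructor
    · rintro ⟨u, hu, rfl⟩
      rw [coll_val]
      unfold kap
      have hut : u ≠ t := fun h => htM (h ▸ hu)
      rw [if_neg hut]
      exact hu
    · intro hv
      refine ⟨v, hv, ?_⟩
      rw [coll_val]
      unfold kap
      have hvt : v ≠ t := fun h => htM (h ▸ hv)
      rw [if_neg hvt]
  have hcm : (V' ∩ insert (⟨i, hne⟩ : {v : V // v ≠ t}) (M.image (coll t ⟨i, hne⟩))).card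
      = (W.image (kap i t) ∩ insert i M).card := by
    rw [← hval, ← hM, ← Finset.image_inter _ _ Subtype.val_injective,
      Finset.card_image_of_injective _ Subtype.val_injective]
  rw [hcm] at hS' ⊢
  rw [hcV]
  by_cases hit : i ∈ W ∨ t ∈ W
  · -- case (b)
    have hk : W.image (kap i t) = insert i (W.erase t) := by
      ext v
      simp only [Finset.mem_image, Finset.mem_insert, Finset.mem_erase, kap]
      constructor
      · rintro ⟨u, hu, rfl⟩
        by_cases h : u = t
        · left; rw [if_pos h]
        · right; rw [if_neg h]; exact ⟨h, hu⟩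
      · rintro (h | ⟨h1, h2⟩)
        · rw [h]
          rcases hit with h | h
          · exact ⟨i, h, by rw [if_neg hne]⟩
          · exact ⟨t, h, by rw [if_pos rfl]⟩
        · exact ⟨v, h2, by rw [if_neg h1]⟩
    set T : Finset (E × Bool) := S ∪ {(e0, true), (e0, false)} with hT
    have hdisj : Disjoint S ({(e0, true), (e0, false)} : Finset (E × Bool)) := by
      rw [Finset.disjoint_left]
      rintro ⟨e, c⟩ hx hy
      rw [hSdef, Finset.mem_image] at hx
      obtain ⟨⟨⟨e', he'⟩, c'⟩, -, h⟩ := hx
      simp only [Prod.mk.injEq] at h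
      obtain ⟨h1, h2⟩ := h
      simp only [Finset.mem_insert, Finset.mem_singleton, Prod.mk.injEq] at hy
      rcases hy with hy | hy
      · exact he' (h1.trans hy.1)
      · exact he' (h1.trans hy.1)
    have hcT : T.card = S'.card + 2 := by
      rw [hT, Finset.card_union_of_disjoint hdisj, hcS, hRc]
    have hvT : vset Γ.tl Γ.hd T = insert t (insert i (W.erase t)) := by
      have h1 : vset Γ.tl Γ.hd T = W ∪ {i, t} := by
        rw [hT, hW, ← hRv]
        unfold vset
        rw [Finset.image_union, Finset.image_union]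
        ext v
        simp only [Finset.mem_union]
        tauto
      rw [h1]
      ext v
      simp only [Finset.mem_union, Finset.mem_insert, Finset.mem_singleton, Finset.mem_erase]
      constructor
      · rintro (h | h | h)
        · by_cases h2 : v = t
          · exact Or.inl h2
          · exact Or.inr (Or.inr ⟨h2, h⟩)
        · exact Or.inr (Or.inl h)
        · exact Or.inl h
      · rintro (h | h | h)
        · exact Or.inr (Or.inr h)
        · exact Or.inr (Or.inl h)
        · exact Or.inl h.2
    have hcvT : (vset Γ.tl Γ.hd T).card = (insert i (W.erase t)).card + 1 := by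
      rw [hvT, Finset.card_insert_of_notMem]
      simp only [Finset.mem_insert, Finset.mem_erase]
      rintro (h | h)
      · exact hne h.symm
      · exact h.1 rfl
    have hmT : (insert i (W.erase t) ∩ insert i M).card = (vset Γ.tl Γ.hd T ∩ M).card + 1 := by
      have h1 : insert i (W.erase t) ∩ insert i M = insert i (vset Γ.tl Γ.hd T ∩ M) := by
        rw [hvT]
        ext v
        simp only [Finset.mem_inter, Finset.mem_insert, Finset.mem_erase]
        constructor
        · rintro ⟨h1, h2⟩
          by_cases hv : v = i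
          · exact Or.inl hv
          · right
            refine ⟨Or.inr h1, h2.resolve_left hv⟩
        · rintro (h | ⟨h1, h2⟩)
          · exact ⟨Or.inl h, Or.inl h⟩
          · refine ⟨?_, Or.inr h2⟩
            rcases h1 with h1 | h1
            · exact absurd (h1 ▸ h2) htM
            · exact h1
      rw [h1, Finset.card_insert_of_notMem]
      intro h
      exact hiM (Finset.mem_inter.1 h).2
    have key := hS T
    rw [hk] at hS' ⊢
    rw [hcT, hcvT] at key
    rw [hmT] at hS' ⊢
    have := key (by omega)
    omega
  · -- case (a)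
    have hi' : i ∉ W := fun h => hit (Or.inl h)
    have ht' : t ∉ W := fun h => hit (Or.inr h)
    have hk : W.image (kap i t) = W := by
      ext v
      simp only [Finset.mem_image, kap]
      constructor
      · rintro ⟨u, hu, rfl⟩
        have hut : u ≠ t := fun h => ht' (h ▸ hu)
        rw [if_neg hut]
        exact hu
      · intro hv
        have hvt : v ≠ t := fun h => ht' (h ▸ hv)
        exact ⟨v, hv, by rw [if_neg hvt]⟩
    have hm : W ∩ insert i M = W ∩ M := by
      ext v
      simp only [Finset.mem_inter, Finset.mem_insert]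
      constructor
      · rintro ⟨h1, h2⟩
        refine ⟨h1, h2.resolve_left (fun h => hi' (h ▸ h1))⟩
      · rintro ⟨h1, h2⟩
        exact ⟨h1, Or.inr h2⟩
    rw [hk, hm] at hS' ⊢
    have key := hS S
    rw [hcS] at key
    exact key hS'

end

end Pool.Agent.LOT
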