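import Pool.Agent.LOT.Defs

/-!
# LOT-Match: non-crossing matching of a word that is trivial in the free group

PLAN. Induction on the length of `l`. If `l = []` take `M = id`. Otherwise `FreeGroup.mk (l.map lt) = 1` gives
`FreeGroup.Red (l.map lt) []` (`FreeGroup.Red.exact`, `FreeGroup.Red.nil_iff`-type lemmas), so there is a
first step (`Relation.ReflTransGen.cases_head`): `l.map lt = L1 ++ (a, b) :: (a, !b) :: L2`, hence
`l = l1 ++ x :: y :: l2` with `lt y = inv (lt x)` (`List.map_eq_append_iff`, ...), and
`FreeGroup.mk ((l1 ++ l2).map lt) = 1`. Take `M'` for `l1 ++ l2` and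
`M z := if z = x then y else if z = y then x else M' z` -- replace `M'` first by
`fun z => if z ∈ l1 ++ l2 then M' z else z` so that it maps no other element to `x` or `y`.
`pre f l z` for `z ∈ l1` is unchanged, for `z ∈ l2` the factor `f x * f y = 1` is inserted, `pre f l x = (l1.map f).prod`,
`pre f l y = (l1.map f).prod * f x`.
-/

namespace Pool.Agent.LOT

/-- product of the values of `f` over the entries of `l` before `x` -/
def pre {T H : Type} [DecidableEq T] [Group H] (f : T → H) (l : List T) (x : T) : H :=
  ((l.takeWhile (fun z => decide (z ≠ x))).map f).prod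

private theorem pre_eq {T H : Type} [DecidableEq T] [Group H] (f : T → H) (z : T) (b : List T) :
    ∀ a : List T, z ∉ a → pre f (a ++ z :: b) z = (a.map f).prod := by
  intro a
  induction a with
  | nil =>
    intro _
    simp [pre]
  | cons c a ih =>
    intro h
    have hc : c ≠ z := fun h' => h (h' ▸ List.mem_cons_self)
    have ha : z ∉ a := fun h' => h (List.mem_cons_of_mem _ h')
    have h1 := ih ha
    unfold pre at h1 ⊢
    rw [List.cons_append, List.takeWhile_cons_of_pos (by simpa using hc), List.map_cons,
      List.prod_cons, List.map_cons, List.prod_cons, h1]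

private theorem pre_ins {T H : Type} [DecidableEq T] [Group H] (f : T → H) {l1 l2 : List T}
    {x y z : T} (hnd : (l1 ++ x :: y :: l2).Nodup) (hxy : f x * f y = 1) (hz : z ∈ l1 ++ l2) :
    pre f (l1 ++ x :: y :: l2) z = pre f (l1 ++ l2) z := by
  rcases List.mem_append.mp hz with h | h
  · obtain ⟨a, b, rfl⟩ := List.append_of_mem h
    have ha : z ∉ a := by
      intro ha
      rw [List.append_assoc] at hnd
      exact (List.nodup_append.mp hnd).2.2 z ha z (by simp) rfl
    rw [List.append_assoc, List.append_assoc, List.cons_append, List.cons_append,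
      pre_eq f z _ a ha, pre_eq f z _ a ha]
  · obtain ⟨a, b, rfl⟩ := List.append_of_mem h
    have e1 : l1 ++ x :: y :: (a ++ z :: b) = (l1 ++ x :: y :: a) ++ z :: b := by simp
    have e2 : l1 ++ (a ++ z :: b) = (l1 ++ a) ++ z :: b := by simp
    rw [e1] at hnd
    have h1 : z ∉ l1 ++ x :: y :: a := by
      intro ha
      exact (List.nodup_append.mp hnd).2.2 z ha z (by simp) rfl
    have h2 : z ∉ l1 ++ a := by
      intro ha
      apply h1
      rcases List.mem_append.mp ha with h' | h'
      · exact List.mem_append_left _ h'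
      · exact List.mem_append_right _ (List.mem_cons_of_mem _ (List.mem_cons_of_mem _ h'))
    rw [e1, e2, pre_eq f z _ _ h1, pre_eq f z _ _ h2, List.map_append, List.map_append,
      List.prod_append, List.prod_append, List.map_cons, List.map_cons, List.prod_cons,
      List.prod_cons, ← mul_assoc (f x), hxy, one_mul]

private theorem split_red {V : Type} {w : List (V × Bool)} (h : FreeGroup.mk w = 1) :
    w = [] ∨ ∃ (L1 L2 : List (V × Bool)) (a : V) (b : Bool),
      w = L1 ++ (a, b) :: (a, !b) :: L2 ∧ FreeGroup.mk (L1 ++ L2) = 1 := by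
  rw [FreeGroup.one_eq_mk, FreeGroup.Red.exact] at h
  obtain ⟨c, hc1, hc2⟩ := h
  have hc : c = [] := FreeGroup.Red.nil_iff.mp hc2
  rw [hc] at hc1
  rcases Relation.ReflTransGen.cases_head hc1 with h1 | ⟨c', h1, h2⟩
  · exact Or.inl h1
  · right
    cases h1 with
    | @not L1 L2 a b =>
      refine ⟨L1, L2, a, b, rfl, ?_⟩
      rw [FreeGroup.one_eq_mk, FreeGroup.Red.exact]
      exact ⟨[], h2, Relation.ReflTransGen.refl⟩

private theorem exists_matching_aux {V T : Type} [DecidableEq T] (lt : T → V × Bool) (n : ℕ) :
    ∀ l : List T, l.length ≤ n → l.Nodup → FreeGroup.mk (l.map lt) = 1 →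
    ∃ M : T → T, (∀ x, M (M x) = x) ∧ (∀ x, x ∉ l → M x = x) ∧
      (∀ x ∈ l, M x ∈ l ∧ lt (M x) = inv (lt x)) ∧
      ∀ (H : Type) [Group H] (f : T → H), (∀ x ∈ l, f (M x) = (f x)⁻¹) →
        ∀ x ∈ l, pre f l (M x) = pre f l x * f x := by
  induction n with
  | zero =>
    intro l hl _ _
    have : l = [] := List.length_eq_zero_iff.mp (by omega)
    subst this
    exact ⟨id, fun _ => rfl, fun _ _ => rfl, fun x hx => absurd hx (List.not_mem_nil),
      fun H _ f _ x hx => absurd hx (List.not_mem_nil)⟩
  | succ n ih =>
    intro l hl hnd h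
    rcases split_red h with h0 | ⟨L1, L2, a, b, hL, hL'⟩
    · have : l = [] := List.map_eq_nil_iff.mp h0
      subst this
      exact ⟨id, fun _ => rfl, fun _ _ => rfl, fun x hx => absurd hx (List.not_mem_nil),
        fun H _ f _ x hx => absurd hx (List.not_mem_nil)⟩
    · obtain ⟨l1, l', rfl, rfl, h1⟩ := List.map_eq_append_iff.mp hL
      obtain ⟨x, l'', rfl, hx, h2⟩ := List.map_eq_cons_iff.mp h1
      obtain ⟨y, l2, rfl, hy, rfl⟩ := List.map_eq_cons_iff.mp h2
      rw [← List.map_append] at hL'
      have hnd' : (l1 ++ l2).Nodup := by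
        refine hnd.sublist ?_
        exact List.Sublist.append_left ((List.sublist_cons_self y l2).trans
          (List.sublist_cons_self x (y :: l2))) l1
      have hlen : (l1 ++ l2).length ≤ n := by
        simp only [List.length_append, List.length_cons] at hl ⊢
        omega
      obtain ⟨M, hM1, hM2, hM3, hM4⟩ := ih (l1 ++ l2) hlen hnd' hL'
      have hxy : x ≠ y := by
        intro hxy
        have h3 := (List.nodup_append.mp hnd).2.1
        rw [List.nodup_cons] at h3
        exact h3.1 (hxy ▸ List.mem_cons_self)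
      have hxn : x ∉ l1 ++ l2 := by
        intro hx'
        rcases List.mem_append.mp hx' with h' | h'
        · exact (List.nodup_append.mp hnd).2.2 x h' x List.mem_cons_self rfl
        · have h3 := (List.nodup_append.mp hnd).2.1
          rw [List.nodup_cons] at h3
          exact h3.1 (List.mem_cons_of_mem _ h')
      have hyn : y ∉ l1 ++ l2 := by
        intro hy'
        rcases List.mem_append.mp hy' with h' | h'
        · exact (List.nodup_append.mp hnd).2.2 y h' y
            (List.mem_cons_of_mem _ List.mem_cons_self) rfl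
        · have h3 := (List.nodup_append.mp hnd).2.1
          rw [List.nodup_cons, List.nodup_cons] at h3
          exact h3.2.1 h'
      have hMx := hM2 x hxn
      have hMy := hM2 y hyn
      have hmem : ∀ z, z ∈ l1 ++ x :: y :: l2 ↔ z = x ∨ z = y ∨ z ∈ l1 ++ l2 := by
        intro z
        simp only [List.mem_append, List.mem_cons]
        tauto
      set N : T → T := fun z => if z = x then y else if z = y then x else M z with hN
      have hNx : N x = y := by simp [hN]
      have hNy : N y = x := by simp [hN, hxy.symm]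
      have hNz : ∀ z, z ≠ x → z ≠ y → N z = M z := fun z h3 h4 => by simp [hN, h3, h4]
      have hMnx : ∀ z, z ≠ x → M z ≠ x := fun z h3 h4 => h3 (by rw [← hM1 z, h4, hMx])
      have hMny : ∀ z, z ≠ y → M z ≠ y := fun z h3 h4 => h3 (by rw [← hM1 z, h4, hMy])
      refine ⟨N, ?_, ?_, ?_, ?_⟩
      · intro z
        by_cases h3 : z = x
        · rw [h3, hNx, hNy]
        · by_cases h4 : z = y
          · rw [h4, hNy, hNx]
          · rw [hNz z h3 h4, hNz _ (hMnx z h3) (hMny z h4), hM1]
      · intro z hz
        rw [hmem] at hz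
        push Not at hz
        rw [hNz z hz.1 hz.2.1, hM2 z hz.2.2]
      · intro z hz
        rcases (hmem z).mp hz with h3 | h3 | h3
        · rw [h3, hNx]
          exact ⟨(hmem y).mpr (Or.inr (Or.inl rfl)), by rw [hx, hy]; rfl⟩
        · rw [h3, hNy]
          refine ⟨(hmem x).mpr (Or.inl rfl), ?_⟩
          rw [hx, hy]
          simp [inv]
        · have h4 : z ≠ x := fun h' => hxn (h' ▸ h3)
          have h5 : z ≠ y := fun h' => hyn (h' ▸ h3)
          rw [hNz z h4 h5]
          exact ⟨(hmem _).mpr (Or.inr (Or.inr (hM3 z h3).1)), (hM3 z h3).2⟩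
      · intro H _ f hf z hz
        have hfy : f y = (f x)⁻¹ := by
          have h3 := hf x ((hmem x).mpr (Or.inl rfl))
          rwa [hNx] at h3
        have hfxy : f x * f y = 1 := by rw [hfy, mul_inv_cancel]
        have hpx : pre f (l1 ++ x :: y :: l2) x = (l1.map f).prod :=
          pre_eq f x _ l1 (fun h' => hxn (List.mem_append_left _ h'))
        have hpy : pre f (l1 ++ x :: y :: l2) y = (l1.map f).prod * f x := by
          have e1 : l1 ++ x :: y :: l2 = (l1 ++ [x]) ++ y :: l2 := by simp
          have h3 : y ∉ l1 ++ [x] := by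
            intro h'
            rcases List.mem_append.mp h' with h'' | h''
            · exact hyn (List.mem_append_left _ h'')
            · exact hxy (List.mem_singleton.mp h'').symm
          rw [e1, pre_eq f y _ _ h3, List.map_append, List.prod_append, List.map_singleton,
            List.prod_singleton]
        have hMf : ∀ w ∈ l1 ++ l2, f (M w) = (f w)⁻¹ := by
          intro w hw
          have h4 : w ≠ x := fun h' => hxn (h' ▸ hw)
          have h5 : w ≠ y := fun h' => hyn (h' ▸ hw)
          have h6 := hf w ((hmem w).mpr (Or.inr (Or.inr hw)))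
          rwa [hNz w h4 h5] at h6
        rcases (hmem z).mp hz with h3 | h3 | h3
        · rw [h3, hNx, hpx, hpy]
        · rw [h3, hNy, hpx, hpy, mul_assoc, hfxy, mul_one]
        · have h4 : z ≠ x := fun h' => hxn (h' ▸ h3)
          have h5 : z ≠ y := fun h' => hyn (h' ▸ h3)
          rw [hNz z h4 h5, pre_ins f hnd hfxy (hM3 z h3).1, pre_ins f hnd hfxy h3]
          exact hM4 H f hMf z h3

theorem exists_matching {V T : Type} [DecidableEq T] (lt : T → V × Bool) (l : List T)
    (hnd : l.Nodup) (h : FreeGroup.mk (l.map lt) = 1) :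
    ∃ M : T → T, (∀ x, M (M x) = x) ∧ (∀ x ∈ l, M x ∈ l ∧ lt (M x) = inv (lt x)) ∧
      ∀ (H : Type) [Group H] (f : T → H), (∀ x ∈ l, f (M x) = (f x)⁻¹) →
        ∀ x ∈ l, pre f l (M x) = pre f l x * f x := by
  obtain ⟨M, h1, -, h3, h4⟩ := exists_matching_aux lt l.length l le_rfl hnd h
  exact ⟨M, h1, h3, h4⟩

end Pool.Agent.LOT
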