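import Pool.Agent.LOT.Defs

/-!
# LOT-OrbitA: invariant functions on the corners of a diagram

The `β`-invariant functions `X → ZMod 2`, `X = ι × Fin 4`, map onto the cocycles (`Diag.coh`), which
form a space of dimension at least `card ι`; the kernel contains the constants.
-/

namespace Pool.Agent.LOT

open Finset

section
variable {V E : Type} {G : Type} [Group G]

theorem beta_bij {Γ : LOG V E} {gen : V → G} {ι : Type} [Fintype ι] (D : Diag Γ gen ι) :
    Function.Bijective D.beta := by
  rw [← Finite.injective_iff_bijective]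
  have hμ : Function.Injective D.μ := by
    intro x y h
    rw [← D.invol x, ← D.invol y, h]
  rintro ⟨j, κ⟩ ⟨j', κ'⟩ h
  simp only [Diag.beta, Prod.mk.injEq] at h
  obtain ⟨h1, h2⟩ := h
  have h3 : D.μ (j, if D.s j then κ else κ - 1) = D.μ (j', if D.s j' then κ' else κ' - 1) := by
    generalize D.μ (j, if D.s j then κ else κ - 1) = u at h1 h2 ⊢
    generalize D.μ (j', if D.s j' then κ' else κ' - 1) = u' at h1 h2 ⊢
    refine Prod.ext h1 ?_
    rw [h1] at h2
    unfold ec at h2
    by_cases hs : D.s u'.1 = true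
    · rw [if_pos hs, if_pos hs] at h2
      exact add_right_cancel h2
    · rw [if_neg hs, if_neg hs] at h2
      exact h2
  have h4 := hμ h3
  rw [Prod.mk.injEq] at h4
  obtain ⟨h5, h6⟩ := h4
  subst h5
  refine Prod.ext rfl ?_
  split_ifs at h6
  · exact h6
  · exact sub_left_injective h6

private theorem two_eq (a : ZMod 2) : a + a = 0 := CharTwo.add_self_eq_zero a

/-- `β`-invariant functions form a space of dimension at least `card ι + 1` -/
theorem card_inv {Γ : LOG V E} {gen : V → G} {ι : Type} [Fintype ι] [Nonempty ι]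
    (D : Diag Γ gen ι) :
    ∃ S : Submodule (ZMod 2) (ι × Fin 4 → ZMod 2), (∀ q ∈ S, ∀ c, q (D.beta c) = q c) ∧
      Fintype.card ι + 1 ≤ Module.finrank (ZMod 2) S := by
  classical
  -- the invariant functions
  let S : Submodule (ZMod 2) (ι × Fin 4 → ZMod 2) :=
    { carrier := {q | ∀ c, q (D.beta c) = q c}
      add_mem' := fun {p q} hp hq c => by
        simp only [Pi.add_apply]
        rw [hp c, hq c]
      zero_mem' := fun c => rfl
      smul_mem' := fun a q hq c => by
        simp only [Pi.smul_apply]
        rw [hq c] }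
  refine ⟨S, fun q hq => hq, ?_⟩
  -- the symmetric functions
  let σ : (ι × Fin 4 → ZMod 2) →ₗ[ZMod 2] (ι × Fin 4 → ZMod 2) :=
    { toFun := fun φ x => φ x + φ (D.μ x)
      map_add' := fun p q => by
        funext x
        simp only [Pi.add_apply]
        ring
      map_smul' := fun a p => by
        funext x
        simp only [Pi.smul_apply, smul_eq_mul, RingHom.id_apply]
        ring }
  have hσ : ∀ φ x, σ φ x = φ x + φ (D.μ x) := fun _ _ => rfl
  have hker : ∀ φ, φ ∈ LinearMap.ker σ ↔ ∀ x, φ (D.μ x) = φ x := by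
    intro φ
    rw [LinearMap.mem_ker]
    constructor
    · intro h x
      have h1 : φ x + φ (D.μ x) = 0 := congrFun h x
      calc φ (D.μ x) = φ x + (φ x + φ (D.μ x)) := by rw [← add_assoc, two_eq, zero_add]
        _ = φ x := by rw [h1, add_zero]
    · intro h
      funext x
      rw [hσ, h x, two_eq]
      rfl
  have hrange : LinearMap.range σ ≤ LinearMap.ker σ := by
    rintro _ ⟨φ, rfl⟩
    rw [hker]
    intro x
    rw [hσ, hσ, D.invol, add_comm]
  have hcard : Module.finrank (ZMod 2) (ι × Fin 4 → ZMod 2) = Fintype.card ι * 4 := by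
    rw [Module.finrank_fintype_fun_eq_card, Fintype.card_prod, Fintype.card_fin]
  have h1 := LinearMap.finrank_range_add_finrank_ker σ
  have h2 := Submodule.finrank_mono hrange
  rw [hcard] at h1
  -- the cocycles
  let Tm : (ι × Fin 4 → ZMod 2) →ₗ[ZMod 2] (ι → ZMod 2) :=
    { toFun := fun φ j => ∑ k, φ (j, k)
      map_add' := fun p q => by
        funext j
        simp only [Pi.add_apply, Finset.sum_add_distrib]
      map_smul' := fun a p => by
        funext j
        simp only [Pi.smul_apply, smul_eq_mul, RingHom.id_apply, Finset.mul_sum] }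
  let Z := LinearMap.ker (Tm.domRestrict (LinearMap.ker σ))
  have h3 := LinearMap.finrank_range_add_finrank_ker (Tm.domRestrict (LinearMap.ker σ))
  have h4 : Module.finrank (ZMod 2) (LinearMap.range (Tm.domRestrict (LinearMap.ker σ))) ≤
      Fintype.card ι := by
    have h := Submodule.finrank_le (LinearMap.range (Tm.domRestrict (LinearMap.ker σ)))
    rwa [Module.finrank_fintype_fun_eq_card] at h
  let Z' : Submodule (ZMod 2) (ι × Fin 4 → ZMod 2) := Z.map (LinearMap.ker σ).subtype
  have h5 : Module.finrank (ZMod 2) Z' =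
      Module.finrank (ZMod 2) (LinearMap.ker (Tm.domRestrict (LinearMap.ker σ))) :=
    Submodule.finrank_map_subtype_eq _ _
  -- the coboundary
  let δ : (ι × Fin 4 → ZMod 2) →ₗ[ZMod 2] (ι × Fin 4 → ZMod 2) :=
    { toFun := fun q x => q (x.1, x.2) + q (x.1, x.2 + 1)
      map_add' := fun p q => by
        funext x
        simp only [Pi.add_apply]
        ring
      map_smul' := fun a p => by
        funext x
        simp only [Pi.smul_apply, smul_eq_mul, RingHom.id_apply]
        ring }
  have hZ : Z' ≤ LinearMap.range (δ.domRestrict S) := by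
    intro φ hφ
    obtain ⟨ψ, hψ, rfl⟩ := Submodule.mem_map.1 hφ
    have hsym : ∀ x, (ψ : ι × Fin 4 → ZMod 2) (D.μ x) = (ψ : ι × Fin 4 → ZMod 2) x :=
      (hker _).1 ψ.2
    have hsum : ∀ j, ∑ k, (ψ : ι × Fin 4 → ZMod 2) (j, k) = 0 := by
      intro j
      have h := LinearMap.mem_ker.1 hψ
      exact congrFun h j
    obtain ⟨q, hq1, hq2⟩ := D.coh ψ hsym hsum
    have hqS : q ∈ S := by
      intro c
      have h6 := hq2 (D.μ (c.1, if D.s c.1 then c.2 else c.2 - 1))
      rw [D.invol] at h6
      have h7 : (c.1, sc (D.s c.1) (if D.s c.1 then c.2 else c.2 - 1)) = c := by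
        refine Prod.ext rfl ?_
        unfold sc
        by_cases hs : D.s c.1
        · simp [hs]
        · simp [hs]
      change q (D.beta c) = q c
      calc q (D.beta c) = q (c.1, sc (D.s c.1) (if D.s c.1 then c.2 else c.2 - 1)) := h6.symm
        _ = q c := by rw [h7]
    refine ⟨⟨q, hqS⟩, ?_⟩
    funext x
    exact hq1 x.1 x.2
  have h6 := Submodule.finrank_mono hZ
  have h7 := LinearMap.finrank_range_add_finrank_ker (δ.domRestrict S)
  -- the constant function
  have h8 : 0 < Module.finrank (ZMod 2) (LinearMap.ker (δ.domRestrict S)) := by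
    rw [Module.finrank_pos_iff]
    have hone : (fun _ => 1 : ι × Fin 4 → ZMod 2) ∈ S := fun c => rfl
    have hmem : (⟨fun _ => 1, hone⟩ : S) ∈ LinearMap.ker (δ.domRestrict S) := by
      rw [LinearMap.mem_ker]
      funext x
      exact two_eq 1
    refine ⟨⟨⟨⟨fun _ => 1, hone⟩, hmem⟩, 0, ?_⟩⟩
    intro h
    have h9 := congrArg (fun z : LinearMap.ker (δ.domRestrict S) =>
      ((z : S) : ι × Fin 4 → ZMod 2) (Classical.arbitrary ι, 0)) h
    exact one_ne_zero h9
  omega

end

end Pool.Agent.LOT
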