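import Pool.Agent.LOT.Defs

/-!
# LOT-Ring: short cycles in a sparse multigraph

PLAN. `vset` is monotone and `vset (S ∪ T) = vset S ∪ vset T`, `vset (S ∩ T) ⊆ vset S ∩ vset T`.
`ring_subset`: submodularity. `|C ∪ D| + |C ∩ D| = |C| + |D|`, `|vset (C ∪ D)| + |vset C ∩ vset D| = |vset C| + |vset D|`; if
`D ⊄ C` then `C ∩ D` is a proper nonempty subset of `D`, so `|vset (C ∩ D)| ≥ |C ∩ D| + 1`, hence
`|vset (C ∪ D)| ≤ |C ∪ D| - 1`, against sparsity (`|C ∪ D| ≤ 12`).
`ring_two`, `ring_three`: `vset {h, h'}` etc. are computed by `simp [vset]`; the proper nonempty subsets of a 2- or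
3-element set have 1 or 2 elements (`Finset.card_eq_one`, `Finset.card_eq_two`); one arc spans two vertices; two arcs with
different end point sets span at least three vertices.
`ring_anti`, `ring_cyc`, `ring_tra`: special cases of `ring_two`, `ring_three`.
-/

namespace Pool.Agent.LOT

set_option linter.unusedSectionVars false

open Finset

/-- no loops, no folds, sparse -/
structure Hyp {V A : Type} [DecidableEq V] (tl hd : A → V) (sg : A → Bool) : Prop where
  loop : ∀ h, tl h ≠ hd h
  fold : ∀ h h', tl h = tl h' → hd h = hd h' → sg h = sg h' → h = h'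
  sparse : Sparse tl hd 12

/-- a cycle with at most three arcs: as many vertices as arcs, and every proper nonempty subset has more vertices
than arcs -/
structure Ring {V A : Type} [DecidableEq V] (tl hd : A → V) (D : Finset A) : Prop where
  le : D.card ≤ 3
  tight : (vset tl hd D).card = D.card
  cyc : ∀ S ⊆ D, S.Nonempty → S ≠ D → S.card < (vset tl hd S).card

section
variable {V A : Type} [DecidableEq V] [DecidableEq A] {tl hd : A → V} {sg : A → Bool}

theorem vset_union (S T : Finset A) : vset tl hd (S ∪ T) = vset tl hd S ∪ vset tl hd T := by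
  unfold vset
  rw [image_union, image_union]
  exact union_union_union_comm _ _ _ _

theorem vset_inter (S T : Finset A) : vset tl hd (S ∩ T) ⊆ vset tl hd S ∩ vset tl hd T := by
  intro v hv
  unfold vset at hv ⊢
  simp only [mem_union, mem_inter, mem_image] at hv ⊢
  rcases hv with ⟨a, ⟨h1, h2⟩, h3⟩ | ⟨a, ⟨h1, h2⟩, h3⟩
  · exact ⟨Or.inl ⟨a, h1, h3⟩, Or.inl ⟨a, h2, h3⟩⟩
  · exact ⟨Or.inr ⟨a, h1, h3⟩, Or.inr ⟨a, h2, h3⟩⟩

/-- submodularity -/
theorem slack_union (S T : Finset A) :
    (vset tl hd (S ∪ T)).card + (vset tl hd (S ∩ T)).card + S.card + T.card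
      ≤ (vset tl hd S).card + (vset tl hd T).card + (S ∪ T).card + (S ∩ T).card := by
  have h1 := card_union_add_card_inter S T
  have h2 := card_union_add_card_inter (vset tl hd S) (vset tl hd T)
  have h3 : (vset tl hd (S ∩ T)).card ≤ (vset tl hd S ∩ vset tl hd T).card :=
    card_le_card (vset_inter S T)
  rw [← vset_union] at h2
  omega

theorem ring_subset (H : Hyp tl hd sg) {C D : Finset A} (hC : C.card ≤ 9)
    (hCt : (vset tl hd C).card ≤ C.card) (hD : Ring tl hd D) (hCD : (C ∩ D).Nonempty) : D ⊆ C := by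
  by_contra hsub
  have hne : C ∩ D ≠ D := fun h => hsub (by rw [← h]; exact inter_subset_left)
  have h1 := hD.cyc (C ∩ D) inter_subset_right hCD hne
  have h2 := slack_union (tl := tl) (hd := hd) C D
  have h3 := hD.tight
  have h4 := hD.le
  have h5 := card_union_le C D
  have h6 := H.sparse (C ∪ D) (by omega)
  omega

/-- two rings with a common arc are equal -/
theorem ring_eq (H : Hyp tl hd sg) {C D : Finset A} (hC : Ring tl hd C) (hD : Ring tl hd D)
    (h : A) (h1 : h ∈ C) (h2 : h ∈ D) : C = D := by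
  refine Subset.antisymm ?_ ?_
  · exact ring_subset H (by have := hD.le; omega) hD.tight.le hC ⟨h, mem_inter.2 ⟨h2, h1⟩⟩
  · exact ring_subset H (by have := hC.le; omega) hC.tight.le hD ⟨h, mem_inter.2 ⟨h1, h2⟩⟩

private theorem card_vset_one (H : Hyp tl hd sg) (a : A) : (vset tl hd {a}).card = 2 := by
  unfold vset
  rw [image_singleton, image_singleton]
  exact card_pair (H.loop a)

private theorem mem_vset_tl {S : Finset A} {a : A} (ha : a ∈ S) : tl a ∈ vset tl hd S :=
  mem_union_left _ (mem_image_of_mem tl ha)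

private theorem mem_vset_hd {S : Finset A} {a : A} (ha : a ∈ S) : hd a ∈ vset tl hd S :=
  mem_union_right _ (mem_image_of_mem hd ha)

private theorem three_le {S : Finset V} {x y z : V} (hxy : x ≠ y) (hxz : x ≠ z) (hyz : y ≠ z)
    (hx : x ∈ S) (hy : y ∈ S) (hz : z ∈ S) : 3 ≤ S.card := by
  have h1 : ({x, y, z} : Finset V).card = 3 := by
    rw [card_insert_of_notMem, card_pair hyz]
    simp only [mem_insert, mem_singleton, not_or]
    exact ⟨hxy, hxz⟩
  rw [← h1]
  refine card_le_card ?_
  intro w hw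
  simp only [mem_insert, mem_singleton] at hw
  rcases hw with rfl | rfl | rfl
  · exact hx
  · exact hy
  · exact hz

private theorem ring_of_three (H : Hyp tl hd sg) {p q r : A} (hpq : p ≠ q) (hqr : q ≠ r)
    (hpr : p ≠ r) (hcard : (vset tl hd {p, q, r}).card = 3)
    (h1 : 3 ≤ (vset tl hd {p, q}).card) (h2 : 3 ≤ (vset tl hd {q, r}).card)
    (h3 : 3 ≤ (vset tl hd {p, r}).card) : Ring tl hd {p, q, r} := by
  have hD : ({p, q, r} : Finset A).card = 3 := by
    rw [card_insert_of_notMem, card_pair hqr]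
    simp only [mem_insert, mem_singleton, not_or]
    exact ⟨hpq, hpr⟩
  refine ⟨hD.le, by rw [hcard, hD], ?_⟩
  intro S hS hne hSD
  have hlt : S.card < 3 := by
    rw [← hD]
    exact card_lt_card ((ssubset_iff_subset_ne).2 ⟨hS, hSD⟩)
  have hpos := card_pos.2 hne
  have hc : S.card = 1 ∨ S.card = 2 := by omega
  rcases hc with hc | hc
  · obtain ⟨a, rfl⟩ := card_eq_one.1 hc
    rw [card_vset_one H, card_singleton]
    norm_num
  · obtain ⟨a, b, hab, rfl⟩ := card_eq_two.1 hc
    rw [hc]
    have ha : a ∈ ({p, q, r} : Finset A) := hS (by simp)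
    have hb : b ∈ ({p, q, r} : Finset A) := hS (by simp)
    simp only [mem_insert, mem_singleton] at ha hb
    rcases ha with rfl | rfl | rfl <;> rcases hb with rfl | rfl | rfl
    · exact absurd rfl hab
    · exact h1
    · exact h3
    · rw [pair_comm]; exact h1
    · exact absurd rfl hab
    · exact h2
    · rw [pair_comm]; exact h3
    · rw [pair_comm]; exact h2
    · exact absurd rfl hab

theorem anti_ne (H : Hyp tl hd sg) {h h' : A} (ha : Anti tl hd h h') : h ≠ h' := by
  rintro rfl
  exact H.loop h ha.1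

theorem ring_anti (H : Hyp tl hd sg) {h h' : A} (ha : Anti tl hd h h') : Ring tl hd {h, h'} := by
  have hne := anti_ne H ha
  have hcard : ({h, h'} : Finset A).card = 2 := card_pair hne
  have hv : vset tl hd {h, h'} = {tl h, hd h} := by
    unfold vset
    rw [image_insert, image_singleton, image_insert, image_singleton, ha.1, ha.2]
    ext v
    simp only [mem_union, mem_insert, mem_singleton]
    tauto
  refine ⟨by rw [hcard]; norm_num, by rw [hv, hcard]; exact card_pair (H.loop h), ?_⟩
  intro S hS hSne hSD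
  have hlt : S.card < 2 := by
    rw [← hcard]
    exact card_lt_card ((ssubset_iff_subset_ne).2 ⟨hS, hSD⟩)
  have hpos := card_pos.2 hSne
  have hc : S.card = 1 := by omega
  obtain ⟨a, rfl⟩ := card_eq_one.1 hc
  rw [card_vset_one H, card_singleton]
  norm_num

theorem cyc_ne (H : Hyp tl hd sg) {h0 h h1 : A} (hc : Cyc tl hd h0 h h1) :
    h0 ≠ h ∧ h ≠ h1 ∧ h0 ≠ h1 := by
  obtain ⟨e1, e2, e3⟩ := hc
  refine ⟨?_, ?_, ?_⟩
  · rintro rfl
    exact H.loop h0 e1.symm
  · rintro rfl
    exact H.loop h e2.symm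
  · rintro rfl
    exact H.loop h0 e3.symm

theorem ring_cyc (H : Hyp tl hd sg) {h0 h h1 : A} (hc : Cyc tl hd h0 h h1) :
    Ring tl hd {h0, h, h1} := by
  obtain ⟨n1, n2, n3⟩ := cyc_ne H hc
  obtain ⟨e1, e2, e3⟩ := hc
  have a1 : tl h0 ≠ tl h := by rw [← e1]; exact H.loop h0
  have a2 : tl h ≠ tl h1 := by rw [← e2]; exact H.loop h
  have a3 : tl h0 ≠ tl h1 := by rw [← e3]; exact (H.loop h1).symm
  have k1 : 3 ≤ (vset tl hd {h0, h}).card := by
    refine three_le a1 a3 a2 (mem_vset_tl (by simp)) (mem_vset_tl (by simp)) ?_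
    rw [← e2]
    exact mem_vset_hd (by simp)
  have k2 : 3 ≤ (vset tl hd {h, h1}).card := by
    refine three_le a1 a3 a2 ?_ (mem_vset_tl (by simp)) (mem_vset_tl (by simp))
    rw [← e3]
    exact mem_vset_hd (by simp)
  have k3 : 3 ≤ (vset tl hd {h0, h1}).card := by
    refine three_le a1 a3 a2 (mem_vset_tl (by simp)) ?_ (mem_vset_tl (by simp))
    rw [← e1]
    exact mem_vset_hd (by simp)
  refine ring_of_three H n1 n2 n3 (le_antisymm ?_ ?_) k1 k2 k3
  · have hsub : vset tl hd {h0, h, h1} ⊆ {tl h0, tl h, tl h1} := by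
      intro v hv
      unfold vset at hv
      simp only [image_insert, image_singleton, mem_union, mem_insert, mem_singleton, e1, e2,
        e3] at hv ⊢
      tauto
    exact (card_le_card hsub).trans card_le_three
  · refine k1.trans (card_le_card ?_)
    unfold vset
    refine union_subset_union (image_subset_image ?_) (image_subset_image ?_) <;>
    · intro w hw
      simp only [mem_insert, mem_singleton] at hw ⊢
      tauto

theorem tra_ne (H : Hyp tl hd sg) {h1 h h3 : A} (hc : Tra tl hd sg h1 h h3) :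
    h1 ≠ h ∧ h ≠ h3 ∧ h1 ≠ h3 := by
  obtain ⟨e1, e2, e3, _⟩ := hc
  refine ⟨?_, ?_, ?_⟩
  · rintro rfl
    exact H.loop h1 e1.symm
  · rintro rfl
    exact H.loop h1 (e2.trans e1.symm)
  · rintro rfl
    exact H.loop h (e1.symm.trans e3)

theorem ring_tra (H : Hyp tl hd sg) {h1 h h3 : A} (hc : Tra tl hd sg h1 h h3) :
    Ring tl hd {h1, h, h3} := by
  obtain ⟨n1, n2, n3⟩ := tra_ne H hc
  obtain ⟨e1, e2, e3, _⟩ := hc
  have a1 : tl h1 ≠ hd h1 := H.loop h1
  have a2 : hd h1 ≠ hd h := by rw [e1]; exact H.loop h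
  have a3 : tl h1 ≠ hd h := by rw [e2, ← e3]; exact H.loop h3
  have k1 : 3 ≤ (vset tl hd {h1, h}).card :=
    three_le a1 a3 a2 (mem_vset_tl (by simp)) (mem_vset_hd (by simp)) (mem_vset_hd (by simp))
  have k2 : 3 ≤ (vset tl hd {h, h3}).card := by
    refine three_le a1 a3 a2 ?_ ?_ (mem_vset_hd (by simp))
    · rw [e2]
      exact mem_vset_tl (by simp)
    · rw [e1]
      exact mem_vset_tl (by simp)
  have k3 : 3 ≤ (vset tl hd {h1, h3}).card := by
    refine three_le a1 a3 a2 (mem_vset_tl (by simp)) (mem_vset_hd (by simp)) ?_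
    rw [← e3]
    exact mem_vset_hd (by simp)
  refine ring_of_three H n1 n2 n3 (le_antisymm ?_ ?_) k1 k2 k3
  · have hsub : vset tl hd {h1, h, h3} ⊆ {tl h1, hd h1, hd h} := by
      intro v hv
      unfold vset at hv
      simp only [image_insert, image_singleton, mem_union, mem_insert, mem_singleton, ← e1, ← e2,
        e3] at hv ⊢
      tauto
    exact (card_le_card hsub).trans card_le_three
  · refine k1.trans (card_le_card ?_)
    unfold vset
    refine union_subset_union (image_subset_image ?_) (image_subset_image ?_) <;>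
    · intro w hw
      simp only [mem_insert, mem_singleton] at hw ⊢
      tauto

end

end Pool.Agent.LOT
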