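import Pool.Agent.LOT.Defs

/-!
# LOT: labelled oriented trees on `Fin N` (unrooted), definitions
-/

namespace Pool.Agent.LOT

/-- `L a b = some c` : there is an edge from `a` to `b` with label `c`. The underlying graph is a tree and every
edge has one direction only. -/
def IsLOT {N : ℕ} (L : Fin N → Fin N → Option (Fin N)) : Prop :=
  (∀ a b, (L a b).isSome = true → L b a = none) ∧
    (SimpleGraph.fromRel (fun a b => (L a b).isSome = true)).IsTree

/-- the labelled oriented graph of `L` -/
def toLOG {N : ℕ} (L : Fin N → Fin N → Option (Fin N)) :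
    LOG (Fin N) {p : Fin N × Fin N // (L p.1 p.2).isSome = true} where
  i := fun p => p.1.1
  t := fun p => p.1.2
  l := fun p => (L p.1.1 p.1.2).get p.2

/-- the edge between `v` and its parent, if `v` is not the root and if the parent is `w` and the orientation
bit is `c` -/
def encHalf {n : ℕ} (f : Fin n → Fin (n + 1)) (o : Fin n → Bool) (lam : Fin n → Fin (n + 1))
    (c : Bool) (v w : Fin (n + 1)) : Option (Fin (n + 1)) :=
  Fin.cases (motive := fun _ => Option (Fin (n + 1))) none
    (fun x => if f x = w ∧ o x = c then some (lam x) else none) v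

/-- the labelled oriented tree with parent function `f`, orientations `o`, labels `lam` as a function `L` -/
def enc {n : ℕ} (f : Fin n → Fin (n + 1)) (o : Fin n → Bool) (lam : Fin n → Fin (n + 1))
    (a b : Fin (n + 1)) : Option (Fin (n + 1)) :=
  (encHalf f o lam true a b).or (encHalf f o lam false b a)

theorem encHalf_some {n : ℕ} (f : Fin n → Fin (n + 1)) (o : Fin n → Bool)
    (lam : Fin n → Fin (n + 1)) (c : Bool) (v w z : Fin (n + 1)) :
    encHalf f o lam c v w = some z ↔ ∃ x, v = x.succ ∧ f x = w ∧ o x = c ∧ z = lam x := by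
  unfold encHalf
  refine Fin.cases ?_ (fun x => ?_) v
  · simp only [Fin.cases_zero]
    constructor
    · intro h
      exact absurd h (by simp)
    · rintro ⟨x, hx, _⟩
      exact absurd hx.symm (Fin.succ_ne_zero x)
  · simp only [Fin.cases_succ]
    constructor
    · intro h
      split_ifs at h with h1
      exact ⟨x, rfl, h1.1, h1.2, (Option.some.inj h).symm⟩
    · rintro ⟨y, hy, h1, h2, h3⟩
      have hxy : x = y := Fin.succ_injective _ hy
      subst hxy
      rw [if_pos ⟨h1, h2⟩, h3]

/-- a tree function has no fixed point -/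
theorem tree_ne {n : ℕ} {f : Fin n → Fin (n + 1)} (hf : IsTreeFn f) (x : Fin n) : f x ≠ x.succ := by
  intro h
  obtain ⟨k, hk⟩ := hf x.succ
  have h1 : ∀ k, (pstep f)^[k] x.succ = x.succ := by
    intro k
    induction k with
    | zero => rfl
    | succ k ih =>
      rw [Function.iterate_succ_apply', ih]
      simp [pstep, h]
  rw [h1] at hk
  exact Fin.succ_ne_zero x hk

/-- a tree function has no cycle of length two -/
theorem tree_ne2 {n : ℕ} {f : Fin n → Fin (n + 1)} (hf : IsTreeFn f) (x y : Fin n)
    (h1 : f x = y.succ) (h2 : f y = x.succ) : False := by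
  obtain ⟨k, hk⟩ := hf x.succ
  have h3 : ∀ k, (pstep f)^[k] x.succ = x.succ ∨ (pstep f)^[k] x.succ = y.succ := by
    intro k
    induction k with
    | zero => exact Or.inl rfl
    | succ k ih =>
      rw [Function.iterate_succ_apply']
      rcases ih with ih | ih
      · rw [ih]
        right
        simp [pstep, h1]
      · rw [ih]
        left
        simp [pstep, h2]
  rcases h3 k with h | h
  · rw [h] at hk
    exact Fin.succ_ne_zero x hk
  · rw [h] at hk
    exact Fin.succ_ne_zero y hk

/-- description of the edges -/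
theorem enc_some {n : ℕ} (f : Fin n → Fin (n + 1)) (o : Fin n → Bool)
    (lam : Fin n → Fin (n + 1)) (hf : IsTreeFn f) (a b c : Fin (n + 1)) :
    enc f o lam a b = some c ↔
      ∃ x, c = lam x ∧ ((o x = true ∧ a = x.succ ∧ b = f x) ∨ (o x = false ∧ a = f x ∧ b = x.succ)) := by
  unfold enc
  constructor
  · intro h
    rcases h1 : encHalf f o lam true a b with _ | z
    · rw [h1, Option.none_or] at h
      obtain ⟨x, hb, hfx, ho, hc⟩ := (encHalf_some f o lam false b a c).1 h
      exact ⟨x, hc, Or.inr ⟨ho, hfx.symm, hb⟩⟩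
    · rw [h1, Option.some_or] at h
      obtain ⟨x, hb, hfx, ho, hc⟩ := (encHalf_some f o lam true a b c).1 (by rw [h1, h])
      exact ⟨x, hc, Or.inl ⟨ho, hb, hfx.symm⟩⟩
  · rintro ⟨x, hc, ⟨ho, ha, hb⟩ | ⟨ho, ha, hb⟩⟩
    · rw [(encHalf_some f o lam true a b c).2 ⟨x, ha, hb.symm, ho, hc⟩, Option.some_or]
    · rcases h1 : encHalf f o lam true a b with _ | z
      · rw [Option.none_or]
        exact (encHalf_some f o lam false b a c).2 ⟨x, hb, ha.symm, ho, hc⟩
      · exfalso
        obtain ⟨y, hy, hfy, _, _⟩ := (encHalf_some f o lam true a b z).1 h1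
        exact tree_ne2 hf x y (by rw [← ha, hy]) (by rw [hfy, hb])

end Pool.Agent.LOT
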