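import Pool.Agent.LOT.Wt

/-!
# LOT-Two: closed walks with two steps

Write `c0 = (a, δ, d)`, `c1 = (b, δ', d')`, `w c = wt c.1 c.2.1`.

PLAN. Cases on `d`, `d'` (unfold `aing`, `aoutg`, split the pair equalities).
* `a = b`: `d = d'` would give a loop; `d = true`, `d' = false`: then `δ ≠ δ'` by `¬ aback`, and the weight is
  `wt a true + wt a false = 1` (`wt_sum`); in `two_closed` closing gives `δ = δ'`, contradiction. `d = false`,
  `d' = true`: the middle germs `(tl a, δ) = (tl a, δ')` give `δ = δ'`, contradiction to `¬ aback`.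
* `a ≠ b`, `d = true`, `d' = false`: `tl a = tl b` (closing), `hd a = hd b`, `sg a = sg b` (middle): a fold,
  contradiction. `d = false`, `d' = true`: `tl a = tl b`, `hd a = hd b`: `wt_par` gives `1/2 + 1/2`; in
  `two_closed` closing gives `sg a = sg b`, a fold.
* `d = d' = true`: `hd a = tl b`, `sg a = δ'` (middle), `hd b = tl a`: `Anti a b`, `Anti b a`; `wt b δ' = 1` (`wt_anti` for
  `Anti b a`), in `two_closed` also `δ = sg b`, so `wt a δ = 1`. `d = d' = false`: symmetric.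
-/

namespace Pool.Agent.LOT

open Finset

section
variable {V A : Type} [DecidableEq V] [DecidableEq A] {tl hd : A → V} {sg : A → Bool}

theorem two_steps (H : Hyp tl hd sg) (c0 c1 : A × Bool × Bool)
    (h01 : aoutg tl hd sg c0 = aing tl hd sg c1) (hb : ¬ aback c0 c1)
    (hcl : (aoutg tl hd sg c1).1 = (aing tl hd sg c0).1) :
    1 ≤ wt tl hd sg c0.1 c0.2.1 + wt tl hd sg c1.1 c1.2.1 := by
  obtain ⟨a, δ, d⟩ := c0
  obtain ⟨b, δ', d'⟩ := c1
  change 1 ≤ wt tl hd sg a δ + wt tl hd sg b δ'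
  cases d <;> cases d'
  · -- both backwards
    have e : (tl a, δ) = (hd b, sg b) := h01
    obtain ⟨e1, e2⟩ := Prod.mk.inj e
    have e3 : tl b = hd a := hcl
    have ha : Anti tl hd a b := ⟨e1, e3.symm⟩
    have w1 := wt_anti (sg := sg) H ha δ
    rw [if_pos e2] at w1
    have w2 := wt_nonneg (tl := tl) (hd := hd) (sg := sg) b δ'
    linarith
  · -- backwards, then forwards
    have e : (tl a, δ) = (tl b, δ') := h01
    obtain ⟨e1, e2⟩ := Prod.mk.inj e
    have e3 : hd b = hd a := hcl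
    by_cases hab : a = b
    · exact absurd ⟨hab, e2, Bool.false_ne_true⟩ hb
    · have w1 := wt_par (sg := sg) H hab e1 e3.symm δ
      have w2 := wt_par (sg := sg) H (Ne.symm hab) e1.symm e3 δ'
      rw [w1, w2]
      norm_num
  · -- forwards, then backwards
    have e : (hd a, sg a) = (hd b, sg b) := h01
    obtain ⟨e1, e2⟩ := Prod.mk.inj e
    have e3 : tl b = tl a := hcl
    have hab : a = b := H.fold a b e3.symm e1 e2
    subst hab
    have hne : δ ≠ δ' := fun hδ => hb ⟨rfl, hδ, Bool.false_ne_true.symm⟩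
    have w := wt_sum (tl := tl) (hd := hd) (sg := sg) a
    cases δ <;> cases δ'
    · exact absurd rfl hne
    · linarith
    · linarith
    · exact absurd rfl hne
  · -- both forwards
    have e : (hd a, sg a) = (tl b, δ') := h01
    obtain ⟨e1, e2⟩ := Prod.mk.inj e
    have e3 : hd b = tl a := hcl
    have ha : Anti tl hd b a := ⟨e1.symm, e3⟩
    have w1 := wt_anti (sg := sg) H ha δ'
    rw [if_pos e2.symm] at w1
    have w2 := wt_nonneg (tl := tl) (hd := hd) (sg := sg) a δ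
    linarith

theorem two_closed (H : Hyp tl hd sg) (c0 c1 : A × Bool × Bool)
    (h01 : aoutg tl hd sg c0 = aing tl hd sg c1) (hb : ¬ aback c0 c1)
    (hcl : aoutg tl hd sg c1 = aing tl hd sg c0) (hb' : ¬ aback c1 c0) :
    2 ≤ wt tl hd sg c0.1 c0.2.1 + wt tl hd sg c1.1 c1.2.1 := by
  obtain ⟨a, δ, d⟩ := c0
  obtain ⟨b, δ', d'⟩ := c1
  change 2 ≤ wt tl hd sg a δ + wt tl hd sg b δ'
  cases d <;> cases d'
  · have e : (tl a, δ) = (hd b, sg b) := h01
    obtain ⟨e1, e2⟩ := Prod.mk.inj e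
    have f : (tl b, δ') = (hd a, sg a) := hcl
    obtain ⟨f1, f2⟩ := Prod.mk.inj f
    have w1 := wt_anti (sg := sg) H (⟨e1, f1.symm⟩ : Anti tl hd a b) δ
    have w2 := wt_anti (sg := sg) H (⟨f1, e1.symm⟩ : Anti tl hd b a) δ'
    rw [if_pos e2] at w1
    rw [if_pos f2] at w2
    rw [w1, w2]
    norm_num
  · have e : (tl a, δ) = (tl b, δ') := h01
    obtain ⟨e1, e2⟩ := Prod.mk.inj e
    have f : (hd b, sg b) = (hd a, sg a) := hcl
    obtain ⟨f1, f2⟩ := Prod.mk.inj f
    exact absurd ⟨H.fold a b e1 f1.symm f2.symm, e2, Bool.false_ne_true⟩ hb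
  · have e : (hd a, sg a) = (hd b, sg b) := h01
    obtain ⟨e1, e2⟩ := Prod.mk.inj e
    have f : (tl b, δ') = (tl a, δ) := hcl
    obtain ⟨f1, f2⟩ := Prod.mk.inj f
    exact absurd ⟨H.fold a b f1.symm e1 e2, f2.symm, Bool.false_ne_true.symm⟩ hb
  · have e : (hd a, sg a) = (tl b, δ') := h01
    obtain ⟨e1, e2⟩ := Prod.mk.inj e
    have f : (hd b, sg b) = (tl a, δ) := hcl
    obtain ⟨f1, f2⟩ := Prod.mk.inj f
    have w1 := wt_anti (sg := sg) H (⟨f1.symm, e1⟩ : Anti tl hd a b) δ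
    have w2 := wt_anti (sg := sg) H (⟨e1.symm, f1⟩ : Anti tl hd b a) δ'
    rw [if_pos f2.symm] at w1
    rw [if_pos e2.symm] at w2
    rw [w1, w2]
    norm_num

end

end Pool.Agent.LOT
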