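import Pool.Agent.LOT.Defs

/-!
# LOT-Viol: a violation of sparsity in the label graph of a tree

PLAN. Take `S` with `S.card ≤ B`, `(vset S).card < S.card`. `U := vset S`, `F := S.image Prod.fst`. For `x ∈ F` there is
`(x, c) ∈ S`, `hd = lam x ∈ U`, `tl (x, c) ∈ {x.succ, f x}` lies in `U`. `S.card ≤ F.card + #{x ∈ F : (x, true), (x, false) ∈ S}`
(fibres of `Prod.fst` on `S` have at most two elements) and for those `x` both `x.succ` and `f x` are tails, hence in `U`.
-/

namespace Pool.Agent.LOT

open Finset

/-- `(U, F)` is a bad pair for the labelling `lam` of the tree `f` -/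
def BadPair {n : ℕ} (B : ℕ) (f : Fin n → Fin (n + 1)) (lam : Fin n → Fin (n + 1))
    (U : Finset (Fin (n + 1))) (F : Finset (Fin n)) : Prop :=
  F.card ≤ B ∧ U.card ≤ B ∧ (∀ x ∈ F, lam x ∈ U ∧ (x.succ ∈ U ∨ f x ∈ U)) ∧
    U.card + 1 ≤ F.card + (univ.filter (fun x => x.succ ∈ U ∧ f x ∈ U)).card

theorem violation {n B : ℕ} (f : Fin n → Fin (n + 1)) (o : Fin n → Bool)
    (lam : Fin n → Fin (n + 1))
    (h : ¬ Sparse (treeLOG f o lam).tl (treeLOG f o lam).hd B) :
    ∃ U F, BadPair B f lam U F := by
  unfold Sparse at h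
  push Not at h
  obtain ⟨S, hSB, hS⟩ := h
  have htl : ∀ a ∈ S, (treeLOG f o lam).tl a ∈
      vset (treeLOG f o lam).tl (treeLOG f o lam).hd S := fun a ha =>
    mem_union_left _ (mem_image_of_mem _ ha)
  have hhd : ∀ a ∈ S, (treeLOG f o lam).hd a ∈
      vset (treeLOG f o lam).tl (treeLOG f o lam).hd S := fun a ha =>
    mem_union_right _ (mem_image_of_mem _ ha)
  have hT : ∀ x : Fin n, (treeLOG f o lam).tl (x, true) = if o x then x.succ else f x :=
    fun x => rfl
  have hF : ∀ x : Fin n, (treeLOG f o lam).tl (x, false) = if o x then f x else x.succ :=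
    fun x => rfl
  have hL : ∀ (x : Fin n) (c : Bool), (treeLOG f o lam).hd (x, c) = lam x := fun x c => rfl
  refine ⟨vset (treeLOG f o lam).tl (treeLOG f o lam).hd S, S.image Prod.fst,
    le_trans card_image_le hSB, le_trans hS.le hSB, ?_, ?_⟩
  · intro x hx
    obtain ⟨⟨y, c⟩, hy, hyx⟩ := mem_image.mp hx
    obtain rfl : y = x := hyx
    refine ⟨by rw [← hL y c]; exact hhd _ hy, ?_⟩
    have h1 := htl _ hy
    cases c
    · rw [hF] at h1
      split_ifs at h1
      · exact Or.inr h1
      · exact Or.inl h1
    · rw [hT] at h1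
      split_ifs at h1
      · exact Or.inl h1
      · exact Or.inr h1
  · have hinj : ∀ c : Bool, ((S.filter (fun a => a.2 = c)).image Prod.fst).card
        = (S.filter (fun a => a.2 = c)).card := by
      intro c
      apply card_image_of_injOn
      intro a ha b hb hab
      have ha2 := (mem_filter.mp (mem_coe.mp ha)).2
      have hb2 := (mem_filter.mp (mem_coe.mp hb)).2
      exact Prod.ext hab (ha2.trans hb2.symm)
    have hsplit : S.card = (S.filter (fun a => a.2 = true)).card
        + (S.filter (fun a => a.2 = false)).card := by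
      rw [← card_filter_add_card_filter_not (s := S) (fun a => a.2 = true)]
      congr 2
      ext a
      simp
    have hui := card_union_add_card_inter ((S.filter (fun a => a.2 = true)).image Prod.fst)
      ((S.filter (fun a => a.2 = false)).image Prod.fst)
    have h1 : (((S.filter (fun a => a.2 = true)).image Prod.fst) ∪
        ((S.filter (fun a => a.2 = false)).image Prod.fst)).card ≤ (S.image Prod.fst).card := by
      apply card_le_card
      apply union_subset
      · exact image_subset_image (filter_subset _ _)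
      · exact image_subset_image (filter_subset _ _)
    have h2 : (((S.filter (fun a => a.2 = true)).image Prod.fst) ∩
        ((S.filter (fun a => a.2 = false)).image Prod.fst)).card ≤
        (univ.filter (fun x : Fin n =>
          x.succ ∈ vset (treeLOG f o lam).tl (treeLOG f o lam).hd S ∧
          f x ∈ vset (treeLOG f o lam).tl (treeLOG f o lam).hd S)).card := by
      apply card_le_card
      intro x hx
      obtain ⟨hx1, hx2⟩ := mem_inter.mp hx
      obtain ⟨⟨y, c⟩, hy, hyx⟩ := mem_image.mp hx1
      obtain rfl : y = x := hyx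
      obtain ⟨⟨z, c'⟩, hz, hzx⟩ := mem_image.mp hx2
      obtain rfl : z = y := hzx
      obtain ⟨hy1, hy2⟩ := mem_filter.mp hy
      obtain ⟨hz1, hz2⟩ := mem_filter.mp hz
      obtain rfl : c = true := hy2
      obtain rfl : c' = false := hz2
      have e1 := htl _ hy1
      have e2 := htl _ hz1
      rw [hT] at e1
      rw [hF] at e2
      refine mem_filter.mpr ⟨mem_univ _, ?_⟩
      split_ifs at e1 e2
      · exact ⟨e1, e2⟩
      · exact ⟨e2, e1⟩
    rw [hinj, hinj] at hui
    omega

end Pool.Agent.LOT
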