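import Pool.Agent.LOT.Ring

/-!
# LOT-Wt: values of the weights

PLAN. Unfold `wt` (`split_ifs`, or `dif_pos`/`dif_neg`). Uniqueness of the witnesses and exclusion of the other cases
come from `ring_eq`: e.g. for `Anti h h'`, the chosen `h''` satisfies `Anti h h''`; the rings `{h, h'}` and `{h, h''}` share
`h`, so they are equal and `h'' = h'` (`anti_ne`). For `Cyc h0 h h1`: an `Anti h h''` would give `{h, h''} = {h0, h, h1}`,
impossible by cardinalities (`cyc_ne`); for the chosen `h0', h1'`: `h0' ∈ {h0, h, h1}`, `h0' ≠ h`, and `h0' = h1` would give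
`hd h1 = tl h = hd h0`, `hd h1 = tl h0`, a loop. For `Tra h1 h h3` similarly (`h` middle; `h1`, `h3` are in none of the
three special positions): every coincidence gives a loop `tl x = hd x`.
`wt_special` is immediate from the definition.
-/

namespace Pool.Agent.LOT

open Finset

section
variable {V A : Type} {tl hd : A → V} {sg : A → Bool}

private theorem wt_default {h : A} (hA : ¬ ∃ h', Anti tl hd h h')
    (hC : ¬ ∃ h0, ∃ h1, Cyc tl hd h0 h h1) (hT : ¬ ∃ h1, ∃ h3, Tra tl hd sg h1 h h3) (δ : Bool) :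
    wt tl hd sg h δ = 1 / 2 := by
  unfold wt
  rw [dif_neg hA, dif_neg hC, dif_neg hT]

theorem wt_sum (h : A) : wt tl hd sg h true + wt tl hd sg h false = 1 := by
  by_cases hA : ∃ h', Anti tl hd h h'
  · unfold wt
    rw [dif_pos hA, dif_pos hA]
    cases sg hA.choose <;> norm_num
  · by_cases hC : ∃ h0, ∃ h1, Cyc tl hd h0 h h1
    · unfold wt
      rw [dif_neg hA, dif_neg hA, dif_pos hC, dif_pos hC]
      cases sg hC.choose <;> norm_num
    · by_cases hT : ∃ h1, ∃ h3, Tra tl hd sg h1 h h3
      · unfold wt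
        rw [dif_neg hA, dif_neg hA, dif_neg hC, dif_neg hC, dif_pos hT, dif_pos hT]
        cases sg hT.choose <;> norm_num
      · rw [wt_default hA hC hT, wt_default hA hC hT]
        norm_num

theorem wt_nonneg (h : A) (δ : Bool) : 0 ≤ wt tl hd sg h δ := by
  unfold wt
  split_ifs <;> norm_num

theorem wt_special (h : A) (δ : Bool) (hw : wt tl hd sg h δ ≠ 1 / 2) :
    (∃ h', Anti tl hd h h') ∨ (∃ h0 h1, Cyc tl hd h0 h h1) ∨ (∃ h1 h3, Tra tl hd sg h1 h h3) := by
  by_contra hc
  rw [not_or, not_or] at hc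
  exact hw (wt_default hc.1 hc.2.1 hc.2.2 δ)

variable [DecidableEq V] [DecidableEq A]

/-- an arc with a weight different from `1/2` lies in a ring -/
theorem wt_ring (H : Hyp tl hd sg) (h : A) (δ : Bool) (hw : wt tl hd sg h δ ≠ 1 / 2) :
    ∃ D, Ring tl hd D ∧ h ∈ D := by
  rcases wt_special h δ hw with ⟨h', ha⟩ | ⟨h0, h1, hc⟩ | ⟨h1, h3, ht⟩
  · exact ⟨_, ring_anti H ha, by simp⟩
  · exact ⟨_, ring_cyc H hc, by simp⟩
  · exact ⟨_, ring_tra H ht, by simp⟩

/-- a 2-ring and a 3-ring through a common arc do not coexist -/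
private theorem no_anti (H : Hyp tl hd sg) {a b c x y : A} (hR : Ring tl hd {a, b, c})
    (hab : a ≠ b) (hbc : b ≠ c) (hac : a ≠ c) (hx : x ∈ ({a, b, c} : Finset A))
    (hxy : Anti tl hd x y) : False := by
  have h1 := ring_eq H (ring_anti H hxy) hR x (by simp) hx
  have h2 : ({a, b, c} : Finset A).card = 3 := by
    rw [card_eq_three]
    exact ⟨a, b, c, hab, hac, hbc, rfl⟩
  have h3 : ({x, y} : Finset A).card ≤ 2 := card_le_two
  rw [h1, h2] at h3
  omega

theorem wt_anti (H : Hyp tl hd sg) {h h' : A} (ha : Anti tl hd h h') (δ : Bool) :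
    wt tl hd sg h δ = if δ = sg h' then 1 else 0 := by
  have hex : ∃ h', Anti tl hd h h' := ⟨h', ha⟩
  have hspec := hex.choose_spec
  have h1 := ring_eq H (ring_anti H hspec) (ring_anti H ha) h (by simp) (by simp)
  have h2 : hex.choose ∈ ({h, h'} : Finset A) := by rw [← h1]; simp
  have h3 : hex.choose = h' := by
    rw [mem_insert, mem_singleton] at h2
    rcases h2 with h2 | h2
    · exact absurd h2.symm (anti_ne H hspec)
    · exact h2
  unfold wt
  rw [dif_pos hex, h3]

theorem wt_cyc (H : Hyp tl hd sg) {h0 h h1 : A} (hc : Cyc tl hd h0 h h1) (δ : Bool) :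
    wt tl hd sg h δ = if δ = sg h0 then 2 / 3 else 1 / 3 := by
  obtain ⟨n1, n2, n3⟩ := cyc_ne H hc
  have hA : ¬ ∃ h', Anti tl hd h h' := by
    rintro ⟨y, hy⟩
    exact no_anti H (ring_cyc H hc) n1 n2 n3 (by simp) hy
  have hex : ∃ h0, ∃ h1, Cyc tl hd h0 h h1 := ⟨h0, h1, hc⟩
  obtain ⟨b, hb⟩ := hex.choose_spec
  have e1 := ring_eq H (ring_cyc H hb) (ring_cyc H hc) h (by simp) (by simp)
  have e2 : hex.choose ∈ ({h0, h, h1} : Finset A) := by rw [← e1]; simp
  have e3 : hex.choose = h0 := by
    simp only [mem_insert, mem_singleton] at e2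
    rcases e2 with e2 | e2 | e2
    · exact e2
    · exact absurd e2 (cyc_ne H hb).1
    · exfalso
      have l0 := H.loop h0
      obtain ⟨c1, c2, c3⟩ := hc
      have d1 := hb.1
      rw [e2] at d1
      exact l0 (by rw [c1, ← d1, c3])
  unfold wt
  rw [dif_neg hA, dif_pos hex, e3]

theorem wt_tra_mid (H : Hyp tl hd sg) {h1 h h3 : A} (hc : Tra tl hd sg h1 h h3) (δ : Bool) :
    wt tl hd sg h δ = if δ = sg h1 then 1 else 0 := by
  obtain ⟨n1, n2, n3⟩ := tra_ne H hc
  have l2 := H.loop h
  obtain ⟨c1, c2, c3, c4⟩ := id hc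
  have hA : ¬ ∃ h', Anti tl hd h h' := by
    rintro ⟨y, hy⟩
    exact no_anti H (ring_tra H hc) n1 n2 n3 (by simp) hy
  have hC : ¬ ∃ h0, ∃ h1, Cyc tl hd h0 h h1 := by
    rintro ⟨a, b, hab⟩
    have e1 := ring_eq H (ring_cyc H hab) (ring_tra H hc) h (by simp) (by simp)
    have e2 : a ∈ ({h1, h, h3} : Finset A) := by rw [← e1]; simp
    have e3 : b ∈ ({h1, h, h3} : Finset A) := by rw [← e1]; simp
    obtain ⟨m1, m2, m3⟩ := cyc_ne H hab
    obtain ⟨d1, d2, d3⟩ := hab
    have l3 := H.loop h3
    simp only [mem_insert, mem_singleton] at e2 e3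
    rcases e2 with e2 | e2 | e2
    · rcases e3 with e3 | e3 | e3
      · exact m3 (e2.trans e3.symm)
      · exact m2 e3.symm
      · rw [e3] at d2
        exact l3 (by rw [← d2, c3])
    · exact m1 e2
    · rw [e2] at d1
      exact l2 (by rw [← d1, c3])
  have hex : ∃ h1, ∃ h3, Tra tl hd sg h1 h h3 := ⟨h1, h3, hc⟩
  obtain ⟨b, hb⟩ := hex.choose_spec
  have e1 := ring_eq H (ring_tra H hb) (ring_tra H hc) h (by simp) (by simp)
  have e2 : hex.choose ∈ ({h1, h, h3} : Finset A) := by rw [← e1]; simp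
  have e3 : hex.choose = h1 := by
    simp only [mem_insert, mem_singleton] at e2
    rcases e2 with e2 | e2 | e2
    · exact e2
    · exact absurd e2 (tra_ne H hb).1
    · exfalso
      have d1 := hb.1
      rw [e2] at d1
      exact l2 (by rw [← d1, c3])
  unfold wt
  rw [dif_neg hA, dif_neg hC, dif_pos hex, e3]

theorem wt_tra_fst (H : Hyp tl hd sg) {h1 h h3 : A} (hc : Tra tl hd sg h1 h h3) (δ : Bool) :
    wt tl hd sg h1 δ = 1 / 2 := by
  obtain ⟨n1, n2, n3⟩ := tra_ne H hc
  have l1 := H.loop h1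
  have l3 := H.loop h3
  obtain ⟨c1, c2, c3, c4⟩ := id hc
  -- no arc of the ring ends at the tail of `h1`
  have key : ∀ a ∈ ({h1, h, h3} : Finset A), hd a = tl h1 → False := by
    intro a ha hh
    simp only [mem_insert, mem_singleton] at ha
    rcases ha with e | e | e
    · rw [e] at hh; exact l1 hh.symm
    · rw [e] at hh; exact l3 (by rw [← c2, ← hh, c3])
    · rw [e] at hh; exact l3 (by rw [← c2, ← hh])
  apply wt_default
  · rintro ⟨y, hy⟩
    exact no_anti H (ring_tra H hc) n1 n2 n3 (by simp) hy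
  · rintro ⟨a, b, hab⟩
    have e1 := ring_eq H (ring_cyc H hab) (ring_tra H hc) h1 (by simp) (by simp)
    exact key a (by rw [← e1]; simp) hab.1
  · rintro ⟨a, b, hab⟩
    have e1 := ring_eq H (ring_tra H hab) (ring_tra H hc) h1 (by simp) (by simp)
    exact key a (by rw [← e1]; simp) hab.1

theorem wt_tra_lst (H : Hyp tl hd sg) {h1 h h3 : A} (hc : Tra tl hd sg h1 h h3) (δ : Bool) :
    wt tl hd sg h3 δ = 1 / 2 := by
  obtain ⟨n1, n2, n3⟩ := tra_ne H hc
  have l1 := H.loop h1
  have l3 := H.loop h3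
  obtain ⟨c1, c2, c3, c4⟩ := id hc
  have key : ∀ a ∈ ({h1, h, h3} : Finset A), hd a = tl h3 → False := by
    intro a ha hh
    simp only [mem_insert, mem_singleton] at ha
    rcases ha with e | e | e
    · rw [e] at hh; exact l1 (by rw [hh, c2])
    · rw [e] at hh; exact l3 (by rw [← hh, c3])
    · rw [e] at hh; exact l3 hh.symm
  apply wt_default
  · rintro ⟨y, hy⟩
    exact no_anti H (ring_tra H hc) n1 n2 n3 (by simp) hy
  · rintro ⟨a, b, hab⟩
    have e1 := ring_eq H (ring_cyc H hab) (ring_tra H hc) h3 (by simp) (by simp)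
    exact key a (by rw [← e1]; simp) hab.1
  · rintro ⟨a, b, hab⟩
    have e1 := ring_eq H (ring_tra H hab) (ring_tra H hc) h3 (by simp) (by simp)
    exact key a (by rw [← e1]; simp) hab.1

omit [DecidableEq A] in
private theorem sparse_contra (H : Hyp tl hd sg) (S : Finset A) (T : Finset V) (hS : S.card ≤ 12)
    (hT : vset tl hd S ⊆ T) (h : T.card < S.card) : False := by
  have h1 := H.sparse S hS
  have h2 := card_le_card hT
  omega

/-- parallel arcs (same tail, same head) have default weights -/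
theorem wt_par (H : Hyp tl hd sg) {h h' : A} (hne : h ≠ h') (h1 : tl h = tl h') (h2 : hd h = hd h')
    (δ : Bool) : wt tl hd sg h δ = 1 / 2 := by
  have l := H.loop h
  have l' := H.loop h'
  apply wt_default
  · rintro ⟨y, hy1, hy2⟩
    have ly := H.loop y
    have d1 : y ≠ h := by rintro rfl; exact ly hy1
    have d2 : y ≠ h' := by rintro rfl; exact l (by rw [hy1, h2])
    refine sparse_contra H {y, h, h'} {tl h, hd h} ?_ ?_ ?_
    · exact le_trans card_le_three (by norm_num)
    · intro v hv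
      simp only [vset, mem_union, mem_image, mem_insert, mem_singleton] at hv ⊢
      rcases hv with ⟨a, ha | ha | ha, rfl⟩ | ⟨a, ha | ha | ha, rfl⟩
      · right; rw [ha, hy2]
      · left; rw [ha]
      · left; rw [ha, h1]
      · left; rw [ha, hy1]
      · right; rw [ha]
      · right; rw [ha, h2]
    · have e1 : ({y, h, h'} : Finset A).card = 3 := card_eq_three.mpr ⟨y, h, h', d1, d2, hne, rfl⟩
      have e2 : ({tl h, hd h} : Finset V).card ≤ 2 := card_le_two
      omega
  · rintro ⟨a, b, hab⟩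
    obtain ⟨m1, m2, m3⟩ := cyc_ne H hab
    obtain ⟨c1, c2, c3⟩ := hab
    have d1 : h' ≠ a := by rintro rfl; exact l (by rw [← c1, h2])
    have d2 : h' ≠ b := by rintro rfl; exact l (by rw [c2, h1])
    refine sparse_contra H {h', a, h, b} {tl h, hd h, tl a} ?_ ?_ ?_
    · exact le_trans card_le_four (by norm_num)
    · intro v hv
      simp only [vset, mem_union, mem_image, mem_insert, mem_singleton] at hv ⊢
      rcases hv with ⟨x, hx | hx | hx | hx, rfl⟩ | ⟨x, hx | hx | hx | hx, rfl⟩
      · left; rw [hx, h1]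
      · right; right; rw [hx]
      · left; rw [hx]
      · right; left; rw [hx, c2]
      · right; left; rw [hx, h2]
      · left; rw [hx, c1]
      · right; left; rw [hx]
      · right; right; rw [hx, c3]
    · have e1 : ({h', a, h, b} : Finset A).card = 4 := by
        rw [card_insert_of_notMem, card_eq_three.mpr ⟨a, h, b, m1, m3, m2, rfl⟩]
        simp only [mem_insert, mem_singleton, not_or]
        exact ⟨d1, hne.symm, d2⟩
      have e2 : ({tl h, hd h, tl a} : Finset V).card ≤ 3 := card_le_three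
      omega
  · rintro ⟨a, b, hab⟩
    obtain ⟨m1, m2, m3⟩ := tra_ne H hab
    obtain ⟨c1, c2, c3, c4⟩ := hab
    have la := H.loop a
    have d1 : h' ≠ a := by rintro rfl; exact l (by rw [← c1, h2])
    have d2 : h' ≠ b := by rintro rfl; exact la (by rw [c2, ← h1, c1])
    refine sparse_contra H {h', a, h, b} {tl h, hd h, tl a} ?_ ?_ ?_
    · exact le_trans card_le_four (by norm_num)
    · intro v hv
      simp only [vset, mem_union, mem_image, mem_insert, mem_singleton] at hv ⊢
      rcases hv with ⟨x, hx | hx | hx | hx, rfl⟩ | ⟨x, hx | hx | hx | hx, rfl⟩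
      · left; rw [hx, h1]
      · right; right; rw [hx]
      · left; rw [hx]
      · right; right; rw [hx, c2]
      · right; left; rw [hx, h2]
      · left; rw [hx, c1]
      · right; left; rw [hx]
      · right; left; rw [hx, c3]
    · have e1 : ({h', a, h, b} : Finset A).card = 4 := by
        rw [card_insert_of_notMem, card_eq_three.mpr ⟨a, h, b, m1, m3, m2, rfl⟩]
        simp only [mem_insert, mem_singleton, not_or]
        exact ⟨d1, hne.symm, d2⟩
      have e2 : ({tl h, hd h, tl a} : Finset V).card ≤ 3 := card_le_three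
      omega

/-- transitive triangle with different signs at the sink: default weights -/
theorem wt_tra_ne (H : Hyp tl hd sg) {h1 h h3 : A} (hc1 : hd h1 = tl h) (hc2 : tl h1 = tl h3)
    (hc3 : hd h3 = hd h) (hs : sg h3 ≠ sg h) (δ : Bool) :
    wt tl hd sg h1 δ = 1 / 2 ∧ wt tl hd sg h δ = 1 / 2 ∧ wt tl hd sg h3 δ = 1 / 2 := by
  have l1 := H.loop h1
  have l2 := H.loop h
  have l3 := H.loop h3
  have n1 : h1 ≠ h := by rintro rfl; exact l1 hc1.symm
  have n2 : h ≠ h3 := by rintro rfl; exact hs rfl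
  have n3 : h1 ≠ h3 := by rintro rfl; exact l2 (by rw [← hc1, hc3])
  have hCc : ({h1, h, h3} : Finset A).card = 3 := card_eq_three.mpr ⟨h1, h, h3, n1, n3, n2, rfl⟩
  have hv : (vset tl hd {h1, h, h3}).card ≤ ({h1, h, h3} : Finset A).card := by
    rw [hCc]
    have hsub : vset tl hd {h1, h, h3} ⊆ {tl h1, tl h, hd h} := by
      intro v hv
      simp only [vset, mem_union, mem_image, mem_insert, mem_singleton] at hv ⊢
      rcases hv with ⟨x, hx | hx | hx, rfl⟩ | ⟨x, hx | hx | hx, rfl⟩
      · left; rw [hx]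
      · right; left; rw [hx]
      · left; rw [hx, hc2]
      · right; left; rw [hx, hc1]
      · right; right; rw [hx]
      · right; right; rw [hx, hc3]
    exact le_trans (card_le_card hsub) card_le_three
  have hsubset : ∀ D : Finset A, Ring tl hd D → ∀ x ∈ D, x ∈ ({h1, h, h3} : Finset A) →
      D ⊆ {h1, h, h3} := by
    intro D hD x hx hx'
    exact ring_subset H (by rw [hCc]; norm_num) hv hD ⟨x, mem_inter.mpr ⟨hx', hx⟩⟩
  -- main claim
  have main : ∀ x ∈ ({h1, h, h3} : Finset A), wt tl hd sg x δ = 1 / 2 := by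
    intro x hx
    apply wt_default
    · rintro ⟨y, hy⟩
      have e1 := hsubset _ (ring_anti H hy) x (by simp) hx
      have e2 : y ∈ ({h1, h, h3} : Finset A) := e1 (by simp)
      have m1 := anti_ne H hy
      obtain ⟨a1, a2⟩ := hy
      simp only [mem_insert, mem_singleton] at hx e2
      rcases hx with rfl | rfl | rfl <;> rcases e2 with rfl | rfl | rfl <;> grind
    · rintro ⟨a, b, hab⟩
      have e1 := hsubset _ (ring_cyc H hab) x (by simp) hx
      have e2 : a ∈ ({h1, h, h3} : Finset A) := e1 (by simp)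
      have e3 : b ∈ ({h1, h, h3} : Finset A) := e1 (by simp)
      obtain ⟨m1, m2, m3⟩ := cyc_ne H hab
      obtain ⟨a1, a2, a3⟩ := hab
      simp only [mem_insert, mem_singleton] at hx e2 e3
      rcases hx with rfl | rfl | rfl <;> rcases e2 with rfl | rfl | rfl <;>
        rcases e3 with rfl | rfl | rfl <;> grind
    · rintro ⟨a, b, hab⟩
      have e1 := hsubset _ (ring_tra H hab) x (by simp) hx
      have e2 : a ∈ ({h1, h, h3} : Finset A) := e1 (by simp)
      have e3 : b ∈ ({h1, h, h3} : Finset A) := e1 (by simp)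
      obtain ⟨m1, m2, m3⟩ := tra_ne H hab
      obtain ⟨a1, a2, a3, a4⟩ := hab
      simp only [mem_insert, mem_singleton] at hx e2 e3
      rcases hx with rfl | rfl | rfl <;> rcases e2 with rfl | rfl | rfl <;>
        rcases e3 with rfl | rfl | rfl <;> grind
  exact ⟨main h1 (by simp), main h (by simp), main h3 (by simp)⟩

end

end Pool.Agent.LOT
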